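import Mathlib

/-! Operators on sequences and the integral power series that occur. -/

set_option autoImplicit false

namespace Pool.Agent.P.MP_e7a540_nt.L1

open PowerSeries Finset

/-- The number of square roots of `n` modulo `l`, minus one. -/
def chi (l n : ℕ) : ℤ := (((range l).filter fun x => x ^ 2 % l = n % l).card : ℤ) - 1

section ring

variable {R : Type} [CommRing R]

/-- The operator `T(l ^ 2)` in weight `r + 1 / 2`. -/
def hT (r l : ℕ) (c : ℕ → R) (n : ℕ) : R :=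
  c (l ^ 2 * n) + (l : R) ^ (r - 1) * (chi l n : R) * c n +
    if l ^ 2 ∣ n then (l : R) ^ (2 * r - 1) * c (n / l ^ 2) else 0

/-- The operator `T_l` in weight `w`. -/
def iT (w l : ℕ) (a : ℕ → R) (n : ℕ) : R :=
  a (l * n) + if l ∣ n then (l : R) ^ (w - 1) * a (n / l) else 0

/-- The lift of a sequence. -/
def sig (r : ℕ) (c : ℕ → R) (n : ℕ) : R := ∑ d ∈ n.divisors, (d : R) ^ (r - 1) * c ((n / d) ^ 2)

/-- The sequence of coefficients. -/
noncomputable def cf (P : R⟦X⟧) (n : ℕ) : R := coeff n P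

end ring

/-- Eigenvector of all `T_l`, `l` an odd prime. -/
def Eig (w : ℕ) (a : ℕ → ℂ) : Prop :=
  ∀ l : ℕ, l.Prime → l ≠ 2 → ∃ μ : ℂ, ∀ n, iT w l a n = μ * a n

/-- The sum of `X ^ (m ^ 2)` over the odd `m`. -/
noncomputable def dZ : ℤ⟦X⟧ := mk fun n => if Odd n ∧ IsSquare n then 1 else 0

/-- The sum of `X ^ n` over the triangular numbers. -/
noncomputable def triZ : ℤ⟦X⟧ := mk fun n => if IsSquare (8 * n + 1) then 1 else 0

noncomputable def bZ : ℤ⟦X⟧ := X * triZ ^ 8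

noncomputable def toC : ℤ⟦X⟧ →+* ℂ⟦X⟧ := PowerSeries.map (Int.castRingHom ℂ)

noncomputable def to2 : ℤ⟦X⟧ →+* (ZMod 2)⟦X⟧ := PowerSeries.map (Int.castRingHom (ZMod 2))

noncomputable def d2 : (ZMod 2)⟦X⟧ := to2 dZ

/-- Substitution of `X ^ 8`. -/
noncomputable def e8 {R : Type} [CommRing R] : R⟦X⟧ →ₐ[R] R⟦X⟧ := expand 8 (by norm_num)

/-- `T_l` modulo two. -/
noncomputable def T2 (l : ℕ) (h : (ZMod 2)⟦X⟧) : (ZMod 2)⟦X⟧ := mk (iT 1 l (cf h))

/-- The divisor sum `σ_(r-1)`. -/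
noncomputable def sg (r n : ℕ) : ℂ := (ArithmeticFunction.sigma (r - 1) n : ℂ)

/-- Coefficients of the Eisenstein series that vanishes at the cusp `0`. -/
noncomputable def ai (r : ℕ) (x : ℂ) (n : ℕ) : ℂ :=
  if n = 0 then x else sg r n - if 2 ∣ n then 2 ^ r * sg r (n / 2) else 0

/-- Coefficients of the Eisenstein series that vanishes at infinity. -/
noncomputable def a0 (r n : ℕ) : ℂ := sg r n - if 2 ∣ n then sg r (n / 2) else 0

/-- The term of the Dirichlet series over odd squares. -/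
noncomputable def Dt (r : ℕ) (c : ℕ → ℂ) (m : ℕ) : ℂ :=
  if Odd m then c (m ^ 2) / (m : ℂ) ^ (2 * r - 1) else 0

/-- The part of a sequence on odd indices. -/
noncomputable def od (a : ℕ → ℂ) (n : ℕ) : ℂ := if Odd n then a n else 0

theorem coeff_dZ (n : ℕ) : coeff n dZ = if Odd n ∧ IsSquare n then 1 else 0 := coeff_mk _ _

theorem odd_sq_mod {n : ℕ} (h : Odd n) (h' : IsSquare n) : n % 8 = 1 := by
  obtain ⟨m, rfl⟩ := h'
  obtain ⟨k, rfl⟩ := (Nat.odd_mul.1 h).1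
  obtain ⟨j, hj⟩ := Nat.even_mul_succ_self k
  have : (2 * k + 1) * (2 * k + 1) = 8 * j + 1 := by nlinarith
  omega

theorem dZ_eq : dZ = X * e8 triZ := by
  ext n
  rw [coeff_dZ]
  rcases n with _ | n
  · simp
  · rw [coeff_succ_X_mul, e8, coeff_expand]
    by_cases h : 8 ∣ n
    · obtain ⟨k, rfl⟩ := h
      simp [triZ, show Even 8 by decide]
    · rw [if_neg h, if_neg fun h' => h (by have := odd_sq_mod h'.1 h'.2; omega)]

theorem constantCoeff_triZ : constantCoeff triZ = 1 := by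
  rw [← coeff_zero_eq_constantCoeff_apply]; simp [triZ]

theorem coeff_toC (P : ℤ⟦X⟧) (n : ℕ) : coeff n (toC P) = ((coeff n P : ℤ) : ℂ) := coeff_map _ _ _

theorem coeff_to2 (P : ℤ⟦X⟧) (n : ℕ) : coeff n (to2 P) = ((coeff n P : ℤ) : ZMod 2) :=
  coeff_map _ _ _

theorem toC_e8 (P : ℤ⟦X⟧) : toC (e8 P) = e8 (toC P) := map_expand _ _ _ _

theorem to2_e8 (P : ℤ⟦X⟧) : to2 (e8 P) = e8 (to2 P) := map_expand _ _ _ _

theorem coeff_T2 (l n : ℕ) (h : (ZMod 2)⟦X⟧) :
    coeff n (T2 l h) = coeff (l * n) h + if l ∣ n then coeff (n / l) h else 0 := by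
  simp [T2, iT, cf]

end Pool.Agent.P.MP_e7a540_nt.L1
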