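import Pool.Agent.P.MP_e7a540_nt.L1.BaseA

/-! Modular forms on `Γ₀(2)` as plain functions, theta series, weights. -/

set_option autoImplicit false

namespace Pool.Agent.P.MP_e7a540_nt.L1

open UpperHalfPlane hiding I
open CongruenceSubgroup ModularGroup Complex MeasureTheory PowerSeries Finset Filter
open scoped MatrixGroups ModularForm Manifold ComplexConjugate Real Topology

abbrev SL := SL(2, ℤ)

noncomputable def ee (x : ℂ) : ℂ := cexp (2 * π * I * x)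

/-- The automorphy factor. -/
def dn (γ : SL) (τ : ℍ) : ℂ := (γ 1 0 : ℤ) * (τ : ℂ) + (γ 1 1 : ℤ)

/-- The slash operator. -/
noncomputable def sl (w : ℕ) (F : ℍ → ℂ) (γ : SL) (τ : ℍ) : ℂ := F (γ • τ) / dn γ τ ^ w

/-- The point `a τ + b`, `a > 0`. -/
noncomputable def af (a b : ℝ) (τ : ℍ) : ℍ := ofComplex (a * τ + b)

/-- The point `-1 / (2 τ)`. -/
noncomputable def Wz (τ : ℍ) : ℍ := S • af 2 0 τ

/-- The point `x + i y`, `y > 0`. -/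
noncomputable def pt (x y : ℝ) : ℍ := ofComplex (x + y * I)

def mk2 (a b c d : ℤ) (h : a * d - b * c = 1) : SL :=
  ⟨!![a, b; c, d], by rw [Matrix.det_fin_two_of, h]⟩

def g0 (n : ℤ) : SL := mk2 1 n 2 (2 * n + 1) (by ring)

def g1 (n : ℤ) : SL := mk2 (2 * n + 1) n 2 1 (by ring)

def lo (c : ℤ) : SL := mk2 1 0 c 1 (by ring)

/-- Representatives for `Γ₀(2 l M)` in `Γ₀(2)`, `M = 1` or `M = l`. -/
def rep (l M : ℕ) : Fin (l * M) ⊕ Fin M → SL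
  | .inl b => g0 ((l * M / 2 : ℕ) + 8 * (b : ℕ))
  | .inr j => lo (2 * l * (j : ℕ))

/-- A system of representatives. -/
def Reps {ι : Type} (N : ℕ) (γ : ι → SL) : Prop :=
  (∀ i, γ i ∈ Gamma0 2) ∧ ∀ g ∈ Gamma0 2, ∃! i, g * (γ i)⁻¹ ∈ Gamma0 (2 * N)

/-- Invariance in weight `w` under `Γ₀(N)`. -/
def Inv (N w : ℕ) (F : ℍ → ℂ) : Prop := ∀ γ ∈ Gamma0 N, ∀ τ, F (γ • τ) = dn γ τ ^ w * F τ

/-- Modular forms on `Γ₀(2)`. -/
structure MF (w : ℕ) (F : ℍ → ℂ) : Prop where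
  hol : MDiff F
  inv : Inv 2 w F
  bi : IsBoundedAtImInfty F
  bz : IsBoundedAtImInfty (sl w F S)

/-- Cusp forms on `Γ₀(2)`. -/
structure CF (w : ℕ) (F : ℍ → ℂ) : Prop where
  hol : MDiff F
  inv : Inv 2 w F
  zi : IsZeroAtImInfty F
  zz : IsZeroAtImInfty (sl w F S)

/-- Modular forms of level one. -/
structure MF1 (w : ℕ) (F : ℍ → ℂ) : Prop where
  hol : MDiff F
  inv : Inv 1 w F
  bi : IsBoundedAtImInfty F

/-- `P` is the expansion of `F` in powers of `e(τ / h)`. -/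
def QE (h : ℕ) (F : ℍ → ℂ) (P : ℂ⟦X⟧) : Prop :=
  ∀ τ : ℍ, HasSum (fun n : ℕ => coeff n P * ee (n * τ / h)) (F τ)

noncomputable def qe (F : ℍ → ℂ) : ℂ⟦X⟧ := qExpansion 1 F

/-- Half of the theta constant `θ₂`. -/
noncomputable def psi (τ : ℍ) : ℂ := ∑' m : ℕ, ee ((2 * m + 1) ^ 2 * τ / 8)

/-- Theta constants with real characteristics. -/
noncomputable def Kt (a b : ℝ) (τ : ℍ) (n : ℤ) : ℂ :=
  (-1) ^ n * ee ((n + 1 / 2 + a) ^ 2 * τ / 2 + (n + 1 / 2 + a / 2) * b)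

noncomputable def K (a b : ℝ) (τ : ℍ) : ℂ := ∑' n : ℤ, Kt a b τ n

/-- The average of `K` over the characteristics `(c, d) (1 / 2 + 2 x / l)`. -/
noncomputable def Kav (l : ℕ) (c d : ℤ) (τ : ℍ) : ℂ :=
  (l : ℂ)⁻¹ * ∑ x ∈ range l, K (c * (1 / 2 + 2 * x / l)) (d * (1 / 2 + 2 * x / l)) τ

/-- A normalised quadratic exponential sum. -/
noncomputable def gs (l h : ℕ) : ℂ := (l : ℂ)⁻¹ * ∑ y ∈ range l, ee (-(h * y ^ 2 / l))

/-- A form with integral expansion `1 + 2 (…)`. -/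
structure Un (w : ℕ) (A : ℍ → ℂ) (a : ℤ⟦X⟧) : Prop where
  mf : MF w A
  q : qe A = toC a
  c : constantCoeff a = 1
  two : to2 a = 1

noncomputable def Es (r : ℕ) : ℍ → ℂ := if h : 3 ≤ r then ModularForm.E h else 0

noncomputable def kap (r : ℕ) : ℂ := -(2 * r / bernoulli r)

noncomputable def Ei (r : ℕ) (τ : ℍ) : ℂ := (Es r τ - 2 ^ r * Es r (af 2 0 τ)) / kap r

noncomputable def E0 (r : ℕ) (τ : ℍ) : ℂ := (Es r τ - Es r (af 2 0 τ)) / kap r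

/-- The coefficients of `ψ F`. -/
noncomputable def cs (F : ℍ → ℂ) : ℕ → ℂ := cf (toC dZ * e8 (qe F))

/-- `ψ F` at `N τ`, divided by `ψ`. -/
noncomputable def Ph (N : ℕ) (F : ℍ → ℂ) (τ : ℍ) : ℂ := psi (af N 0 τ) * F (af N 0 τ) / psi τ

noncomputable def hOp (r l : ℕ) (F : ℍ → ℂ) (τ : ℍ) : ℂ :=
  (l : ℂ) ^ (2 * r - 1) * ∑ i, sl r (Ph (l * l) F) (rep l l i) τ

noncomputable def iOp (w l : ℕ) (y : ℍ → ℂ) (τ : ℍ) : ℂ :=
  (l : ℂ) ^ (w - 1) * ∑ i, sl w (fun z => y (af l 0 z)) (rep l 1 i) τ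

/-- The same operators without matrices; `g = ψ F`. -/
noncomputable def hSum (r l : ℕ) (g : ℍ → ℂ) (τ : ℍ) : ℂ :=
  (l : ℂ) ^ (2 * r - 1) * g (af (l * l : ℕ) 0 τ) +
    (l : ℂ) ^ (r - 1) * ∑ h ∈ Ico 1 l, gs l h * g (af 1 (8 * h / l) τ) +
    ((l : ℂ) ^ 2)⁻¹ * ∑ b ∈ range (l * l), g (af ((l * l : ℕ) : ℝ)⁻¹ (8 * b / (l * l : ℕ)) τ)

noncomputable def iSum (w l : ℕ) (y : ℍ → ℂ) (τ : ℍ) : ℂ :=
  (l : ℂ) ^ (w - 1) * y (af l 0 τ) + (l : ℂ)⁻¹ * ∑ b ∈ range l, y (af (l : ℝ)⁻¹ (8 * b / l) τ)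

/-- A weight for the group `Γ`. -/
structure Wt (Γ : Subgroup SL) (φ : ℍ → ℝ) : Prop where
  meas : Measurable φ
  pos : ∀ z, 0 ≤ φ z
  int : Integrable φ
  sum : ∀ z, HasSum (fun γ : Γ => φ ((γ : SL) • z)) 1

noncomputable def uH (r : ℕ) (z : ℍ) : ℝ := √z.im * z.im ^ r * ‖psi z‖ ^ 2

noncomputable def uI (w : ℕ) (z : ℍ) : ℝ := z.im ^ w

noncomputable def ip (φ u : ℍ → ℝ) (F G : ℍ → ℂ) : ℂ := ∫ z, φ z * (u z * (F z * conj (G z)))

/-- Continuous functions that are bounded for the weight `u`. -/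
def Bd (u : ℍ → ℝ) (F : ℍ → ℂ) : Prop := Continuous F ∧ ∃ C, ∀ z, u z * ‖F z‖ ^ 2 ≤ C

/-- The average over a horizontal segment. -/
noncomputable def avg (W : ℍ → ℂ) (y : ℝ) : ℂ := ∫ x in (0 : ℝ)..1, W (pt x y)

section basic

variable {w w' N h : ℕ} {F G : ℍ → ℂ} {γ δ : SL} {τ : ℍ} {P Q : ℂ⟦X⟧}

lemma ee_add (x y : ℂ) : ee (x + y) = ee x * ee y := by rw [ee, mul_add, Complex.exp_add]; rfl

@[simp] lemma ee_zero : ee 0 = 1 := by simp [ee]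

lemma ee_ne (x : ℂ) : ee x ≠ 0 := Complex.exp_ne_zero _

lemma ee_int (n : ℤ) : ee n = 1 := by rw [ee, mul_comm]; exact exp_int_mul_two_pi_mul_I n

lemma ee_nat_mul (n : ℕ) (x : ℂ) : ee (n * x) = ee x ^ n := by
  rw [ee, ee, ← Complex.exp_nat_mul]; congr 1; ring

/-- Arguments that differ by an integer. -/
lemma ee_congr {x y : ℂ} (n : ℤ) (h : x = y + n) : ee x = ee y := by
  rw [h, ee_add, ee_int, mul_one]

lemma norm_ee (x : ℂ) : ‖ee x‖ = Real.exp (-(2 * π * x.im)) := by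
  rw [ee, Complex.norm_exp]; congr 1; simp

lemma ee_half : ee (1 / 2) = -1 := by
  rw [ee, ← exp_pi_mul_I]; congr 1; ring

lemma ee_quarter : ee (1 / 4) = I := by
  rw [ee, show 2 * π * I * (1 / 4 : ℂ) = π / 2 * I by ring]; exact exp_pi_div_two_mul_I

lemma dn_eq (γ : SL) (τ : ℍ) : dn γ τ = denom γ τ := by simp [dn, denom]

lemma dn_ne (γ : SL) (τ : ℍ) : dn γ τ ≠ 0 := dn_eq γ τ ▸ denom_ne_zero _ τ

lemma coe_smul' (γ : SL) (τ : ℍ) :
    ((γ • τ : ℍ) : ℂ) = ((γ 0 0 : ℤ) * (τ : ℂ) + (γ 0 1 : ℤ)) / dn γ τ := by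
  rw [coe_specialLinearGroup_apply]; simp [dn]

lemma im_smul' (γ : SL) (τ : ℍ) : (γ • τ).im = τ.im / ‖dn γ τ‖ ^ 2 := by
  rw [ModularGroup.im_smul_eq_div_normSq, dn_eq, Complex.normSq_eq_norm_sq]

lemma dn_mul (γ δ : SL) (τ : ℍ) : dn (γ * δ) τ = dn γ (δ • τ) * dn δ τ := by
  have := dn_ne δ τ
  rw [dn, dn, coe_smul']
  field_simp
  simp [dn, Matrix.mul_apply, Fin.sum_univ_two]
  ring

@[simp] lemma dn_one (τ : ℍ) : dn 1 τ = 1 := by simp [dn]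

@[simp] lemma dn_S (τ : ℍ) : dn S τ = τ := by simp [dn, S]

@[simp] lemma dn_T (τ : ℍ) : dn T τ = 1 := by simp [dn, T]

lemma coe_S_smul (τ : ℍ) : ((S • τ : ℍ) : ℂ) = -1 / τ := by rw [coe_smul', dn_S]; simp [S]

lemma coe_T_smul (τ : ℍ) : ((T • τ : ℍ) : ℂ) = τ + 1 := by rw [coe_smul', dn_T]; simp [T]

lemma sl_eq (w : ℕ) (F : ℍ → ℂ) (γ : SL) : sl w F γ = F ∣[(w : ℤ)] γ := by
  funext τ
  rw [ModularForm.SL_slash_apply, sl, dn_eq, zpow_neg, zpow_natCast, div_eq_mul_inv]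

lemma sl_mul (w : ℕ) (F : ℍ → ℂ) (γ δ : SL) : sl w F (γ * δ) = sl w (sl w F γ) δ := by
  simp only [sl_eq, SlashAction.slash_mul]

lemma inv_iff : Inv N w F ↔ ∀ γ ∈ Gamma0 N, sl w F γ = F :=
  forall₂_congr fun γ _ => by
    simp only [funext_iff, sl, div_eq_iff (pow_ne_zero w (dn_ne γ _)), mul_comm]

lemma mem_G0 : γ ∈ Gamma0 N ↔ (N : ℤ) ∣ γ 1 0 := by
  rw [Gamma0_mem, ZMod.intCast_zmod_eq_zero_iff_dvd]

lemma T_mem (N : ℕ) : T ∈ Gamma0 N := mem_G0.2 (by simp [T])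

@[simp] lemma mk2_00 (a b c d h) : mk2 a b c d h 0 0 = a := rfl
@[simp] lemma mk2_01 (a b c d h) : mk2 a b c d h 0 1 = b := rfl
@[simp] lemma mk2_10 (a b c d h) : mk2 a b c d h 1 0 = c := rfl
@[simp] lemma mk2_11 (a b c d h) : mk2 a b c d h 1 1 = d := rfl

lemma det_SL (γ : SL) : γ 0 0 * γ 1 1 - γ 0 1 * γ 1 0 = 1 := by
  rw [← Matrix.det_fin_two]; exact γ.det_coe

lemma coe_af {a : ℝ} (ha : 0 < a) (b : ℝ) (τ : ℍ) : (af a b τ : ℂ) = a * τ + b := by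
  rw [af, ofComplex_apply_of_im_pos (by simpa using mul_pos ha τ.im_pos)]

lemma im_af {a : ℝ} (ha : 0 < a) (b : ℝ) (τ : ℍ) : (af a b τ).im = a * τ.im := by
  rw [← coe_im, coe_af ha]; simp

lemma coe_pt (x : ℝ) {y : ℝ} (hy : 0 < y) : (pt x y : ℂ) = x + y * I := by
  rw [pt, ofComplex_apply_of_im_pos (by simpa using hy)]

lemma im_pt (x : ℝ) {y : ℝ} (hy : 0 < y) : (pt x y).im = y := by
  rw [← coe_im, coe_pt x hy]; simp

lemma coe_Wz (τ : ℍ) : (Wz τ : ℂ) = -1 / (2 * τ) := by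
  rw [Wz, coe_S_smul, coe_af two_pos]; simp

lemma af_af {a a' : ℝ} (ha' : 0 < a') (b b' : ℝ) (τ : ℍ) :
    af a b (af a' b' τ) = af (a * a') (a * b' + b) τ := by
  rw [af, coe_af ha', af]; congr 1; push_cast; ring

@[simp] lemma af_one (τ : ℍ) : af 1 0 τ = τ := by simp [af]

lemma mdiff_af {a : ℝ} (ha : 0 < a) (b : ℝ) (hF : MDiff F) : MDiff fun τ => F (af a b τ) := by
  rw [mdifferentiable_iff] at hF ⊢
  refine (hF.comp (f := fun z : ℂ => (a : ℂ) * z + b) (by fun_prop) fun z hz => ?_).congr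
    fun z hz => ?_
  · simpa using mul_pos ha hz
  · simp [af, ofComplex_apply_of_im_pos hz]

lemma continuous_af {a : ℝ} (ha : 0 < a) (b : ℝ) : Continuous (af a b) :=
  isEmbedding_coe.continuous_iff.2 (by
    have : ((↑) : ℍ → ℂ) ∘ af a b = fun τ : ℍ => (a : ℂ) * τ + b := funext (coe_af ha b)
    rw [this]; fun_prop)

lemma tendsto_af {a : ℝ} (ha : 0 < a) (b : ℝ) : Tendsto (af a b) atImInfty atImInfty := by
  rw [atImInfty, tendsto_comap_iff]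
  have : UpperHalfPlane.im ∘ af a b = fun τ : ℍ => a * τ.im := funext (im_af ha b)
  rw [this]
  exact tendsto_comap.const_mul_atTop ha

lemma sl_add (w : ℕ) (F G : ℍ → ℂ) (γ : SL) : sl w (F + G) γ = sl w F γ + sl w G γ := by
  funext τ; simp [sl, add_div]

lemma sl_smul (w : ℕ) (c : ℂ) (F : ℍ → ℂ) (γ : SL) : sl w (c • F) γ = c • sl w F γ := by
  funext τ; simp [sl, mul_div_assoc]

lemma sl_mul_fun (w w' : ℕ) (F G : ℍ → ℂ) (γ : SL) :
    sl (w + w') (F * G) γ = sl w F γ * sl w' G γ := by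
  funext τ; simp [sl, pow_add, mul_div_mul_comm]

lemma Inv.add (h : Inv N w F) (h' : Inv N w G) : Inv N w (F + G) := fun γ hγ τ => by
  simp only [Pi.add_apply, h γ hγ, h' γ hγ, mul_add]

lemma Inv.smul (c : ℂ) (h : Inv N w F) : Inv N w (c • F) := fun γ hγ τ => by
  simp only [Pi.smul_apply, h γ hγ, smul_eq_mul, mul_left_comm]

lemma Inv.mul (h : Inv N w F) (h' : Inv N w' G) : Inv N (w + w') (F * G) := fun γ hγ τ => by
  simp only [Pi.mul_apply, h γ hγ, h' γ hγ]; ring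

lemma Inv.mono {M : ℕ} (h : Inv N w F) (hM : N ∣ M) : Inv M w F := fun γ hγ =>
  h γ (mem_G0.2 ((Int.natCast_dvd_natCast.2 hM).trans (mem_G0.1 hγ)))

lemma MF.add (h : MF w F) (h' : MF w G) : MF w (F + G) :=
  ⟨h.hol.add h'.hol, h.inv.add h'.inv, h.bi.add h'.bi, sl_add w F G S ▸ h.bz.add h'.bz⟩

lemma MF.smul (c : ℂ) (h : MF w F) : MF w (c • F) :=
  ⟨h.hol.const_smul c, h.inv.smul c, h.bi.smul c, sl_smul w c F S ▸ h.bz.smul c⟩

lemma MF.mul (h : MF w F) (h' : MF w' G) : MF (w + w') (F * G) :=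
  ⟨h.hol.mul h'.hol, h.inv.mul h'.inv, h.bi.mul h'.bi, sl_mul_fun w w' F G S ▸ h.bz.mul h'.bz⟩

lemma mf_one : MF 0 1 :=
  ⟨mdifferentiable_const, fun _ _ _ => by simp, const_boundedAtFilter _ _, by
    rw [show sl 0 1 S = 1 from funext fun _ => by simp [sl]]; exact const_boundedAtFilter _ _⟩

lemma MF.pow (h : MF w F) (k : ℕ) : MF (k * w) (F ^ k) := by
  induction k with
  | zero => simpa using mf_one
  | succ k ih => rw [pow_succ, add_mul, one_mul]; exact ih.mul h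

lemma cf_zero : CF w 0 :=
  ⟨mdifferentiable_const, fun _ _ _ => by simp, zero_zeroAtFilter _, by
    rw [show sl w 0 S = 0 from funext fun _ => by simp [sl]]; exact zero_zeroAtFilter _⟩

lemma CF.mf (h : CF w F) : MF w F :=
  ⟨h.hol, h.inv, h.zi.isBoundedAtImInfty, h.zz.isBoundedAtImInfty⟩

lemma zero_mul_bdd (h : IsZeroAtImInfty F) (h' : IsBoundedAtImInfty G) :
    IsZeroAtImInfty (F * G) := ZeroAtFilter.mul_boundedAtFilter h h'

lemma CF.add (h : CF w F) (h' : CF w G) : CF w (F + G) :=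
  ⟨h.hol.add h'.hol, h.inv.add h'.inv, h.zi.add h'.zi, sl_add w F G S ▸ h.zz.add h'.zz⟩

lemma CF.smul (c : ℂ) (h : CF w F) : CF w (c • F) :=
  ⟨h.hol.const_smul c, h.inv.smul c, h.zi.smul c, sl_smul w c F S ▸ h.zz.smul c⟩

lemma CF.mul (h : CF w F) (h' : MF w' G) : CF (w + w') (F * G) :=
  ⟨h.hol.mul h'.hol, h.inv.mul h'.inv, zero_mul_bdd h.zi h'.bi,
    sl_mul_fun w w' F G S ▸ zero_mul_bdd h.zz h'.bz⟩

/-- A form that vanishes at infinity times a form that vanishes at zero. -/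
lemma MF.mul_cf (h : MF w F) (h' : MF w' G) (z : IsZeroAtImInfty F)
    (z' : IsZeroAtImInfty (sl w' G S)) : CF (w + w') (F * G) :=
  ⟨h.hol.mul h'.hol, h.inv.mul h'.inv, zero_mul_bdd z h'.bi,
    sl_mul_fun w w' F G S ▸ mul_comm (sl w' G S) _ ▸ zero_mul_bdd z' h.bz⟩

lemma MF1.mf (h : MF1 w F) : MF w F :=
  ⟨h.hol, h.inv.mono (one_dvd 2), h.bi, (inv_iff.1 h.inv S (mem_G0.2 (one_dvd _))).symm ▸ h.bi⟩

end basic

/-- The forms of weight `r` that vanish at the cusp `0`. -/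
def V (r : ℕ) : Submodule ℂ (ℍ → ℂ) where
  carrier := {F | MF r F ∧ IsZeroAtImInfty (sl r F S)}
  add_mem' := fun h h' => ⟨h.1.add h'.1, sl_add r _ _ S ▸ h.2.add h'.2⟩
  zero_mem' := ⟨cf_zero.mf, cf_zero.zz⟩
  smul_mem' := fun c _ h => ⟨h.1.smul c, sl_smul r c _ S ▸ h.2.smul c⟩

/-- The cusp forms of weight `2 r` that are fixed by the Fricke involution. -/
def Y (r : ℕ) : Submodule ℂ (ℍ → ℂ) where
  carrier := {y | CF (2 * r) y ∧ ∀ τ, y (Wz τ) = 2 ^ r * (τ : ℂ) ^ (2 * r) * y τ}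
  add_mem' := fun h h' => ⟨h.1.add h'.1, fun τ => by simp [h.2, h'.2, mul_add]⟩
  zero_mem' := ⟨cf_zero, by simp⟩
  smul_mem' := fun c _ h => ⟨h.1.smul c, fun τ => by simp [h.2, mul_left_comm]⟩

end Pool.Agent.P.MP_e7a540_nt.L1
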