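import Pool.Agent.P.MP_e7a540_nt.L1.BaseB

/-! Expansions at infinity, bundled forms, inner products. -/

set_option autoImplicit false

namespace Pool.Agent.P.MP_e7a540_nt.L1

open UpperHalfPlane hiding I
open CongruenceSubgroup ModularGroup Complex MeasureTheory PowerSeries Finset Filter
open scoped MatrixGroups ModularForm Manifold ComplexConjugate Real Topology

variable {w w' N h : ℕ} {F G : ℍ → ℂ} {γ δ : SL} {τ : ℍ} {P Q : ℂ⟦X⟧}

lemma qParam_pow (h n : ℕ) (z : ℂ) :
    Function.Periodic.qParam (h : ℝ) z ^ n = ee (n * z / h) := by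
  rw [mul_div_assoc, ee_nat_mul, Function.Periodic.qParam, ee, mul_div_assoc]; rfl

lemma qe_iff : QE h F P ↔ ∀ τ : ℍ,
    HasSum (fun n : ℕ => coeff n P • Function.Periodic.qParam (h : ℝ) τ ^ n) (F τ) := by
  simp only [QE, qParam_pow, smul_eq_mul]

lemma QE.summable (H : QE h F P) (τ : ℍ) :
    Summable fun n : ℕ => ‖coeff n P * ee (n * τ / h)‖ := (H τ).summable.norm

lemma QE.add (H : QE h F P) (H' : QE h G Q) : QE h (F + G) (P + Q) := fun τ => by
  simpa only [map_add, add_mul] using! (H τ).add (H' τ)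

lemma QE.smul (c : ℂ) (H : QE h F P) : QE h (c • F) (c • P) := fun τ => by
  simpa only [coeff_smul, smul_eq_mul, mul_assoc] using! (H τ).mul_left c

lemma QE.mul (H : QE h F P) (H' : QE h G Q) : QE h (F * G) (P * Q) := fun τ => by
  have := (summable_norm_sum_mul_antidiagonal_of_summable_norm (H.summable τ)
    (H'.summable τ)).of_norm.hasSum
  rw [← tsum_mul_tsum_eq_tsum_sum_antidiagonal_of_summable_norm (H.summable τ) (H'.summable τ),
    (H τ).tsum_eq, (H' τ).tsum_eq] at this
  convert! this using 2 with n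
  rw [coeff_mul, sum_mul]
  refine sum_congr rfl fun x hx => ?_
  rw [← mem_antidiagonal.1 hx, Nat.cast_add, add_mul, add_div, ee_add]; ring

lemma qe_one (h : ℕ) : QE h 1 1 := fun τ => by
  convert hasSum_single (f := fun n : ℕ => coeff n (1 : ℂ⟦X⟧) * ee (n * τ / h)) 0
    fun n hn => by simp [coeff_one, hn] using 1
  simp

lemma QE.pow (H : QE h F P) (k : ℕ) : QE h (F ^ k) (P ^ k) := by
  induction k with
  | zero => simpa using qe_one h
  | succ k ih => rw [pow_succ, pow_succ]; exact ih.mul H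

/-- Change of the parameter. -/
lemma qe_e8 : QE 8 F (e8 P) ↔ QE 1 F P := forall_congr' fun τ => by
  rw [← (mul_right_injective₀ (show (8 : ℕ) ≠ 0 by norm_num)).hasSum_iff fun n hn => by
    rw [e8, coeff_expand, if_neg fun ⟨k, hk⟩ => hn ⟨k, hk.symm⟩, zero_mul]]
  refine iff_of_eq (congrArg (HasSum · _) (funext fun n => ?_))
  simp only [Function.comp, e8, coeff_expand_mul]
  congr 2; push_cast; ring

lemma periodic_of (H : ∀ τ, F (af 1 h τ) = F τ) :
    Function.Periodic (F ∘ ofComplex) ((h : ℝ) : ℂ) := fun z => by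
  by_cases hz : 0 < z.im
  · simpa [af, ofComplex_apply_of_im_pos hz] using H ⟨z, hz⟩
  · exact congrArg F (ofComplex_apply_eq_of_im_nonpos (by simpa using hz) (not_lt.1 hz))

lemma QE.shift (H : QE h F P) (hh : h ≠ 0) (τ : ℍ) : F (af 1 h τ) = F τ := by
  refine (H _).unique (by
    convert H τ using 3 with n
    refine ee_congr n ?_
    have : (h : ℂ) ≠ 0 := Nat.cast_ne_zero.2 hh
    rw [coe_af one_pos]; push_cast; field_simp)

lemma QE.hol (H : QE h F P) (hh : h ≠ 0) : MDiff F := by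
  have h0 : (0 : ℝ) < h := Nat.cast_pos.2 (Nat.pos_of_ne_zero hh)
  rw [qe_iff] at H
  set p := FormalMultilinearSeries.ofScalars ℂ fun n => coeff n P
  have hr : 1 ≤ p.radius := le_of_forall_lt_imp_le_of_dense fun r hr => by
    rcases eq_or_ne r 0 with rfl | hr'
    · simp
    lift r to NNReal using hr.ne_top
    have hr1 : ‖((r : ℝ) : ℂ)‖ < 1 := by simpa using hr
    have hr0 : ((r : ℝ) : ℂ) ≠ 0 := by simpa using hr'
    apply FormalMultilinearSeries.le_radius_of_summable
    have := (H ⟨_, Function.Periodic.im_invQParam_pos_of_norm_lt_one h0 hr1 hr0⟩).summable.norm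
    rw [coe_mk, Function.Periodic.qParam_right_inv h0.ne' hr0] at this
    simpa [p, norm_mul] using this
  have hp := p.hasFPowerSeriesOnBall (one_pos.trans_le hr)
  have hm : ∀ z : ℂ, 0 < z.im → Function.Periodic.qParam h z ∈ Metric.eball (0 : ℂ) p.radius :=
    fun z hz => by
      rw [mem_eball_zero_iff]
      refine lt_of_lt_of_le ?_ hr
      rw [← ofReal_norm, ENNReal.ofReal_lt_one]
      exact Function.Periodic.norm_qParam_lt_one h0 hz
  rw [mdifferentiable_iff]
  refine (hp.differentiableOn.comp (f := Function.Periodic.qParam h)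
    (Function.Periodic.differentiable_qParam.differentiableOn) hm).congr fun z hz => ?_
  have := hp.hasSum (hm z hz)
  simp only [p, FormalMultilinearSeries.ofScalars_apply_eq, zero_add] at this
  rw [Function.comp, ofComplex_apply_of_im_pos hz]
  exact (H ⟨z, hz⟩).unique this

lemma QE.bdd (H : QE h F P) (hh : h ≠ 0) : IsBoundedAtImInfty F :=
  isBoundedAtImInfty_of_hasSum_qExpansion (Nat.cast_pos.2 (Nat.pos_of_ne_zero hh)) (qe_iff.1 H)

lemma QE.unique (H : QE h F P) (H' : QE h F Q) (hh : h ≠ 0) : P = Q := by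
  have h0 : (0 : ℝ) < h := Nat.cast_pos.2 (Nat.pos_of_ne_zero hh)
  have ha := analyticAt_cuspFunction_zero h0 (periodic_of (H.shift hh)) (H.hol hh) (H.bdd hh)
  ext n
  simpa using congrArg (FormalMultilinearSeries.coeff · n)
    ((hasFPowerSeriesOnBall_cuspFunction h0 ha (qe_iff.1 H)).hasFPowerSeriesAt.eq_formalMultilinearSeries
      (hasFPowerSeriesOnBall_cuspFunction h0 ha (qe_iff.1 H')).hasFPowerSeriesAt)

/-- A bounded periodic holomorphic function has an expansion. -/
lemma qe_of_shift (hh : h ≠ 0) (hF : MDiff F) (H : ∀ τ, F (af 1 h τ) = F τ)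
    (hb : IsBoundedAtImInfty F) : QE h F (qExpansion h F) :=
  qe_iff.2 (hasSum_qExpansion (Nat.cast_pos.2 (Nat.pos_of_ne_zero hh)) (periodic_of H) hF hb)

lemma QE.eq (H : QE h F P) (hh : h ≠ 0) : qExpansion h F = P :=
  (qe_of_shift hh (H.hol hh) (H.shift hh) (H.bdd hh)).unique H hh

lemma QE.qe (H : QE 1 F P) : qe F = P := by simpa using! H.eq one_ne_zero

lemma QE.tendsto (H : QE h F P) (hh : h ≠ 0) : Tendsto F atImInfty (𝓝 (constantCoeff P)) := by
  have h0 : (0 : ℝ) < h := Nat.cast_pos.2 (Nat.pos_of_ne_zero hh)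
  have hp := periodic_of (H.shift hh)
  have ha := analyticAt_cuspFunction_zero h0 hp (H.hol hh) (H.bdd hh)
  have := ha.continuousAt.tendsto.comp (qParam_tendsto_atImInfty h0)
  rw [cuspFunction_apply_zero h0 ha hp, ← qExpansion_coeff_zero h0 ha hp, H.eq hh,
    coeff_zero_eq_constantCoeff_apply] at this
  exact this.congr fun τ => eq_cuspFunction τ h0.ne' hp

lemma QE.zero_iff (H : QE h F P) (hh : h ≠ 0) : IsZeroAtImInfty F ↔ constantCoeff P = 0 :=
  ⟨fun z => tendsto_nhds_unique (H.tendsto hh) z, fun z => by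
    have := H.tendsto hh
    rwa [z] at this⟩

lemma T_smul_eq (τ : ℍ) : T • τ = af 1 1 τ :=
  UpperHalfPlane.ext (by rw [coe_T_smul, coe_af one_pos]; simp)

lemma Inv.shift (H : Inv N w F) (τ : ℍ) : F (af 1 1 τ) = F τ := by
  rw [← T_smul_eq, H T (T_mem N)]; simp

lemma MF.qe (H : MF w F) : QE 1 F (qe F) := by
  simpa using! qe_of_shift one_ne_zero H.hol (by simpa using H.inv.shift) H.bi

lemma MF.qe_add (H : MF w F) (H' : MF w' G) : L1.qe (F + G) = L1.qe F + L1.qe G :=
  (H.qe.add H'.qe).qe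

lemma MF.qe_smul (c : ℂ) (H : MF w F) : L1.qe (c • F) = c • L1.qe F := (H.qe.smul c).qe

lemma MF.qe_mul (H : MF w F) (H' : MF w' G) : L1.qe (F * G) = L1.qe F * L1.qe G :=
  (H.qe.mul H'.qe).qe

lemma MF.qe_pow (H : MF w F) (k : ℕ) : L1.qe (F ^ k) = L1.qe F ^ k := (H.qe.pow k).qe

lemma QE.ext (H : QE h F P) (H' : QE h G P) : F = G := funext fun τ => (H τ).unique (H' τ)

lemma MF.ext (H : MF w F) (H' : MF w' G) (e : L1.qe F = L1.qe G) : F = G := H.qe.ext (e ▸ H'.qe)

lemma CF.qe_zero (H : CF w F) : constantCoeff (qe F) = 0 :=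
  (H.mf.qe.zero_iff one_ne_zero).1 H.zi

/-- Division by a power of the parameter. -/
lemma QE.div_pow {m : ℕ} (H : QE h F (X ^ m * P)) :
    QE h (fun τ => F τ / ee (m * τ / h)) P := fun τ => by
  have := ((hasSum_nat_add_iff' m).2 (H τ)).div_const (ee (m * τ / h))
  rw [sum_eq_zero fun i hi => by
    rw [coeff_X_pow_mul', if_neg (not_le.2 (mem_range.1 hi)), zero_mul], sub_zero] at this
  convert! this using 2 with n
  rw [coeff_X_pow_mul, Nat.cast_add, add_mul, add_div, ee_add, ← mul_assoc,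
    mul_div_cancel_right₀ _ (ee_ne _)]

/-- Vanishing of the first coefficients gives exponential decay. -/
lemma QE.decay {m : ℕ} (H : QE h F P) (hh : h ≠ 0) (hm : ∀ n < m, coeff n P = 0) :
    F =O[atImInfty] fun τ => Real.exp (-(2 * π * (m / h) * τ.im)) := by
  obtain ⟨Q, rfl⟩ := X_pow_dvd_iff.2 hm
  have := Asymptotics.IsBigO.mul (H.div_pow.bdd hh)
    (Asymptotics.isBigO_refl (fun τ : ℍ => ee (m * τ / h)) atImInfty).norm_right
  refine this.congr (fun τ => div_mul_cancel₀ _ (ee_ne _)) fun τ => ?_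
  rw [norm_ee, Pi.one_apply, one_mul]
  congr 2
  simp [div_natCast_im]
  ring

/-- The map `z ↦ g₀ (N z)`; for odd `N` it normalises `Γ₀(2 N)`. -/
noncomputable def om (N : ℕ) (z : ℍ) : ℍ := g0 (N / 2 : ℕ) • af N 0 z

def strip : Set ℍ := {z | 0 ≤ z.re ∧ z.re < 1}

/-- The product over the three cosets of `Γ₀(2)`. -/
noncomputable def nr (w : ℕ) (F : ℍ → ℂ) : ℍ → ℂ := F * sl w F S * sl w F (S * T)

end Pool.Agent.P.MP_e7a540_nt.L1
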