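import Pool.Agent.P.MP_e7a540_nt.L1.BaseA

/-! Statements on sequences. -/

set_option autoImplicit false

namespace Pool.Agent.P.MP_e7a540_nt.L1

open PowerSeries Finset

-- deps: A2 A4 PB STR IT B2
-- imports: Pool.Agent.P.MP_e7a540_nt.L1.IfaceB
def S_INT : Prop := ∀ l j : ℕ, l.Prime → l ≠ 2 →
  T2 l (d2 ^ j) ∈ Submodule.span (ZMod 2) {x | ∃ i, i ≤ j + 1 ∧ x = d2 ^ i}

-- deps:
def S_B2 : Prop := to2 bZ = d2 ∧ e8 d2 = d2 ^ 8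

-- deps: INT
def S_TOP : Prop := ∀ (s : Finset ℕ), s.Nonempty →
  ∃ i j, coeff 1 ((T2 3)^[2 * i] ((T2 5)^[2 * j] (∑ k ∈ s, d2 ^ (8 * k + 1)))) = 1

-- deps: B2 TOP
def S_SOC : Prop := ∀ (r J : ℕ) (a : ℤ⟦X⟧) (m : ℕ → ℕ) (t : ℕ → ℂ), to2 a = 1 →
  (∀ i j, (hT r 3)^[i] ((hT r 5)^[j]
    (cf (toC dZ * e8 (∑ k ∈ range J, t k • toC (a ^ m k * bZ ^ k))))) 1 = 0) → ∀ k < J, t k = 0

-- deps:
def S_HR : Prop := ∀ (w : ℕ) (a : ℕ → ℂ), Eig w a → ∀ e n : ℕ, Odd e →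
  a e * a n = a 1 * ∑ d ∈ (n.gcd e).divisors, (d : ℂ) ^ (w - 1) * a (n * e / d ^ 2)

-- deps:
def S_SH : Prop := ∀ (r l : ℕ) (c : ℕ → ℂ) (n : ℕ), l.Prime → l ≠ 2 → n ≠ 0 →
  sig r (hT r l c) n = iT (2 * r) l (sig r c) n

-- deps: HR
def S_SEL : Prop := ∀ (r : ℕ) (x : ℂ) (n : ℕ), 1 ≤ r → Odd n →
  sig r (cf (toC dZ * e8 (mk (ai r x)))) n = coeff n (mk (a0 r) * mk (ai r x))

-- deps:
def S_SV : Prop := ∀ (r : ℕ) (U : Set (ℕ → ℂ)), 1 ≤ r →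
  (∀ c ∈ U, ∀ l : ℕ, l.Prime → l ≠ 2 → hT r l c ∈ U) →
  (∀ c ∈ U, Summable (fun m => ‖Dt r c m‖) ∧ ∑' m, Dt r c m = 0) → ∀ c ∈ U, c 1 = 0

-- deps: HR
def S_DIR : Prop := ∀ (r : ℕ) (a : ℕ → ℂ) (C : ℝ) (s : ℂ), 1 ≤ r → Eig (2 * r) a →
  (∀ n, ‖a n‖ ≤ C * (n : ℝ) ^ r) → 2 * r + 2 < s.re →
  a 1 * LSeries (fun n => a n * a0 r n) s * LSeries (od fun d => (d : ℂ) ^ (3 * r - 2)) (2 * s) =
    LSeries a (s - r + 1) * LSeries (od a) s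

end Pool.Agent.P.MP_e7a540_nt.L1
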