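import Pool.Agent.P.MP_e7a540_nt.L1.BaseC
import Pool.Agent.P.MP_e7a540_nt.L1.IfaceA

/-! Statements on forms, theta series and inner products. -/

set_option autoImplicit false

namespace Pool.Agent.P.MP_e7a540_nt.L1

open UpperHalfPlane hiding I
open CongruenceSubgroup ModularGroup Complex MeasureTheory PowerSeries Finset Filter
open scoped MatrixGroups ModularForm Manifold ComplexConjugate Real Topology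

-- redeps: TOP

-- deps:
def S_FORM : Prop := ∀ (w : ℕ) (F : ℍ → ℂ),
  (MF w F ↔ ∃ f : ModularForm (Gamma0 2) w, ⇑f = F) ∧
  (CF w F ↔ ∃ f : CuspForm (Gamma0 2) w, ⇑f = F) ∧
  (MF1 w F ↔ ∃ f : ModularForm 𝒮ℒ w, ⇑f = F) ∧
  ∀ f : CuspForm (Gamma0 1) w, MF1 w f ∧ IsZeroAtImInfty f

-- deps:
def S_KS : Prop := ∀ τ : ℍ, ∃ J : ℂ, J ^ 8 = (τ : ℂ) ^ 4 ∧
  ∀ a b : ℝ, K a b (S • τ) = J * K b (-a) τ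

-- deps: KS
def S_KT : Prop := ∀ (γ : SL) (τ : ℍ), ∃ J : ℂ, J ^ 8 = dn γ τ ^ 4 ∧ ∀ a b : ℝ,
  K a b (γ • τ) = J * K (a * (γ 0 0 : ℤ) + b * (γ 1 0 : ℤ)) (a * (γ 0 1 : ℤ) + b * (γ 1 1 : ℤ)) τ

-- deps:
def S_KG : Prop := ∀ (c d : ℤ) (τ : ℍ), 2 ∣ c → Odd d →
  K (c / 2) (d / 2) τ = 2 * ee (d / 4 + c * d / 8) * psi τ

-- deps:
def S_KA : Prop := ∀ (l : ℕ) (c d : ℤ) (τ : ℍ), Odd l → ((2 * (l * l) : ℕ) : ℤ) ∣ c → Odd d →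
  IsCoprime (l : ℤ) d → Kav l c d τ = 2 * ee (d / 4 + c * d / 8) * psi (af (l * l : ℕ) 0 τ)

-- deps:
def S_KB : Prop := ∀ (l j h : ℕ) (τ : ℍ), Odd l → (l : ℤ) ∣ 16 * j * h - 1 →
  Kav l (2 * l * j) 1 τ = 2 * ee (1 / 4 + l * j / 4) * gs l h * psi (af 1 (8 * h / l) τ)

-- deps:
def S_KC : Prop := ∀ (l : ℕ) (τ : ℍ), Odd l →
  Kav l 2 (l * l) τ = -(2 / l) * psi (af ((l * l : ℕ) : ℝ)⁻¹ 0 τ)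

-- deps: KT KG KA KB KC PA
def S_RHO : Prop := ∀ (l : ℕ) (τ : ℍ), Odd l →
  (∀ γ ∈ Gamma0 (2 * (l * l)),
    psi (af (l * l : ℕ) 0 (γ • τ)) * psi τ = psi (γ • τ) * psi (af (l * l : ℕ) 0 τ)) ∧
  (∀ j h : ℕ, (l : ℤ) ∣ 16 * j * h - 1 → psi (af (l * l : ℕ) 0 (lo (2 * l * j) • τ)) * psi τ =
    gs l h * psi (lo (2 * l * j) • τ) * psi (af 1 (8 * h / l) τ)) ∧
  ∀ b : ℕ, psi (af (l * l : ℕ) 0 (g0 ((l * l / 2 : ℕ) + 8 * b) • τ)) * psi τ = (l : ℂ)⁻¹ *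
    psi (g0 ((l * l / 2 : ℕ) + 8 * b) • τ) * psi (af ((l * l : ℕ) : ℝ)⁻¹ (8 * b / (l * l : ℕ)) τ)

-- deps:
def S_PA : Prop := QE 8 psi (toC dZ) ∧ QE 1 (fun τ => psi τ / ee (τ / 8)) (toC triZ) ∧
  QE 1 (psi ^ 8) (toC bZ)

-- deps: KT KG PA
def S_PB : Prop := MF 4 (psi ^ 8) ∧ Tendsto (sl 4 (psi ^ 8) S) atImInfty (𝓝 (1 / 256)) ∧
  ∀ γ ∈ Gamma0 2, ∀ τ, ‖psi (γ • τ)‖ ^ 2 = ‖dn γ τ‖ * ‖psi τ‖ ^ 2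

-- deps: FORM
def S_ST : Prop := ∀ (w : ℕ) (P : ℍ → ℂ) (a : ℝ), MDiff P → sl w P S = P → sl w P T = P →
  (w : ℝ) < 12 * a → (P =O[atImInfty] fun τ => Real.exp (-(2 * π * a * τ.im))) → P = 0

-- deps:
def S_NR : Prop := ∀ (w : ℕ) (F : ℍ → ℂ), MF w F → MDiff (nr w F) ∧
  sl (3 * w) (nr w F) S = nr w F ∧ sl (3 * w) (nr w F) T = nr w F ∧ (nr w F = 0 → F = 0) ∧
  ∀ τ, nr w F τ = F τ * sl w F S τ * sl w F S (af 1 1 τ)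

-- deps: ST NR
def S_STM : Prop := (∀ (w : ℕ) (F : ℍ → ℂ), MF w F → (∀ n ≤ w / 4, coeff n (qe F) = 0) → F = 0) ∧
  ∀ (r : ℕ) (y : ℍ → ℂ), y ∈ Y r → (∀ n ≤ r / 4, coeff n (qe y) = 0) → y = 0

-- deps: FORM ST NR PA PB
def S_PN : Prop := ∀ τ, psi τ ≠ 0

-- deps:
def S_A2 : Prop := ∃ A a, Un 2 A a

-- deps: STM PA PB
def S_STR : Prop := ∀ (w : ℕ) (F A : ℍ → ℂ) (a : ℤ⟦X⟧), Even w → MF w F → Un 2 A a →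
  ∃ t : ℕ → ℂ, qe F = ∑ k ∈ range (w / 4 + 1), t k • toC (a ^ (w / 2 - 2 * k) * bZ ^ k)

-- deps: A2 STR SOC
def S_SOV : Prop := ∀ (r : ℕ) (F : ℍ → ℂ), Even r → MF r F →
  (∀ i j, (hT r 3)^[i] ((hT r 5)^[j] (cs F)) 1 = 0) → F = 0

-- deps:
def S_D2 : Prop := ∀ (w : ℕ) (f : ℍ → ℂ), MF1 w f → MF w (fun τ => f (af 2 0 τ)) ∧
  (∀ n, coeff n (qe fun τ => f (af 2 0 τ)) = if 2 ∣ n then coeff (n / 2) (qe f) else 0) ∧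
  (∀ τ, sl w (fun τ => f (af 2 0 τ)) S τ = ((2 : ℂ) ^ w)⁻¹ * f (af 2⁻¹ 0 τ)) ∧
  (∀ τ, f (Wz τ) = (2 * τ : ℂ) ^ w * f (af 2 0 τ)) ∧ ∀ τ, f (af 2 0 (Wz τ)) = (τ : ℂ) ^ w * f τ

-- deps: FORM D2
def S_EI : Prop := ∀ r : ℕ, Even r → 4 ≤ r → kap r ≠ 0 ∧ Ei r ∈ V r ∧
  qe (Ei r) = mk (ai r ((1 - 2 ^ r) / kap r)) ∧ MF r (E0 r) ∧ qe (E0 r) = mk (a0 r) ∧
  E0 r * Ei r ∈ Y r

-- deps: STM A2 EI PA PB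
def S_DIMV : Prop := ∀ r : ℕ, Even r → 4 ≤ r →
  FiniteDimensional ℂ (V r) ∧ r / 4 ≤ Module.finrank ℂ (V r)

-- deps: STM
def S_DIMY : Prop := ∀ r : ℕ, FiniteDimensional ℂ (Y r) ∧ Module.finrank ℂ (Y r) ≤ r / 4

-- deps: FORM
def S_CB : Prop := (∀ (w : ℕ) (y : ℍ → ℂ), CF w y → Bd (uI w) y) ∧
  (∀ (w : ℕ) (y : ℍ → ℂ), 1 ≤ w → MDiff y → Inv 2 w y → Bd (uI w) y → CF w y) ∧
  ∀ (r : ℕ) (y : ℍ → ℂ), CF (2 * r) y → ∃ C : ℝ, ∀ n, ‖cf (qe y) n‖ ≤ C * (n : ℝ) ^ r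

-- deps:
def S_CO : Prop := ∀ (h : ℕ) (g : ℍ → ℂ) (P : ℂ⟦X⟧) (t C : ℝ), h ≠ 0 → QE h g P →
  (∀ τ, ‖g τ‖ ≤ C / τ.im ^ t) → ∃ D : ℝ, ∀ n : ℕ, 1 ≤ n → ‖coeff n P‖ ≤ D * (n : ℝ) ^ t

-- deps: PA PB CB
def S_VB : Prop := ∀ (r : ℕ) (F : ℍ → ℂ), F ∈ V r → Bd (uH r) F ∧
  (∃ C : ℝ, ∀ z, ‖(uH r z : ℂ) * F z‖ ^ 2 ≤ C * z.im ^ r) ∧
  IsBoundedAtImInfty fun z => (uH r z : ℂ) * F z

-- deps: PA VB CO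
def S_VS : Prop := ∀ (r : ℕ) (F : ℍ → ℂ), 3 ≤ r → F ∈ V r → Summable fun m => ‖Dt r (cs F) m‖

-- deps: PA PB PN
def S_VM : Prop := ∀ (r : ℕ) (G : ℍ → ℂ) (P : ℂ⟦X⟧), MDiff G → Inv 2 r G → QE 8 (psi * G) P →
  (∃ C, ∀ z, uH r z * ‖G z‖ ^ 2 ≤ C) → G ∈ V r ∧ cs G = cf P

-- deps:
def S_REP : Prop := ∀ l M : ℕ, l.Prime → l ≠ 2 → M = 1 ∨ M = l → Reps (l * M) (rep l M)

-- deps:
def S_TR : Prop := ∀ (ι : Type) [Fintype ι] (N w : ℕ) (γ : ι → SL) (Φ : ℍ → ℂ), Reps N γ →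
  Inv (2 * N) w Φ → Inv 2 w fun τ => ∑ i, sl w Φ (γ i) τ

-- deps:
def S_SL : Prop := ∀ (N w : ℕ) (F : ℍ → ℂ), Odd N → Inv 2 w F →
  Inv (2 * N) w (fun z => F (af N 0 z)) ∧
  (∀ (b : ℕ) (τ : ℍ), sl w (fun z => F (af N 0 z)) (g0 ((N / 2 : ℕ) + 8 * b)) τ =
    ((N : ℂ) ^ w)⁻¹ * F (af (N : ℝ)⁻¹ (8 * b / N) τ)) ∧
  ∀ (l j h : ℕ) (τ : ℍ), N = l * l → (l : ℤ) ∣ 16 * j * h - 1 →
    sl w (fun z => F (af N 0 z)) (lo (2 * l * j)) τ = ((l : ℂ) ^ w)⁻¹ * F (af 1 (8 * h / l) τ)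

-- deps: RHO SL PN
def S_HI : Prop := ∀ (r l : ℕ) (F : ℍ → ℂ), 1 ≤ r → l.Prime → l ≠ 2 → Inv 2 r F →
  Inv (2 * (l * l)) r (Ph (l * l) F) ∧ ∀ τ, psi τ * hOp r l F τ = hSum r l (psi * F) τ

-- deps:
def S_HQ : Prop := ∀ (r l : ℕ) (g : ℍ → ℂ) (P : ℂ⟦X⟧), l ≠ 0 → QE 8 g P →
  QE 8 (hSum r l g) (mk (hT r l (cf P)))

-- deps:
def S_IQ : Prop := ∀ (w l : ℕ) (y : ℍ → ℂ) (P : ℂ⟦X⟧), Odd l → QE 1 y P →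
  QE 1 (iSum w l y) (mk (iT w l (cf P)))

-- deps: HI HQ TR REP VB VM PA PN
def S_HT : Prop := ∀ (r l : ℕ) (F : ℍ → ℂ), 1 ≤ r → l.Prime → l ≠ 2 → F ∈ V r →
  hOp r l F ∈ V r ∧ cs (hOp r l F) = hT r l (cs F)

-- deps:
def S_IW : Prop := ∀ (r l : ℕ) (y : ℍ → ℂ), 1 ≤ r → l.Prime → l ≠ 2 → y ∈ Y r →
  ∀ τ, iSum (2 * r) l y (Wz τ) = 2 ^ r * (τ : ℂ) ^ (2 * r) * iSum (2 * r) l y τ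

-- deps: SL IQ TR REP CB IW
def S_IT : Prop := ∀ (r l : ℕ) (y : ℍ → ℂ), 1 ≤ r → l.Prime → l ≠ 2 → y ∈ Y r →
  iOp (2 * r) l y ∈ Y r ∧ cf (qe (iOp (2 * r) l y)) = iT (2 * r) l (cf (qe y))

-- deps:
def S_VOL : Prop := (volume : Measure ℍ) fd < ⊤

-- deps:
def S_AW : Prop := ∀ (ι : Type) [Fintype ι] (Γ Γ' : Subgroup SL) (γ : ι → SL) (φ : ℍ → ℝ),
  Γ' ≤ Γ → (∀ i, γ i ∈ Γ) → (∀ g ∈ Γ, ∃! i, g * (γ i)⁻¹ ∈ Γ') → Wt Γ φ →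
  Wt Γ' fun z => ∑ i, φ ((γ i)⁻¹ • z)

-- deps: VOL AW
def S_WT : Prop := ∃ φ, Wt (Gamma0 2) φ

-- deps:
def S_UNF : Prop := ∀ (Γ : Subgroup SL) (φ : ℍ → ℝ), Wt Γ φ →
  (∀ w : ℍ → ℂ, Integrable w → ∫ z, φ z * ∑' γ : Γ, w ((γ : SL) • z) = ∫ z, w z) ∧
  ∀ (φ' : ℍ → ℝ) (Ψ : ℍ → ℂ) (C : ℝ), Wt Γ φ' → Continuous Ψ → (∀ z, ‖Ψ z‖ ≤ C) →
    (∀ γ ∈ Γ, ∀ z, Ψ (γ • z) = Ψ z) → ∫ z, φ z * Ψ z = ∫ z, φ' z * Ψ z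

-- deps:
def S_OM : Prop := ∀ N : ℕ, Odd N →
  (∃ e : Gamma0 (2 * N) ≃ Gamma0 (2 * N), ∀ (δ : Gamma0 (2 * N)) (z : ℍ),
    om N ((δ : SL) • z) = (e δ : SL) • om N z) ∧
  Continuous (om N) ∧ ∃ E : ℍ ≃ᵐ ℍ, ⇑E = om N ∧ MeasurePreserving E

-- deps: AW UNF OM
def S_ADJ : Prop := ∀ (ι : Type) [Fintype ι] (N : ℕ) (γ : ι → SL) (φ : ℍ → ℝ) (Ψ : ℍ → ℂ) (C : ℝ),
  Odd N → Reps N γ → Wt (Gamma0 2) φ → Continuous Ψ → (∀ z, ‖Ψ z‖ ≤ C) →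
  (∀ δ ∈ Gamma0 (2 * N), ∀ z, Ψ (δ • z) = Ψ z) →
  ∫ z, φ z * ∑ i, Ψ (γ i • z) = ∫ z, φ z * ∑ i, Ψ (om N (γ i • z))

-- deps: ADJ
def S_SA : Prop := ∀ (ι : Type) [Fintype ι] (N w : ℕ) (γ : ι → SL) (φ u : ℍ → ℝ)
  (F G Φ Φ' : ℍ → ℂ), Odd N → Reps N γ → Wt (Gamma0 2) φ → Continuous u → (∀ z, 0 ≤ u z) →
  (∀ g ∈ Gamma0 2, ∀ z, u (g • z) * ‖dn g z‖ ^ (2 * w) = u z) → Inv 2 w F → Inv 2 w G →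
  Inv (2 * N) w Φ → Bd u Φ → Bd u G →
  (∀ z, (u (om N z) : ℂ) * (Φ (om N z) * conj (G (om N z))) = u z * (F z * conj (Φ' z))) →
  ip φ u (fun τ => ∑ i, sl w Φ (γ i) τ) G = ip φ u F fun τ => ∑ i, sl w Φ' (γ i) τ

-- deps: SA REP HI RHO SL VB PA PB PN
def S_HSA : Prop := ∀ (r l : ℕ) (φ : ℍ → ℝ) (F G : ℍ → ℂ), 1 ≤ r → l.Prime → l ≠ 2 →
  Wt (Gamma0 2) φ → F ∈ V r → G ∈ V r →
  ip φ (uH r) (hOp r l F) G = ip φ (uH r) F (hOp r l G)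

-- deps: SA REP SL CB
def S_ISA : Prop := ∀ (w l : ℕ) (φ : ℍ → ℝ) (y z : ℍ → ℂ), l.Prime → l ≠ 2 →
  Wt (Gamma0 2) φ → CF w y → CF w z → ip φ (uI w) (iOp w l y) z = ip φ (uI w) y (iOp w l z)

-- deps:
def S_IP : Prop := ∀ (Γ : Subgroup SL) (φ u : ℍ → ℝ), Wt Γ φ → Continuous u → (∀ z, 0 ≤ u z) →
  (∀ F F' G, Bd u F → Bd u F' → Bd u G → ip φ u (F + F') G = ip φ u F G + ip φ u F' G) ∧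
  (∀ (c : ℂ) F G, ip φ u (c • F) G = c * ip φ u F G) ∧ ∀ F G, ip φ u G F = conj (ip φ u F G)

-- deps: CB
def S_POS : Prop := ∀ (w : ℕ) (φ : ℍ → ℝ) (y : ℍ → ℂ), Wt (Gamma0 2) φ → CF w y →
  ip φ (uI w) y y = 0 → y = 0

-- deps: EI
def S_EH1 : Prop := ∀ r : ℕ, Even r → 4 ≤ r → ∃ c : ℂ, c ≠ 0 ∧ ∀ z : ℍ,
  HasSum (fun p : {p : ℤ × ℤ // IsCoprime p.1 p.2 ∧ 2 ∣ p.1} =>
    (((p.1.1 : ℂ) * z + p.1.2) ^ r)⁻¹) (c * Ei r z)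

-- deps: EH1
def S_EH : Prop := ∀ r : ℕ, Even r → 4 ≤ r → ∃ c : ℂ, c ≠ 0 ∧ ∀ z : ℍ,
  HasSum (fun γ : Gamma0 2 => strip.indicator 1 ((γ : SL) • z) * (dn γ z ^ r)⁻¹) (c * Ei r z)

-- deps:
def S_STRIP : Prop := ∀ (W : ℍ → ℂ) (g : ℝ → ℝ), Continuous W → (∀ z, ‖W z‖ ≤ g z.im) →
  IntegrableOn (fun y => g y / y ^ 2) (Set.Ioi 0) → Integrable (strip.indicator W) ∧
    ∫ z, strip.indicator W z = ∫ y in Set.Ioi (0 : ℝ), avg W y / y ^ 2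

-- deps: UNF EH STRIP
def S_UE : Prop := ∀ (r : ℕ) (φ : ℍ → ℝ) (W : ℍ → ℂ), Even r → 4 ≤ r → Wt (Gamma0 2) φ →
  Continuous W → (∀ γ ∈ Gamma0 2, ∀ z, W (γ • z) * conj (dn γ z) ^ r = W z) →
  (∃ C : ℝ, ∀ z, ‖W z‖ ^ 2 ≤ C * z.im ^ r) → IsBoundedAtImInfty W →
  (∫ z, φ z * (W z * conj (Ei r z)) = 0 ↔ ∫ y in Set.Ioi (0 : ℝ), avg W y / y ^ 2 = 0)

-- deps:
def S_PAR : Prop := ∀ (F G : ℍ → ℂ) (P Q : ℂ⟦X⟧) (y : ℝ), QE 1 F P → QE 1 G Q → 0 < y →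
  HasSum (fun n : ℕ => coeff n P * conj (coeff n Q) * Real.exp (-(4 * π * n * y)))
    (avg (fun z => F z * conj (G z)) y)

-- deps: PAR PA
def S_HA : Prop := ∀ (r : ℕ) (F : ℍ → ℂ) (y : ℝ), MF r F → 0 < y →
  HasSum (fun m : ℕ => (if Odd m then cs F (m ^ 2) else 0) * Real.exp (-(π * m ^ 2 / 2) * y))
    (avg (fun z => (‖psi z‖ ^ 2 : ℝ) * F z) y)

-- deps: UE VB VS HA PA PB
def S_HD : Prop := ∀ (r : ℕ) (φ : ℍ → ℝ) (F : ℍ → ℂ), Even r → 4 ≤ r → Wt (Gamma0 2) φ →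
  F ∈ V r → ip φ (uH r) F (Ei r) = 0 → ∑' m, Dt r (cs F) m = 0

-- deps:
def S_ME1 : Prop := ∀ (r : ℕ) (b : ℕ → ℂ) (A : ℝ → ℂ) (C D : ℝ), b 0 = 0 →
  (∀ n, ‖b n‖ ≤ C * (n : ℝ) ^ (2 * r)) →
  (∀ v, 0 < v → HasSum (fun n : ℕ => b n * Real.exp (-(4 * π * n * v))) (A v)) →
  (∀ v, 0 < v → ‖A v‖ ^ 2 * v ^ (3 * r) ≤ D) →
  DifferentiableOn ℂ (mellin A) {s | 3 * (r : ℝ) / 2 < s.re} ∧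
    ∀ s : ℂ, 2 * r + 2 < s.re → mellin A s = Gamma s * (4 * π) ^ (-s) * LSeries b s

-- deps: DIR
def S_ME2 : Prop := ∀ (r : ℕ) (a : ℕ → ℂ) (C : ℝ) (M L : ℂ → ℂ), 4 ≤ r → Eig (2 * r) a →
  (∀ n, ‖a n‖ ≤ C * (n : ℝ) ^ r) → a 1 ≠ 0 → Differentiable ℂ L →
  (∀ s : ℂ, r + 1 < s.re → L s = LSeries a s) → L r = 0 →
  DifferentiableOn ℂ M {s | 3 * (r : ℝ) / 2 < s.re} →
  (∀ s : ℂ, 2 * r + 2 < s.re →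
    M s = Gamma s * (4 * π) ^ (-s) * LSeries (fun n => a n * a0 r n) s) → M (2 * r - 1) = 0

-- deps: UE PAR CB EI ME1 ME2
def S_RK : Prop := ∀ (r : ℕ) (φ : ℍ → ℝ) (y : ℍ → ℂ) (L : ℂ → ℂ), Even r → 4 ≤ r →
  Wt (Gamma0 2) φ → CF (2 * r) y → Eig (2 * r) (cf (qe y)) → cf (qe y) 1 ≠ 0 →
  Differentiable ℂ L → (∀ s : ℂ, r + 1 < s.re → L s = LSeries (cf (qe y)) s) → L r = 0 →
  ip φ (uI (2 * r)) y (E0 r * Ei r) = 0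

-- deps: WT IP POS DIMV DIMY EI HT IT HSA ISA HD RK VB VS CB PA SOV SV SH SEL
def S_CORE : Prop := ∀ (r : ℕ) (y : ℍ → ℂ) (L : ℂ → ℂ), Even r → y ∈ Y r →
  Eig (2 * r) (cf (qe y)) → cf (qe y) 1 ≠ 0 → Differentiable ℂ L →
  (∀ s : ℂ, r + 1 < s.re → L s = LSeries (cf (qe y)) s) → L r ≠ 0

-- deps: CORE FORM D2 CB
def S_FIN : Prop :=
  (∀ (k : ℕ) (hk : 0 < (k : ℤ)) (f : CuspForm (Gamma0 1) k), 4 ∣ k → cf (qe f) 1 ≠ 0 →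
    Eig k (cf (qe f)) → ModularForm.L hk f (k / 2) ≠ 0) ∧
  ∀ (k : ℕ) (hk : 0 < (k : ℤ)) (f : CuspForm (Gamma0 2) k), 4 ∣ k → cf (qe f) 1 ≠ 0 →
    Eig k (cf (qe f)) → (∀ τ, f (Wz τ) = 2 ^ (k / 2) * (τ : ℂ) ^ k * f τ) →
    ModularForm.L hk f (k / 2) ≠ 0

end Pool.Agent.P.MP_e7a540_nt.L1
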