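import Pool.Agent.P.MP_e7a540_nt.L1.IfaceB

/-! Existence of self-adjoint Hecke operators. -/

set_option autoImplicit false

namespace Pool.Agent.P.MP_e7a540_nt.L1

open UpperHalfPlane hiding I
open CongruenceSubgroup ModularGroup Complex MeasureTheory PowerSeries Finset Filter
open scoped MatrixGroups ModularForm Manifold ComplexConjugate Real Topology

-- redeps: PN

-- deps: PA VB VM
-- imports: Pool.Agent.P.MP_e7a540_nt.L1.TH8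
def S_HX : Prop := ∀ r l : ℕ, 1 ≤ r → l.Prime → l ≠ 2 → ∃ T : (ℍ → ℂ) → ℍ → ℂ,
  (∀ F ∈ V r, T F ∈ V r ∧ cs (T F) = hT r l (cs F)) ∧
  ∀ (φ : ℍ → ℝ) (F G : ℍ → ℂ), Wt (Gamma0 2) φ → F ∈ V r → G ∈ V r →
    ip φ (uH r) (T F) G = ip φ (uH r) F (T G)

-- deps: CB
-- imports: Pool.Agent.P.MP_e7a540_nt.L1.TH8
def S_IX : Prop := ∀ r l : ℕ, 1 ≤ r → l.Prime → l ≠ 2 → ∃ T : (ℍ → ℂ) → ℍ → ℂ,
  (∀ y ∈ Y r, T y ∈ Y r ∧ cf (qe (T y)) = iT (2 * r) l (cf (qe y))) ∧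
  ∀ (φ : ℍ → ℝ) (y z : ℍ → ℂ), Wt (Gamma0 2) φ → y ∈ Y r → z ∈ Y r →
    ip φ (uI (2 * r)) (T y) z = ip φ (uI (2 * r)) y (T z)

end Pool.Agent.P.MP_e7a540_nt.L1
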