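import Pool.Agent.P.MP_e7a540_nt.L1.U4
import Pool.Agent.P.MP_e7a540_nt.L1.IfaceA

/-! The pairing in integral weight and the central value. -/

set_option autoImplicit false

namespace Pool.Agent.P.MP_e7a540_nt.L1.U

open Complex MeasureTheory Set ModularForm Filter Asymptotics
open UpperHalfPlane hiding I
open scoped Real ComplexConjugate MatrixGroups Topology ComplexOrder

theorem ct_le {f g : ℍ → ℂ} {y B : ℝ} (hy : 0 < y) (h : ∀ z : ℍ, z.im = y → ‖f z * g z‖ ≤ B) :
    ‖ct f g y‖ ≤ B := by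
  simpa [ct] using intervalIntegral.norm_integral_le_of_norm_le_const (a := 0) (b := 1)
    (f := fun x => f (pt y x) * conj (g (pt y x))) (C := B) fun x _ => by
      rw [norm_mul, norm_conj, ← norm_mul]; exact h _ (pt_im hy x)

theorem ct_cont {a b : ℕ → ℂ} {f g : ℍ → ℂ} (H : Ser 1 a f) (H' : Ser 1 b g) :
    ContinuousOn (ct f g) (Ioi 0) := by
  have hk := fun {y : ℝ} (hy : 0 < y) =>
    rk H H' one_pos (fun n m _ _ => ⟨(n : ℤ) - m, by simp⟩) hy
  have S : Ser (1 / 2 : ℝ) (fun n => a n * conj (b n)) fun t =>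
      ∑' n : ℕ, a n * conj (b n) * cexp (2 * π * I * n * t / (1 / 2 : ℝ)) := fun t => by
    refine (Summable.of_norm ((hk t.im_pos).summable.norm.congr fun n => ?_)).hasSum
    rw [norm_term, norm_mul, norm_real, Real.norm_of_nonneg (Real.exp_pos _).le]
    congr 2; ring
  refine ((S.cont one_half_pos).comp_continuousOn continuousOn_ofComplex_I_mul).congr
    fun y hy => ?_
  have hy' : 0 < y := hy
  rw [ct, ← (hk hy').tsum_eq]
  refine tsum_congr fun n => ?_
  simp only
  rw [ofComplex_apply_of_im_pos (by simpa using hy'), coe_mk, ofReal_exp, coe_I]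
  congr 2
  push_cast
  linear_combination (-4 * π * n * y) * I_sq

theorem conj_a0 (r n : ℕ) : conj (a0 r n) = a0 r n := by
  unfold a0 sg; split_ifs <;> simp

theorem norm_a0 {r : ℕ} (hr : 1 ≤ r) (n : ℕ) : ‖a0 r n‖ ≤ 2 * (n : ℝ) ^ r := by
  have h : ∀ m, m ≤ n → ‖sg r m‖ ≤ (n : ℝ) ^ r := fun m hm => by
    rw [sg, Complex.norm_natCast]
    have := ArithmeticFunction.sigma_le_pow_succ (r - 1) m
    rw [Nat.sub_add_cancel hr] at this
    exact_mod_cast this.trans (Nat.pow_le_pow_left hm r)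
  refine (norm_sub_le _ _).trans ?_
  have h1 := h n le_rfl
  have h2 := h _ (Nat.div_le_self n 2)
  split_ifs
  · linarith
  · rw [norm_zero]; linarith [norm_nonneg (sg r n)]

theorem absc {f : ℕ → ℂ} {C : ℝ} {k : ℕ} (h : ∀ n, ‖f n‖ ≤ C * (n : ℝ) ^ k) {x : ℝ}
    (hx : k + 1 < x) : LSeries.abscissaOfAbsConv (od f) < x := by
  refine (LSeries.abscissaOfAbsConv_le_of_le_const_mul_rpow (x := k) ⟨C, fun n _ => ?_⟩).trans_lt
    (by exact_mod_cast hx)
  rw [Real.rpow_natCast, od]
  split_ifs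
  · exact h n
  · exact norm_zero.trans_le ((norm_nonneg _).trans (h n))

theorem central {φ : ℍ → ℝ} (Hφ : Wg φ) {r : ℕ} (hr : 3 ≤ r) (hr' : 4 ≤ r) (hDIR : S_DIR) {y E0 : ℍ → ℂ} {a : ℕ → ℂ}
    (hy : Ser 1 a y) (hE : Ser 1 (a0 r) E0) (h0 : a 0 = 0)
    (yG : ∀ γ ∈ G, ∀ z, y (γ • z) = denom γ z ^ (2 * r) * y z)
    (EG : ∀ γ ∈ G, ∀ z, E0 (γ • z) = denom γ z ^ r * E0 z) {C C' : ℝ}
    (b1 : ∀ z, ‖y z‖ ≤ C * z.im ^ (-(r : ℝ)))
    (b2 : ∀ z, ‖y z * E0 z‖ ≤ C' * z.im ^ (-(3 * r / 2 : ℝ))) (he : Eig (2 * r) a) (h1 : a 1 ≠ 0)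
    {L : ℂ → ℂ} (hL : Differentiable ℂ L) {T : ℝ} (hT : ∀ s : ℂ, T < s.re → L s = LSeries a s)
    (hz : L r = 0) :
    ∫ z, (φ z : ℂ) * ((z.im : ℂ) ^ (2 * r) * y z * conj (E0 z) *
      conj (2 ^ r * E hr (two z) - E hr z)) = 0 := by
  have r4 : (4 : ℝ) ≤ r := by exact_mod_cast hr'
  rw [rankin Hφ hr hr' one_pos hy hE h0 (2 * r : ℕ) (fun z => (z.im : ℂ) ^ (2 * r) * y z * conj (E0 z))
    (fun z => by rw [Real.rpow_natCast]; push_cast; ring) (fun γ hγ z => ?_) (C := C') fun z => ?_]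
  rotate_left
  · rw [yG γ hγ, EG γ hγ, ← im_smul γ z, mul_pow, mul_pow, map_mul, map_pow]
    ring
  · rw [mul_assoc, norm_mul, norm_mul, norm_conj, ← norm_mul (y z), norm_pow, norm_real,
      Real.norm_of_nonneg z.im_pos.le, show ((r : ℝ) / 2) = (2 * r : ℕ) + -(3 * r / 2) by
        push_cast; ring, Real.rpow_add z.im_pos, Real.rpow_natCast, mul_left_comm]
    exact mul_le_mul_of_nonneg_left (b2 z) (pow_pos z.im_pos _).le
  refine mul_eq_zero_of_right _ ?_
  have ba : ∀ n, ‖a n‖ ≤ C * rexp (2 * π / 1) * (n : ℝ) ^ r := fun n => by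
    rcases Nat.eq_zero_or_pos n with rfl | hn
    · simp [h0, show r ≠ 0 by omega]
    · simpa using hy.coef one_pos (fun n m _ _ => ⟨(n : ℤ) - m, by simp⟩) b1 hn
  have bd : ∀ n : ℕ, ‖(n : ℂ) ^ (3 * r - 2)‖ ≤ 1 * (n : ℝ) ^ (3 * r - 2) := fun n => by simp
  have c3 : ((3 * r - 2 : ℕ) : ℝ) = 3 * r - 2 := by rw [Nat.cast_sub (by omega)]; push_cast; ring
  obtain ⟨C1, p1, d1⟩ := hy.dec one_pos h0
  obtain ⟨C2, p2, d2⟩ := hE.bdd one_pos
  have dm : ∀ s : ℂ, (3 * r / 2 : ℝ) < s.re → DifferentiableAt ℂ (mellin (ct y E0)) s :=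
    fun s hs => by
      refine mellin_differentiableAt_of_isBigO_rpow_exp (a := 2 * π / 1) (by positivity)
        ((ct_cont hy hE).locallyIntegrableOn measurableSet_Ioi) (.of_bound (C1 * C2) ?_)
        (.of_bound C' ?_) hs
      · filter_upwards [eventually_ge_atTop 1] with v hv
        rw [Real.norm_of_nonneg (Real.exp_pos _).le]
        refine ct_le (by linarith) fun z e => ?_
        rw [norm_mul, mul_right_comm, ← e]
        exact mul_le_mul (d1 z (e ▸ hv)) (d2 z (e ▸ hv)) (norm_nonneg _) (by positivity)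
      · filter_upwards [self_mem_nhdsWithin] with v hv
        have hv' : 0 < v := hv
        rw [Real.norm_of_nonneg (Real.rpow_nonneg hv'.le _)]
        exact ct_le hv' fun z e => e ▸ b2 z
  have ho : IsOpen {s : ℂ | (3 * r / 2 : ℝ) < s.re} := isOpen_lt continuous_const continuous_re
  have dA : DifferentiableOn ℂ (fun s => a 1 * mellin (ct y E0) s *
      LSeries (od fun d => (d : ℂ) ^ (3 * r - 2)) (2 * s)) {s : ℂ | (3 * r / 2 : ℝ) < s.re} :=
    fun s hs => by
      have hs' : (3 * r / 2 : ℝ) < s.re := hs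
      refine (((dm s hs).const_mul _).mul (DifferentiableAt.comp (g := LSeries _) s
        (LSeries_hasDerivAt (absc bd ?_)).differentiableAt (by fun_prop))).differentiableWithinAt
      simp only [c3, mul_re, re_ofNat, im_ofNat]; linarith
  have dB : DifferentiableOn ℂ (fun s => Gamma s / ((4 * π : ℝ) : ℂ) ^ s *
      (L (s - r + 1) * LSeries (od a) s)) {s : ℂ | (3 * r / 2 : ℝ) < s.re} := fun s hs => by
    have hs' : (3 * r / 2 : ℝ) < s.re := hs
    have q : ((4 * π : ℝ) : ℂ) ≠ 0 := ofReal_ne_zero.2 (by positivity)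
    refine (((differentiableAt_Gamma s fun m hm => ?_).div
      (differentiableAt_id.const_cpow (.inl q)) (by simp)).mul
      ((DifferentiableAt.comp (g := L) s (hL _) (by fun_prop)).mul
        (LSeries_hasDerivAt (absc ba (by linarith))).differentiableAt)).differentiableWithinAt
    rw [hm] at hs'
    simp at hs'
    linarith [(Nat.cast_nonneg m : (0 : ℝ) ≤ m)]
  have big : ∀ s : ℂ, 2 * r + 2 + |T| < s.re → a 1 * mellin (ct y E0) s *
      LSeries (od fun d => (d : ℂ) ^ (3 * r - 2)) (2 * s) = Gamma s / ((4 * π : ℝ) : ℂ) ^ s *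
      (L (s - r + 1) * LSeries (od a) s) := fun s hs => by
    have t0 := abs_nonneg T
    have t1 := le_abs_self T
    have hs2 : LSeriesSummable (fun n => a n * a0 r n) s :=
      LSeriesSummable_of_le_const_mul_rpow (x := 2 * r + 1) (by linarith)
        ⟨C * rexp (2 * π / 1) * 2, fun n _ => by
          rw [norm_mul, show (2 * r + 1 - 1 : ℝ) = (r + r : ℕ) by push_cast; ring,
            Real.rpow_natCast, pow_add]
          refine (mul_le_mul (ba n) (norm_a0 (by omega) n) (norm_nonneg _)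
            ((norm_nonneg _).trans (ba n))).trans_eq (by ring)⟩
    have hm := hasSum_mellin (a := fun n => a n * conj (a0 r n))
      (p := fun n : ℕ => 4 * π * n / 1) (F := ct y E0) (s := s)
      (fun n => (Nat.eq_zero_or_pos n).imp (fun h => by simp [h, h0]) fun h => by positivity)
      (by linarith) (fun t ht => rk hy hE one_pos (fun n m _ _ => ⟨(n : ℤ) - m, by simp⟩) ht) (by
        refine (hs2.norm.div_const ((4 * π) ^ s.re)).congr fun n => ?_
        rw [LSeries.norm_term_eq, conj_a0, div_one,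
          Real.mul_rpow (x := 4 * π) (by positivity) (by positivity)]
        split_ifs with h
        · simp [h, h0]
        · rw [div_div, mul_comm ((n : ℝ) ^ s.re)])
    have e : mellin (ct y E0) s =
        Gamma s / ((4 * π : ℝ) : ℂ) ^ s * LSeries (fun n => a n * a0 r n) s := by
      rw [← hm.tsum_eq, LSeries, ← tsum_mul_left]
      refine tsum_congr fun n => ?_
      rw [LSeries.term_def₀ (by simp [h0]), conj_a0, div_one, ofReal_mul,
        mul_cpow_ofReal_nonneg (by positivity) (by positivity), cpow_neg, ofReal_natCast]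
      ring
    rw [e, hT _ (by simp; linarith), ← hDIR r a _ s (by omega) he ba (by linarith)]
    ring
  have key := (dA.analyticOnNhd ho).eqOn_of_preconnected_of_eventuallyEq (dB.analyticOnNhd ho)
    (convex_halfSpace_re_gt _).isPreconnected (z₀ := ((2 * r + 3 + |T| : ℝ) : ℂ))
    (by simp only [mem_ofPred_eq, ofReal_re]; linarith [abs_nonneg T]) (by
      filter_upwards [(isOpen_lt continuous_const Complex.continuous_re).mem_nhds
        (show ((2 * r + 3 + |T| : ℝ) : ℂ) ∈ {s : ℂ | 2 * r + 2 + |T| < s.re} by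
          simp only [mem_ofPred_eq, ofReal_re]; linarith)] with s hs using big s hs)
    (show ((((2 * r : ℕ) : ℝ) - 1 : ℝ) : ℂ) ∈ {s : ℂ | (3 * r / 2 : ℝ) < s.re} by
      simp only [mem_ofPred_eq, ofReal_re]; push_cast; linarith)
  simp only at key
  rw [show ((((2 * r : ℕ) : ℝ) - 1 : ℝ) : ℂ) - r + 1 = r by push_cast; ring, hz, zero_mul,
    mul_zero, show 2 * ((((2 * r : ℕ) : ℝ) - 1 : ℝ) : ℂ) = ((4 * r - 2 : ℝ) : ℂ) by
      push_cast; ring] at key
  have pos := LSeries.positive (a := od fun d => (d : ℂ) ^ (3 * r - 2))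
    (fun n => by unfold od; split_ifs <;> positivity) (by simp [od]) (x := 4 * r - 2)
    (absc bd (by rw [c3]; linarith))
  exact (mul_eq_zero.1 ((mul_eq_zero.1 key).resolve_right pos.ne')).resolve_left h1

end Pool.Agent.P.MP_e7a540_nt.L1.U
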