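import Pool.Agent.P.MP_e7a540_nt.L1.IfaceB
import Pool.Agent.P.MP_e7a540_nt.L1.U5

/-! Bridge to the unfolding files. -/

set_option autoImplicit false

namespace Pool.Agent.P.MP_e7a540_nt.L1

open UpperHalfPlane hiding I
open CongruenceSubgroup ModularGroup Complex MeasureTheory PowerSeries Finset Filter
open scoped MatrixGroups ModularForm Manifold ComplexConjugate Real Topology

-- redeps: WT
-- redeps: HD VB PA PB EI
-- redeps: RK CB EI DIR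
-- redeps: VS VB PA

lemma Wt.wg {φ : ℍ → ℝ} (H : Wt (Gamma0 2) φ) : U.Wg φ := ⟨H.meas, H.pos, H.int, H.sum⟩

lemma QE.ser {h : ℕ} {F : ℍ → ℂ} {P : ℂ⟦X⟧} (H : QE h F P) : U.Ser h (cf P) F := fun t => by
  simpa only [cf, ee, mul_div_assoc, mul_assoc, ofReal_natCast] using H t

lemma Inv.den {w : ℕ} {F : ℍ → ℂ} (H : Inv 2 w F) :
    ∀ γ ∈ U.G, ∀ z, F (γ • z) = denom γ z ^ w * F z := fun γ hγ z => dn_eq γ z ▸ H γ hγ z

lemma Ei_eq {r : ℕ} (hr : 3 ≤ r) (z : ℍ) :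
    Ei r z = -(kap r)⁻¹ * (2 ^ r * ModularForm.E hr (U.two z) - ModularForm.E hr z) := by
  have e : af 2 0 z = U.two z := UpperHalfPlane.ext (by rw [coe_af two_pos]; simp [U.two])
  rw [Ei, Es, dif_pos hr, e]; ring

lemma Bd.le {w : ℕ} {y : ℍ → ℂ} (H : Bd (uI w) y) :
    ∃ C, ∀ z : ℍ, ‖y z‖ ≤ C * z.im ^ (-(w / 2 : ℝ)) := by
  obtain ⟨C, hC⟩ := H.2
  have p : 0 ≤ C := le_trans (by simp [uI]) (hC UpperHalfPlane.I)
  refine ⟨√C, fun z => le_of_sq_le_sq ?_ (by have := z.im_pos; positivity)⟩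
  have hz := z.im_pos
  rw [mul_pow, Real.sq_sqrt p, ← Real.rpow_two (z.im ^ _), ← Real.rpow_mul hz.le,
    show -(w / 2 : ℝ) * 2 = -w by ring, Real.rpow_neg hz.le, ← div_eq_mul_inv,
    le_div_iff₀ (by positivity), Real.rpow_natCast, mul_comm]
  exact hC z

lemma cs_mod {F : ℍ → ℂ} (n : ℕ) (hn : cs F n ≠ 0) : n % 8 = 1 := by
  rw [cs, dZ_eq, map_mul, toC_e8, mul_assoc, ← map_mul, show toC X = X from map_X _, cf] at hn
  rcases n with _ | n
  · simp at hn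
  · rw [coeff_succ_X_mul, e8, coeff_expand] at hn
    split_ifs at hn with h
    · omega
    · exact absurd rfl hn

lemma cs_ser (hPA : S_PA) {r : ℕ} {F : ℍ → ℂ} (hF : MF r F) :
    U.Ser 8 (cs F) fun t => psi t * F t := by
  simpa using! (hPA.1.mul (qe_e8.2 hF.qe)).ser

lemma uH_eq' (r : ℕ) (z : ℍ) : uH r z = √z.im * ‖psi z‖ ^ 2 * z.im ^ r := by rw [uH]; ring

end Pool.Agent.P.MP_e7a540_nt.L1
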