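import Pool.Agent.P.MP_e7a540_nt.L1.IfaceA

/-! Step B2. -/

set_option autoImplicit false
set_option linter.unusedSectionVars false

namespace Pool.Agent.P.MP_e7a540_nt.L1

open PowerSeries Finset

namespace B2x

theorem e2 (f : (ZMod 2)⟦X⟧) : expand 2 two_ne_zero f = f ^ 2 := by
  have := MvPowerSeries.map_frobenius_expand 2 two_ne_zero (f := f)
  rwa [ZMod.frobenius_zmod, MvPowerSeries.map_id] at this

theorem e8_eq (f : (ZMod 2)⟦X⟧) : e8 f = f ^ 8 := by
  have h : e8 f = expand (2 * (2 * 2)) (by norm_num) f := rfl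
  rw [h, expand_mul 2 two_ne_zero _ (by norm_num), expand_mul 2 two_ne_zero 2 two_ne_zero, e2, e2,
    e2, ← pow_mul, ← pow_mul]

end B2x

theorem p_B2 :
    S_B2 := by
  refine ⟨?_, B2x.e8_eq _⟩
  rw [d2, dZ_eq, bZ, map_mul, map_mul, map_pow, to2_e8, B2x.e8_eq]

end Pool.Agent.P.MP_e7a540_nt.L1
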