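import Pool.Agent.P.MP_e7a540_nt.L1.IfaceB

/-! Step CB. -/

set_option autoImplicit false
set_option linter.unusedSectionVars false

namespace Pool.Agent.P.MP_e7a540_nt.L1

open UpperHalfPlane hiding I
open CongruenceSubgroup ModularGroup Complex MeasureTheory PowerSeries Finset Filter
open scoped MatrixGroups ModularForm Manifold ComplexConjugate Real Topology

namespace CBx

lemma zero_of_bd {w : ℕ} (hw : 1 ≤ w) {y : ℍ → ℂ} {C : ℝ}
    (h : ∀ z : ℍ, z.im ^ w * ‖y z‖ ^ 2 ≤ C) : IsZeroAtImInfty y := by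
  have h1 : Tendsto (fun z : ℍ => C / z.im ^ w) atImInfty (𝓝 0) :=
    tendsto_const_nhds.div_atTop ((tendsto_pow_atTop (by omega)).comp tendsto_comap)
  have h2 : Tendsto (fun z : ℍ => ‖y z‖ ^ 2) atImInfty (𝓝 0) :=
    squeeze_zero (fun z => by positivity) (fun z => by
      rw [le_div_iff₀' (pow_pos z.im_pos w)]; exact h z) h1
  have h3 := h2.sqrt
  simp only [Real.sqrt_sq (norm_nonneg _), Real.sqrt_zero] at h3
  exact tendsto_zero_iff_norm_tendsto_zero.2 h3

end CBx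

theorem p_CB (hFORM : S_FORM) :
    S_CB := by
  refine ⟨fun w y h => ⟨h.hol.continuous, ?_⟩, fun w y hw hol inv ⟨_, C, hC⟩ =>
    ⟨hol, inv, CBx.zero_of_bd hw hC, CBx.zero_of_bd hw (C := C) fun z => ?_⟩, fun r y h => ?_⟩
  · obtain ⟨f, rfl⟩ := (hFORM w y).2.1.1 h
    obtain ⟨C, hC⟩ := CuspFormClass.exists_bound f
    refine ⟨C ^ 2, fun z => ?_⟩
    have h1 := pow_le_pow_left₀ (norm_nonneg _) (hC z) 2
    rw [div_pow, ← Real.rpow_mul_natCast z.im_pos.le, le_div_iff₀' (Real.rpow_pos_of_pos z.im_pos _)]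
      at h1
    have e : ((w : ℤ) : ℝ) / 2 * (2 : ℕ) = (w : ℝ) := by push_cast; ring
    rwa [e, Real.rpow_natCast] at h1
  · refine le_of_eq_of_le ?_ (hC (S • z))
    have h0 : ‖dn S z‖ ≠ 0 := norm_ne_zero_iff.2 (dn_ne _ _)
    rw [uI, im_smul', sl, norm_div, norm_pow, div_pow, div_pow, ← pow_mul, ← pow_mul, mul_comm 2 w]
    field_simp
  · have h0 := h.qe_zero
    obtain ⟨f, rfl⟩ := (hFORM (2 * r) y).2.1.1 h
    have h1 := CuspFormClass.qExpansion_isBigO f
    rw [strictWidthInfty_Gamma0] at h1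
    have e : (((2 * r : ℕ) : ℤ) : ℝ) / 2 = (r : ℝ) := by push_cast; ring
    simp only [e, Real.rpow_natCast] at h1
    obtain ⟨C, hC0, hC⟩ := Asymptotics.bound_of_isBigO_nat_atTop h1
    refine ⟨C, fun n => ?_⟩
    rcases Nat.eq_zero_or_pos n with rfl | hn
    · rw [cf, coeff_zero_eq_constantCoeff_apply, h0, norm_zero]
      positivity
    · have h2 : (0 : ℝ) < (n : ℝ) ^ r := by positivity
      have := hC h2.ne'
      rwa [Real.norm_of_nonneg h2.le] at this

end Pool.Agent.P.MP_e7a540_nt.L1
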