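import Pool.Agent.P.MP_e7a540_nt.L1.IfaceH

/-! Step CORE. -/

set_option autoImplicit false
set_option linter.unusedSectionVars false

namespace Pool.Agent.P.MP_e7a540_nt.L1

open UpperHalfPlane hiding I
open CongruenceSubgroup ModularGroup Complex MeasureTheory PowerSeries Finset Filter
open scoped MatrixGroups ModularForm Manifold ComplexConjugate Real Topology

namespace COREx

lemma od_iT {w l : ℕ} {a b : ℕ → ℂ} (hl : Odd l) (h : od a = od b) :
    od (iT w l a) = od (iT w l b) := by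
  have h' : ∀ n, Odd n → a n = b n := fun n hn => by simpa [od, hn] using congrFun h n
  funext n
  by_cases hn : Odd n
  · simp only [od, if_pos hn, iT, h' _ (hl.mul hn)]
    split_ifs with hd
    · rw [h' (n / l) (Odd.of_dvd_nat hn (Nat.div_dvd_of_dvd hd))]
    · rfl
  · simp [od, hn]

lemma od_sig (hSH : S_SH) {r l : ℕ} (hl : l.Prime) (h2 : l ≠ 2) (c : ℕ → ℂ) :
    od (sig r (hT r l c)) = od (iT (2 * r) l (sig r c)) := by
  funext n
  by_cases hn : Odd n
  · simp only [od, if_pos hn, hSH r l c n hl h2 hn.pos.ne']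
  · simp [od, hn]

noncomputable def sigL (r : ℕ) : V r →ₗ[ℂ] ℕ → ℂ where
  toFun F := od (sig r (cs F))
  map_add' F G := by
    funext n
    simp only [od, sig, cs, cf, Submodule.coe_add, F.2.1.qe_add G.2.1, map_add, mul_add,
      sum_add_distrib, Pi.add_apply]
    split_ifs <;> simp
  map_smul' c F := by
    funext n
    simp only [od, sig, cs, cf, Submodule.coe_smul, F.2.1.qe_smul c, map_smul, mul_smul_comm,
      smul_eq_mul, Pi.smul_apply, RingHom.id_apply, mul_left_comm _ c, ← mul_sum]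
    split_ifs <;> simp

noncomputable def odL (r : ℕ) : Y r →ₗ[ℂ] ℕ → ℂ where
  toFun y := od (cf (qe y))
  map_add' F G := by
    funext n
    simp only [od, cf, Submodule.coe_add, F.2.1.mf.qe_add G.2.1.mf, map_add, Pi.add_apply]
    split_ifs <;> simp
  map_smul' c F := by
    funext n
    simp only [od, cf, Submodule.coe_smul, F.2.1.mf.qe_smul c, map_smul, smul_eq_mul,
      Pi.smul_apply, RingHom.id_apply]
    split_ifs <;> simp

/-- A set of forms that is stable under the operators and has first coefficient zero. -/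
lemma vanish (hSOV : S_SOV) {r : ℕ} (hr : Even r) (P : V r → Prop)
    (hP : ∀ l : ℕ, l.Prime → l ≠ 2 → ∀ F, P F → ∃ G, P G ∧ cs G = hT r l (cs F))
    (h0 : ∀ F, P F → cs F 1 = 0) (F : V r) (hF : P F) : F = 0 := by
  have it : ∀ l : ℕ, l.Prime → l ≠ 2 → ∀ (i : ℕ) (F : V r), P F →
      ∃ G : V r, P G ∧ (hT r l)^[i] (cs F) = cs G := fun l hl h2 i => by
    induction i with
    | zero => exact fun F hF => ⟨F, hF, rfl⟩
    | succ i ih =>
      intro F hF
      obtain ⟨G, hG, e⟩ := hP l hl h2 F hF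
      rw [Function.iterate_succ_apply, ← e]
      exact ih G hG
  refine Subtype.ext (hSOV r F hr F.2.1 fun i j => ?_)
  obtain ⟨G, hG, e⟩ := it 5 (by norm_num) (by norm_num) j F hF
  obtain ⟨G', hG', e'⟩ := it 3 (by norm_num) (by norm_num) i G hG
  rw [e, e', h0 G' hG']

/-- The inner product with a fixed function as a linear form. -/
noncomputable def ipL (hIP : S_IP) {φ u : ℍ → ℝ} (hφ : Wt (Gamma0 2) φ) (hu : Continuous u)
    (h0 : ∀ z, 0 ≤ u z) (M : Submodule ℂ (ℍ → ℂ)) (hM : ∀ F ∈ M, Bd u F) (G : M) : M →ₗ[ℂ] ℂ where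
  toFun F := ip φ u F G
  map_add' F F' := (hIP _ φ u hφ hu h0).1 _ _ _ (hM _ F.2) (hM _ F'.2) (hM _ G.2)
  map_smul' c F := (hIP _ φ u hφ hu h0).2.1 c F G

lemma exists_U {r : ℕ} [FiniteDimensional ℂ (Y r)] (inj : Function.Injective (sigL r))
    (lam : Y r →ₗ[ℂ] ℂ) (y : Y r) (hy : lam y ≠ 0) : ∃ U : Submodule ℂ (V r),
      (∀ F, F ∈ U ↔ ∃ z, lam z = 0 ∧ odL r z = sigL r F) ∧
        Module.finrank ℂ U < Module.finrank ℂ (Y r) :=
  ⟨((LinearMap.ker lam).map (odL r)).comap (sigL r), fun _ => Iff.rfl,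
    ((LinearMap.finrank_le_finrank_of_injective (f := (sigL r).restrict fun _ h => h)
      fun _ _ e => Subtype.ext (inj (congrArg Subtype.val e))).trans
        (Submodule.finrank_map_le _ _)).trans_lt (Submodule.finrank_lt fun e =>
          hy (LinearMap.mem_ker.1 (e ▸ Submodule.mem_top)))⟩

end COREx

open COREx in
theorem p_CORE (hWT : S_WT) (hIP : S_IP) (hPOS : S_POS) (hDIMV : S_DIMV) (hDIMY : S_DIMY)
    (hEI : S_EI) (hHX : S_HX) (hIX : S_IX) (hHD : S_HD) (hRK : S_RK) (hVB : S_VB) (hVS : S_VS)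
    (hCB : S_CB) (hPA : S_PA) (hSOV : S_SOV) (hSV : S_SV) (hSH : S_SH) (hSEL : S_SEL) :
    S_CORE := by
  intro r y L hr hy hE h1 hL hLs h0
  have y0 : y ≠ 0 := fun e => h1 (by rw [e, qe, qExpansion_zero]; simp [cf])
  obtain ⟨fY, dY⟩ := hDIMY r
  rcases lt_or_ge r 4 with h4 | h4
  · rw [Nat.div_eq_of_lt h4, Nat.le_zero, finrank_zero_iff_forall_zero] at dY
    exact y0 (congrArg Subtype.val (dY ⟨y, hy⟩))
  have r1 : 1 ≤ r := by omega
  obtain ⟨φ, hφ⟩ := hWT
  obtain ⟨fV, dV⟩ := hDIMV r hr h4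
  obtain ⟨-, hEi, qEi, hE0, qE0, hH⟩ := hEI r hr h4
  have cI : Continuous (uI (2 * r)) := by unfold uI; fun_prop
  have pI : ∀ z, 0 ≤ uI (2 * r) z := fun z => pow_nonneg z.im_pos.le _
  have cH : Continuous (uH r) := by
    have := (hPA.1.hol (by norm_num)).continuous
    unfold uH; fun_prop
  have pH : ∀ z, 0 ≤ uH r z := fun z => by have := z.im_pos; unfold uH; positivity
  obtain ⟨-, sI, jI⟩ := hIP _ φ _ hφ cI pI
  obtain ⟨-, -, jH⟩ := hIP _ φ _ hφ cH pH
  choose A hA sA using fun l => hHX r l r1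
  choose B hB sB using fun l => hIX r l r1
  have inj : Function.Injective (sigL r) := (injective_iff_map_eq_zero _).2 fun F hF =>
    vanish hSOV hr (fun F => sigL r F = 0) (fun l hl h2 F hF =>
      ⟨⟨_, (hA l hl h2 F F.2).1⟩, by
        change od (sig r (cs (A l hl h2 F))) = 0
        rw [(hA l hl h2 F F.2).2, od_sig hSH hl h2,
          od_iT (b := 0) (hl.odd_of_ne_two h2) (hF.trans (by funext n; simp [od]))]
        funext n; simp [od, iT], (hA l hl h2 F F.2).2⟩)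
      (fun F hF => by simpa [sigL, od, sig] using congrFun hF 1) F hF
  obtain ⟨U, memU, d2⟩ := exists_U inj (ipL hIP hφ cI pI (Y r) (fun F hF => hCB.1 _ F hF.1) ⟨y, hy⟩)
    ⟨y, hy⟩ fun e => y0 (hPOS _ φ y hφ hy.1 e)
  replace memU : ∀ F : V r, F ∈ U ↔
      ∃ z : Y r, ip φ (uI (2 * r)) z y = 0 ∧ od (cf (qe z)) = od (sig r (cs F)) := memU
  have hUs : ∀ l (hl : l.Prime) (h2 : l ≠ 2), ∀ F ∈ U,
      (⟨A l hl h2 F, (hA l hl h2 F F.2).1⟩ : V r) ∈ U := by
    intro l hl h2 F hF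
    obtain ⟨⟨z, hz'⟩, hz, e⟩ := (memU F).1 hF
    obtain ⟨μ, hμ⟩ := hE l hl h2
    obtain ⟨m1, q1⟩ := hB l hl h2 y hy
    obtain ⟨m2, q2⟩ := hB l hl h2 z hz'
    have ey : B l hl h2 y = μ • y := m1.1.mf.ext (hy.1.mf.smul μ) (by
      rw [hy.1.mf.qe_smul]
      ext n
      exact (congrFun q1 n).trans (hμ n))
    refine (memU _).2 ⟨⟨_, m2⟩, ?_, ?_⟩
    · rw [sB l hl h2 φ z y hφ hz' hy, ey, jI, sI, jI, hz]; simp
    · rw [q2, (hA l hl h2 F F.2).2, od_sig hSH hl h2]
      exact od_iT (hl.odd_of_ne_two h2) e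
  have hEU : (⟨Ei r, hEi⟩ : V r) ∈ U := by
    refine (memU _).2 ⟨⟨_, hH⟩, ?_, ?_⟩
    · rw [jI, hRK r φ y L hr h4 hφ hy.1 hE h1 hL hLs h0, map_zero]
    · funext n
      by_cases hn : Odd n
      · simp only [od, if_pos hn, cs, hE0.qe_mul hEi.1, qEi, qE0, hSEL r _ n r1 hn]; rfl
      · simp [od, hn]
  obtain ⟨J, hJ⟩ : ∃ J : V r → V r →ₗ[ℂ] ℂ, ∀ G F, J G F = ip φ (uH r) F G :=
    ⟨ipL hIP hφ cH pH (V r) fun F hF => (hVB r F hF).1, fun _ _ => rfl⟩
  have hst : ∀ l : ℕ, l.Prime → l ≠ 2 → ∀ F : V r, (∀ u ∈ U, J u F = 0) →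
      ∃ G : V r, (∀ u ∈ U, J u G = 0) ∧ cs G = hT r l (cs F) := fun l hl h2 F hF =>
    ⟨⟨_, (hA l hl h2 F F.2).1⟩, fun u hu => by
      rw [hJ, sA l hl h2 φ F u hφ F.2 u.2, ← hF _ (hUs l hl h2 u hu), hJ], (hA l hl h2 F F.2).2⟩
  have perp : ∀ F : V r, (∀ u ∈ U, J u F = 0) → F = 0 :=
    vanish hSOV hr _ hst fun F hF =>
      hSV r {c | ∃ F : V r, (∀ u ∈ U, J u F = 0) ∧ cs F = c} r1
        (by
          rintro _ ⟨F, hF, rfl⟩ l hl h2
          exact hst l hl h2 F hF)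
        (by
          rintro _ ⟨F, hF, rfl⟩
          exact ⟨hVS r F (by omega) F.2, hHD r φ F hr h4 hφ F.2 (by rw [← hF _ hEU, hJ])⟩) _
        ⟨F, hF, rfl⟩
  have d3 : Module.finrank ℂ (V r) ≤ Module.finrank ℂ U := by
    have : Module.Free ℂ U := Module.Free.of_divisionRing ℂ U
    have := LinearMap.finrank_le_finrank_of_injective
      (f := LinearMap.pi fun i => J (Module.finBasis ℂ U i)) <|
      (injective_iff_map_eq_zero _).2 fun F hF => perp F fun u hu => by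
        have : (J F).comp U.subtype = 0 := (Module.finBasis ℂ U).ext fun i => by
          have e : J (Module.finBasis ℂ U i) F = 0 := congrFun hF i
          rw [hJ] at e
          rw [LinearMap.comp_apply, hJ, jH, Submodule.subtype_apply, e, map_zero]; rfl
        have e : J F u = 0 := LinearMap.congr_fun this ⟨u, hu⟩
        rw [hJ] at e
        rw [hJ, jH, e, map_zero]
    simpa using this
  omega

end Pool.Agent.P.MP_e7a540_nt.L1
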