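import Pool.Agent.P.MP_e7a540_nt.L1.IfaceB

/-! Step D2. -/

set_option autoImplicit false
set_option linter.unusedSectionVars false

namespace Pool.Agent.P.MP_e7a540_nt.L1

open UpperHalfPlane hiding I
open CongruenceSubgroup ModularGroup Complex MeasureTheory PowerSeries Finset Filter
open scoped MatrixGroups ModularForm Manifold ComplexConjugate Real Topology

theorem p_D2 :
    S_D2 := by
  intro w f hf
  have hS : ∀ τ, f (S • τ) = (τ : ℂ) ^ w * f τ := fun τ => by
    rw [hf.inv S (mem_G0.2 (by simp)), dn_S]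
  have h2 : (0 : ℝ) < 2⁻¹ := by norm_num
  have e3 : ∀ τ, sl w (fun τ => f (af 2 0 τ)) S τ = ((2 : ℂ) ^ w)⁻¹ * f (af 2⁻¹ 0 τ) := fun τ => by
    have e : af 2 0 (S • τ) = S • af 2⁻¹ 0 τ := UpperHalfPlane.ext (by
      have := τ.ne_zero
      rw [coe_af two_pos, coe_S_smul, coe_S_smul, coe_af h2]
      push_cast
      rw [add_zero, add_zero]
      field_simp)
    have := pow_ne_zero w τ.ne_zero
    rw [sl, e, hS, dn_S, coe_af h2]
    push_cast
    rw [add_zero, mul_pow, inv_pow]
    field_simp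
  have hq : QE 1 (fun τ => f (af 2 0 τ)) (expand 2 (by norm_num) (qe f)) := fun τ => by
    rw [← (mul_right_injective₀ (show (2 : ℕ) ≠ 0 by norm_num)).hasSum_iff fun n hn => by
      rw [coeff_expand, if_neg fun ⟨k, hk⟩ => hn ⟨k, hk.symm⟩, zero_mul]]
    convert hf.mf.qe (af 2 0 τ) using 2 with n
    simp only [Function.comp, coeff_expand_mul]
    rw [coe_af two_pos]
    congr 2; push_cast; ring
  refine ⟨⟨mdiff_af two_pos 0 hf.hol, fun γ hγ τ => ?_, hq.bdd one_ne_zero, ?_⟩, fun n => ?_, e3,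
    fun τ => ?_, fun τ => ?_⟩
  · obtain ⟨c, hc⟩ := mem_G0.1 hγ
    have hd := det_SL γ
    rw [hc] at hd
    have hd' : γ 0 0 * γ 1 1 - 2 * γ 0 1 * c = 1 := by push_cast at hd; linear_combination hd
    have e1 : dn (mk2 (γ 0 0) (2 * γ 0 1) c (γ 1 1) hd') (af 2 0 τ) =
        dn γ τ := by
      rw [dn, dn, hc, coe_af two_pos, mk2_10, mk2_11]; push_cast; ring
    have e : af 2 0 (γ • τ) =
        mk2 (γ 0 0) (2 * γ 0 1) c (γ 1 1) hd' • af 2 0 τ :=
      UpperHalfPlane.ext (by
        rw [coe_af two_pos, coe_smul', coe_smul', e1, coe_af two_pos, mk2_00, mk2_01]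
        push_cast
        ring)
    show f _ = _
    rw [e, hf.inv _ (mem_G0.2 (by simp)), e1]
  · rw [funext e3]
    exact (hf.bi.comp_tendsto (tendsto_af h2 0)).const_mul_left _
  · rw [hq.qe, coeff_expand]
  · rw [Wz, hS, coe_af two_pos]
    simp
  · have e : af 2 0 (Wz τ) = S • τ := UpperHalfPlane.ext (by
      have := τ.ne_zero
      rw [coe_af two_pos, coe_Wz, coe_S_smul]
      push_cast
      field_simp
      simp)
    rw [e, hS]

end Pool.Agent.P.MP_e7a540_nt.L1
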