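import Pool.Agent.P.MP_e7a540_nt.L1.IfaceB

/-! Triangular families of power series and monomials in two forms. -/

set_option autoImplicit false

namespace Pool.Agent.P.MP_e7a540_nt.L1

open PowerSeries Finset UpperHalfPlane

theorem tri (P : ℕ → ℂ⟦X⟧) (h : ∀ k, constantCoeff (P k) ≠ 0) (f : ℂ⟦X⟧) (m : ℕ) :
    ∃ t : ℕ → ℂ, ∀ n < m, coeff n (∑ k ∈ range m, t k • (X ^ k * P k)) = coeff n f := by
  induction m with
  | zero => simp
  | succ m ih =>
    obtain ⟨t, ht⟩ := ih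
    refine ⟨Function.update t m ((coeff m f - coeff m (∑ k ∈ range m, t k • (X ^ k * P k))) /
      constantCoeff (P m)), fun n hn => ?_⟩
    rw [sum_range_succ, Function.update_self, sum_congr rfl fun k hk => by
      rw [Function.update_of_ne (mem_range.1 hk).ne], map_add, coeff_smul, coeff_X_pow_mul']
    rcases (Nat.lt_succ_iff.1 hn).eq_or_lt with rfl | c
    · simp [h n]
    · simp [ht n c, c.not_ge]

theorem mf_sum {w : ℕ} {F : ℕ → ℍ → ℂ} (t : ℕ → ℂ) (m : ℕ) (h : ∀ k < m, MF w (F k)) :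
    MF w (∑ k ∈ range m, t k • F k) ∧
      qe (∑ k ∈ range m, t k • F k) = ∑ k ∈ range m, t k • qe (F k) := by
  induction m with
  | zero => simpa using ⟨cf_zero.mf, by simpa using (mf_one.qe_smul 0)⟩
  | succ m ih =>
    obtain ⟨a, b⟩ := ih fun k hk => h k (by omega)
    have c := h m (by omega)
    rw [sum_range_succ, sum_range_succ]
    exact ⟨a.add (c.smul _), by rw [a.qe_add (c.smul _), b, c.qe_smul]⟩

theorem mono (hPA : S_PA) (hPB : S_PB) {A : ℍ → ℂ} {a : ℤ⟦X⟧} (h : Un 2 A a) {w i k : ℕ}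
    (hw : i * 2 + k * 4 = w) : MF w (A ^ i * (psi ^ 8) ^ k) ∧
      qe (A ^ i * (psi ^ 8) ^ k) = toC (a ^ i * bZ ^ k) ∧
      toC (a ^ i * bZ ^ k) = X ^ k * toC (a ^ i * (triZ ^ 8) ^ k) ∧
      constantCoeff (toC (a ^ i * (triZ ^ 8) ^ k)) = 1 := by
  refine ⟨hw ▸ (h.mf.pow i).mul (hPB.1.pow k), ?_, ?_, ?_⟩
  · rw [(h.mf.pow i).qe_mul (hPB.1.pow k), h.mf.qe_pow, hPB.1.qe_pow, h.q, hPA.2.2.qe, map_mul,
      map_pow, map_pow]
  · simp only [bZ, toC, map_mul, map_pow, map_X]; ring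
  · rw [← coeff_zero_eq_constantCoeff_apply, coeff_toC]
    simp [h.c, constantCoeff_triZ]

/-- the coefficients as a linear map -/
noncomputable def cl {w n : ℕ} (U : Submodule ℂ (ℍ → ℂ)) (h : ∀ F ∈ U, MF w F) (j : Fin n → ℕ) :
    U →ₗ[ℂ] Fin n → ℂ where
  toFun F i := coeff (j i) (qe F)
  map_add' F G := funext fun i => by simp [(h _ F.2).qe_add (h _ G.2)]
  map_smul' c F := funext fun i => by simp [(h _ F.2).qe_smul]

end Pool.Agent.P.MP_e7a540_nt.L1
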