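import Pool.Agent.P.MP_e7a540_nt.L1.IfaceB
import Pool.Agent.P.MP_e7a540_nt.L1.Tri

/-! Step DIMV. -/

set_option autoImplicit false
set_option linter.unusedSectionVars false

namespace Pool.Agent.P.MP_e7a540_nt.L1

open UpperHalfPlane hiding I
open CongruenceSubgroup ModularGroup Complex MeasureTheory PowerSeries Finset Filter
open scoped MatrixGroups ModularForm Manifold ComplexConjugate Real Topology

theorem p_DIMV (hSTM : S_STM) (hA2 : S_A2) (hEI : S_EI) (hPA : S_PA) (hPB : S_PB) :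
    S_DIMV := by
  intro r hr h4
  obtain ⟨A, a, hA⟩ := hA2
  obtain ⟨k0, hE, hq, -⟩ := hEI 4 (by decide) le_rfl
  have fin : FiniteDimensional ℂ (V r) :=
    .of_injective (cl (n := r / 4 + 1) (V r) (fun _ h => h.1) fun i => i)
      ((injective_iff_map_eq_zero _).2 fun y h => Subtype.ext (hSTM.1 r y y.2.1 fun n hn =>
        congrFun h ⟨n, by omega⟩))
  refine ⟨fin, ?_⟩
  have : Function.Surjective (cl (n := r / 4) (V r) (fun _ h => h.1) fun i => i) := fun f => by
    have m : ∀ k < r / 4, A ^ (r / 2 - 2 - 2 * k) * (psi ^ 8) ^ k * Ei 4 ∈ V r := fun k hk => by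
      have h := (mono hPA hPB hA (i := r / 2 - 2 - 2 * k) (k := k) rfl).1
      have : _ * Ei 4 ∈ V (_ + 4) := ⟨h.mul hE.1, by
        rw [sl_mul_fun, mul_comm]; exact zero_mul_bdd hE.2 h.bz⟩
      rwa [show (r / 2 - 2 - 2 * k) * 2 + k * 4 + 4 = r by
        have := Nat.even_iff.1 hr; omega] at this
    obtain ⟨t, ht⟩ := tri (fun k => toC (a ^ (r / 2 - 2 - 2 * k) * (triZ ^ 8) ^ k) * qe (Ei 4))
      (fun k => by
        rw [map_mul, (mono hPA hPB hA rfl).2.2.2, one_mul, hq, ← coeff_zero_eq_constantCoeff_apply,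
          coeff_mk, ai, if_pos rfl]
        exact div_ne_zero (by norm_num) k0)
      (mk fun n => if h : n < r / 4 then f ⟨n, h⟩ else 0) (r / 4)
    refine ⟨⟨_, sum_mem fun k hk => (V r).smul_mem (t k) (m k (mem_range.1 hk))⟩,
      funext fun i => ?_⟩
    have := ht i i.2
    rw [coeff_mk, dif_pos i.2] at this
    refine Eq.trans (congrArg (coeff (i : ℕ)) (?_ : qe (∑ k ∈ range (r / 4), _) = _)) this
    refine (mf_sum t _ fun k hk => (m k hk).1).2.trans (sum_congr rfl fun k _ => ?_)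
    have h := mono hPA hPB hA (i := r / 2 - 2 - 2 * k) (k := k) rfl
    rw [h.1.qe_mul hE.1, h.2.1, h.2.2.1, mul_assoc]
  simpa using LinearMap.finrank_le_finrank_of_surjective this

end Pool.Agent.P.MP_e7a540_nt.L1
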