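import Pool.Agent.P.MP_e7a540_nt.L1.IfaceB
import Pool.Agent.P.MP_e7a540_nt.L1.Tri

/-! Step DIMY. -/

set_option autoImplicit false
set_option linter.unusedSectionVars false

namespace Pool.Agent.P.MP_e7a540_nt.L1

open UpperHalfPlane hiding I
open CongruenceSubgroup ModularGroup Complex MeasureTheory PowerSeries Finset Filter
open scoped MatrixGroups ModularForm Manifold ComplexConjugate Real Topology

theorem p_DIMY (hSTM : S_STM) :
    S_DIMY := by
  intro r
  have : Function.Injective (cl (n := r / 4) (Y r) (fun _ h => h.1.mf) fun i => i + 1) :=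
    (injective_iff_map_eq_zero _).2 fun y h => Subtype.ext (hSTM.2 r y y.2 fun n hn => by
      rcases n with _ | n
      · simpa using y.2.1.qe_zero
      · exact congrFun h ⟨n, hn⟩)
  exact ⟨.of_injective _ this, by simpa using LinearMap.finrank_le_finrank_of_injective this⟩

end Pool.Agent.P.MP_e7a540_nt.L1
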