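import Pool.Agent.P.MP_e7a540_nt.L1.IfaceA

/-! Step DIR. -/

set_option autoImplicit false
set_option linter.unusedSectionVars false

namespace Pool.Agent.P.MP_e7a540_nt.L1

open PowerSeries Finset

namespace DIRx

theorem a0_eq (r : ℕ) {n : ℕ} (hn : n ≠ 0) :
    a0 r n = ∑ p ∈ n.divisorsAntidiagonal, if Odd p.2 then (p.1 : ℂ) ^ (r - 1) else 0 := by
  rw [Nat.sum_divisorsAntidiagonal fun d e => if Odd e then (d : ℂ) ^ (r - 1) else 0, a0,
    sub_eq_iff_eq_add, ← sum_filter, sg, ArithmeticFunction.sigma_apply, Nat.cast_sum,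
    ← sum_filter_add_sum_filter_not n.divisors fun d => Odd (n / d)]
  simp only [Nat.cast_pow, add_right_inj]
  split_ifs with h
  · obtain ⟨k, rfl⟩ := h
    rw [Nat.mul_div_cancel_left _ two_pos, sg, ArithmeticFunction.sigma_apply, Nat.cast_sum]
    simp only [Nat.cast_pow]
    refine sum_congr (Finset.ext fun d => ?_) fun _ _ => rfl
    simp only [mem_filter, Nat.mem_divisors, Nat.not_odd_iff_even, even_iff_two_dvd]
    refine ⟨fun ⟨⟨h1, _⟩, h2⟩ => ⟨?_, by omega⟩, fun ⟨h1, _⟩ => ⟨⟨h1.mul_left 2, hn⟩, ?_⟩⟩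
    · exact Nat.dvd_of_mul_dvd_mul_left two_pos (mul_comm d 2 ▸ Nat.mul_dvd_of_dvd_div h1 h2)
    · rw [Nat.mul_div_assoc _ h1]
      exact dvd_mul_right _ _
  · refine sum_eq_zero fun d hd => absurd ?_ h
    rw [mem_filter, Nat.not_odd_iff_even, even_iff_two_dvd] at hd
    exact hd.2.trans (Nat.div_dvd_of_dvd (Nat.dvd_of_mem_divisors hd.1))

theorem norm_a0 {r n : ℕ} (hr : 1 ≤ r) (hn : n ≠ 0) : ‖a0 r n‖ ≤ (n : ℝ) ^ r := by
  rw [a0_eq r hn, Nat.sum_divisorsAntidiagonal fun d e => if Odd e then (d : ℂ) ^ (r - 1) else 0]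
  refine (norm_sum_le _ _).trans ((sum_le_card_nsmul _ _ ((n : ℝ) ^ (r - 1)) fun d hd => ?_).trans ?_)
  · split_ifs
    · rw [norm_pow, Complex.norm_natCast]
      exact pow_le_pow_left₀ (Nat.cast_nonneg _) (Nat.cast_le.2 (Nat.divisor_le hd)) _
    · simp
  · rw [nsmul_eq_mul, ← mul_pow_sub_one (by omega : r ≠ 0)]
    exact mul_le_mul_of_nonneg_right (Nat.cast_le.2 (Nat.card_divisors_le_self n)) (by positivity)

/-- The sequence supported on the odd squares. -/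
noncomputable def z (r m : ℕ) : ℂ :=
  if IsSquare m then od (fun d => (d : ℂ) ^ (3 * r - 2)) m.sqrt else 0

theorem z_sq (r t : ℕ) : z r (t * t) = od (fun d => (d : ℂ) ^ (3 * r - 2)) t := by
  rw [z, if_pos ⟨t, rfl⟩, Nat.sqrt_eq]

theorem L_z (r : ℕ) (s : ℂ) :
    LSeries (od fun d => (d : ℂ) ^ (3 * r - 2)) (2 * s) = LSeries (z r) s := by
  refine Eq.trans (tsum_congr fun t => ?_) (Function.Injective.tsum_eq (g := fun t : ℕ => t * t)
    (f := LSeries.term (z r) s) (fun _ _ => Nat.mul_self_inj.1) fun m hm => ?_)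
  · rw [LSeries.term_def, LSeries.term_def, z_sq, Nat.cast_mul, ← sq (t : ℂ),
      ← Complex.natCast_cpow_natCast_mul]
    simp
  · by_contra c
    refine hm ?_
    rw [LSeries.term_def, z, if_neg (c := IsSquare m) fun ⟨t, e⟩ => c ⟨t, e.symm⟩]
    simp

theorem key {r : ℕ} (hr : 1 ≤ r) (a : ℕ → ℂ) {N : ℕ} (hN : N ≠ 0) :
    ∑ p ∈ N.divisorsAntidiagonal, a p.1 * a0 r p.1 * z r p.2 =
      ∑ p ∈ N.divisorsAntidiagonal, ∑ t ∈ (p.1.gcd p.2).divisors, if Odd p.2 then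
        (p.1 : ℂ) ^ (r - 1) * ((t : ℂ) ^ (2 * r - 1) * a (p.1 * p.2 / t ^ 2)) else 0 := by
  rw [← sum_filter_of_ne (p := fun p : ℕ × ℕ => IsSquare p.2) fun p _ h => by_contra fun c =>
    h (by rw [z, if_neg c, mul_zero]), sum_congr rfl fun p hp => by
      rw [a0_eq r (Nat.left_ne_zero_of_mem_divisorsAntidiagonal (mem_filter.1 hp).1), mul_sum,
        sum_mul], sum_sigma', sum_sigma']
  refine sum_nbij' (fun x => ⟨(x.1.2.sqrt * x.2.1, x.1.2.sqrt * x.2.2), x.1.2.sqrt⟩)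
    (fun y => ⟨(y.1.1 / y.2 * (y.1.2 / y.2), y.2 * y.2), y.1.1 / y.2, y.1.2 / y.2⟩) ?_ ?_ ?_ ?_ ?_
  pick_goal 2
  pick_goal 4
  iterate 2
    rintro ⟨⟨d, e⟩, t⟩ h
    simp only [mem_sigma, Nat.mem_divisorsAntidiagonal, Nat.mem_divisors, Nat.dvd_gcd_iff] at h
    obtain ⟨⟨rfl, -⟩, ⟨⟨d, rfl⟩, e, rfl⟩, -⟩ := h
    have t0 : 0 < t := Nat.pos_of_ne_zero fun c => hN (by simp [c])
    simp_all [Nat.mul_div_cancel_left _ t0, mul_mul_mul_comm t d, mul_comm (t * t)]
  all_goals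
    rintro ⟨⟨n, m⟩, d, e⟩ h
    simp only [mem_sigma, mem_filter, Nat.mem_divisorsAntidiagonal] at h
    obtain ⟨⟨⟨rfl, -⟩, t, rfl⟩, rfl, -⟩ := h
    have t0 : 0 < t := Nat.pos_of_ne_zero fun c => hN (by simp [c])
    simp only [Nat.sqrt_eq]
  · simp_all [mul_mul_mul_comm t d, mul_comm (t * t), Nat.dvd_gcd_iff]
  · simp only [Nat.mul_div_cancel_left _ t0]
  · obtain ⟨k, rfl⟩ := Nat.exists_eq_add_of_le' hr
    rw [z_sq, od, mul_mul_mul_comm t d, ← sq, Nat.mul_div_cancel_left _ (pow_pos t0 2),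
      show 3 * (k + 1) - 2 = 3 * k + 1 by omega, show 2 * (k + 1) - 1 = 2 * k + 1 by omega]
    by_cases c : Odd t <;> by_cases c' : Odd e <;> simp [Nat.odd_mul, c, c']
    ring

end DIRx

theorem p_DIR (hHR : S_HR) :
    S_DIR := by
  intro r a C s hr he hC hs
  have S : ∀ (f : ℕ → ℂ) (B : ℝ), (∀ n ≠ 0, ‖f n‖ ≤ B * (n : ℝ) ^ (2 * r)) →
      LSeriesSummable f s := fun f B h =>
    LSeriesSummable_of_le_const_mul_rpow (x := 2 * r + 1) (by linarith) ⟨B, fun n hn => by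
      rw [add_sub_cancel_right]
      exact_mod_cast h n hn⟩
  have C0 : 0 ≤ C := by simpa using (norm_nonneg _).trans (hC 1)
  have T : ∀ (g : ℕ → ℂ), (∀ n ≠ 0, ‖g n‖ ≤ (n : ℝ) ^ r) →
      LSeriesSummable (fun n => a n * g n) s := fun g h => S _ C fun n hn => by
    rw [norm_mul, two_mul, pow_add, ← mul_assoc]
    exact mul_le_mul (hC n) (h n hn) (norm_nonneg _) (by positivity)
  have one : ∀ n ≠ 0, (1 : ℝ) ≤ (n : ℕ) := fun n hn => Nat.one_le_cast.2 (Nat.pos_of_ne_zero hn)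
  have s1 := T (fun n => (n : ℂ) ^ (r - 1)) fun n hn => by
    rw [norm_pow, Complex.norm_natCast]
    exact pow_le_pow_right₀ (one n hn) (by omega)
  have s2 := S (od a) C fun n hn => by
    unfold od
    split_ifs
    · exact (hC n).trans (mul_le_mul_of_nonneg_left (pow_le_pow_right₀ (one n hn) (by omega)) C0)
    · rw [norm_zero]
      positivity
  have s3 := T (a0 r) fun n hn => DIRx.norm_a0 hr hn
  have s4 := S (DIRx.z r) 1 fun n hn => by
    by_cases c : IsSquare n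
    · obtain ⟨t, rfl⟩ := c
      rw [DIRx.z_sq, od, Nat.cast_mul, ← sq, ← pow_mul, one_mul]
      split_ifs
      · rw [norm_pow, Complex.norm_natCast]
        exact pow_le_pow_right₀ (one t (left_ne_zero_of_mul hn)) (by omega)
      · simp
    · simp [DIRx.z, c]
  have e1 : LSeries a (s - r + 1) = LSeries (fun n => a n * (n : ℂ) ^ (r - 1)) s := by
    refine tsum_congr fun n => ?_
    rcases eq_or_ne n 0 with rfl | hn
    · simp
    · rw [LSeries.term_of_ne_zero hn, LSeries.term_of_ne_zero hn,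
        show s - r + 1 = s - (r - 1 : ℕ) by rw [Nat.cast_pred hr]; ring,
        Complex.cpow_sub _ _ (Nat.cast_ne_zero.2 hn), Complex.cpow_natCast, div_div_eq_mul_div]
  rw [e1, DIRx.L_z, mul_assoc, ← LSeries_convolution' s3 s4, ← LSeries_convolution' s1 s2,
    ← LSeries_smul]
  refine LSeries_congr (fun {N} hN => ?_) s
  simp only [LSeries.convolution_def, Pi.smul_apply, smul_eq_mul]
  rw [DIRx.key hr a hN, mul_sum]
  refine sum_congr rfl fun p _ => ?_
  unfold od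
  split_ifs with c
  · rw [← mul_sum, mul_left_comm, ← hHR _ a he _ _ c]
    ring
  · simp

end Pool.Agent.P.MP_e7a540_nt.L1
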