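import Pool.Agent.P.MP_e7a540_nt.L1.IfaceB

/-! Step EI. -/

set_option autoImplicit false
set_option linter.unusedSectionVars false

namespace Pool.Agent.P.MP_e7a540_nt.L1

open UpperHalfPlane hiding I
open CongruenceSubgroup ModularGroup Complex MeasureTheory PowerSeries Finset Filter
open scoped MatrixGroups ModularForm Manifold ComplexConjugate Real Topology

namespace EIx

theorem kap_ne {r : ℕ} (he : Even r) (h4 : 4 ≤ r) : kap r ≠ 0 := by
  obtain ⟨k, rfl⟩ := even_iff_exists_two_mul.1 he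
  have h : ((bernoulli (2 * k) : ℚ) : ℂ) ≠ 0 := fun h => by
    refine riemannZeta_ne_zero_of_one_lt_re (s := 2 * k) ?_
      (by rw [riemannZeta_two_mul_nat (by omega), h]; simp)
    have : (1 : ℝ) < 2 * k := by exact_mod_cast (by omega : 1 < 2 * k)
    simpa using this
  exact neg_ne_zero.2 (div_ne_zero (mul_ne_zero two_ne_zero (Nat.cast_ne_zero.2 (by omega))) h)

end EIx

theorem p_EI (hFORM : S_FORM) (hD2 : S_D2) :
    S_EI := by
  intro r he h4
  have h3 : 3 ≤ r := by omega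
  have k0 := EIx.kap_ne he h4
  have e0 : Es r = ModularForm.E h3 := dif_pos h3
  have m1 : MF1 r (Es r) := (hFORM r _).2.2.1.2 ⟨_, e0.symm⟩
  have c1 : ∀ n, coeff n (qe (Es r)) = if n = 0 then 1 else kap r * sg r n := fun n => by
    rw [e0]; exact EisensteinSeries.E_qExpansion_coeff h3 he n
  obtain ⟨m2, c2, s2, w1, w2⟩ := hD2 r _ m1
  obtain ⟨G, hG⟩ : ∃ G : ℍ → ℂ, G = fun τ => Es r (af 2 0 τ) := ⟨_, rfl⟩
  rw [← hG] at m2 c2 s2
  have ei : Ei r = (kap r)⁻¹ • (Es r + (-(2 : ℂ) ^ r) • G) := funext fun τ => by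
    simp only [Ei, hG, Pi.smul_apply, Pi.add_apply, smul_eq_mul]; ring
  have ez : E0 r = (kap r)⁻¹ • (Es r + (-1 : ℂ) • G) := funext fun τ => by
    simp only [E0, hG, Pi.smul_apply, Pi.add_apply, smul_eq_mul]; ring
  have mi : MF r (Ei r) := ei ▸ (m1.mf.add (m2.smul _)).smul _
  have mz : MF r (E0 r) := ez ▸ (m1.mf.add (m2.smul _)).smul _
  have cq : ∀ (c : ℂ) (n : ℕ), coeff n (qe ((kap r)⁻¹ • (Es r + (-c) • G))) =
      if n = 0 then (1 - c) / kap r else sg r n - if 2 ∣ n then c * sg r (n / 2) else 0 := by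
    intro c n
    rw [(m1.mf.add (m2.smul _)).qe_smul, m1.mf.qe_add (m2.smul _), m2.qe_smul, coeff_smul, map_add,
      coeff_smul, c1, c2, c1, smul_eq_mul, smul_eq_mul]
    by_cases h : n = 0
    · simp [h, div_eq_inv_mul, sub_eq_add_neg]
    · by_cases h' : 2 ∣ n
      · rw [if_neg h, if_neg h, if_pos h', if_pos h', if_neg (by omega)]
        field_simp
        ring
      · rw [if_neg h, if_neg h, if_neg h', if_neg h']
        field_simp
        ring
  have qz : qe (E0 r) = mk (a0 r) := by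
    ext n
    rw [ez, cq, coeff_mk, a0]
    split_ifs with h u u <;> simp_all [sg]
  have zi : IsZeroAtImInfty (sl r (Ei r) S) := by
    have t1 := m1.mf.qe.tendsto one_ne_zero
    have t2 := (t1.sub (t1.comp (tendsto_af (a := 2⁻¹) (by norm_num) 0))).const_mul (kap r)⁻¹
    rw [sub_self, mul_zero] at t2
    refine t2.congr fun τ => ?_
    rw [ei, sl_smul, sl_add, sl_smul, inv_iff.1 m1.inv S (mem_G0.2 (one_dvd _))]
    simp only [Pi.smul_apply, Pi.add_apply, smul_eq_mul, s2, Function.comp]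
    field_simp
    ring
  refine ⟨k0, ⟨mi, zi⟩, ?_, mz, qz, ?_, fun τ => ?_⟩
  · ext n
    rw [ei, cq, coeff_mk, ai]
  · rw [two_mul]
    refine mz.mul_cf mi ((mz.qe.zero_iff one_ne_zero).2 ?_) zi
    rw [qz, ← coeff_zero_eq_constantCoeff_apply, coeff_mk]
    simp [a0, sg]
  · simp only [Pi.mul_apply, E0, Ei, w1, w2]
    ring

end Pool.Agent.P.MP_e7a540_nt.L1
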