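import Pool.Agent.P.MP_e7a540_nt.L1.IfaceB

/-! Step FIN. -/

set_option autoImplicit false
set_option linter.unusedSectionVars false

namespace Pool.Agent.P.MP_e7a540_nt.L1

open UpperHalfPlane hiding I
open CongruenceSubgroup ModularGroup Complex MeasureTheory PowerSeries Finset Filter
open scoped MatrixGroups ModularForm Manifold ComplexConjugate Real Topology

namespace FINx

lemma hs {N r : ℕ} [NeZero N] (hk : 0 < ((2 * r : ℕ) : ℤ)) (f : CuspForm (Gamma0 N) (2 * r : ℕ))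
    {s : ℂ} (h : r + 1 < s.re) :
    HasSum (fun n : ℕ => cf (qe f) n / (n : ℂ) ^ s) (ModularForm.L hk f s) := by
  have := CuspForm.hasSum_L hk f (s := s) (by push_cast; linarith)
  rw [strictWidthInfty_Gamma0] at this
  simpa using! this

lemma ls {a : ℕ → ℂ} {s L : ℂ} (h0 : 0 < s.re) (h : HasSum (fun n : ℕ => a n / (n : ℂ) ^ s) L) :
    L = LSeries a s := by
  rw [LSeries, ← h.tsum_eq]
  refine tsum_congr fun n => ?_
  rcases eq_or_ne n 0 with rfl | hn
  · simp [zero_cpow (show s ≠ 0 by rintro rfl; simp at h0)]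
  · rw [LSeries.term_of_ne_zero hn]

lemma eig {w : ℕ} {a : ℕ → ℂ} (c : ℂ) (h : Eig w a) :
    Eig w fun n => a n + c * if 2 ∣ n then a (n / 2) else 0 := fun l hl h2 => by
  obtain ⟨μ, hμ⟩ := h l hl h2
  have hc : Nat.Coprime l 2 := (Nat.coprime_primes hl Nat.prime_two).2 h2
  refine ⟨μ, fun n => ?_⟩
  have h1 := hμ n
  by_cases hn : 2 ∣ n
  · obtain ⟨m, rfl⟩ := hn
    have h3 := hμ m
    simp only [iT] at h1 h3 ⊢
    rw [if_pos (Dvd.dvd.mul_left (dvd_mul_right 2 m) l), if_pos (dvd_mul_right 2 m),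
      show l * (2 * m) / 2 = l * m by rw [mul_left_comm]; omega, show 2 * m / 2 = m by omega]
    by_cases hm : l ∣ m
    · obtain ⟨j, rfl⟩ := hm
      have e : 2 * (l * j) / l = 2 * j := by
        rw [mul_left_comm, Nat.mul_div_cancel_left _ hl.pos]
      rw [if_pos (Dvd.dvd.mul_left (dvd_mul_right l j) 2), e] at h1 ⊢
      rw [if_pos (dvd_mul_right l j), Nat.mul_div_cancel_left _ hl.pos] at h3
      rw [if_pos (dvd_mul_right 2 j), show 2 * j / 2 = j by omega]
      linear_combination h1 + c * h3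
    · have : ¬ l ∣ 2 * m := fun h' => hm (hc.dvd_of_dvd_mul_left h')
      rw [if_neg this] at h1 ⊢
      rw [if_neg hm] at h3
      linear_combination h1 + c * h3
  · simp only [iT] at h1 ⊢
    rw [if_neg fun h' => hn (hc.symm.dvd_of_dvd_mul_left h'), if_neg hn]
    split_ifs at h1 ⊢ with h4 h5
    · exact absurd (h5.trans (Nat.div_dvd_of_dvd h4)) hn
    · linear_combination h1
    · linear_combination h1

lemma two {a : ℕ → ℂ} {s L : ℂ} (h : HasSum (fun n : ℕ => a n / (n : ℂ) ^ s) L) :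
    HasSum (fun n : ℕ => (if 2 ∣ n then a (n / 2) else 0) / (n : ℂ) ^ s) (L / 2 ^ s) := by
  rw [← (mul_right_injective₀ (show (2 : ℕ) ≠ 0 by norm_num)).hasSum_iff fun n hn => by
    rw [if_neg fun ⟨k, hk⟩ => hn ⟨k, hk.symm⟩, zero_div]]
  refine (h.div_const (2 ^ s)).congr_fun fun n => ?_
  simp only [Function.comp, dvd_mul_right, if_true, show 2 * n / 2 = n by omega]
  rw [Nat.cast_mul, natCast_mul_natCast_cpow, div_div, mul_comm, Nat.cast_ofNat]

end FINx

open FINx in
theorem p_FIN (hCORE : S_CORE) (hFORM : S_FORM) (hD2 : S_D2) :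
    S_FIN := by
  have hr : ∀ r : ℕ, (((2 * r : ℕ) : ℂ) / 2) = r := fun r => by push_cast; ring
  have h0 : ∀ (r : ℕ) (s : ℂ), r + 1 < s.re → 0 < s.re := fun r s h =>
    lt_trans (by positivity) h
  constructor
  · rintro k hk f ⟨j, hj⟩ h1 hE
    obtain ⟨r, rfl, he⟩ : ∃ r, k = 2 * r ∧ Even r := ⟨2 * j, by omega, even_two_mul j⟩
    obtain ⟨hf, hz⟩ := (hFORM (2 * r) f).2.2.2 f
    obtain ⟨hg, hq, hS, hW, hW'⟩ := hD2 (2 * r) f hf
    set g : ℍ → ℂ := fun τ => f (af 2 0 τ) with hgd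
    have hm := hf.mf.add (hg.smul (2 ^ r))
    have hc : cf (qe (⇑f + (2 : ℂ) ^ r • g)) =
        fun n => cf (qe f) n + 2 ^ r * if 2 ∣ n then cf (qe f) (n / 2) else 0 := by
      funext n
      rw [hf.mf.qe_add (hg.smul _), hg.qe_smul]
      simp only [cf, map_add, coeff_smul, smul_eq_mul, hq]
    have hy : ⇑f + (2 : ℂ) ^ r • g ∈ Y r := by
      refine ⟨⟨hm.hol, hm.inv, hz.add (ZeroAtFilter.smul _ (hz.comp (tendsto_af two_pos 0))), ?_⟩,
        fun τ => ?_⟩
      · rw [sl_add, sl_smul, inv_iff.1 hf.inv S (mem_G0.2 (one_dvd _)), funext hS]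
        exact hz.add (ZeroAtFilter.smul _ (ZeroAtFilter.smul (((2 : ℂ) ^ (2 * r))⁻¹)
          (hz.comp (tendsto_af (inv_pos.2 two_pos) 0))))
      · simp only [Pi.add_apply, Pi.smul_apply, smul_eq_mul, hgd, hW, hW']
        ring
    have := hCORE r _ (fun s => ModularForm.L hk f s + 2 ^ r * (ModularForm.L hk f s / 2 ^ s)) he hy
      (hc ▸ eig _ hE) (by simpa [hc] using h1)
      ((CuspForm.differentiable_L hk f).add (((CuspForm.differentiable_L hk f).div
        (differentiable_id.const_cpow (.inl two_ne_zero))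
        fun s => by simp).const_mul _)) fun s h => ls (h0 r s h) (by
        rw [hc]
        simpa only [add_div, mul_div_assoc] using (hs hk f h).add ((two (hs hk f h)).mul_left _))
    rw [hr]
    exact fun h => this (by simp [h])
  · rintro k hk f ⟨j, hj⟩ h1 hE hW
    obtain ⟨r, rfl, he⟩ : ∃ r, k = 2 * r ∧ Even r := ⟨2 * j, by omega, even_two_mul j⟩
    rw [hr]
    rw [show 2 * r / 2 = r by omega] at hW
    exact hCORE r f _ he ⟨(hFORM (2 * r) f).2.1.2 ⟨f, rfl⟩, hW⟩ hE h1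
      (CuspForm.differentiable_L hk f) fun s h => ls (h0 r s h) (hs hk f h)

end Pool.Agent.P.MP_e7a540_nt.L1
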