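import Pool.Agent.P.MP_e7a540_nt.L1.IfaceU

/-! Step HD. -/

set_option autoImplicit false
set_option linter.unusedSectionVars false

namespace Pool.Agent.P.MP_e7a540_nt.L1

open UpperHalfPlane hiding I
open CongruenceSubgroup ModularGroup Complex MeasureTheory PowerSeries Finset Filter
open scoped MatrixGroups ModularForm Manifold ComplexConjugate Real Topology

theorem p_HD (hVB : S_VB) (hPA : S_PA) (hPB : S_PB) (hEI : S_EI) :
    S_HD := by
  intro r φ F he hr hφ hF h0
  have h3 : 3 ≤ r := by omega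
  obtain ⟨⟨-, C', bF⟩, ⟨C, bu⟩, -⟩ := hVB r F hF
  have h := U.half hφ.wg h3 hr (ψ := psi) (F := F) (c := cs F)
    (u := fun z => √z.im * ‖psi z‖ ^ 2) (fun _ => rfl) (by simpa using hPA.1.ser)
    (cs_ser hPA hF.1) cs_mod (fun γ hγ z => ?_) hF.1.inv.den (C := C) (C' := C')
    (fun z => by simpa [uH_eq'] using bu z) fun z => uH_eq' r z ▸ bF z
  · have e : ip φ (uH r) F (Ei r) = -(conj (kap r))⁻¹ * (U.c1 r * ∑' m, Dt r (cs F) m) := by
      rw [← h.2, ip, ← integral_const_mul]
      refine integral_congr_ae (ae_of_all _ fun z => ?_)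
      simp only [Ei_eq h3, uH_eq', map_mul, map_neg, map_inv₀]
      push_cast; ring
    rw [e] at h0
    exact (mul_eq_zero.1 ((mul_eq_zero.1 h0).resolve_left (neg_ne_zero.2 (inv_ne_zero
      ((map_ne_zero _).2 (hEI r he hr).1))))).resolve_left (U.c1_ne (by omega))
  · have := norm_pos_iff.2 (dn_ne γ z)
    rw [hPB.2.2 γ hγ, im_smul', Real.sqrt_div z.im_pos.le, Real.sqrt_sq this.le]
    field_simp

end Pool.Agent.P.MP_e7a540_nt.L1
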