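import Pool.Agent.P.MP_e7a540_nt.L1.IfaceA

/-! Step HR. -/

set_option autoImplicit false
set_option linter.unusedSectionVars false

namespace Pool.Agent.P.MP_e7a540_nt.L1

open PowerSeries Finset

namespace HRx

noncomputable def F (k : ℕ) (a : ℕ → ℂ) (x y : ℕ) : ℂ :=
  ∑ d ∈ (x.gcd y).divisors, (d : ℂ) ^ k * a (x * y / d ^ 2)

theorem F_symm (k : ℕ) (a : ℕ → ℂ) (x y : ℕ) : F k a x y = F k a y x := by
  rw [F, F, Nat.gcd_comm, mul_comm x y]

theorem key (k : ℕ) (a : ℕ → ℂ) {l : ℕ} (hl : l.Prime) (x y : ℕ) (h : x.gcd y ≠ 0) :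
    F k a (l * x) y = (∑ d ∈ (x.gcd y).divisors with ¬ l ∣ d, (d : ℂ) ^ k * a (l * (x * y) / d ^ 2)) +
      if l ∣ y then (l : ℂ) ^ k * F k a x (y / l) else 0 := by
  have l0 := hl.pos
  have h' : (l * x).gcd y ≠ 0 := by
    rw [Ne, Nat.gcd_eq_zero_iff] at h ⊢
    rintro ⟨a1, a2⟩
    exact h ⟨(mul_eq_zero.1 a1).resolve_left l0.ne', a2⟩
  rw [F, ← sum_filter_add_sum_filter_not _ (fun d => l ∣ d), add_comm, mul_assoc]
  congr 1
  · refine sum_congr ?_ fun _ _ => rfl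
    ext d
    simp only [mem_filter, Nat.mem_divisors, Nat.dvd_gcd_iff]
    constructor
    · rintro ⟨⟨⟨a1, a2⟩, -⟩, a3⟩
      exact ⟨⟨⟨((Nat.Prime.coprime_iff_not_dvd hl).2 a3).symm.dvd_of_dvd_mul_left a1, a2⟩, h⟩, a3⟩
    · rintro ⟨⟨⟨a1, a2⟩, -⟩, a3⟩
      exact ⟨⟨⟨a1.mul_left l, a2⟩, h'⟩, a3⟩
  · split_ifs with e
    · obtain ⟨y, rfl⟩ := e
      rw [Nat.mul_div_cancel_left _ l0, F, mul_sum, Nat.gcd_mul_left] at *
      have g0 : x.gcd y ≠ 0 := fun g => h' (by rw [g, mul_zero])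
      symm
      refine sum_nbij (fun d => l * d) (fun d hd => ?_) (fun d _ d' _ e => ?_) (fun d hd => ?_)
        fun d _ => ?_
      · exact mem_filter.2 ⟨Nat.mem_divisors.2
          ⟨Nat.mul_dvd_mul_left l (Nat.dvd_of_mem_divisors hd), h'⟩, dvd_mul_right _ _⟩
      · exact Nat.eq_of_mul_eq_mul_left l0 e
      · obtain ⟨a1, d, rfl⟩ := mem_filter.1 (mem_coe.1 hd)
        exact ⟨d, mem_coe.2 (Nat.mem_divisors.2
          ⟨Nat.dvd_of_mul_dvd_mul_left l0 (Nat.dvd_of_mem_divisors a1), g0⟩), rfl⟩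
      · rw [show l * (x * (l * y)) = l ^ 2 * (x * y) by ring, mul_pow,
          Nat.mul_div_mul_left _ _ (pow_pos l0 2)]
        push_cast
        ring
    · refine sum_eq_zero fun d hd => ?_
      obtain ⟨a1, a2⟩ := mem_filter.1 hd
      exact absurd (a2.trans ((Nat.dvd_of_mem_divisors a1).trans (Nat.gcd_dvd_right _ _))) e

theorem eig (w : ℕ) (a : ℕ → ℂ) (h : Eig w a) (e : ℕ) :
    Odd e → ∃ t : ℂ, ∀ n, F (w - 1) a n e = t * a n := by
  induction e using Nat.strong_induction_on with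
  | _ e ih =>
  intro he
  by_cases e1 : e = 1
  · exact ⟨1, fun n => by simp [e1, F]⟩
  obtain ⟨l, hl, e, rfl⟩ := Nat.exists_prime_and_dvd e1
  have o1 := (Nat.odd_mul.1 he).1
  have o2 := (Nat.odd_mul.1 he).2
  have e0 := o2.pos
  have lt : e < l * e := lt_mul_of_one_lt_left e0 hl.one_lt
  obtain ⟨μ, hμ⟩ := h l hl (by rintro rfl; exact absurd o1 (by decide))
  obtain ⟨t, ht⟩ := ih e lt o2
  obtain ⟨s, hs⟩ : ∃ s : ℂ, ∀ n, (if l ∣ e then (l : ℂ) ^ (w - 1) * F (w - 1) a n (e / l) else 0) =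
      s * a n := by
    split_ifs with d
    · obtain ⟨s, hs⟩ := ih (e / l) ((Nat.div_le_self _ _).trans_lt lt)
        (o2.of_dvd_nat (Nat.div_dvd_of_dvd d))
      exact ⟨(l : ℂ) ^ (w - 1) * s, fun n => by rw [hs, mul_assoc]⟩
    · exact ⟨0, by simp⟩
  refine ⟨t * μ - s, fun n => ?_⟩
  have g : n.gcd e ≠ 0 := Nat.gcd_ne_zero_right e0.ne'
  have k1 := key (w - 1) a hl n e g
  have k2 := key (w - 1) a hl e n (by rwa [Nat.gcd_comm])
  rw [hs, ht] at k1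
  rw [F_symm, Nat.gcd_comm, mul_comm e n, F_symm _ _ e, ht] at k2
  have k3 := hμ n
  rw [iT] at k3
  split_ifs at k2 k3
  · linear_combination k2 - k1 + t * k3
  · linear_combination k2 - k1 + t * k3

end HRx

theorem p_HR :
    S_HR := by
  intro w a h e n he
  obtain ⟨t, ht⟩ := HRx.eig w a h e he
  have h1 := ht 1
  have h2 := ht n
  rw [HRx.F] at h2
  simp only [HRx.F, Nat.gcd_one_left, Nat.divisors_one, sum_singleton, Nat.cast_one, one_pow,
    one_mul, Nat.div_one] at h1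
  rw [h1, h2]
  ring

end Pool.Agent.P.MP_e7a540_nt.L1
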