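import Pool.Agent.P.MP_e7a540_nt.L1.TH7
import Pool.Agent.P.MP_e7a540_nt.L1.BaseC

/-! Translation between the two sets of definitions. -/

set_option autoImplicit false

namespace Pool.Agent.P.MP_e7a540_nt.L1

open UpperHalfPlane hiding I
open CongruenceSubgroup ModularGroup Complex MeasureTheory PowerSeries Finset Filter
open scoped MatrixGroups ModularForm Manifold ComplexConjugate Real Topology

lemma psi_eq : psi = TH.ps := by
  funext t
  rw [psi, ← (TH.ps_hasSum' t).tsum_eq]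
  refine tsum_congr fun m => ?_
  rw [ee]
  congr 1
  push_cast
  ring

lemma inv_th {k : ℕ} {F : ℍ → ℂ} : Inv 2 k F ↔ TH.Inv k F :=
  ⟨fun h g t => h g.1 g.2 t, fun h g hg t => h ⟨g, hg⟩ t⟩

lemma wt_th {φ : ℍ → ℝ} (h : Wt (Gamma0 2) φ) : TH.Wt φ := ⟨h.int, h.pos, ae_of_all _ h.sum⟩

lemma uH_eq (r : ℕ) (z : ℍ) : uH r z = TH.uu z * z.im ^ r := by
  rw [uH, TH.uu, psi_eq]; ring

lemma qe8_iff {g : ℍ → ℂ} {P : ℂ⟦X⟧} : QE 8 g P ↔
    ∀ t : ℍ, HasSum (fun n : ℕ => cf P n * cexp (2 * π * I * n * t / 8)) (g t) := by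
  refine forall_congr' fun t => iff_of_eq (congrArg (HasSum · _) (funext fun n => ?_))
  rw [ee, cf]
  congr 2
  push_cast
  ring

lemma qe1_iff {g : ℍ → ℂ} {P : ℂ⟦X⟧} : QE 1 g P ↔
    ∀ t : ℍ, HasSum (fun n : ℕ => cf P n * cexp (2 * π * I * n * t)) (g t) := by
  refine forall_congr' fun t => iff_of_eq (congrArg (HasSum · _) (funext fun n => ?_))
  rw [ee, cf]
  congr 2
  push_cast
  ring

lemma act_WW (t : ℍ) : TH.act TH.WW t = Wz t := by
  ext1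
  rw [TH.coe_act TH.WW_pos, coe_Wz]
  simp [TH.WW, TH.den]

lemma fricke_iff {r : ℕ} {y : ℍ → ℂ} (t : ℍ) : y (Wz t) = 2 ^ r * (t : ℂ) ^ (2 * r) * y t ↔
    TH.sl (2 * r) TH.WW y t = ((2 : ℂ) ^ r)⁻¹ * y t := by
  have h : TH.den TH.WW t = 2 * t := by simp [TH.WW, TH.den]
  have h0 : (t : ℂ) ≠ 0 := t.ne_zero
  rw [TH.sl, act_WW, h, div_eq_iff (by simp [h0])]
  refine Eq.congr_right ?_
  rw [mul_pow, two_mul r, pow_add (2 : ℂ)]
  field_simp

end Pool.Agent.P.MP_e7a540_nt.L1
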