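import Pool.Agent.P.MP_e7a540_nt.L1.IfaceH
import Pool.Agent.P.MP_e7a540_nt.L1.IfaceB
import Pool.Agent.P.MP_e7a540_nt.L1.TH8

/-! Step HX. -/

set_option autoImplicit false
set_option linter.unusedSectionVars false

namespace Pool.Agent.P.MP_e7a540_nt.L1

open UpperHalfPlane hiding I
open CongruenceSubgroup ModularGroup Complex MeasureTheory PowerSeries Finset Filter
open scoped MatrixGroups ModularForm Manifold ComplexConjugate Real Topology

theorem p_HX (hPA : S_PA) (hVB : S_VB) (hVM : S_VM) :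
    S_HX := by
  intro r l hr hp hl2
  haveI : NeZero l := ⟨hp.ne_zero⟩
  have hl := hp.odd_of_ne_two hl2
  have hb : ∀ F ∈ V r, ∃ C, ∀ t : ℍ, TH.uu t * t.im ^ r * ‖F t‖ ^ 2 ≤ C := fun F hF => by
    simpa only [uH_eq] using (hVB r F hF).1.2
  refine ⟨TH.hOp r l, fun F hF => ?_, fun φ F G hφ hF hG => ?_⟩
  · have h1 : QE 8 (psi * F) (toC dZ * e8 (qe F)) := hPA.1.mul (qe_e8.2 hF.1.qe)
    rw [qe8_iff, psi_eq] at h1
    have h2 : QE 8 (psi * TH.hOp r l F) (mk (hT r l (cs F))) := by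
      rw [qe8_iff, psi_eq]
      intro t
      refine TH.hasSum_congr_aux (TH.hOp_hasSum hp hl hr h1 t) fun n => ?_
      simp [cf, hT, chi, cs]
    have h3 := hVM r _ _ (TH.hOp_mdiff hp hl hF.1.hol) (inv_th.2 (TH.hOp_inv hl (inv_th.1 hF.1.inv))) h2
      (by simpa only [uH_eq] using TH.hOp_bound hp hl (hb F hF))
    refine ⟨h3.1, h3.2.trans (funext fun n => ?_)⟩
    simp [cf]
  · have := TH.hOp_adj (wt_th hφ) hp hl (inv_th.1 hF.1.inv) (inv_th.1 hG.1.inv)
      hF.1.hol.continuous hG.1.hol.continuous (hb F hF) (hb G hG)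
    simpa only [ip, uH_eq, mul_assoc] using this

end Pool.Agent.P.MP_e7a540_nt.L1
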