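import Pool.Agent.P.MP_e7a540_nt.L1.IfaceB

/-! Step IP. -/

set_option autoImplicit false
set_option linter.unusedSectionVars false

namespace Pool.Agent.P.MP_e7a540_nt.L1

open UpperHalfPlane hiding I
open CongruenceSubgroup ModularGroup Complex MeasureTheory PowerSeries Finset Filter
open scoped MatrixGroups ModularForm Manifold ComplexConjugate Real Topology

theorem p_IP :
    S_IP := by
  intro Γ φ u hφ hu u0
  have hi : ∀ F G, Bd u F → Bd u G →
      Integrable fun z => (φ z : ℂ) * (u z * (F z * conj (G z))) := by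
    rintro F G ⟨cF, C, hC⟩ ⟨cG, D, hD⟩
    refine hφ.int.ofReal.mul_bdd (c := C + D) (Continuous.aestronglyMeasurable (by fun_prop))
      (ae_of_all _ fun z => ?_)
    rw [norm_mul, norm_mul, norm_conj, norm_real, Real.norm_of_nonneg (u0 z)]
    nlinarith [hC z, hD z, mul_nonneg (u0 z) (sq_nonneg (‖F z‖ - ‖G z‖)),
      mul_nonneg (u0 z) (mul_nonneg (norm_nonneg (F z)) (norm_nonneg (G z)))]
  refine ⟨fun F F' G hF hF' hG => ?_, fun c F G => ?_, fun F G => ?_⟩
  · rw [ip, ip, ip, ← integral_add (hi F G hF hG) (hi F' G hF' hG)]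
    congr 1
    funext z
    simp only [Pi.add_apply]
    ring
  · rw [ip, ip, ← integral_const_mul]
    congr 1
    funext z
    simp only [Pi.smul_apply, smul_eq_mul]
    ring
  · rw [ip, ip, ← integral_conj]
    congr 1
    funext z
    simp [mul_comm]

end Pool.Agent.P.MP_e7a540_nt.L1
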