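import Pool.Agent.P.MP_e7a540_nt.L1.IfaceH
import Pool.Agent.P.MP_e7a540_nt.L1.IfaceB
import Pool.Agent.P.MP_e7a540_nt.L1.TH8

/-! Step IX. -/

set_option autoImplicit false
set_option linter.unusedSectionVars false

namespace Pool.Agent.P.MP_e7a540_nt.L1

open UpperHalfPlane hiding I
open CongruenceSubgroup ModularGroup Complex MeasureTheory PowerSeries Finset Filter
open scoped MatrixGroups ModularForm Manifold ComplexConjugate Real Topology

theorem p_IX (hCB : S_CB) :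
    S_IX := by
  intro r l hr hp hl2
  have hl := hp.odd_of_ne_two hl2
  refine ⟨TH.iOp (2 * r) l, fun y hy => ?_, fun φ y z hφ hy hz => ?_⟩
  · have hi := inv_th.1 hy.1.inv
    have hm := TH.iOp_mdiff (w := 2 * r) hl hy.1.hol
    have hc : CF (2 * r) (TH.iOp (2 * r) l y) := hCB.2.1 _ _ (by omega) hm
      (inv_th.2 (TH.iOp_inv hl hi)) ⟨hm.continuous, TH.iOp_bound hl (hCB.1 _ _ hy.1).2⟩
    refine ⟨⟨hc, fun τ => (fricke_iff τ).2
      (TH.iOp_W hl hi _ (fun t => (fricke_iff t).1 (hy.2 t)) τ)⟩, ?_⟩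
    have h2 : QE 1 (TH.iOp (2 * r) l y) (mk (iT (2 * r) l (cf (qe y)))) := by
      rw [qe1_iff]
      intro t
      refine TH.hasSum_congr_aux
        (TH.iOp_hasSum hp hl2 (by omega) (qe1_iff.1 hy.1.mf.qe) t) fun n => ?_
      simp [cf, iT]
    rw [h2.qe]
    funext n
    simp [cf]
  · have := TH.iOp_adj (wt_th hφ) hl (inv_th.1 hy.1.inv) (inv_th.1 hz.1.inv)
      hy.1.hol.continuous hz.1.hol.continuous (hCB.1 _ _ hy.1).2 (hCB.1 _ _ hz.1).2
    simpa only [ip, uI, mul_assoc, ofReal_pow] using this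

end Pool.Agent.P.MP_e7a540_nt.L1
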