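import Pool.Agent.P.MP_e7a540_nt.L1.IfaceB

/-! Step KG. -/

set_option autoImplicit false
set_option linter.unusedSectionVars false

namespace Pool.Agent.P.MP_e7a540_nt.L1

open UpperHalfPlane hiding I
open CongruenceSubgroup ModularGroup Complex MeasureTheory PowerSeries Finset Filter
open scoped MatrixGroups ModularForm Manifold ComplexConjugate Real Topology

theorem p_KG :
    S_KG := by
  rintro _ _ τ ⟨k, rfl⟩ ⟨j, rfl⟩
  have e (n : ℤ) : (-1 : ℂ) ^ n = ee (n / 2) := by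
    rw [← ee_half, ee, ee, ← exp_int_mul]
    congr 1
    ring
  have h (m : ℤ) : Kt ((2 * k : ℤ) / 2) ((2 * j + 1 : ℤ) / 2) τ (Equiv.subRight k m) =
      ee ((2 * j + 1 : ℤ) / 4 + (2 * k : ℤ) * (2 * j + 1 : ℤ) / 8) * ee ((2 * m + 1) ^ 2 * τ / 8) := by
    rw [Kt, e, ← ee_add, ← ee_add]
    refine ee_congr ((m - k) * (j + 1)) ?_
    simp only [Equiv.subRight_apply]
    push_cast
    ring
  rw [K, ← (Equiv.subRight k).tsum_eq, tsum_congr h, tsum_mul_left, mul_comm (2 : ℂ), mul_assoc, psi]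
  congr 1
  have e' (m : ℕ) : ee ((2 * (-(m + 1) : ℤ) + 1) ^ 2 * τ / 8) = ee ((2 * m + 1) ^ 2 * τ / 8) := by
    congr 1
    push_cast
    ring
  by_cases c : Summable fun m : ℕ => ee ((2 * m + 1) ^ 2 * τ / 8)
  · rw [tsum_of_nat_of_neg_add_one (f := fun m : ℤ => ee ((2 * m + 1) ^ 2 * τ / 8)) c
      (by simpa only [e'] using c), tsum_congr e', two_mul]
    rfl
  · rw [tsum_eq_zero_of_not_summable c, mul_zero]
    exact tsum_eq_zero_of_not_summable fun c' => c (c'.comp_injective Nat.cast_injective)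

end Pool.Agent.P.MP_e7a540_nt.L1
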