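import Pool.Agent.P.MP_e7a540_nt.L1.IfaceB

/-! Step KS. -/

set_option autoImplicit false
set_option linter.unusedSectionVars false

namespace Pool.Agent.P.MP_e7a540_nt.L1

open UpperHalfPlane hiding I
open CongruenceSubgroup ModularGroup Complex MeasureTheory PowerSeries Finset Filter
open scoped MatrixGroups ModularForm Manifold ComplexConjugate Real Topology

namespace KSx

lemma neg_one_zpow_ee (n : ℤ) : ((-1 : ℂ)) ^ n = ee (n / 2) := by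
  rw [ee, ← exp_pi_mul_I, ← exp_int_mul]; congr 1; ring

lemma K_eq (a b : ℝ) (τ : ℍ) : K a b τ =
    ee ((1 / 2 + a) ^ 2 * τ / 2 + (1 / 2 + a / 2) * b) *
      jacobiTheta₂ ((1 / 2 + a) * τ + b + 1 / 2) τ := by
  rw [K, jacobiTheta₂, ← tsum_mul_left]
  refine tsum_congr (fun n => ?_)
  rw [Kt, neg_one_zpow_ee, jacobiTheta₂_term]
  simp only [ee, ← Complex.exp_add]
  congr 1; ring

lemma theta_S (z t : ℂ) (ht : t ≠ 0) : jacobiTheta₂ (z / t) (-1 / t) =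
    (-I * t) ^ (1 / 2 : ℂ) * ee (z ^ 2 / (2 * t)) * jacobiTheta₂ z t := by
  have h0 : (-I * t) ^ (1 / 2 : ℂ) ≠ 0 := by
    rw [Ne, cpow_eq_zero_iff]; simp [ht]
  have h1 : ee (z ^ 2 / (2 * t)) * cexp (-π * I * z ^ 2 / t) = 1 := by
    rw [ee, ← Complex.exp_add, ← Complex.exp_zero]; congr 1; field_simp; ring
  rw [jacobiTheta₂_functional_equation z t]
  have h2 : (-I * t) ^ (1 / 2 : ℂ) * (1 / (-I * t) ^ (1 / 2 : ℂ)) = 1 := by field_simp
  linear_combination (-(jacobiTheta₂ (z / t) (-1 / t))) * h1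
    - (ee (z ^ 2 / (2 * t)) * cexp (-π * I * z ^ 2 / t) * jacobiTheta₂ (z / t) (-1 / t)) * h2

end KSx

open KSx in
theorem p_KS :
    S_KS := by
  intro τ
  have ht : (τ : ℂ) ≠ 0 := τ.ne_zero
  refine ⟨(-I * τ) ^ (1 / 2 : ℂ) * ee (-(1 / 4)), ?_, fun a b => ?_⟩
  · have h1 : ((-I * τ) ^ (1 / 2 : ℂ)) ^ 2 = -I * τ := by
      have := Complex.cpow_nat_inv_pow (-I * (τ : ℂ)) (n := 2) two_ne_zero
      rw [← this]; simp
    have h2 : ee (-(1 / 4)) ^ 8 = 1 := by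
      rw [← ee_nat_mul]; exact (ee_congr (y := 0) (-2) (by push_cast; ring)).trans ee_zero
    have h4 : (-I) ^ 4 = 1 := by rw [show (-I) ^ 4 = I ^ 4 by ring, I_pow_four]
    rw [mul_pow, h2, mul_one, show 8 = 2 * 4 by rfl, pow_mul, h1, mul_pow, h4, one_mul]
  · rw [K_eq, K_eq, coe_S_smul]
    have hz : (1 / 2 + (a : ℂ)) * (-1 / τ) + b + 1 / 2 =
        ((1 / 2 + b) * τ - a - 1 / 2) / τ := by field_simp; ring
    have hz' : (1 / 2 + (b : ℂ)) * τ + ((-a : ℝ) : ℂ) + 1 / 2 =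
        ((1 / 2 + b) * τ - a - 1 / 2) + 1 := by push_cast; ring
    rw [hz, hz', jacobiTheta₂_add_left, theta_S _ _ ht]
    have h3 : ee ((1 / 2 + (a : ℂ)) ^ 2 * (-1 / τ) / 2 + (1 / 2 + a / 2) * b) *
        ee (((1 / 2 + (b : ℂ)) * τ - a - 1 / 2) ^ 2 / (2 * τ)) =
        ee (-(1 / 4)) * ee ((1 / 2 + (b : ℂ)) ^ 2 * τ / 2 + (1 / 2 + b / 2) * ((-a : ℝ) : ℂ)) := by
      rw [← ee_add, ← ee_add]; congr 1; push_cast; field_simp; ring
    linear_combination ((-I * τ) ^ (1 / 2 : ℂ) *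
      jacobiTheta₂ ((1 / 2 + (b : ℂ)) * τ - a - 1 / 2) τ) * h3

end Pool.Agent.P.MP_e7a540_nt.L1
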