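import Pool.Agent.P.MP_e7a540_nt.L1.IfaceB

/-! Step KT. -/

set_option autoImplicit false
set_option linter.unusedSectionVars false

namespace Pool.Agent.P.MP_e7a540_nt.L1

open UpperHalfPlane hiding I
open CongruenceSubgroup ModularGroup Complex MeasureTheory PowerSeries Finset Filter
open scoped MatrixGroups ModularForm Manifold ComplexConjugate Real Topology

namespace KTx

/-- The transformation law for one matrix. -/
def Pr (γ : SL) : Prop := ∀ τ : ℍ, ∃ J : ℂ, J ^ 8 = dn γ τ ^ 4 ∧ ∀ a b : ℝ,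
  K a b (γ • τ) = J * K (a * (γ 0 0 : ℤ) + b * (γ 1 0 : ℤ)) (a * (γ 0 1 : ℤ) + b * (γ 1 1 : ℤ)) τ

lemma pT : Pr T := fun τ => by
  refine ⟨ee (1 / 8), ?_, fun a b => ?_⟩
  · rw [← ee_nat_mul, dn_T, one_pow]
    exact (ee_congr 1 (by norm_num)).trans ee_zero
  · rw [K, K, ← tsum_mul_left]
    refine tsum_congr fun n => ?_
    obtain ⟨k, hk⟩ := Int.even_mul_succ_self n
    have h : (n : ℂ) * (n + 1) = k + k := by exact_mod_cast hk
    rw [Kt, Kt, coe_T_smul, mul_left_comm, ← ee_add]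
    congr 1
    refine ee_congr k ?_
    simp [T]
    linear_combination h / 2

lemma one : Pr 1 := fun τ => ⟨1, by simp, fun a b => by simp⟩

lemma mul {γ δ : SL} (h : Pr γ) (h' : Pr δ) : Pr (γ * δ) := fun τ => by
  obtain ⟨J, j1, j2⟩ := h (δ • τ)
  obtain ⟨J', k1, k2⟩ := h' τ
  refine ⟨J * J', by rw [mul_pow, j1, k1, dn_mul, mul_pow], fun a b => ?_⟩
  rw [mul_smul, j2, k2, mul_assoc]
  congr 3 <;> simp [Matrix.mul_apply, Fin.sum_univ_two] <;> ring

lemma inv {γ : SL} (h : Pr γ) : Pr γ⁻¹ := fun τ => by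
  obtain ⟨J, j1, j2⟩ := h (γ⁻¹ • τ)
  have e := dn_mul γ γ⁻¹ τ
  rw [mul_inv_cancel, dn_one] at e
  have j0 : J ≠ 0 := fun k => pow_ne_zero 4 (dn_ne γ (γ⁻¹ • τ)) (by rw [← j1, k]; norm_num)
  have d : ((γ 0 0 : ℤ) : ℝ) * (γ 1 1 : ℤ) - (γ 0 1 : ℤ) * (γ 1 0 : ℤ) = 1 := by
    exact_mod_cast det_SL γ
  refine ⟨J⁻¹, by rw [inv_pow, j1, ← inv_pow, eq_inv_of_mul_eq_one_right e.symm], fun a b => ?_⟩
  rw [eq_inv_mul_iff_mul_eq₀ j0]
  conv_rhs => rw [← smul_inv_smul γ τ, j2]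
  congr 2 <;> simp [Matrix.SpecialLinearGroup.coe_inv, Matrix.adjugate_fin_two]
  · linear_combination -a * d
  · linear_combination -b * d

end KTx

theorem p_KT (hKS : S_KS) :
    S_KT := by
  intro γ
  have h : γ ∈ Subgroup.closure {S, T} := by
    rw [SpecialLinearGroup.SL2Z_generators]; trivial
  induction h using Subgroup.closure_induction with
  | mem x hx =>
    rcases hx with rfl | rfl
    · intro τ
      obtain ⟨J, j1, j2⟩ := hKS τ
      exact ⟨J, by rw [j1, dn_S], fun a b => by rw [j2]; simp [S]⟩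
    · exact KTx.pT
  | one => exact KTx.one
  | mul x y _ _ a b => exact KTx.mul a b
  | inv x _ a => exact KTx.inv a

end Pool.Agent.P.MP_e7a540_nt.L1
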