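import Pool.Agent.P.MP_e7a540_nt.L1.IfaceB

/-! Step PA. -/

set_option autoImplicit false
set_option linter.unusedSectionVars false

namespace Pool.Agent.P.MP_e7a540_nt.L1

open UpperHalfPlane hiding I
open CongruenceSubgroup ModularGroup Complex MeasureTheory PowerSeries Finset Filter
open scoped MatrixGroups ModularForm Manifold ComplexConjugate Real Topology

namespace PAx

lemma geo (τ : ℍ) : Summable fun n : ℕ => ee (n * τ / (8 : ℕ)) := by
  have h : ‖ee (τ / (8 : ℕ))‖ < 1 := by
    rw [norm_ee, Real.exp_lt_one_iff, div_natCast_im, coe_im]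
    have := τ.im_pos
    have : 0 < 2 * π * (τ.im / (8 : ℕ)) := by positivity
    linarith
  refine (summable_geometric_of_norm_lt_one h).congr fun n => ?_
  rw [mul_div_assoc, ee_nat_mul]

lemma inj : Function.Injective fun m : ℕ => (2 * m + 1) ^ 2 := fun a b h => by
  have := Nat.pow_left_injective two_ne_zero h
  omega

lemma one : QE 8 psi (toC dZ) := fun τ => by
  rw [← inj.hasSum_iff fun n hn => by
    rw [coeff_toC, coeff_dZ, if_neg, Int.cast_zero, zero_mul]
    rintro ⟨h1, r, rfl⟩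
    obtain ⟨m, rfl⟩ := (Nat.odd_mul.1 h1).1
    exact hn ⟨m, sq _⟩]
  have h1 : ((fun n : ℕ => coeff n (toC dZ) * ee (n * τ / (8 : ℕ))) ∘ fun m : ℕ => (2 * m + 1) ^ 2)
      = fun m : ℕ => ee ((2 * m + 1) ^ 2 * τ / 8) := by
    ext m
    simp only [Function.comp]
    rw [coeff_toC, coeff_dZ, if_pos ⟨(odd_two_mul_add_one m).pow, ⟨_, sq _⟩⟩, Int.cast_one, one_mul]
    push_cast
    rfl
  rw [h1]
  refine Summable.hasSum (((geo τ).comp_injective inj).congr fun m => ?_)
  simp only [Function.comp]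
  push_cast
  rfl

lemma two : QE 1 (fun τ => psi τ / ee (τ / 8)) (toC triZ) := by
  have h := one
  rw [dZ_eq, map_mul, toC_e8, show toC X = X ^ 1 by simp [toC]] at h
  simpa using qe_e8.1 h.div_pow

lemma qx : QE 1 (fun τ => ee τ) X := fun τ => by
  convert hasSum_single (f := fun n : ℕ => coeff n (X : ℂ⟦X⟧) * ee (n * τ / (1 : ℕ))) 1
    fun n hn => by simp [coeff_X, hn] using 1
  simp

end PAx

theorem p_PA :
    S_PA := by
  refine ⟨PAx.one, PAx.two, ?_⟩
  have h := PAx.qx.mul (PAx.two.pow 8)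
  rw [bZ, map_mul, map_pow, show toC X = X by simp [toC]]
  convert h using 1
  ext τ
  have e : ee (τ / 8) ^ 8 = ee τ := by
    rw [← ee_nat_mul]
    congr 1
    push_cast
    ring
  simp only [Pi.mul_apply, Pi.pow_apply, div_pow, e]
  rw [mul_div_cancel₀ _ (ee_ne _)]

end Pool.Agent.P.MP_e7a540_nt.L1
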