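import Pool.Agent.P.MP_e7a540_nt.L1.IfaceB

/-! Step PB. -/

set_option autoImplicit false
set_option linter.unusedSectionVars false

namespace Pool.Agent.P.MP_e7a540_nt.L1

open UpperHalfPlane hiding I
open CongruenceSubgroup ModularGroup Complex MeasureTheory PowerSeries Finset Filter
open scoped MatrixGroups ModularForm Manifold ComplexConjugate Real Topology

namespace PBx

lemma neg_one_zpow (n : ℤ) : (-1 : ℂ) ^ n = ee (n / 2) := by
  rw [← ee_half, ee, ee, ← Complex.exp_int_mul]; congr 1; ring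

lemma K_half (τ : ℍ) : K (1 / 2) 0 τ = -jacobiTheta (τ + 1) := by
  rw [K, jacobiTheta, ← (Equiv.addRight (1 : ℤ)).tsum_eq (fun n : ℤ =>
    cexp (π * I * (n : ℂ) ^ 2 * (τ + 1))), ← tsum_neg]
  refine tsum_congr fun n => ?_
  obtain ⟨k, hk⟩ := Int.even_mul_succ_self n
  have hk' : (n : ℂ) * (n + 1) = k + k := by exact_mod_cast hk
  have e : cexp (π * I * ((Equiv.addRight (1 : ℤ) n : ℤ) : ℂ) ^ 2 * (τ + 1)) =
      ee (((n : ℂ) + 1) ^ 2 * (τ + 1) / 2) := by
    rw [ee]; congr 1; simp only [Equiv.coe_addRight]; push_cast; ring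
  rw [e, Kt, neg_one_zpow, ← ee_add, neg_eq_neg_one_mul, ← ee_half, ← ee_add]
  refine ee_congr (-(k + 1)) ?_
  push_cast
  linear_combination (-1 / 2) * hk'

lemma theta_lim : Tendsto (fun τ : ℍ => jacobiTheta (τ + 1)) atImInfty (𝓝 1) := by
  have h1 : Tendsto (fun τ : ℂ => Real.exp (-π * τ.im)) (comap Complex.im atTop) (𝓝 0) :=
    Real.tendsto_exp_atBot.comp (Tendsto.const_mul_atTop_of_neg (neg_lt_zero.2 Real.pi_pos)
      tendsto_comap)
  have h2 := tendsto_sub_nhds_zero_iff.1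
    (isBigO_at_im_infty_jacobiTheta_sub_one.trans_tendsto h1)
  refine h2.comp (f := fun τ : ℍ => (τ : ℂ) + 1) (tendsto_comap_iff.2 ?_)
  have : Complex.im ∘ (fun τ : ℍ => (τ : ℂ) + 1) = UpperHalfPlane.im := funext fun τ => by simp
  rw [this]
  exact tendsto_comap

end PBx

theorem p_PB (hKT : S_KT) (hKG : S_KG) (hPA : S_PA) :
    S_PB := by
  have I8 : I ^ 8 = 1 := by rw [show 8 = 4 * 2 from rfl, pow_mul, I_pow_four, one_pow]
  have key : ∀ (γ : SL) (τ : ℍ), 256 * psi (γ • τ) ^ 8 =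
      dn γ τ ^ 4 * K ((γ 1 0 : ℤ) / 2) ((γ 1 1 : ℤ) / 2) τ ^ 8 := fun γ τ => by
    obtain ⟨J, hJ, h⟩ := hKT γ τ
    have h0 := hKG 0 1 (γ • τ) (dvd_zero 2) odd_one
    have h1 := h 0 (1 / 2)
    simp only [Int.cast_zero, Int.cast_one, zero_div, zero_mul, add_zero, ee_quarter] at h0
    simp only [zero_mul, zero_add, div_mul_eq_mul_div, one_mul] at h1
    rw [← hJ, ← mul_pow, ← h1, h0, mul_pow, mul_pow, I8]
    norm_num
  have inv : Inv 2 4 (psi ^ 8) := fun γ hγ τ => by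
    have hc : (2 : ℤ) ∣ γ 1 0 := mem_G0.1 hγ
    have hd : Odd (γ 1 1) := by
      have := det_SL γ
      obtain ⟨c, hc⟩ := hc
      refine (Int.odd_mul.1 (show Odd (γ 0 0 * γ 1 1) from ⟨γ 0 1 * c, ?_⟩)).2
      rw [hc] at this
      linear_combination this
    have h := key γ τ
    have E : ee ((γ 1 1 : ℤ) / 4 + (γ 1 0 : ℤ) * (γ 1 1 : ℤ) / 8) ^ 8 = 1 := by
      rw [← ee_nat_mul, ← ee_int (2 * γ 1 1 + γ 1 0 * γ 1 1)]; congr 1; push_cast; ring
    rw [hKG _ _ τ hc hd, mul_pow, mul_pow, E] at h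
    simp only [Pi.pow_apply]
    linear_combination (1 / 256) * h
  have lim : Tendsto (sl 4 (psi ^ 8) S) atImInfty (𝓝 (1 / 256)) := by
    have := (PBx.theta_lim.neg.pow 8).div_const 256
    rw [show (-1 : ℂ) ^ 8 = 1 by norm_num] at this
    refine this.congr fun τ => ?_
    have h := key S τ
    have a : S 1 0 = 1 := by simp [S]
    have b : S 1 1 = 0 := by simp [S]
    rw [a, b, Int.cast_one, Int.cast_zero, zero_div, PBx.K_half] at h
    rw [sl, Pi.pow_apply, eq_div_iff (pow_ne_zero 4 (dn_ne S τ))]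
    linear_combination (-1 / 256) * h
  refine ⟨⟨hPA.2.2.hol one_ne_zero, inv, hPA.2.2.bdd one_ne_zero, lim.isBigO_one ℝ⟩, lim,
    fun γ hγ τ => ?_⟩
  have h := congrArg norm (inv γ hγ τ)
  simp only [Pi.pow_apply, norm_mul, norm_pow] at h
  refine (pow_left_inj₀ (by positivity) (by positivity) (show 4 ≠ 0 by norm_num)).1 ?_
  rw [mul_pow, ← pow_mul, ← pow_mul, h]

end Pool.Agent.P.MP_e7a540_nt.L1
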