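import Pool.Agent.P.MP_e7a540_nt.L1.IfaceU

/-! Step POS. -/

set_option autoImplicit false
set_option linter.unusedSectionVars false

namespace Pool.Agent.P.MP_e7a540_nt.L1

open UpperHalfPlane hiding I
open CongruenceSubgroup ModularGroup Complex MeasureTheory PowerSeries Finset Filter
open scoped MatrixGroups ModularForm Manifold ComplexConjugate Real Topology

theorem p_POS (hCB : S_CB) :
    S_POS := by
  intro w φ y hφ hy h
  obtain ⟨hc, C, hC⟩ := hCB.1 _ _ hy
  funext z
  have := U.pos_def hφ.wg (h := fun z => uI w z * ‖y z‖ ^ 2)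
    ((UpperHalfPlane.continuous_im.pow w).mul (hc.norm.pow 2))
    (fun z => mul_nonneg (pow_pos z.im_pos w).le (sq_nonneg _)) hC (fun γ hγ z => ?_) ?_ z
  · simpa [uI, z.im_ne_zero] using this
  · have := norm_pos_iff.2 (dn_ne γ z)
    simp only [uI, hy.inv γ hγ, im_smul', norm_mul, norm_pow, div_pow, mul_pow, ← pow_mul,
      mul_comm 2 w]
    field_simp
  · rw [← ofReal_eq_zero, ← h, ip, ← integral_complex_ofReal]
    refine integral_congr_ae (ae_of_all _ fun z => ?_)
    simp only [mul_conj, normSq_eq_norm_sq]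
    push_cast; ring

end Pool.Agent.P.MP_e7a540_nt.L1
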