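import Pool.Agent.P.MP_e7a540_nt.L1.IfaceU

/-! Step RK. -/

set_option autoImplicit false
set_option linter.unusedSectionVars false

namespace Pool.Agent.P.MP_e7a540_nt.L1

open UpperHalfPlane hiding I
open CongruenceSubgroup ModularGroup Complex MeasureTheory PowerSeries Finset Filter
open scoped MatrixGroups ModularForm Manifold ComplexConjugate Real Topology

theorem p_RK (hCB : S_CB) (hEI : S_EI) (hDIR : S_DIR) :
    S_RK := by
  intro r φ y L he hr hφ hy hE h1 hL hT hz
  obtain ⟨-, -, -, m0, q0, -⟩ := hEI r he hr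
  obtain ⟨C, b1⟩ := (hCB.1 _ _ hy).le
  obtain ⟨C', b2⟩ := (hCB.1 _ _ (hy.mul m0)).le
  have s0 : U.Ser 1 (a0 r) (E0 r) := by
    have := m0.qe.ser
    rw [q0, show cf (mk (a0 r)) = a0 r from funext fun n => coeff_mk _ _] at this
    simpa using this
  have h := U.central hφ.wg (show 3 ≤ r by omega) hr hDIR (by simpa using hy.mf.qe.ser) s0
    (by simpa [cf] using hy.qe_zero) hy.inv.den m0.inv.den (C := C) (C' := C')
    (fun z => by simpa using b1 z)
    (fun z => (b2 z).trans_eq (by congr 3; push_cast; ring)) hE h1 hL hT hz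
  rw [ip, ← mul_zero (-(conj (kap r))⁻¹), ← h, ← integral_const_mul]
  refine integral_congr_ae (ae_of_all _ fun z => ?_)
  simp only [Pi.mul_apply, Ei_eq (show 3 ≤ r by omega), uI, map_mul, map_neg, map_inv₀]
  push_cast; ring

end Pool.Agent.P.MP_e7a540_nt.L1
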