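import Pool.Agent.P.MP_e7a540_nt.L1.IfaceA

/-! Step SEL. -/

set_option autoImplicit false
set_option linter.unusedSectionVars false

namespace Pool.Agent.P.MP_e7a540_nt.L1

open PowerSeries Finset

namespace SELx

theorem sg_eq (r n : ℕ) : sg r n = ∑ d ∈ n.divisors, (d : ℂ) ^ (r - 1) := by
  simp [sg, ArithmeticFunction.sigma_apply]

theorem sg_zero (r : ℕ) : sg r 0 = 0 := by simp [sg]

theorem sum_dvd (r l m : ℕ) (hl : 0 < l) :
    ∑ d ∈ (l * m).divisors with l ∣ d, (d : ℂ) ^ (r - 1) = (l : ℂ) ^ (r - 1) * sg r m := by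
  rw [sg_eq, mul_sum]
  symm
  refine sum_bij (fun d _ => l * d) ?_ ?_ ?_ ?_
  · intro d hd
    rw [Nat.mem_divisors] at hd
    exact mem_filter.2 ⟨Nat.mem_divisors.2 ⟨Nat.mul_dvd_mul_left l hd.1,
      Nat.mul_ne_zero hl.ne' hd.2⟩, dvd_mul_right _ _⟩
  · intro a _ b _ h
    exact Nat.eq_of_mul_eq_mul_left hl h
  · intro d hd
    obtain ⟨h1, e, rfl⟩ := mem_filter.1 hd
    rw [Nat.mem_divisors] at h1
    exact ⟨e, Nat.mem_divisors.2 ⟨Nat.dvd_of_mul_dvd_mul_left hl h1.1,
      fun h => h1.2 (by simp [h])⟩, rfl⟩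
  · intro d _
    push_cast
    rw [mul_pow]

theorem hecke (r l n : ℕ) (hl : l.Prime) :
    sg r (l * n) + (if l ∣ n then (l : ℂ) ^ (r - 1) * sg r (n / l) else 0) =
      (1 + (l : ℂ) ^ (r - 1)) * sg r n := by
  have h1 : (l * n).divisors.filter (fun d => ¬ l ∣ d) = n.divisors.filter (fun d => ¬ l ∣ d) := by
    ext d
    simp only [mem_filter, Nat.mem_divisors]
    constructor
    · rintro ⟨⟨h, h0⟩, h'⟩
      exact ⟨⟨(((Nat.Prime.coprime_iff_not_dvd hl).2 h').symm).dvd_of_dvd_mul_left h,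
        fun e => h0 (by simp [e])⟩, h'⟩
    · rintro ⟨⟨h, h0⟩, h'⟩
      exact ⟨⟨h.mul_left l, Nat.mul_ne_zero hl.ne_zero h0⟩, h'⟩
  have h2 : ∑ d ∈ n.divisors with l ∣ d, (d : ℂ) ^ (r - 1) =
      if l ∣ n then (l : ℂ) ^ (r - 1) * sg r (n / l) else 0 := by
    split_ifs with h
    · obtain ⟨m, rfl⟩ := h
      rw [sum_dvd r l m hl.pos, Nat.mul_div_cancel_left _ hl.pos]
    · refine sum_eq_zero fun d hd => ?_
      obtain ⟨a, b⟩ := mem_filter.1 hd
      exact absurd (b.trans (Nat.dvd_of_mem_divisors a)) h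
  have h3 := sum_filter_add_sum_filter_not (l * n).divisors (fun d => l ∣ d)
    (fun d => (d : ℂ) ^ (r - 1))
  have h4 := sum_filter_add_sum_filter_not n.divisors (fun d => l ∣ d)
    (fun d => (d : ℂ) ^ (r - 1))
  rw [sum_dvd r l n hl.pos, h1, ← sg_eq] at h3
  rw [h2, ← sg_eq] at h4
  linear_combination h4 - h3

theorem eig (r : ℕ) (x : ℂ) : Eig r (ai r x) := by
  intro l hl h2
  refine ⟨1 + (l : ℂ) ^ (r - 1), fun n => ?_⟩
  have hc : Nat.Coprime 2 l := (Nat.coprime_primes Nat.prime_two hl).2 h2.symm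
  rcases Nat.eq_zero_or_pos n with rfl | hn
  · simp [iT, ai]
    ring
  have h0 : l * n ≠ 0 := Nat.mul_ne_zero hl.ne_zero hn.ne'
  have H := hecke r l n hl
  by_cases he : 2 ∣ n
  · obtain ⟨m, rfl⟩ := he
    have H' := hecke r l m hl
    have e1 : l * (2 * m) / 2 = l * m := by
      rw [show l * (2 * m) = 2 * (l * m) by ring, Nat.mul_div_cancel_left _ two_pos]
    have e2 : 2 * m / 2 = m := by omega
    have d1 : 2 ∣ l * (2 * m) := Dvd.dvd.mul_left (dvd_mul_right 2 m) l
    by_cases hm : l ∣ m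
    · obtain ⟨k, rfl⟩ := hm
      have e3 : 2 * (l * k) / l = 2 * k := by
        rw [show 2 * (l * k) = l * (2 * k) by ring, Nat.mul_div_cancel_left _ hl.pos]
      have e4 : l * k / l = k := Nat.mul_div_cancel_left _ hl.pos
      have e5 : 2 * k / 2 = k := by omega
      have d2 : l ∣ 2 * (l * k) := Dvd.dvd.mul_left (dvd_mul_right l k) 2
      have k0 : 2 * k ≠ 0 := by
        rintro h
        have : k = 0 := by omega
        simp [this] at hn
      rw [if_pos d2, e3] at H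
      rw [if_pos (dvd_mul_right l k), e4] at H'
      simp only [iT, ai, if_neg h0, if_neg hn.ne', if_pos d1, if_pos d2, e1, e2, e3, e5,
        if_neg k0, if_pos (dvd_mul_right 2 k), if_pos (dvd_mul_right 2 (l * k))]
      linear_combination H - 2 ^ r * H'
    · have d2 : ¬ l ∣ 2 * m := fun h => hm (hc.symm.dvd_of_dvd_mul_left h)
      rw [if_neg d2] at H
      rw [if_neg hm] at H'
      simp only [iT, ai, if_neg h0, if_neg hn.ne', if_pos d1, if_neg d2, e1, e2,
        if_pos (dvd_mul_right 2 m)]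
      linear_combination H - 2 ^ r * H'
  · have d1 : ¬ 2 ∣ l * n := fun h => he (hc.dvd_of_dvd_mul_left h)
    by_cases hm : l ∣ n
    · obtain ⟨k, rfl⟩ := hm
      have e4 : l * k / l = k := Nat.mul_div_cancel_left _ hl.pos
      have k0 : k ≠ 0 := by
        rintro rfl
        simp at hn
      have d2 : ¬ 2 ∣ k := fun h => he (h.mul_left l)
      rw [if_pos (dvd_mul_right l k), e4] at H
      simp only [iT, ai, if_neg h0, if_neg hn.ne', if_neg d1, if_neg he, if_neg d2, e4,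
        if_neg k0, if_pos (dvd_mul_right l k)]
      linear_combination H
    · rw [if_neg hm] at H
      simp only [iT, ai, if_neg h0, if_neg hn.ne', if_neg d1, if_neg he, if_neg hm]
      linear_combination H

theorem cf_sq (A : ℕ → ℂ) (m : ℕ) (hm : Odd m) :
    cf (toC dZ * e8 (mk A)) (m ^ 2) = ∑ U ∈ range (m / 2 + 1), A (U * (m - 2 * U)) := by
  have h1 : cf (toC dZ * e8 (mk A)) (m ^ 2) =
      ∑ p ∈ antidiagonal (m ^ 2) with (Odd p.1 ∧ IsSquare p.1), coeff p.2 (e8 (mk A)) := by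
    rw [cf, coeff_mul, sum_filter]
    refine sum_congr rfl fun p _ => ?_
    rw [coeff_toC, coeff_dZ]
    split_ifs <;> simp
  rw [h1]
  symm
  obtain ⟨k, hk⟩ := hm
  refine sum_bij (fun U _ => (((m : ℤ) - 4 * U).natAbs ^ 2, 8 * (U * (m - 2 * U)))) ?_ ?_ ?_ ?_
  · intro U hU
    have hU' : 2 * U ≤ m := by
      have := mem_range.1 hU
      omega
    refine mem_filter.2 ⟨mem_antidiagonal.2 ?_, ?_, ?_⟩
    · zify [hU']
      rw [sq_abs]
      ring
    · exact Odd.pow (Nat.odd_iff.2 (by omega))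
    · exact ⟨_, sq _⟩
  · intro a _ b _ h
    have h2 := Nat.pow_left_injective two_ne_zero (Prod.mk.inj h).1
    omega
  · rintro ⟨i, j⟩ hp
    obtain ⟨h2, h3, t, rfl⟩ := mem_filter.1 hp
    have h4 : t * t + j = m ^ 2 := mem_antidiagonal.1 h2
    have h5 : t % 2 = 1 := Nat.odd_iff.1 (Nat.odd_mul.1 h3).1
    have h6 : t ≤ m := by nlinarith
    have key : ∀ U : ℕ, 2 * U ≤ m → ((m : ℤ) - 4 * U).natAbs = t →
        (((m : ℤ) - 4 * U).natAbs ^ 2, 8 * (U * (m - 2 * U))) = (t * t, j) := by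
      intro U hU h
      have h7 : ((m : ℤ) - 4 * U).natAbs ^ 2 + 8 * (U * (m - 2 * U)) = m ^ 2 := by
        zify [hU]
        rw [sq_abs]
        ring
      rw [h, sq] at h7
      rw [h, sq]
      exact Prod.ext rfl (by simp only; omega)
    by_cases h8 : (m - t) % 4 = 0
    · exact ⟨(m - t) / 4, mem_range.2 (by omega), key _ (by omega) (by omega)⟩
    · exact ⟨(m + t) / 4, mem_range.2 (by omega), key _ (by omega) (by omega)⟩
  · intro U _
    simp only [e8, coeff_expand, if_pos (dvd_mul_right 8 _), coeff_mk]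
    rw [Nat.mul_div_cancel_left _ (by norm_num)]

theorem sum_par (g : ℕ → ℂ) (k : ℕ) :
    ∑ u ∈ range (2 * k), g u = ∑ U ∈ range k, g (2 * U) + ∑ U ∈ range k, g (2 * U + 1) := by
  induction k with
  | zero => simp
  | succ k ih =>
    rw [show 2 * (k + 1) = 2 * k + 1 + 1 by ring, sum_range_succ, sum_range_succ, ih,
      sum_range_succ, sum_range_succ]
    ring

theorem half (r : ℕ) (x : ℂ) (hr : 1 ≤ r) (U : ℕ) :
    a0 r (2 * U) + ai r x (2 * U) = ai r x U := by
  rcases Nat.eq_zero_or_pos U with rfl | hU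
  · simp [a0, sg_zero]
  have H := hecke r 2 U Nat.prime_two
  have e : 2 * U / 2 = U := by omega
  have e2 : (2 : ℂ) ^ r = 2 * 2 ^ (r - 1) := by
    rw [← pow_succ', Nat.sub_add_cancel hr]
  simp only [a0, ai, if_pos (dvd_mul_right 2 U), e, if_neg hU.ne',
    if_neg (show 2 * U ≠ 0 by omega), e2]
  push_cast at H
  split_ifs at H ⊢
  · linear_combination 2 * H
  · linear_combination 2 * H

theorem odd_eq (r : ℕ) (x : ℂ) (V : ℕ) (hV : V % 2 = 1) : a0 r V = ai r x V := by
  simp only [a0, ai, if_neg (show ¬ 2 ∣ V by omega), if_neg (show V ≠ 0 by omega)]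

theorem rhs (r : ℕ) (x : ℂ) (hr : 1 ≤ r) (n : ℕ) (hn : Odd n) :
    coeff n (mk (a0 r) * mk (ai r x)) =
      ∑ U ∈ range (n / 2 + 1), ai r x (n - 2 * U) * ai r x U := by
  obtain ⟨k, hk⟩ := hn
  have e : n / 2 + 1 = k + 1 := by omega
  rw [coeff_mul, Nat.sum_antidiagonal_eq_sum_range_succ_mk, show n.succ = 2 * (k + 1) by omega,
    sum_par, e, ← sum_range_reflect (fun U => coeff (2 * U + 1, n - (2 * U + 1)).1 (mk (a0 r)) *
      coeff (2 * U + 1, n - (2 * U + 1)).2 (mk (ai r x))), ← sum_add_distrib]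
  refine sum_congr rfl fun U hU => ?_
  have hU' := mem_range.1 hU
  have e1 : 2 * (k + 1 - 1 - U) + 1 = n - 2 * U := by omega
  have e2 : n - (n - 2 * U) = 2 * U := by omega
  simp only [coeff_mk, e1, e2]
  rw [odd_eq r x (n - 2 * U) (by omega), ← half r x hr U]
  ring

end SELx

theorem p_SEL (hHR : S_HR) :
    S_SEL := by
  intro r x n hr hn
  have hn0 : n ≠ 0 := by
    rintro rfl
    simp at hn
  have h1 : ai r x 1 = 1 := by simp [ai, sg]
  rw [SELx.rhs r x hr n hn]
  have h2 : ∀ U ∈ range (n / 2 + 1), ai r x (n - 2 * U) * ai r x U =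
      ∑ d ∈ n.divisors, if d ∣ U then
        (d : ℂ) ^ (r - 1) * ai r x (U * (n - 2 * U) / d ^ 2) else 0 := by
    intro U hU
    have hU' : 2 * U ≤ n := by
      have := mem_range.1 hU
      omega
    have ho : Odd (n - 2 * U) := by
      obtain ⟨k, hk⟩ := hn
      exact Nat.odd_iff.2 (by omega)
    rw [hHR r _ (SELx.eig r x) _ U ho, h1, one_mul, ← sum_filter]
    refine sum_congr ?_ fun _ _ => rfl
    ext d
    simp only [mem_filter, Nat.mem_divisors, Nat.dvd_gcd_iff]
    constructor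
    · rintro ⟨⟨a, b⟩, -⟩
      refine ⟨⟨?_, hn0⟩, a⟩
      have := Nat.dvd_add b (a.mul_left 2)
      rwa [Nat.sub_add_cancel hU'] at this
    · rintro ⟨⟨a, -⟩, b⟩
      refine ⟨⟨b, Nat.dvd_sub a (b.mul_left 2)⟩, fun h => ?_⟩
      have := (Nat.gcd_eq_zero_iff.1 h).2
      rw [this] at ho
      simp at ho
  rw [sum_congr rfl h2, sum_comm, sig]
  refine sum_congr rfl fun d hd => ?_
  obtain ⟨m, rfl⟩ := Nat.dvd_of_mem_divisors hd
  have hd0 : 0 < d := Nat.pos_of_mem_divisors hd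
  have hm : Odd m := (Nat.odd_mul.1 hn).2
  rw [Nat.mul_div_cancel_left _ hd0, SELx.cf_sq _ m hm, mul_sum, ← sum_filter]
  refine sum_bij (fun U _ => d * U) ?_ ?_ ?_ ?_
  · intro U hU
    have hU' : 2 * U ≤ m := by
      have := mem_range.1 hU
      omega
    have : 2 * (d * U) ≤ d * m := by nlinarith
    exact mem_filter.2 ⟨mem_range.2 (by omega), dvd_mul_right _ _⟩
  · intro a _ b _ h
    exact Nat.eq_of_mul_eq_mul_left hd0 h
  · intro V hV
    obtain ⟨h3, U, rfl⟩ := mem_filter.1 hV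
    have h4 : 2 * (d * U) ≤ d * m := by
      have := mem_range.1 h3
      omega
    have h5 : 2 * U ≤ m := by
      refine Nat.le_of_mul_le_mul_left ?_ hd0
      nlinarith
    exact ⟨U, mem_range.2 (by omega), rfl⟩
  · intro U _
    have : d * U * (d * m - 2 * (d * U)) = d ^ 2 * (U * (m - 2 * U)) := by
      rw [show 2 * (d * U) = d * (2 * U) by ring, ← Nat.mul_sub]
      ring
    simp only [this]
    rw [Nat.mul_div_cancel_left _ (by positivity)]

end Pool.Agent.P.MP_e7a540_nt.L1
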