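import Pool.Agent.P.MP_e7a540_nt.L1.IfaceA

/-! Step SH. -/

set_option autoImplicit false
set_option linter.unusedSectionVars false

namespace Pool.Agent.P.MP_e7a540_nt.L1

open PowerSeries Finset

namespace SHx

theorem chi_sq {l : ℕ} (hl : l.Prime) (h2 : l ≠ 2) (m : ℕ) :
    chi l (m ^ 2) = if l ∣ m then 0 else 1 := by
  have := Fact.mk hl
  have h1 : ((range l).filter fun x => x ^ 2 % l = m ^ 2 % l) =
      {(m : ZMod l).val, (-(m : ZMod l)).val} := by
    ext x
    rw [mem_filter, mem_range, ← ZMod.natCast_eq_natCast_iff', Nat.cast_pow, Nat.cast_pow,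
      sq_eq_sq_iff_eq_or_eq_neg, mem_insert, mem_singleton]
    constructor
    · rintro ⟨hx, h | h⟩
      · exact Or.inl (by rw [← h, ZMod.val_cast_of_lt hx])
      · exact Or.inr (by rw [← h, ZMod.val_cast_of_lt hx])
    · rintro (rfl | rfl)
      · exact ⟨ZMod.val_lt _, Or.inl (ZMod.natCast_zmod_val _)⟩
      · exact ⟨ZMod.val_lt _, Or.inr (ZMod.natCast_zmod_val _)⟩
  rw [chi, h1]
  split_ifs with h
  · rw [(ZMod.natCast_eq_zero_iff m l).2 h]; simp
  · rw [card_pair]
    · norm_num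
    · intro e
      have e' : ((2 * m : ℕ) : ZMod l) = 0 := by
        have := ZMod.val_injective l e
        push_cast
        linear_combination this
      rcases (Nat.Prime.dvd_mul hl).1 ((ZMod.natCast_eq_zero_iff _ l).1 e') with a | a
      · exact h2 ((Nat.prime_dvd_prime_iff_eq hl Nat.prime_two).1 a)
      · exact h a

theorem split {l n : ℕ} (hl : l.Prime) (hn : n ≠ 0) (f : ℕ → ℂ) :
    ∑ d ∈ (l * n).divisors, f d =
      ∑ d ∈ n.divisors, f d + ∑ d ∈ n.divisors, if l ∣ n / d then 0 else f (l * d) := by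
  rw [← sum_filter_add_sum_filter_not _ (· ∣ n)]
  have h0 : l * n ≠ 0 := mul_ne_zero hl.ne_zero hn
  refine congrArg₂ (· + ·) (sum_congr ?_ fun _ _ => rfl) ?_
  · ext d
    simp only [mem_filter, Nat.mem_divisors]
    exact ⟨fun h => ⟨h.2, hn⟩, fun h => ⟨⟨h.1.mul_left l, h0⟩, h.1⟩⟩
  · rw [sum_ite, sum_const_zero, zero_add]
    symm
    refine sum_bij (fun d _ => l * d) ?_ ?_ ?_ fun _ _ => rfl
    · intro d hd
      simp only [mem_filter, Nat.mem_divisors] at hd ⊢
      refine ⟨⟨Nat.mul_dvd_mul_left l hd.1.1, h0⟩, fun h => hd.2 ?_⟩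
      rwa [Nat.dvd_div_iff_mul_dvd hd.1.1, mul_comm]
    · intro a _ b _ h
      exact Nat.eq_of_mul_eq_mul_left hl.pos h
    · intro d hd
      simp only [mem_filter, Nat.mem_divisors] at hd ⊢
      have h1 : l ∣ d := by
        by_contra h
        exact hd.2 (((Nat.Prime.coprime_iff_not_dvd hl).2 h).symm.dvd_of_dvd_mul_left hd.1.1)
      obtain ⟨e, rfl⟩ := h1
      have h2 : e ∣ n := Nat.dvd_of_mul_dvd_mul_left hl.pos hd.1.1
      refine ⟨e, ⟨⟨h2, hn⟩, fun h => hd.2 ?_⟩, rfl⟩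
      rwa [Nat.dvd_div_iff_mul_dvd h2, mul_comm] at h

end SHx

theorem p_SH :
    S_SH := by
  intro r l c n hl h2 hn
  simp only [sig, hT, iT, mul_add, sum_add_distrib]
  rw [SHx.split hl hn]
  refine congrArg₂ (· + ·) (congrArg₂ (· + ·) (sum_congr rfl fun d hd => ?_)
    (sum_congr rfl fun d hd => ?_)) ?_
  · rw [Nat.mul_div_assoc _ (Nat.dvd_of_mem_divisors hd), mul_pow]
  · rw [SHx.chi_sq hl h2, Nat.mul_div_mul_left _ _ hl.pos]
    split_ifs
    · simp
    · push_cast; ring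
  · simp only [Nat.pow_dvd_pow_iff two_ne_zero, mul_ite, mul_zero]
    rw [← sum_filter]
    split_ifs with h
    · obtain ⟨k, rfl⟩ := h
      have hk : k ≠ 0 := fun e => hn (by rw [e, mul_zero])
      rw [Nat.mul_div_cancel_left _ hl.pos, mul_sum]
      refine sum_congr ?_ fun d hd => ?_
      · ext d
        simp only [mem_filter, Nat.mem_divisors]
        constructor
        · rintro ⟨⟨a, -⟩, b⟩
          rw [Nat.dvd_div_iff_mul_dvd a, mul_comm] at b
          exact ⟨Nat.dvd_of_mul_dvd_mul_left hl.pos b, hk⟩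
        · rintro ⟨a, -⟩
          exact ⟨⟨a.mul_left l, hn⟩, by rw [Nat.mul_div_assoc _ a]; exact dvd_mul_right _ _⟩
      · rw [Nat.mul_div_assoc _ (Nat.dvd_of_mem_divisors hd), mul_pow,
          Nat.mul_div_cancel_left _ (pow_pos hl.pos 2)]
        ring
    · refine sum_eq_zero fun d hd => ?_
      rw [mem_filter] at hd
      exact absurd (hd.2.trans (Nat.div_dvd_of_dvd (Nat.dvd_of_mem_divisors hd.1))) h

end Pool.Agent.P.MP_e7a540_nt.L1
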