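import Pool.Agent.P.MP_e7a540_nt.L1.IfaceA

/-! Step SOC. -/

set_option autoImplicit false
set_option linter.unusedSectionVars false

namespace Pool.Agent.P.MP_e7a540_nt.L1

open PowerSeries Finset

namespace SOCx

theorem hT_comb {R : Type} [CommRing R] (r l : ℕ) (s : Finset ℕ) (t : ℕ → R) (Z : ℕ → ℕ → ℤ) :
    hT r l (fun n => ∑ k ∈ s, t k * (Z k n : R)) =
      fun n => ∑ k ∈ s, t k * ((hT r l (Z k) n : ℤ) : R) := by
  funext n
  unfold hT
  by_cases h : l ^ 2 ∣ n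
  · simp only [if_pos h, mul_sum, ← sum_add_distrib]
    refine sum_congr rfl fun k _ => ?_
    push_cast
    ring
  · simp only [if_neg h, mul_sum, ← sum_add_distrib, add_zero]
    refine sum_congr rfl fun k _ => ?_
    push_cast
    ring

theorem hT_iter {R : Type} [CommRing R] (r l : ℕ) (s : Finset ℕ) (t : ℕ → R) (i : ℕ) :
    ∀ Z : ℕ → ℕ → ℤ, (hT r l)^[i] (fun n => ∑ k ∈ s, t k * (Z k n : R)) =
      fun n => ∑ k ∈ s, t k * (((hT r l)^[i] (Z k) n : ℤ) : R) := by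
  induction i with
  | zero => intro Z; rfl
  | succ i ih =>
    intro Z
    rw [Function.iterate_succ_apply, hT_comb, ih]
    simp only [Function.iterate_succ_apply]

theorem descent {ι : Type} (s : Finset ℕ) (z : ι → ℕ → ℤ) (k0 : ℕ) (hk : k0 ∈ s) :
    ∀ (N : ℕ) (n : ℕ → ℤ), (n k0).natAbs = N → n k0 ≠ 0 → (∀ x, ∑ k ∈ s, n k * z x k = 0) →
      ∃ n' : ℕ → ℤ, (∃ k ∈ s, Odd (n' k)) ∧ ∀ x, ∑ k ∈ s, n' k * z x k = 0 := by
  intro N
  induction N using Nat.strong_induction_on with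
  | _ N ih =>
    intro n hN h0 hs
    by_cases ho : ∃ k ∈ s, Odd (n k)
    · exact ⟨n, ho, hs⟩
    · have he : ∀ k ∈ s, n k = 2 * (n k / 2) := by
        intro k hk'
        have : Even (n k) := Int.not_odd_iff_even.1 fun h => ho ⟨k, hk', h⟩
        obtain ⟨c, hc⟩ := this
        omega
      have h1 := he k0 hk
      refine ih (n k0 / 2).natAbs (by omega) (fun k => n k / 2) rfl (by omega) fun x => ?_
      have h2 : 2 * ∑ k ∈ s, n k / 2 * z x k = 0 := by
        rw [mul_sum, ← hs x]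
        refine sum_congr rfl fun k hk' => ?_
        rw [← mul_assoc, ← he k hk']
      omega

theorem exists_int {ι : Type} (s : Finset ℕ) (z : ι → ℕ → ℤ) (t : ℕ → ℂ) (k0 : ℕ) (hk : k0 ∈ s)
    (h0 : t k0 ≠ 0) (hs : ∀ x, ∑ k ∈ s, t k * (z x k : ℂ) = 0) :
    ∃ n' : ℕ → ℤ, (∃ k ∈ s, Odd (n' k)) ∧ ∀ x, ∑ k ∈ s, n' k * z x k = 0 := by
  classical
  obtain ⟨π, hπ⟩ : ∃ π : Module.Dual ℚ ℂ, π (t k0) ≠ 0 := by
    by_contra h
    push Not at h
    exact h0 ((Module.forall_dual_apply_eq_zero_iff ℚ (t k0)).1 h)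
  have hq : ∀ x, ∑ k ∈ s, π (t k) * (z x k : ℚ) = 0 := by
    intro x
    have := congrArg π (hs x)
    rw [map_sum, map_zero] at this
    rw [← this]
    refine sum_congr rfl fun k _ => ?_
    have : t k * (z x k : ℂ) = (z x k : ℚ) • t k := by
      rw [Rat.smul_def, mul_comm]; push_cast; rfl
    rw [this, map_smul, smul_eq_mul, mul_comm]
  obtain ⟨b, hb⟩ := IsLocalization.exist_integer_multiples (nonZeroDivisors ℤ) (S := ℚ) s
    (fun k => π (t k))
  have hb0 : ((b : ℤ) : ℚ) ≠ 0 := by exact_mod_cast nonZeroDivisors.coe_ne_zero b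
  have hb' : ∀ k, ∃ n : ℤ, k ∈ s → (n : ℚ) = ((b : ℤ) : ℚ) * π (t k) := by
    intro k
    by_cases hk' : k ∈ s
    · obtain ⟨n, hn⟩ := hb k hk'
      refine ⟨n, fun _ => ?_⟩
      simpa [zsmul_eq_mul] using hn
    · exact ⟨0, fun h => absurd h hk'⟩
  choose n hn using hb'
  refine descent s z k0 hk _ n rfl ?_ fun x => ?_
  · intro h
    have := hn k0 hk
    rw [h] at this
    exact mul_ne_zero hb0 hπ (by exact_mod_cast this.symm)
  · have : ((∑ k ∈ s, n k * z x k : ℤ) : ℚ) = ((b : ℤ) : ℚ) * ∑ k ∈ s, π (t k) * (z x k : ℚ) := by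
      push_cast
      rw [mul_sum]
      refine sum_congr rfl fun k hk' => ?_
      rw [hn k hk', mul_assoc]
    rw [hq x, mul_zero] at this
    exact_mod_cast this

theorem chi3 (n : ℕ) : ((chi 3 n : ℤ) : ZMod 2) = if 3 ∣ n then 0 else 1 := by
  have h : n % 3 = 0 ∨ n % 3 = 1 ∨ n % 3 = 2 := by omega
  unfold chi
  rcases h with h | h | h
  · rw [h, if_pos (by omega)]; decide
  · rw [h, if_neg (by omega)]; decide
  · rw [h, if_neg (by omega)]; decide

theorem chi5 (n : ℕ) : ((chi 5 n : ℤ) : ZMod 2) = if 5 ∣ n then 0 else 1 := by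
  have h : n % 5 = 0 ∨ n % 5 = 1 ∨ n % 5 = 2 ∨ n % 5 = 3 ∨ n % 5 = 4 := by omega
  unfold chi
  rcases h with h | h | h | h | h
  · rw [h, if_pos (by omega)]; decide
  · rw [h, if_neg (by omega)]; decide
  · rw [h, if_neg (by omega)]; decide
  · rw [h, if_neg (by omega)]; decide
  · rw [h, if_neg (by omega)]; decide

theorem hT_two (r l : ℕ) (hl0 : 0 < l) (hl : (l : ZMod 2) = 1)
    (hc : ∀ n, ((chi l n : ℤ) : ZMod 2) = if l ∣ n then 0 else 1) (h : (ZMod 2)⟦X⟧) :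
    hT r l (cf h) = cf (T2 l (T2 l h)) := by
  funext n
  unfold hT cf
  rw [hc, hl, coeff_T2, coeff_T2, if_pos (dvd_mul_right l n), Nat.mul_div_cancel_left n hl0,
    ← mul_assoc, ← pow_two]
  by_cases h1 : l ∣ n
  · obtain ⟨c, rfl⟩ := h1
    rw [if_pos (dvd_mul_right l c), if_pos (dvd_mul_right l c), coeff_T2,
      Nat.mul_div_cancel_left c hl0]
    have h2 : ∀ y : ZMod 2, y + y = 0 := by decide
    have h3 : l ^ 2 ∣ l * c ↔ l ∣ c := by
      rw [pow_two]; exact Nat.mul_dvd_mul_iff_left hl0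
    have h4 : l * c / l ^ 2 = c / l := by
      rw [pow_two]; exact Nat.mul_div_mul_left c l hl0
    rw [h4]
    by_cases h5 : l ∣ c
    · rw [if_pos h5, if_pos (h3.2 h5)]
      linear_combination (-1 : ZMod 2) * h2 (coeff (l * c) h)
    · rw [if_neg h5, if_neg fun h6 => h5 (h3.1 h6)]
      linear_combination (-1 : ZMod 2) * h2 (coeff (l * c) h)
  · rw [if_neg h1, if_neg h1, if_neg fun h6 => h1 (dvd_trans (dvd_pow_self l two_ne_zero) h6)]
    ring

theorem hT_two_iter (r l : ℕ) (hl0 : 0 < l) (hl : (l : ZMod 2) = 1)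
    (hc : ∀ n, ((chi l n : ℤ) : ZMod 2) = if l ∣ n then 0 else 1) (i : ℕ) :
    ∀ h : (ZMod 2)⟦X⟧, (hT r l)^[i] (cf h) = cf ((T2 l)^[2 * i] h) := by
  induction i with
  | zero => intro h; rfl
  | succ i ih =>
    intro h
    rw [Function.iterate_succ_apply, hT_two r l hl0 hl hc, ih, mul_add, mul_one,
      Function.iterate_add_apply]
    rfl

end SOCx

theorem p_SOC (hB2 : S_B2) (hTOP : S_TOP) :
    S_SOC := by
  classical
  intro r J a m t ha H k0 hk0
  by_contra h0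
  set Z : ℕ → ℕ → ℤ := fun k => cf (dZ * e8 (a ^ m k * bZ ^ k)) with hZ
  have e1 : cf (toC dZ * e8 (∑ k ∈ range J, t k • toC (a ^ m k * bZ ^ k))) =
      fun n => ∑ k ∈ range J, t k * (Z k n : ℂ) := by
    funext n
    simp only [hZ, cf]
    rw [map_sum, mul_sum, map_sum]
    refine sum_congr rfl fun k _ => ?_
    rw [map_smul, mul_smul_comm, map_smul, smul_eq_mul, ← toC_e8, ← map_mul, coeff_toC]
  obtain ⟨n, ⟨k1, hk1, hodd⟩, hn⟩ := SOCx.exists_int (ι := ℕ × ℕ) (range J)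
    (fun x k => (hT r 3)^[x.1] ((hT r 5)^[x.2] (Z k)) 1) t k0 (mem_range.2 hk0) h0 (by
      intro x
      have := H x.1 x.2
      rw [e1, SOCx.hT_iter, SOCx.hT_iter] at this
      exact this)
  obtain ⟨i, j, hij⟩ := hTOP ((range J).filter fun k => Odd (n k))
    ⟨k1, mem_filter.2 ⟨hk1, hodd⟩⟩
  have e2 : ∀ k, to2 (dZ * e8 (a ^ m k * bZ ^ k)) = d2 ^ (8 * k + 1) := by
    intro k
    rw [map_mul, to2_e8, map_mul, map_pow, map_pow, ha, hB2.1, one_pow, one_mul, map_pow, hB2.2,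
      ← pow_mul, pow_succ, mul_comm]
    rfl
  have e3 : cf (∑ k ∈ (range J).filter fun k => Odd (n k), d2 ^ (8 * k + 1)) =
      fun x => ∑ k ∈ range J, (n k : ZMod 2) * (Z k x : ZMod 2) := by
    funext x
    simp only [hZ, cf]
    rw [map_sum, sum_filter]
    refine sum_congr rfl fun k _ => ?_
    rw [← coeff_to2, e2]
    by_cases h : Odd (n k)
    · rw [if_pos h, (ZMod.intCast_eq_one_iff_odd).2 h, one_mul]
    · rw [if_neg h, (ZMod.intCast_eq_zero_iff_even).2 (Int.not_odd_iff_even.1 h), zero_mul]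
  have e4 := congrFun (SOCx.hT_two_iter r 3 (by norm_num) (by decide) SOCx.chi3 i
    ((T2 5)^[2 * j] (∑ k ∈ (range J).filter fun k => Odd (n k), d2 ^ (8 * k + 1)))) 1
  rw [← SOCx.hT_two_iter r 5 (by norm_num) (by decide) SOCx.chi5 j, e3, SOCx.hT_iter,
    SOCx.hT_iter] at e4
  have e5 := congrArg (Int.cast : ℤ → ZMod 2) (hn (i, j))
  push_cast at e5
  have e6 : (0 : ZMod 2) = 1 := by
    rw [← e5, ← hij]
    exact e4
  exact absurd e6 (by decide)

end Pool.Agent.P.MP_e7a540_nt.L1
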