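import Pool.Agent.P.MP_e7a540_nt.L1.IfaceB
import Pool.Agent.P.MP_e7a540_nt.L1.IfaceA

/-! Step SOV. -/

set_option autoImplicit false
set_option linter.unusedSectionVars false

namespace Pool.Agent.P.MP_e7a540_nt.L1

open UpperHalfPlane hiding I
open CongruenceSubgroup ModularGroup Complex MeasureTheory PowerSeries Finset Filter
open scoped MatrixGroups ModularForm Manifold ComplexConjugate Real Topology

theorem p_SOV (hA2 : S_A2) (hSTR : S_STR) (hSOC : S_SOC) :
    S_SOV := by
  intro r F hr h h0
  obtain ⟨A, a, hA⟩ := hA2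
  obtain ⟨t, ht⟩ := hSTR r F A a hr h hA
  have := hSOC r _ a (fun k => r / 2 - 2 * k) t hA.two (by rwa [cs, ht] at h0)
  rw [sum_eq_zero fun k hk => by rw [this k (mem_range.1 hk), zero_smul]] at ht
  exact h.ext (cf_zero (w := 0)).mf (ht.trans (by simpa using (mf_one.qe_smul 0).symm))

end Pool.Agent.P.MP_e7a540_nt.L1
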