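import Mathlib

/-! Sturm bounds for level one and level two, on bare functions. -/

set_option autoImplicit false

namespace Pool.Agent.P.MP_e7a540_nt.L1.ST

open Complex Filter Asymptotics ModularGroup CongruenceSubgroup
open UpperHalfPlane hiding I
open scoped Real MatrixGroups ModularForm Manifold Topology

/-- the size of `q ^ a` -/
noncomputable def ex (a : ℝ) (τ : ℍ) : ℝ := Real.exp (-2 * π * a * τ.im)

theorem ex_pos (a : ℝ) (τ : ℍ) : 0 < ex a τ := Real.exp_pos _

theorem ex_add (a b : ℝ) (τ : ℍ) : ex a τ * ex b τ = ex (a + b) τ := by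
  rw [ex, ex, ex, ← Real.exp_add]; congr 1; ring

theorem ex_pow (a : ℝ) (n : ℕ) (τ : ℍ) : ex a τ ^ n = ex (n * a) τ := by
  rw [ex, ex, ← Real.exp_nat_mul]; congr 1; ring

theorem ex_tendsto {a : ℝ} (ha : 0 < a) : Tendsto (ex a) atImInfty (𝓝 0) := by
  refine Real.tendsto_exp_atBot.comp (Tendsto.const_mul_atTop_of_neg ?_ tendsto_comap)
  nlinarith [Real.pi_pos]

theorem pow_slash (k : ℤ) (g : SL(2, ℤ)) (f : ℍ → ℂ) (n : ℕ) :
    (f ^ n) ∣[k * n] g = (f ∣[k] g) ^ n := by
  ext z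
  simp only [ModularForm.SL_slash_apply, Pi.pow_apply, mul_pow]
  rw [← neg_mul, zpow_mul, zpow_natCast]

theorem sturm1 (w : ℕ) (P : ℍ → ℂ) (hP : MDiff P) (hS : P ∣[(w : ℤ)] S = P)
    (hT : P ∣[(w : ℤ)] T = P) {a : ℝ} (h : P =O[atImInfty] ex a) (ha : (w : ℝ) / 12 < a) :
    P = 0 := by
  have hD := ModularForm.discriminant_ne_zero
  have inv : ∀ g : SL(2, ℤ), (P ^ 12 / ModularForm.discriminant ^ w) ∣[(0 : ℤ)] g =
      P ^ 12 / ModularForm.discriminant ^ w := fun g => by
    rw [show (0 : ℤ) = w * (12 : ℕ) - 12 * w by push_cast; ring, ModularForm.div_slash_SL2,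
      pow_slash, pow_slash, SlashInvariantForm.slash_action_generators_SL2Z hS hT,
      SlashInvariantForm.slash_action_generators_SL2Z ModularForm.discriminant_S_invariant
        ModularForm.discriminant_T_invariant]
  have z : IsZeroAtImInfty (P ^ 12 / ModularForm.discriminant ^ w) := by
    have h1 : (fun τ => ex 1 τ) =O[atImInfty] ModularForm.discriminant := by
      simpa [ex] using ModularForm.exp_isBigO_discriminant
    have := (h.pow 12).mul ((h1.pow w).inv_rev (.of_forall fun τ c => absurd c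
      (pow_ne_zero _ (Real.exp_ne_zero _))))
    refine (this.congr (fun τ => by simp [div_eq_mul_inv]) fun τ => ?_).trans_tendsto
      (ex_tendsto (a := 12 * a - w) (by linarith))
    rw [mul_inv_eq_iff_eq_mul₀ (pow_ne_zero _ (ex_pos _ _).ne'), ex_pow, ex_pow, ex_add]
    congr 1; push_cast; ring
  let Q : ModularForm 𝒮ℒ 0 :=
    { toFun := P ^ 12 / ModularForm.discriminant ^ w
      slash_action_eq' := fun _ ⟨g, hg⟩ => hg ▸ inv g
      holo' := (hP.pow 12).div (CuspForm.discriminant.holo'.pow w) fun τ => pow_ne_zero _ (hD τ)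
      bdd_at_cusps' := fun {c} hc => by
        rw [Subgroup.IsArithmetic.isCusp_iff_isCusp_SL2Z] at hc
        rw [OnePoint.isBoundedAt_iff_forall_SL2Z hc]
        intro g _
        rw [inv]
        exact z.isBoundedAtImInfty }
  obtain ⟨c, hc⟩ := ModularFormClass.levelOne_weight_zero_const Q
  have hc : P ^ 12 / ModularForm.discriminant ^ w = Function.const _ c := hc
  rw [hc] at z
  obtain rfl : c = 0 := tendsto_const_nhds_iff.1 z
  ext τ
  simpa [hD τ] using congrFun hc τ

theorem slash_T {k : ℤ} {f : ℍ → ℂ} {a : ℝ} (h : f =O[atImInfty] ex a) :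
    (f ∣[k] T) =O[atImInfty] ex a := by
  have := h.comp_tendsto (tendsto_smul_atImInfty (g := (T : SL(2, ℤ))) (by simp [T]))
  refine this.congr (fun τ => ?_) fun τ => ?_
  · simp [ModularForm.SL_slash_apply, denom, T]
  · simp only [Function.comp, ex]
    rw [← sl_moeb, im_T_smul]

theorem sturm2 (w : ℕ) (F : ℍ → ℂ) (hF : MDiff F)
    (hG : ∀ g : SL(2, ℤ), g ∈ Gamma0 2 → F ∣[(w : ℤ)] g = F) {a b : ℝ}
    (h1 : F =O[atImInfty] ex a) (h2 : (F ∣[(w : ℤ)] S) =O[atImInfty] ex b)
    (h : (w : ℝ) / 4 < a + 2 * b) : F = 0 := by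
  have key : ∀ g g' : SL(2, ℤ), g * g'⁻¹ ∈ Gamma0 2 → F ∣[(w : ℤ)] g = F ∣[(w : ℤ)] g' :=
    fun g g' c => by
      conv_rhs => rw [← hG _ c, ← SlashAction.slash_mul, inv_mul_cancel_right]
  have m1 : MDiff (F ∣[(w : ℤ)] S) := hF.slash _ _
  have m2 : MDiff ((F ∣[(w : ℤ)] S) ∣[(w : ℤ)] T) := m1.slash _ _
  have := sturm1 (3 * w) (F * (F ∣[(w : ℤ)] S) * ((F ∣[(w : ℤ)] S) ∣[(w : ℤ)] T))
    ((hF.mul m1).mul m2) ?_ ?_ (a := a + b + b)
    (((h1.mul h2).mul (slash_T h2)).congr_right fun τ => by rw [ex_add, ex_add])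
    (by push_cast; linarith)
  · have z : ∀ g : SL(2, ℤ), F ∣[(w : ℤ)] g = 0 → F = 0 := fun g =>
      (SlashAction.slash_eq_zero_iff _ _ _).1
    rcases mul_eq_zero_iff (hF.mul m1) m2 |>.1 this with c | c
    · rcases mul_eq_zero_iff hF m1 |>.1 c with c | c
      · exact c
      · exact z _ c
    · exact z _ (by rwa [← SlashAction.slash_mul] at c)
  · rw [show ((3 * w : ℕ) : ℤ) = w + w + w by push_cast; ring, ModularForm.mul_slash_SL2,
      ModularForm.mul_slash_SL2, ← SlashAction.slash_mul, ← SlashAction.slash_mul,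
      ← SlashAction.slash_mul, hG (S * S) (Gamma0_mem.2 (by decide)), key (S * (T * S)) (S * T) (Gamma0_mem.2 (by decide)),
      mul_comm F, SlashAction.slash_mul _ S T]
  · rw [show ((3 * w : ℕ) : ℤ) = w + w + w by push_cast; ring, ModularForm.mul_slash_SL2,
      ModularForm.mul_slash_SL2, ← SlashAction.slash_mul, ← SlashAction.slash_mul,
      hG T (Gamma0_mem.2 (by decide)), key (S * T * T) S (Gamma0_mem.2 (by decide)), mul_right_comm]

end Pool.Agent.P.MP_e7a540_nt.L1.ST
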