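import Pool.Agent.P.MP_e7a540_nt.L1.IfaceB
import Pool.Agent.P.MP_e7a540_nt.L1.ST1

/-! Step STM. -/

set_option autoImplicit false
set_option linter.unusedSectionVars false

namespace Pool.Agent.P.MP_e7a540_nt.L1

open UpperHalfPlane hiding I
open CongruenceSubgroup ModularGroup Complex MeasureTheory PowerSeries Finset Filter
open scoped MatrixGroups ModularForm Manifold ComplexConjugate Real Topology

theorem p_STM :
    S_STM := by
  have key : ∀ (w m : ℕ) (F : ℍ → ℂ) (b : ℝ), MF w F → (∀ n < m, coeff n (qe F) = 0) →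
      sl w F S =O[atImInfty] ST.ex b → (w : ℝ) / 4 < m + 2 * b → F = 0 :=
    fun w m F b h h1 h2 h3 => ST.sturm2 w F h.hol (fun g hg => sl_eq w F g ▸ inv_iff.1 h.inv g hg)
      (a := m) ((h.qe.decay one_ne_zero h1).congr_right fun τ => by simp [ST.ex])
      (sl_eq w F S ▸ h2) h3
  have lt : ∀ w : ℕ, (w : ℝ) < 4 * (w / 4 + 1 : ℕ) := fun w => by
    exact_mod_cast (by omega : w < 4 * (w / 4 + 1))
  refine ⟨fun w F h h1 => key w (w / 4 + 1) F 0 h (fun n hn => h1 n (by omega))
    (h.bz.congr_right fun τ => by simp [ST.ex]) (by linarith [lt w]), fun r y h h1 => ?_⟩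
  have h2 : ∀ n < r / 4 + 1, coeff n (qe y) = 0 := fun n hn => h1 n (by omega)
  refine key (2 * r) _ y ((r / 4 + 1 : ℕ) / 2) h.1.mf h2 ?_ (by
    rw [Nat.cast_mul, Nat.cast_ofNat]; linarith [lt r])
  have h0 : (0 : ℝ) < 2⁻¹ := by norm_num
  refine (((h.1.mf.qe.decay one_ne_zero h2).comp_tendsto (tendsto_af h0 0)).const_mul_left
    (2 ^ r / 2 ^ (2 * r))).congr (fun τ => ?_) fun τ => ?_
  · have := h.2 (af 2⁻¹ 0 τ)
    rw [Wz, af_af h0, coe_af h0, mul_inv_cancel₀ two_ne_zero, mul_zero, add_zero, af_one] at this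
    simp only [sl, this, dn_S, Function.comp]
    push_cast
    simp only [add_zero, mul_pow, inv_pow]
    field_simp [τ.ne_zero]
  · simp only [Function.comp, ST.ex, im_af h0]
    congr 1; ring

end Pool.Agent.P.MP_e7a540_nt.L1
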