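import Pool.Agent.P.MP_e7a540_nt.L1.IfaceB
import Pool.Agent.P.MP_e7a540_nt.L1.Tri

/-! Step STR. -/

set_option autoImplicit false
set_option linter.unusedSectionVars false

namespace Pool.Agent.P.MP_e7a540_nt.L1

open UpperHalfPlane hiding I
open CongruenceSubgroup ModularGroup Complex MeasureTheory PowerSeries Finset Filter
open scoped MatrixGroups ModularForm Manifold ComplexConjugate Real Topology

theorem p_STR (hSTM : S_STM) (hPA : S_PA) (hPB : S_PB) :
    S_STR := by
  intro w F A a hw h hA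
  have m := fun k (hk : k < w / 4 + 1) => mono hPA hPB hA (w := w) (i := w / 2 - 2 * k) (k := k)
    (by have := Nat.even_iff.1 hw; omega)
  obtain ⟨t, ht⟩ := tri (fun k => toC (a ^ (w / 2 - 2 * k) * (triZ ^ 8) ^ k))
    (fun k => by rw [(mono hPA hPB hA rfl).2.2.2]; exact one_ne_zero) (qe F) (w / 4 + 1)
  obtain ⟨h1, h2⟩ := mf_sum t _ fun k hk => (m k hk).1
  replace h2 := h2.trans (sum_congr rfl fun k hk => by rw [(m k (mem_range.1 hk)).2.1])
  rw [sum_congr rfl fun k hk => by rw [← (m k (mem_range.1 hk)).2.2.1], ← h2] at ht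
  have := hSTM.1 w _ (h.add (h1.smul (-1))) fun n hn => by
    rw [h.qe_add (h1.smul _), h1.qe_smul, map_add, coeff_smul, ht n (by omega)]; simp
  exact ⟨t, h2 ▸ congrArg qe (by rwa [neg_one_smul, add_neg_eq_zero] at this)⟩

end Pool.Agent.P.MP_e7a540_nt.L1
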