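import Pool.Agent.P.MP_e7a540_nt.L1.IfaceA

/-! Step SV. -/

set_option autoImplicit false
set_option linter.unusedSectionVars false

namespace Pool.Agent.P.MP_e7a540_nt.L1

open PowerSeries Finset

namespace SVx

open Filter Topology

theorem chi_sq {l : ℕ} (hl : l.Prime) (h2 : l ≠ 2) (m : ℕ) :
    chi l (m ^ 2) = if l ∣ m then 0 else 1 := by
  have := Fact.mk hl
  have e : ((range l).filter fun x => x ^ 2 % l = m ^ 2 % l) =
      ({(m : ZMod l), -(m : ZMod l)} : Finset (ZMod l)).image ZMod.val := by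
    ext x
    simp only [mem_filter, mem_range, mem_image, mem_insert, mem_singleton,
      ← ZMod.natCast_eq_natCast_iff', Nat.cast_pow, ← sq_eq_sq_iff_eq_or_eq_neg]
    exact ⟨fun h => ⟨x, h.2, ZMod.val_cast_of_lt h.1⟩, fun ⟨y, h, e⟩ =>
      e ▸ ⟨ZMod.val_lt y, by rwa [ZMod.natCast_zmod_val]⟩⟩
  rw [chi, e, card_image_of_injective _ (ZMod.val_injective l)]
  split_ifs with h
  · simp [(ZMod.natCast_eq_zero_iff m l).2 h]
  · rw [card_pair (ZMod.ne_neg_self (hl.odd_of_ne_two h2)
      (mt (ZMod.natCast_eq_zero_iff m l).1 h))]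
    rfl

theorem Dt_hT {l : ℕ} (hl : l.Prime) (h2 : l ≠ 2) (r : ℕ) (c : ℕ → ℂ) (m : ℕ) :
    Dt r (hT r l c) m = (l : ℂ) ^ (2 * r - 1) * Dt r c (l * m) +
      (l : ℂ) ^ (r - 1) * (if l ∣ m then 0 else Dt r c m) +
        if l ∣ m then Dt r c (m / l) else 0 := by
  have l0 : (l : ℂ) ≠ 0 := Nat.cast_ne_zero.2 hl.ne_zero
  have ho := hl.odd_of_ne_two h2
  simp only [Dt, hT, chi_sq hl h2, Nat.pow_dvd_pow_iff two_ne_zero, Nat.odd_mul, ho, true_and,
    mul_pow, Nat.cast_mul]
  by_cases h : l ∣ m
  · obtain ⟨k, rfl⟩ := h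
    simp only [dvd_mul_right, if_true, Nat.mul_div_cancel_left _ hl.pos, Nat.odd_mul, ho, true_and,
      mul_pow, Nat.mul_div_cancel_left _ (pow_pos hl.pos 2), Nat.cast_mul]
    split_ifs
    · push_cast
      field_simp
      ring
    · simp
  · simp only [h, if_false]
    split_ifs
    · push_cast
      field_simp
      ring
    · simp

theorem step {g : ℕ → ℂ} (hg : HasSum g 0) {l : ℕ} (hl : 0 < l) {A B : ℂ} (hAB : A ≠ B)
    (h : HasSum (fun m => A * g (l * m) + B * (if l ∣ m then 0 else g m) +
      if l ∣ m then g (m / l) else 0) 0) : HasSum (fun m => if l ∣ m then 0 else g m) 0 := by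
  have hi : Function.Injective fun m => l * m := mul_right_injective₀ hl.ne'
  have key : ∀ (f : ℕ → ℂ) (a : ℂ), HasSum (fun m => if l ∣ m then f m else 0) a ↔
      HasSum (fun m => f (l * m)) a := fun f a => by
    rw [← hi.hasSum_iff fun m hm => if_neg fun ⟨k, e⟩ => hm ⟨k, e.symm⟩]
    simp [Function.comp_def]
  obtain ⟨S, h0⟩ : Summable fun m => if l ∣ m then 0 else g m :=
    .of_norm_bounded hg.summable.norm fun m => by split_ifs <;> simp
  have h1 : HasSum (fun m => g (l * m)) (0 - S) :=
    (key g _).1 ((hg.sub h0).congr_fun fun m => by split_ifs <;> simp)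
  have h3 : HasSum (fun m => if l ∣ m then g (m / l) else 0) 0 :=
    (key (fun m => g (m / l)) 0).2 (by simpa only [Nat.mul_div_cancel_left _ hl] using hg)
  have h4 := h.unique (((h1.mul_left A).add (h0.mul_left B)).add h3)
  have h5 : S = 0 := mul_left_cancel₀ (sub_ne_zero.2 hAB) (by linear_combination h4)
  rwa [h5] at h0

/-- no odd prime factor below `N` -/
def Q (N m : ℕ) : Prop := ∀ l < N, l.Prime → l ≠ 2 → ¬ l ∣ m

end SVx

open SVx Filter Topology Classical in
theorem p_SV :
    S_SV := by
  intro r U hr hU hD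
  have key : ∀ N, ∀ c ∈ U, HasSum (fun m => if Q N m then Dt r c m else 0) 0 := by
    intro N
    induction N with
    | zero =>
      intro c hc
      simpa [Q, (hD c hc).2] using (hD c hc).1.of_norm.hasSum
    | succ l ih =>
      intro c hc
      have e : ∀ m, Q (l + 1) m ↔ Q l m ∧ (l.Prime → l ≠ 2 → ¬ l ∣ m) :=
        fun m => Nat.forall_lt_succ_right
      by_cases hl : l.Prime ∧ l ≠ 2
      · have e' : ∀ m, Q l (l * m) ↔ Q l m := fun m => forall₂_congr fun p hp =>
          forall₂_congr fun h _ => not_congr (Nat.Coprime.dvd_mul_left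
            ((Nat.coprime_primes h hl.1).2 hp.ne))
        have hne : (l : ℂ) ^ (2 * r - 1) ≠ (l : ℂ) ^ (r - 1) := fun h => by
          have := Nat.pow_right_injective hl.1.two_le (by exact_mod_cast h)
          omega
        convert step (ih c hc) hl.1.pos hne ?_ using 2 with m
        · simp only [e, hl.1, hl.2, ne_eq, not_false_eq_true, forall_true_left]
          by_cases h : l ∣ m <;> simp [h]
        · convert ih _ (hU c hc l hl.1 hl.2) using 2 with m
          rw [Dt_hT hl.1 hl.2, e']
          by_cases h : l ∣ m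
          · obtain ⟨k, rfl⟩ := h
            simp only [dvd_mul_right, if_true, Nat.mul_div_cancel_left _ hl.1.pos, e']
            split_ifs <;> simp
          · simp only [h, if_false]
            split_ifs <;> simp
      · convert ih c hc using 3 with m
        rw [e, and_iff_left fun h1 h2 => absurd ⟨h1, h2⟩ hl]
  intro c hc
  have h1 := tendsto_tsum_of_dominated_convergence (𝓕 := atTop)
    (f := fun N m => if Q N m then Dt r c m else 0) (g := fun m => if m = 1 then c 1 else 0)
    (hD c hc).1 (fun m => ?_) (.of_forall fun N m => by split_ifs <;> simp)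
  · simp only [fun N => (key N c hc).tsum_eq, tsum_ite_eq] at h1
    exact tendsto_nhds_unique h1 tendsto_const_nhds
  refine tendsto_const_nhds.congr' ?_
  filter_upwards [eventually_gt_atTop m.minFac] with N hN
  by_cases h : m = 1
  · rw [if_pos h, h, if_pos (show Q N 1 from fun l _ hl _ => hl.not_dvd_one)]
    simp [Dt]
  rw [if_neg h]
  split_ifs with hQ
  · rw [Dt, if_neg fun ho => hQ _ hN (Nat.minFac_prime h)
      (fun e => ho.not_two_dvd_nat (e ▸ m.minFac_dvd)) m.minFac_dvd]
  · rfl

end Pool.Agent.P.MP_e7a540_nt.L1
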