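import Mathlib

/-! Theta series modulo two and the modular equations of level three and five. -/

set_option autoImplicit false

namespace Pool.Agent.P.MP_e7a540_nt.L1.NS

open PowerSeries

abbrev F := ZMod 2

/-- the parity of the number of points of `S` on which `N` takes a given value -/
noncomputable def th {ι : Type} (S : Set ι) (N : ι → ℤ) : F⟦X⟧ :=
  mk fun n => (({x | x ∈ S ∧ N x = n}.ncard : ℕ) : F)

/-- finite fibres, no negative values -/
def Fn {ι : Type} (N : ι → ℤ) : Prop := (∀ x, 0 ≤ N x) ∧ ∀ n : ℤ, {x | N x = n}.Finite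

variable {ι κ : Type} {S : Set ι} {T : Set κ} {N : ι → ℤ} {M : κ → ℤ}

theorem Fn.fin (h : Fn N) (S : Set ι) (n : ℤ) : {x | x ∈ S ∧ N x = n}.Finite :=
  (h.2 n).subset fun _ hx => hx.2

theorem th_bij (f : ι → κ) (h1 : ∀ x ∈ S, f x ∈ T ∧ M (f x) = N x)
    (h2 : ∀ x ∈ S, ∀ y ∈ S, f x = f y → x = y) (h3 : ∀ y ∈ T, ∃ x ∈ S, f x = y) :
    th S N = th T M := by
  ext n
  simp only [th, coeff_mk]
  congr 1
  refine Set.ncard_congr (fun x _ => f x) (fun x hx => ⟨(h1 x hx.1).1, (h1 x hx.1).2.trans hx.2⟩)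
    (fun x y hx hy => h2 x hx.1 y hy.1) fun y hy => ?_
  obtain ⟨x, hx, rfl⟩ := h3 y hy.1
  exact ⟨x, ⟨hx, (h1 x hx).2.symm.trans hy.2⟩, rfl⟩

theorem th_split (h : Fn N) (S : Set ι) (p : ι → Prop) :
    th S N = th {x | x ∈ S ∧ p x} N + th {x | x ∈ S ∧ ¬ p x} N := by
  ext n
  simp only [th, coeff_mk, map_add]
  rw [← Nat.cast_add, ← Set.ncard_union_eq _ (h.fin _ _) (h.fin _ _)]
  · congr 2
    ext x
    by_cases p x <;> simp_all
  · exact Set.disjoint_left.2 fun x a b => b.1.2 a.1.2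

theorem th_empty (h : ∀ x, x ∉ S) : th S N = 0 := by
  ext n
  simp [th, h]

theorem th_inv (h : Fn N) (σ : ι → ι) (h1 : ∀ x ∈ S, σ x ∈ S ∧ N (σ x) = N x ∧ σ (σ x) = x) :
    th S N = th {x | x ∈ S ∧ σ x = x} N := by
  rw [th_split h S fun x => σ x = x, add_eq_left]
  ext n
  simp only [th, coeff_mk, map_zero]
  rw [Set.ncard_eq_toFinset_card _ (h.fin _ _), Finset.card_eq_sum_ones, Nat.cast_sum]
  refine Finset.sum_involution (fun x _ => σ x) (fun _ _ => by decide) (fun x hx _ => ?_)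
    (fun x hx => ?_) fun x hx => ?_ <;> simp only [Set.Finite.mem_toFinset, Set.mem_ofPred_eq] at *
  · exact hx.1.2
  · obtain ⟨a, b, c⟩ := h1 x hx.1.1
    exact ⟨⟨a, fun e => hx.1.2 (e.symm.trans c)⟩, b.trans hx.2⟩
  · exact (h1 x hx.1.1).2.2

theorem th_mul (h : Fn N) (h' : Fn M) :
    th S N * th T M = th (S ×ˢ T) fun p => N p.1 + M p.2 := by
  classical
  ext n
  simp only [th, coeff_mul, coeff_mk]
  have : {x : ι × κ | x ∈ S ×ˢ T ∧ N x.1 + M x.2 = n} =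
      ((Finset.HasAntidiagonal.antidiagonal n).biUnion fun p =>
        (h.fin S p.1).toFinset ×ˢ (h'.fin T p.2).toFinset : Finset (ι × κ)) := by
    ext ⟨x, y⟩
    have := h.1 x
    have := h'.1 y
    simp only [Set.mem_prod, Set.mem_ofPred_eq, Finset.coe_biUnion, Finset.mem_coe,
      Finset.HasAntidiagonal.mem_antidiagonal, Finset.coe_product, Set.Finite.coe_toFinset, Set.mem_iUnion]
    exact ⟨fun ⟨a, b⟩ => ⟨((N x).toNat, (M y).toNat), by omega, ⟨a.1, by omega⟩, a.2, by omega⟩,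
      fun ⟨p, a, b, c⟩ => ⟨⟨b.1, c.1⟩, by omega⟩⟩
  rw [this, Set.ncard_coe_finset, Finset.card_biUnion, Nat.cast_sum]
  · refine Finset.sum_congr rfl fun p _ => ?_
    rw [Finset.card_product, Nat.cast_mul, Set.ncard_eq_toFinset_card _ (h.fin _ _),
      Set.ncard_eq_toFinset_card _ (h'.fin _ _)]
  · intro p _ q _ e
    refine Finset.disjoint_left.2 fun x a b => e ?_
    simp only [Finset.mem_product, Set.Finite.mem_toFinset, Set.mem_ofPred_eq] at a b
    ext <;> omega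

theorem th_expand (k : ℕ) (hk : k ≠ 0) :
    expand k hk (th S N) = th S fun x => k * N x := by
  ext n
  rw [coeff_expand]
  simp only [th, coeff_mk]
  split_ifs with c
  · obtain ⟨m, rfl⟩ := c
    simp [Nat.mul_div_cancel_left _ (Nat.pos_of_ne_zero hk), hk]
  · rw [Set.eq_empty_of_forall_notMem (s := {x | x ∈ S ∧ k * N x = n}) fun x hx =>
      c (Int.natCast_dvd_natCast.1 ⟨_, hx.2.symm⟩)]
    simp

theorem sq_eq (f : F⟦X⟧) : f ^ 2 = expand 2 two_ne_zero f := by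
  have := MvPowerSeries.map_frobenius_expand (R := F) 2 two_ne_zero (f := f)
  rw [ZMod.frobenius_zmod, MvPowerSeries.map_id] at this
  exact this.symm

theorem four_eq (f : F⟦X⟧) : f ^ 4 = expand 4 (by norm_num) f := by
  rw [show f ^ 4 = (f ^ 2) ^ 2 by ring, sq_eq, sq_eq, ← expand_mul]

theorem fn_sq (c : ℤ) (hc : 0 < c) : Fn fun a : ℤ => c * a ^ 2 :=
  ⟨fun a => by positivity, fun n => (Set.finite_Icc (-n) n).subset fun a ha => by
    simp only [Set.mem_ofPred_eq] at ha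
    constructor <;> nlinarith [sq_nonneg (a - 1), sq_nonneg (a + 1), sq_nonneg a]⟩

theorem fn_two (c d : ℤ) (hc : 0 < c) (hd : 0 < d) :
    Fn fun p : ℤ × ℤ => c * p.1 ^ 2 + d * p.2 ^ 2 :=
  ⟨fun a => by positivity, fun n => ((Set.finite_Icc (-n) n).prod (Set.finite_Icc (-n) n)).subset
    fun ⟨a, b⟩ ha => by
      simp only [Set.mem_ofPred_eq] at ha
      have h1 : a ^ 2 + b ^ 2 ≤ n := by nlinarith [sq_nonneg a, sq_nonneg b]
      refine ⟨⟨?_, ?_⟩, ?_, ?_⟩ <;>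
        nlinarith [sq_nonneg (a - 1), sq_nonneg (a + 1), sq_nonneg (b - 1), sq_nonneg (b + 1),
          sq_nonneg a, sq_nonneg b]⟩

/-- the series `∑ q ^ (c a ^ 2)` over the `a ≡ 1 mod 4` in `S` -/
noncomputable def R (c : ℤ) (p : ℤ → Prop) : F⟦X⟧ := th {a | a % 4 = 1 ∧ p a} fun a => c * a ^ 2

/-- the series `∑ q ^ (a ^ 2)` over the odd positive `a` -/
noncomputable def D : F⟦X⟧ := R 1 fun _ => True

theorem R_expand (k : ℕ) (hk : k ≠ 0) (c : ℤ) (p : ℤ → Prop) :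
    expand k hk (R c p) = R (k * c) p := by
  rw [R, th_expand k hk]
  simp only [R, mul_assoc]

theorem R_mul (c d : ℤ) (hc : 0 < c) (hd : 0 < d) (p q : ℤ → Prop) : R c p * R d q =
    th {x : ℤ × ℤ | (x.1 % 4 = 1 ∧ p x.1) ∧ x.2 % 4 = 1 ∧ q x.2} fun x => c * x.1 ^ 2 + d * x.2 ^ 2 :=
  th_mul (fn_sq c hc) (fn_sq d hd)

theorem two_zero : (2 : F⟦X⟧) = 0 := by
  have : (2 : F⟦X⟧) = C (2 : F) := rfl
  rw [this, show (2 : F) = 0 from rfl, map_zero]

theorem F3 : (D + expand 3 (by norm_num) D) ^ 4 = D * expand 3 (by norm_num) D := by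
  have e : (D + expand 3 (by norm_num) D) ^ 4 = R 4 (fun _ => True) + R 12 fun _ => True := by
    rw [four_eq, map_add, D, R_expand, R_expand, R_expand]; norm_num
  rw [e, D, R_expand, R_mul _ _ one_pos (by norm_num),
    ← th_bij (S := {x : ℤ × ℤ | (x.1 + x.2) % 4 = 1}) (N := fun x => 4 * x.1 ^ 2 + 12 * x.2 ^ 2)
      (fun x => (x.1 - 3 * x.2, x.1 + x.2)),
    th_inv (fn_two 4 12 (by norm_num) (by norm_num))
      (fun x => if x.2 % 2 = 0 then (x.1, -x.2) else (-x.1, x.2)),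
    th_split (fn_two 4 12 (by norm_num) (by norm_num)) _ fun x => x.2 = 0]
  · congr 1
    · refine th_bij (fun a => (a, 0)) (fun a ha => ⟨?_, by simp⟩) (by simp) ?_
      · simpa using ha
      · rintro ⟨a, b⟩ ⟨⟨h1, -⟩, rfl⟩
        exact ⟨a, by simpa using h1, rfl⟩
    · refine th_bij (fun a => (0, a)) (fun a ha => ⟨?_, by simp⟩) (by simp) ?_
      · have : a % 4 = 1 := ha.1
        simp [this, show a ≠ 0 by omega]; omega
      · rintro ⟨a, b⟩ ⟨⟨h1, h2⟩, h3⟩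
        simp only [Set.mem_ofPred_eq] at h1 h2 h3
        split_ifs at h2 <;> simp only [Prod.mk.injEq] at h2
        · omega
        · exact ⟨b, ⟨by omega, trivial⟩, Prod.ext (by simp only; omega) rfl⟩
  · rintro ⟨a, b⟩ h
    simp only [Set.mem_ofPred_eq] at h ⊢
    by_cases c : b % 2 = 0
    · simp [c, show (-b) % 2 = 0 by omega]; omega
    · simp [c]; omega
  · rintro ⟨a, b⟩ h
    simp only [Set.mem_ofPred_eq] at h ⊢
    exact ⟨⟨⟨by omega, trivial⟩, h, trivial⟩, by push_cast; ring⟩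
  · rintro ⟨a, b⟩ - ⟨c, d⟩ - h
    simp only [Prod.mk.injEq] at h ⊢
    omega
  · rintro ⟨a, b⟩ ⟨⟨h1, -⟩, h2, -⟩
    simp only at h1 h2
    exact ⟨(b - (b - a) / 4, (b - a) / 4), by simp only [Set.mem_ofPred_eq]; omega,
      by simp only [Prod.mk.injEq]; omega⟩

/-- primary Gaussian integers -/
noncomputable def G (c : ℤ) (p : ℤ → ℤ → Prop) : F⟦X⟧ :=
  th {x : ℤ × ℤ | (x.2 % 2 = 0 ∧ (x.1 + x.2) % 4 = 1) ∧ p x.1 x.2} fun x => c * x.1 ^ 2 + c * x.2 ^ 2

theorem G_conj (c r : ℤ) (hc : 0 < c) :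
    G c (fun _ b => b % 4 = r % 4) = if r % 4 = 0 then R c fun _ => True else
      G c fun _ b => b % 4 = r % 4 ∧ False := by
  rw [G, th_inv (fn_two c c hc hc) fun x => (x.1, -x.2)]
  · split_ifs with h
    · refine (th_bij (fun a => (a, 0)) (fun a ha => ⟨?_, by simp⟩) (by simp) ?_).symm
      · simpa [h] using ha
      · rintro ⟨a, b⟩ ⟨⟨h1, -⟩, h2⟩
        simp only [Prod.mk.injEq] at h1 h2
        exact ⟨a, ⟨by omega, trivial⟩, Prod.ext rfl (by simp only; omega)⟩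
    · rw [G, th_empty, th_empty (by simp)]
      rintro ⟨a, b⟩ ⟨⟨h1, h3⟩, h2⟩
      simp only [Prod.mk.injEq] at h1 h2 h3
      omega
  · rintro ⟨a, b⟩ h
    simp only [Set.mem_ofPred_eq] at h ⊢
    exact ⟨by omega, by ring, by simp⟩

/-- multiples of one prime above five but not of the other -/
theorem G_five (c r : ℤ) (hc : 0 < c) :
    G c (fun a b => b % 4 = r % 4 ∧ (a + 3 * b) % 5 = 0 ∧ ¬ a % 5 = 0) =
      G (5 * c) (fun _ b => b % 4 = (r + 2) % 4) + G (25 * c) fun _ b => b % 4 = r % 4 := by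
  have h1 : G (5 * c) (fun _ b => b % 4 = (r + 2) % 4) =
      G c fun a b => b % 4 = r % 4 ∧ (a + 3 * b) % 5 = 0 := by
    refine th_bij (fun x => (-x.1 - 2 * x.2, 2 * x.1 - x.2)) ?_ ?_ ?_
    · rintro ⟨a, b⟩ h
      simp only [Set.mem_ofPred_eq] at h ⊢
      exact ⟨by omega, by ring⟩
    · rintro ⟨a, b⟩ - ⟨c, d⟩ - h
      simp only [Prod.mk.injEq] at h ⊢
      omega
    · rintro ⟨a, b⟩ h
      simp only [Set.mem_ofPred_eq] at h
      exact ⟨((2 * b - a) / 5, (-2 * a - b) / 5), by simp only [Set.mem_ofPred_eq]; omega,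
        by simp only [Prod.mk.injEq]; omega⟩
  have h2 : G (25 * c) (fun _ b => b % 4 = r % 4) =
      G c fun a b => (b % 4 = r % 4 ∧ (a + 3 * b) % 5 = 0) ∧ a % 5 = 0 := by
    refine th_bij (fun x => (5 * x.1, 5 * x.2)) ?_ ?_ ?_
    · rintro ⟨a, b⟩ h
      simp only [Set.mem_ofPred_eq] at h ⊢
      exact ⟨by omega, by ring⟩
    · rintro ⟨a, b⟩ - ⟨c, d⟩ - h
      simp only [Prod.mk.injEq] at h ⊢
      omega
    · rintro ⟨a, b⟩ h
      simp only [Set.mem_ofPred_eq] at h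
      exact ⟨(a / 5, b / 5), by simp only [Set.mem_ofPred_eq]; omega,
        by simp only [Prod.mk.injEq]; omega⟩
  rw [h1, h2, G, G, G, th_split (fn_two c c hc hc)
    {x : ℤ × ℤ | _ ∧ x.2 % 4 = r % 4 ∧ (x.1 + 3 * x.2) % 5 = 0} fun x => x.1 % 5 = 0]
  simp only [Set.mem_ofPred_eq, and_assoc]
  linear_combination (-th {x : ℤ × ℤ | x.2 % 2 = 0 ∧ (x.1 + x.2) % 4 = 1 ∧ x.2 % 4 = r % 4 ∧
    (x.1 + 3 * x.2) % 5 = 0 ∧ x.1 % 5 = 0} fun x => c * x.1 ^ 2 + c * x.2 ^ 2) * two_zero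

theorem G_false (c : ℤ) (p : ℤ → ℤ → Prop) : G c (fun a b => p a b ∧ False) = 0 :=
  th_empty (by simp)

theorem G_five0 (c : ℤ) (hc : 0 < c) :
    G c (fun a b => b % 4 = 0 % 4 ∧ (a + 3 * b) % 5 = 0 ∧ ¬ a % 5 = 0) =
      R (25 * c) fun _ => True := by
  rw [G_five c 0 hc, G_conj _ _ (by omega), G_conj _ _ (by omega), if_neg (by decide),
    if_pos (by decide), G_false, zero_add]

theorem G_five2 (c : ℤ) (hc : 0 < c) :
    G c (fun a b => b % 4 = 2 % 4 ∧ (a + 3 * b) % 5 = 0 ∧ ¬ a % 5 = 0) =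
      R (5 * c) fun _ => True := by
  rw [G_five c 2 hc, G_conj _ _ (by omega), G_conj _ _ (by omega), if_pos (by decide),
    if_neg (by decide), G_false, add_zero]

abbrev p1 (a : ℤ) : Prop := a % 5 = 1 ∨ a % 5 = 4
abbrev p3 (a : ℤ) : Prop := a % 5 = 2 ∨ a % 5 = 3

theorem I0 : D = R 25 (fun _ => True) + (R 1 p1 + R 1 p3) := by
  rw [D, R, th_split (fn_sq 1 one_pos) _ fun a => a % 5 = 0,
    th_split (fn_sq 1 one_pos) {a | _ ∧ ¬ a % 5 = 0} p1]
  congr 1
  · refine (th_bij (fun a => 5 * a) (fun a h => ?_) (fun a _ b _ h => by omega) fun a h => ?_).symm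
    · simp only [Set.mem_ofPred_eq] at h ⊢
      exact ⟨⟨⟨by omega, trivial⟩, by omega⟩, by ring⟩
    · simp only [Set.mem_ofPred_eq] at h
      exact ⟨a / 5, ⟨by omega, trivial⟩, by omega⟩
  · unfold R
    congr 2 <;> ext a <;> simp only [Set.mem_ofPred_eq, p1, p3, and_true] <;> omega

theorem I1 : R 1 p1 * R 1 p3 = R 10 (fun _ => True) + R 50 fun _ => True := by
  rw [show (10 : ℤ) = 5 * 2 from rfl, show (50 : ℤ) = 25 * 2 from rfl, ← G_five0 2 two_pos,
    ← G_five2 2 two_pos, R_mul _ _ one_pos one_pos,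
    ← th_bij (S := {x : ℤ × ℤ | (x.2 % 2 = 0 ∧ (x.1 + x.2) % 4 = 1) ∧
        (x.1 + 3 * x.2) % 5 = 0 ∧ ¬ x.1 % 5 = 0}) (N := fun x => 2 * x.1 ^ 2 + 2 * x.2 ^ 2)
      (fun x => if p1 (x.1 - x.2) then (x.1 - x.2, x.1 + x.2) else (x.1 + x.2, x.1 - x.2)),
    th_split (fn_two 2 2 two_pos two_pos) _ fun x => x.2 % 4 = 2]
  · unfold G
    congr 2 <;> ext a <;> simp only [Set.mem_ofPred_eq] <;> omega
  · rintro ⟨a, b⟩ h
    simp only [Set.mem_ofPred_eq, p1, p3] at h ⊢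
    have h1 : (a - b) % 4 = 1 := by omega
    have h2 : (a - b) % 5 = 1 ∧ (a + b) % 5 = 3 ∨ (a - b) % 5 = 2 ∧ (a + b) % 5 = 1 ∨
        (a - b) % 5 = 3 ∧ (a + b) % 5 = 4 ∨ (a - b) % 5 = 4 ∧ (a + b) % 5 = 2 := by
      have : b % 5 = 1 ∨ b % 5 = 2 ∨ b % 5 = 3 ∨ b % 5 = 4 := by omega
      rcases this with c | c | c | c <;> omega
    have h3 := h.1.2
    clear h
    split_ifs <;> exact ⟨by simp only; omega, by ring⟩
  · rintro ⟨a, b⟩ h ⟨c, d⟩ h' e
    simp only [Set.mem_ofPred_eq, p1] at h h' e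
    split_ifs at e <;> simp only [Prod.mk.injEq] at e ⊢ <;> omega
  · rintro ⟨u, v⟩ h
    simp only [Set.mem_ofPred_eq, p1, p3] at h ⊢
    by_cases c : (u + 3 * v) % 5 = 0
    · refine ⟨((u + v) / 2, (v - u) / 2), by simp only; omega, ?_⟩
      split_ifs <;> simp only [Prod.mk.injEq] at * <;> omega
    · refine ⟨((u + v) / 2, (u - v) / 2), by simp only; omega, ?_⟩
      split_ifs <;> simp only [Prod.mk.injEq] at * <;> omega

theorem I2' (p : ℤ → Prop) (h1 : ∀ a b, p a → (p b ↔ (a + b) % 5 = 0 ∨ (a - b) % 5 = 0))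
    (h2 : ∀ a, p a → ¬ a % 5 = 0) : R 1 p ^ 5 =
      G 1 fun a b => (b % 4 = 2 % 4 ∧ (a + 3 * b) % 5 = 0 ∧ ¬ a % 5 = 0) ∧ p a := by
  rw [pow_succ', four_eq, R_expand, R_mul _ _ one_pos (by norm_num)]
  refine th_bij (fun x => (-x.1, if (x.1 - x.2) % 5 = 0 then 2 * x.2 else -2 * x.2)) ?_ ?_ ?_
  · rintro ⟨a, b⟩ ⟨⟨a1, a2⟩, b1, b2⟩
    have h3 := (h1 a (-a) a2).2 (by simp)
    have h4 := (h1 a b a2).1 b2
    have h5 := h2 a a2
    simp only [Set.mem_ofPred_eq] at a1 b1 ⊢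
    split_ifs <;> exact ⟨⟨by omega, by omega, h3⟩, by push_cast; ring⟩
  · rintro ⟨a, b⟩ h ⟨c, d⟩ h' e
    have := h.2.1
    have := h'.2.1
    simp only [Prod.mk.injEq] at *
    split_ifs at e <;> omega
  · rintro ⟨a, b⟩ ⟨⟨a1, a2⟩, ⟨a3, a4, a5⟩, a6⟩
    have h3 := (h1 a (-a) a6).2 (by simp)
    simp only at a1 a2 a3 a4 a5
    by_cases c : b % 8 = 2
    · exact ⟨(-a, b / 2), ⟨⟨by simp only; omega, h3⟩, by simp only; omega,
        (h1 a _ a6).2 (by simp only; omega)⟩, Prod.ext (by simp)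
          (by simp only; rw [if_pos (by omega)]; omega)⟩
    · exact ⟨(-a, -b / 2), ⟨⟨by simp only; omega, h3⟩, by simp only; omega,
        (h1 a _ a6).2 (by simp only; omega)⟩, Prod.ext (by simp)
          (by simp only; rw [if_neg (by omega)]; omega)⟩

theorem I2 : R 1 p1 ^ 5 + R 1 p3 ^ 5 = R 5 fun _ => True := by
  rw [I2' p1 (by omega) (by omega), I2' p3 (by omega) (by omega), ← mul_one (5 : ℤ),
    ← G_five2 1 one_pos, G, G, G, th_split (fn_two 1 1 one_pos one_pos)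
      {x : ℤ × ℤ | _ ∧ x.2 % 4 = 2 % 4 ∧ _} fun x => p1 x.1]
  congr 2 <;> ext a <;> simp only [Set.mem_ofPred_eq] <;> omega

theorem F5 : (D + expand 5 (by norm_num) D) ^ 6 = D * expand 5 (by norm_num) D := by
  set Φ := (D + expand 5 (by norm_num) D) ^ 6 + D * expand 5 (by norm_num) D with hΦ
  have e : expand 5 (by norm_num) D = R 5 fun _ => True := by rw [D, R_expand]; norm_num
  have e' : expand 5 (by norm_num) (R 5 fun _ => True) = R 25 fun _ => True := by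
    rw [R_expand]; norm_num
  have h1 := I1
  rw [show (10 : ℤ) = (2 : ℕ) * 5 from rfl, show (50 : ℤ) = (2 : ℕ) * 25 from rfl,
    ← R_expand 2 two_ne_zero, ← R_expand 2 two_ne_zero, ← sq_eq, ← sq_eq] at h1
  have h : expand 5 (by norm_num) Φ = Φ := by
    simp only [hΦ, map_add, map_mul, map_pow, e, e']
    rw [I0]
    have h2 := I2
    generalize R 5 (fun _ => True) = Y, R 25 (fun _ => True) = Z, R 1 p1 = a, R 1 p3 = b at *
    have h0 := two_zero
    have : CharP F⟦X⟧ 2 := CharTwo.of_one_ne_zero_of_two_eq_zero one_ne_zero two_zero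
    grind
  have h0 : ∀ n, coeff n Φ = 0 := fun n => by
    induction n using Nat.strong_induction_on with
    | _ n ih =>
      rcases n.eq_zero_or_pos with rfl | hn
      · have : constantCoeff D = 0 := by
          rw [← coeff_zero_eq_constantCoeff_apply, D, R, th, coeff_mk,
            Set.eq_empty_of_forall_notMem (s := {x : ℤ | _ ∧ _}) fun x hx => by
              have h1 : x % 4 = 1 := hx.1.1
              have h2 : x = 0 := by simpa using hx.2
              omega]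
          simp
        simp [hΦ, this]
      · rw [← h, coeff_expand]
        split_ifs
        · exact ih _ (by omega)
        · rfl
  have : Φ = 0 := PowerSeries.ext h0
  linear_combination this - (D * expand 5 (by norm_num) D) * two_zero

end Pool.Agent.P.MP_e7a540_nt.L1.NS
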