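import Pool.Agent.P.MP_e7a540_nt.L1.NSb

/-! Leading terms of the traces for the equations of level three and five. -/

set_option autoImplicit false

namespace Pool.Agent.P.MP_e7a540_nt.L1.NS

variable {R S : Type} [CommRing R] [Algebra (ZMod 2) R] [CharP R 2] [CommRing S]
  [Algebra (ZMod 2) S] {A : Fl R}

/-- the span of the powers of small weight -/
def Sp (D : S) (u : ℕ) : Submodule (ZMod 2) S := Submodule.span _ {f | ∃ i, w i < u ∧ f = D ^ i}

/-- a trace map -/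
structure Tr (A : Fl R) (D : S) (τ : R →ₗ[ZMod 2] S) (l : ℕ) : Prop where
  d : A.d = l + 1
  rel : A.s ^ (l + 1) = A.x * A.s + A.x ^ 2
  x : ∀ r, τ (A.x * r) = D * τ r
  z : ∀ j < l, τ (A.s ^ j) = 0
  t : τ (A.s ^ l) = D

variable {D : S} {τ : R →ₗ[ZMod 2] S} {l : ℕ}

theorem Tr.xp (h : Tr A D τ l) (k : ℕ) (r : R) : τ (A.x ^ k * r) = D ^ k * τ r := by
  induction k with
  | zero => simp
  | succ k ih => rw [pow_succ', mul_assoc, h.x, ih]; ring

theorem Tr.fil (h : Tr A D τ l) {α u t : ℕ} (hv : A.v l = α + 4) {a : R} (ha : a ∈ A.fil t)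
    (ht : t ≤ u + α) : τ a ∈ Sp D u := by
  have : A.fil t ≤ (Sp D u).comap τ := by
    rw [Fl.fil, Submodule.span_le]
    rintro _ ⟨k, j, h1, h2, rfl⟩
    refine SetLike.mem_coe.2 (Submodule.mem_comap.2 ?_)
    rw [h.xp]
    rcases (Nat.lt_succ_iff.1 (h.d ▸ h1)).eq_or_lt with rfl | c
    · rw [h.t, ← pow_succ]
      exact Submodule.subset_span ⟨k + 1, by have := w_add k 1; have := w_vals.1; omega, rfl⟩
    · simp [h.z j c]
  exact this ha

theorem Tr.ok (h : Tr A D τ l) (h0 : A.v 0 = 0) (hv : ∀ i < l + 1, ∀ j < l + 1,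
    if i + j < l + 1 then A.v (i + j) ≤ A.v i + A.v j else
      4 + A.v (i + j - l) ≤ A.v i + A.v j ∧ 7 + A.v (i + j - l - 1) ≤ A.v i + A.v j) : A.Ok := by
  have hd := h.d
  refine ⟨⟨by omega, h0⟩, fun i hi j hj => ?_⟩
  have := hv i (by omega) j (by omega)
  split_ifs at this with c
  · simpa using Fl.gen (A := A) 0 (i + j) (by omega) (by rw [w_zero]; omega)
  · obtain ⟨m, hm⟩ : ∃ m, i + j = l + 1 + m := ⟨i + j - (l + 1), by omega⟩
    rw [hm, show l + 1 + m - l = m + 1 by omega, Nat.add_sub_cancel] at this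
    have := add_mem (Fl.gen (A := A) (u := A.v i + A.v j + 1) 1 (m + 1) (by omega)
      (by rw [w_vals.1]; omega)) (Fl.gen 2 m (by omega) (by rw [w_vals.2.1]; omega))
    convert this using 1
    rw [hm, pow_add, h.rel]; ring

theorem frob (n i : ℕ) (h : n = 2 ^ i) (a b : R) : (a + b) ^ n = a ^ n + b ^ n := by
  rw [h, add_pow_char_pow]

theorem Fl.Ok.prod (hA : A.Ok) {y₁ m₁ y₂ m₂ : R} {u₁ u₂ : ℕ} (a₁ : y₁ - m₁ ∈ A.fil u₁)
    (b₁ : m₁ ∈ A.fil (u₁ + 1)) (a₂ : y₂ - m₂ ∈ A.fil u₂) (b₂ : m₂ ∈ A.fil (u₂ + 1)) :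
    y₁ * y₂ - m₁ * m₂ ∈ A.fil (u₁ + u₂) := by
  have := add_mem (add_mem (hA.mul (t := u₁ + u₂) a₁ a₂ (by omega)) (hA.mul a₁ b₂ (by omega)))
    (hA.mul b₁ a₂ (by omega))
  convert this using 1
  ring

theorem w_e1 (n : ℕ) : w (1 * e n) = 4 * n := by simpa [e_zero] using w_code _ n 0 le_rfl
theorem w_e2 (n : ℕ) : w (2 * e n) = 7 * n := by simpa [e_zero] using w_code _ 0 n le_rfl
theorem w_e4 (n : ℕ) : w (4 * e n) = 8 * n := by
  rw [mul_comm, w_four, ← one_mul (e n), w_e1]; ring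

theorem three (h : Tr A D τ 3) (hv : A.v = fun j => [0, 4, 7, 11].getD j 0) (n : ℕ) :
    τ ((A.x + A.s) ^ (e (2 * n + 1) + 2 * e 0)) ∈ Sp D (4 * (2 * n + 1) - 7) ∧
    ∀ m, τ ((A.x + A.s) ^ (e (2 * n + 1) + 2 * e (m + 1))) - D ^ (e (2 * n + 1) + 2 * e m) ∈
      Sp D (4 * (2 * n + 1) + 7 * m) := by
  have hA : A.Ok := h.ok (by simp [hv]) (by rw [hv]; decide)
  have hd := h.d
  have gen : ∀ k j u, j < 4 → w k + [0, 4, 7, 11].getD j 0 < u → A.x ^ k * A.s ^ j ∈ A.fil u :=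
    fun k j u a b => Fl.gen k j (by omega) (by rw [hv]; exact b)
  have key : ∀ c t κ, c = 2 ^ t → w c = κ → w (2 * c) < 2 * κ → ∀ j, (A.x + A.s) ^ (c * 4 ^ j) -
      A.x ^ (c * 4 ^ j) - A.r c (A.s ^ c) j ∈ A.fil (κ * 2 ^ j) := fun c t κ hc h1 h2 j => by
    have p : ∀ j, c * 4 ^ j = 2 ^ (t + 2 * j) := fun j => by rw [hc, pow_add, pow_mul]; rfl
    rw [frob _ _ (p j), add_sub_cancel_left]
    induction j with
    | zero => simp [Fl.r]
    | succ j ih =>
      have := add_mem (Fl.xmul (u' := κ * 2 ^ (j + 1)) (c * 4 ^ j) ih (by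
        rw [w_pow, h1, pow_succ, ← mul_assoc]; omega)) (hA.xpow (2 * c * 4 ^ j) (by
          rw [w_pow, pow_succ', ← mul_assoc, mul_comm κ]
          exact Nat.mul_lt_mul_of_pos_right h2 (by positivity)))
      convert this using 1
      rw [show c * 4 ^ (j + 1) = (3 + 1) * (c * 4 ^ j) by ring, pow_mul, h.rel, frob _ _ (p j),
        Fl.r]
      ring
  obtain ⟨w1, w2, -, w4, -⟩ := w_vals
  have s : ∀ j u, j < 4 → [0, 4, 7, 11].getD j 0 < u → A.s ^ j ∈ A.fil u := fun j u a b => by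
    simpa using gen 0 j u a (by rwa [w_zero, zero_add])
  have d1 := hA.dec (A.x + A.s) (A.s ^ 1) 1 4 w_e1 (by simp [w2]) (s _ _ (by decide) (by decide))
    (by rw [← pow_add]; exact s _ _ (by decide) (by decide))
    (key 1 0 4 rfl w1 (by simp [w2])) (2 * n) 0
  have d2 := fun m => hA.dec (A.x + A.s) (A.s ^ 2) 2 7 w_e2 (by simp [w4])
    (s _ _ (by decide) (by decide)) (by
      rw [← pow_add, show 2 + 2 = 3 + 1 from rfl, h.rel]
      simpa using add_mem (gen 1 1 14 (by decide) (by simp [w1])) (gen 2 0 14 (by decide)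
        (by simp [w2]))) (key 2 1 7 rfl w2 (by simp [w4])) m 0
  simp only [pow_zero, mul_one, Fl.r, sub_sub] at d1 d2
  have z := h.z
  have t := h.t
  have z0 : τ 1 = 0 := by simpa using z 0 (by decide)
  have xz : ∀ k, τ (A.x ^ k) = 0 := fun k => by simpa [z0] using h.xp k 1
  refine ⟨?_, fun m => ?_⟩
  · have := h.fil (α := 7) (u := 4 * (2 * n + 1) - 7) (by simp [hv]) d1 (by omega)
    have z1 : τ A.s = 0 := by simpa using z 1 (by decide)
    simpa [h.xp, xz, z1, e_zero] using this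
  · have := h.fil (α := 7) (u := 4 * (2 * n + 1) + 7 * m) (by simp [hv]) (hA.prod d1
      (add_mem (hA.xpow _ (by rw [w_e1]; omega)) (gen _ _ _ (by decide) (by
        rw [w_e1]; simp; omega)))
      (d2 m) (add_mem (hA.xpow _ (by rw [w_e2]; omega))
        (gen _ _ _ (by decide) (by simp [w_e2]; omega)))) (by omega)
    rw [map_sub, one_mul, one_mul, ← pow_add] at this
    convert this using 2
    rw [show (A.x ^ e (2 * n + 1) + A.x ^ e (2 * n) * A.s ^ 1) *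
        (A.x ^ (2 * e (m + 1)) + A.x ^ (2 * e m) * A.s ^ 2) =
        A.x ^ (e (2 * n + 1) + 2 * e (m + 1)) + A.x ^ (e (2 * n + 1) + 2 * e m) * A.s ^ 2 +
        A.x ^ (e (2 * n) + 2 * e (m + 1)) * A.s ^ 1 + A.x ^ (e (2 * n) + 2 * e m) * A.s ^ 3 by ring]
    simp only [map_add, h.xp, xz, z 1 (by decide), z 2 (by decide), t, e_even, e_odd]
    ring

theorem five (h : Tr A D τ 5) (hv : A.v = fun j => [0, 4, 4, 8, 8, 12].getD j 0) (m : ℕ) :
    τ ((A.x + A.s) ^ (e 1 + 2 * e m)) ∈ Sp D (4 + 7 * m - 8) ∧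
    ∀ n, τ ((A.x + A.s) ^ (e (2 * (n + 1) + 1) + 2 * e m)) - D ^ (e (2 * n + 1) + 2 * e m) ∈
      Sp D (4 * (2 * n + 1) + 7 * m) := by
  have hA : A.Ok := h.ok (by simp [hv]) (by rw [hv]; decide)
  have hd := h.d
  have gen : ∀ k j u, j < 6 → w k + [0, 4, 4, 8, 8, 12].getD j 0 < u →
      A.x ^ k * A.s ^ j ∈ A.fil u := fun k j u a b => Fl.gen k j (by omega) (by rw [hv]; exact b)
  have s : ∀ j u, j < 6 → [0, 4, 4, 8, 8, 12].getD j 0 < u → A.s ^ j ∈ A.fil u :=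
    fun j u a b => by simpa using gen 0 j u a (by rwa [w_zero, zero_add])
  obtain ⟨w1, w2, w3, w4, w6, w8⟩ := w_vals
  have s8 : A.s ^ 8 ∈ A.fil 14 := by
    convert add_mem (gen 1 3 14 (by decide) (by simp [w1])) (gen 2 2 14 (by decide)
      (by simp [w2])) using 1
    linear_combination A.s ^ 2 * h.rel
  have s16 : ∀ n i, n = 2 ^ i → A.s ^ (16 * n) =
      A.x ^ (4 * n) * A.s ^ (4 * n) + A.x ^ (4 * n) + A.x ^ (3 * n) * A.s ^ n := fun n i hn => by
    have : A.s ^ 16 = A.x ^ 4 * A.s ^ 4 + A.x ^ 4 + A.x ^ 3 * A.s := by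
      have := h.rel
      grind
    rw [pow_mul, this, frob n i hn, frob n i hn]
    ring
  have p4 : ∀ j, 4 ^ j = 2 ^ (2 * j) := fun j => by rw [pow_mul]; rfl
  have k4 : ∀ j, A.s ^ 4 ^ j ∈ A.fil (4 * 2 ^ j + 1) ∧
      A.s ^ (4 * 4 ^ j) - A.r 4 (A.s ^ 4) j ∈ A.fil (8 * 2 ^ j) := fun j => by
    induction j with
    | zero => exact ⟨s 1 _ (by decide) (by decide), by simp [Fl.r]⟩
    | succ j ih =>
      have hK : 0 < 2 ^ j := by positivity
      constructor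
      · convert add_mem (Fl.mono ih.2 (Nat.le_succ _))
          (Fl.r_mem w4 (s 4 _ (by decide) (by decide)) j) using 1
        · congr 1; omega
        · ring
      · convert add_mem (add_mem (Fl.xmul (u' := 8 * 2 ^ (j + 1)) (4 * 4 ^ j) ih.2
          (by rw [w_pow, w4]; omega)) (hA.xpow (4 * 4 ^ j) (by rw [w_pow, w4]; omega)))
          (Fl.xmul (3 * 4 ^ j) ih.1 (by rw [w_pow, w3]; omega)) using 1
        rw [show 4 * 4 ^ (j + 1) = 16 * 4 ^ j by ring, s16 _ _ (p4 j), Fl.r]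
        ring
  have k2 : ∀ j, A.s ^ (2 * 4 ^ j) ∈ A.fil (7 * 2 ^ j) ∧
      A.s ^ (2 * 4 ^ (j + 1)) ∈ A.fil (7 * 2 ^ (j + 1)) := fun j => by
    induction j with
    | zero => exact ⟨s 2 _ (by decide) (by decide), s8⟩
    | succ j ih =>
      have hK : 0 < 2 ^ j := by positivity
      refine ⟨ih.2, ?_⟩
      convert add_mem (add_mem (Fl.xmul (u' := 7 * 2 ^ (j + 1 + 1)) (8 * 4 ^ j) ih.2
        (by rw [w_pow, w8]; omega)) (hA.xpow (8 * 4 ^ j) (by rw [w_pow, w8]; omega)))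
        (Fl.xmul (6 * 4 ^ j) ih.1 (by rw [w_pow, w6]; omega)) using 1
      rw [show 2 * 4 ^ (j + 1 + 1) = 16 * (2 * 4 ^ j) by ring,
        s16 _ (2 * j + 1) (by rw [p4]; ring)]
      ring
  have r0 : ∀ j, A.r 2 0 j = 0 := fun j => by induction j <;> simp [Fl.r, *]
  have d4 := fun n => hA.dec (A.x + A.s) (A.s ^ 4) 4 8 w_e4 (by simp [w8])
    (s _ _ (by decide) (by decide)) (by rw [← pow_add]; exact Fl.mono s8 (by decide))
    (fun j => by
      rw [frob _ (2 * j + 2) (by rw [p4]; ring), add_sub_cancel_left]; exact (k4 j).2) n 0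
  have d2 : (A.x + A.s) ^ (2 * e m) - A.x ^ (2 * e m) ∈ A.fil (7 * m) := by
    rcases m with _ | m
    · simp [e_zero]
    · simpa [r0] using hA.dec (A.x + A.s) 0 2 7 w_e2 (by simp [w4]) (zero_mem _) (by simp)
        (fun j => by
          rw [frob _ (2 * j + 1) (by rw [p4]; ring), add_sub_cancel_left, r0, sub_zero]
          exact (k2 j).1) m 0
  simp only [pow_zero, mul_one, Fl.r, sub_sub] at d4
  have z := h.z
  have t := h.t
  have z0 : τ 1 = 0 := by simpa using z 0 (by decide)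
  have xz : ∀ k, τ (A.x ^ k) = 0 := fun k => by simpa [z0] using h.xp k 1
  have y1 : A.x ^ 1 + A.s ^ 1 ∈ A.fil (4 + 1) :=
    add_mem (hA.xpow 1 (by omega)) (s 1 _ (by decide) (by decide))
  have x2 := hA.xpow (u := 7 * m + 1) (2 * e m) (by rw [w_e2]; omega)
  have d3 := hA.prod (y₁ := A.x ^ 1 + A.s ^ 1) (u₁ := 4) (by simp) y1 d2 x2
  refine ⟨?_, fun n => ?_⟩
  · have := h.fil (α := 8) (u := 4 + 7 * m - 8) (by simp [hv]) d3 (by omega)
    rw [map_sub, show (A.x ^ 1 + A.s ^ 1) * A.x ^ (2 * e m) =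
      A.x ^ (2 * e m + 1) + A.x ^ (2 * e m) * A.s ^ 1 by ring, map_add, xz, h.xp,
      z 1 (by decide)] at this
    convert this using 1
    rw [show e 1 = 1 by simpa [e_zero] using e_odd 0, pow_add]
    simp
  · have := h.fil (α := 8) (u := 4 * (2 * n + 1) + 7 * m) (by simp [hv]) (hA.prod (d4 n)
      (add_mem (hA.xpow _ (by rw [w_e4]; omega)) (gen _ _ _ (by decide) (by simp [w_e4]; omega)))
      d3 (hA.mul y1 x2 (by omega))) (by omega)
    rw [map_sub, show (A.x ^ (4 * e (n + 1)) + A.x ^ (4 * e n) * A.s ^ 4) *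
        ((A.x ^ 1 + A.s ^ 1) * A.x ^ (2 * e m)) =
        A.x ^ (4 * e (n + 1) + 2 * e m + 1) + A.x ^ (4 * e (n + 1) + 2 * e m) * A.s ^ 1 +
        A.x ^ (4 * e n + 2 * e m + 1) * A.s ^ 4 + A.x ^ (4 * e n + 2 * e m) * A.s ^ 5 by ring]
      at this
    simp only [map_add, h.xp, xz, z 1 (by decide), z 4 (by decide), t] at this
    convert this using 2
    · rw [e_odd]; congr 1; ring
    · rw [e_odd]; ring

end Pool.Agent.P.MP_e7a540_nt.L1.NS
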