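import Pool.Agent.P.MP_e7a540_nt.L1.BaseA
import Pool.Agent.P.MP_e7a540_nt.L1.NSa
import Pool.Agent.P.MP_e7a540_nt.L1.NSc

/-! The Hecke operators modulo two as traces. -/

set_option autoImplicit false

namespace Pool.Agent.P.MP_e7a540_nt.L1.NS

open PowerSeries Finset

theorem coeff_d2 (n : ℕ) : coeff n d2 = if Odd n ∧ IsSquare n then 1 else 0 := by
  rw [d2, coeff_to2, coeff_dZ]; split_ifs <;> simp

theorem D_eq : D = d2 := by
  ext n
  rw [coeff_d2, D, R, th, coeff_mk]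
  split_ifs with h
  · obtain ⟨h, m, rfl⟩ := h
    have h1 := Nat.odd_iff.1 (Nat.odd_mul.1 h).1
    rw [Set.ncard_eq_one.2 ⟨if m % 4 = 1 then (m : ℤ) else -m, ?_⟩, Nat.cast_one]
    ext a
    simp only [Set.mem_ofPred_eq, one_mul, and_true, Set.mem_singleton_iff, ← sq, Nat.cast_pow,
      sq_eq_sq_iff_eq_or_eq_neg]
    split_ifs <;> omega
  · rw [(Set.ncard_eq_zero ((fn_sq 1 one_pos).fin _ _)).2, Nat.cast_zero]
    refine Set.eq_empty_of_forall_notMem fun a ha => h ?_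
    simp only [Set.mem_ofPred_eq, one_mul, and_true] at ha
    have : n = a.natAbs * a.natAbs := by
      zify; rw [abs_mul_abs_self, ← ha.2, sq]
    exact ⟨this ▸ Nat.odd_mul.2 ⟨Nat.odd_iff.2 (by omega), Nat.odd_iff.2 (by omega)⟩, _, this⟩

/-- the operator `U_l` -/
noncomputable def U (l : ℕ) : F⟦X⟧ →ₗ[F] F⟦X⟧ where
  toFun f := mk fun n => coeff (l * n) f
  map_add' _ _ := by ext; simp
  map_smul' _ _ := by ext; simp

theorem coeff_U (l n : ℕ) (f : F⟦X⟧) : coeff n (U l f) = coeff (l * n) f := by simp [U]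

variable {l : ℕ} (hl : l ≠ 0)

theorem U_mul (g f : F⟦X⟧) : U l (expand l hl g * f) = g * U l f := by
  ext n
  simp only [coeff_U, coeff_mul]
  refine (sum_of_injOn (fun p => (l * p.1, l * p.2)) (fun p _ q _ h => ?_) (fun p hp => ?_)
    (fun p hp h => ?_) fun p _ => by rw [coeff_expand_mul]).symm
  · simp only [Prod.mk.injEq, mul_eq_mul_left_iff, hl, or_false] at h
    exact Prod.ext h.1 h.2
  · simp only [mem_coe, HasAntidiagonal.mem_antidiagonal] at hp ⊢
    rw [← hp, mul_add]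
  · rw [coeff_expand_of_not_dvd, zero_mul]
    rintro ⟨a, ha⟩
    rw [HasAntidiagonal.mem_antidiagonal, ha] at hp
    obtain ⟨b, hb⟩ : l ∣ p.2 := (Nat.dvd_add_right (dvd_mul_right l a)).1 (hp ▸ dvd_mul_right l n)
    refine h ⟨(a, b), ?_, Prod.ext ha.symm hb.symm⟩
    rw [hb, ← mul_add] at hp
    simpa [hl] using hp

theorem U_sq (ho : Odd l) (f : F⟦X⟧) : U l (f ^ 2) = U l f ^ 2 := by
  ext n
  rw [sq_eq, sq_eq, coeff_U]
  by_cases h : 2 ∣ n
  · obtain ⟨m, rfl⟩ := h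
    rw [mul_left_comm, coeff_expand_mul, coeff_expand_mul, coeff_U]
  · rw [coeff_expand_of_not_dvd _ _ _ h, coeff_expand_of_not_dvd]
    exact fun c => ((Nat.prime_two.dvd_mul).1 c).elim ho.not_two_dvd_nat h

theorem U_D (hp : l.Prime) (ho : Odd l) : U l d2 = expand l hl d2 := by
  ext n
  have key : ∀ r, l * n = r * r → ∃ t, n = l * (t * t) := fun r h => by
    obtain ⟨t, rfl⟩ : l ∣ r := (or_self_iff.1 (hp.dvd_mul.1 (h ▸ dvd_mul_right l n)))
    exact ⟨t, Nat.eq_of_mul_eq_mul_left hp.pos (by rw [h]; ring)⟩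
  rw [coeff_U, coeff_d2]
  by_cases h : l ∣ n
  · obtain ⟨m, rfl⟩ := h
    rw [coeff_expand_mul, coeff_d2]
    refine if_congr (and_congr (by simp [Nat.odd_mul, ho]) ⟨?_, ?_⟩) rfl rfl
    · rintro ⟨r, h⟩
      obtain ⟨t, ht⟩ := key r h
      exact ⟨t, Nat.eq_of_mul_eq_mul_left hp.pos ht⟩
    · rintro ⟨r, rfl⟩
      exact ⟨l * r, by ring⟩
  · rw [coeff_expand_of_not_dvd _ _ _ h, if_neg]
    rintro ⟨-, r, c⟩
    obtain ⟨t, ht⟩ := key r c
    exact h ⟨_, ht⟩

instance : CharP F⟦X⟧ 2 := CharTwo.of_one_ne_zero_of_two_eq_zero one_ne_zero two_zero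

instance : CharP (F⟦X⟧ × F⟦X⟧) 2 :=
  CharTwo.of_one_ne_zero_of_two_eq_zero one_ne_zero (Prod.ext two_zero two_zero)

/-- the trace -/
noncomputable def tau (l : ℕ) : F⟦X⟧ × F⟦X⟧ →ₗ[F] F⟦X⟧ := (U l).coprod LinearMap.id

/-- the filtration of level `l` -/
noncomputable def fl (v : ℕ → ℕ) : Fl (F⟦X⟧ × F⟦X⟧) :=
  ⟨(expand l hl d2, d2), (d2 + expand l hl d2, d2 + expand l hl d2), l + 1, v⟩

theorem tau_y (v : ℕ → ℕ) (k : ℕ) :
    tau l (((fl hl v).x + (fl hl v).s) ^ k) = T2 l (d2 ^ k) := by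
  have : (fl hl v).x + (fl hl v).s = (d2, expand l hl d2) := by
    simp only [fl, Prod.mk_add_mk, Prod.mk.injEq]
    grind
  ext n
  simp [this, tau, coeff_T2, coeff_U, ← map_pow, coeff_expand]

theorem tau_sq (ho : Odd l) (r : F⟦X⟧ × F⟦X⟧) : tau l (r ^ 2) = tau l r ^ 2 := by
  simp [tau, U_sq ho, CharTwo.add_sq]

theorem tr (hp : l.Prime) (ho : Odd l) (v : ℕ → ℕ)
    (rel : (d2 + expand l hl d2) ^ (l + 1) = d2 * expand l hl d2)
    (h35 : l = 3 ∨ l = 5) : Tr (fl hl v) d2 (tau l) l := by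
  set A := fl hl v with hA
  have r : A.s ^ (l + 1) = A.x * A.s + A.x ^ 2 := by
    simp only [hA, fl, Prod.pow_mk, Prod.mk_mul_mk, Prod.mk_add_mk, Prod.mk.injEq, rel]
    grind
  have x : ∀ r, tau l (A.x * r) = d2 * tau l r := fun r => by
    simp [hA, fl, tau, U_mul, mul_add]
  have z0 : tau l (A.s ^ 0) = 0 := by
    have : U l 1 = 1 := by ext n; simp [coeff_U, coeff_one, hl]
    simp [tau, this, CharTwo.add_self_eq_zero]
  have z1 : tau l (A.s ^ 1) = 0 := by
    have := U_mul hl d2 1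
    have : U l 1 = 1 := by ext n; simp [coeff_U, coeff_one, hl]
    simp only [hA, fl, tau, pow_one, LinearMap.coprod_apply, map_add, U_D hl hp ho,
      LinearMap.id_apply]
    grind
  have sq : ∀ j, tau l (A.s ^ (j * 2)) = tau l (A.s ^ j) ^ 2 := fun j => by
    rw [pow_mul, tau_sq ho]
  have rc : ∀ j, tau l (A.s ^ (l + 1 + j)) =
      d2 * tau l (A.s ^ (j + 1)) + d2 * (d2 * tau l (A.s ^ j)) := fun j => by
    rw [← x, ← x, ← x, ← map_add, pow_add, r]; congr 1; ring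
  have z2 : tau l (A.s ^ 2) = 0 := by have := sq 1; rwa [z1, zero_pow two_ne_zero] at this
  have z : ∀ j < l, tau l (A.s ^ j) = 0 := fun j hj => by
    rcases h35 with rfl | rfl <;> interval_cases j <;> try assumption
    · have := (sq 3).symm.trans (rc 0)
      rw [zero_add, z1, z0] at this
      simpa using this
    · simpa [z2] using sq 2
  refine ⟨rfl, r, x, z, ?_⟩
  obtain ⟨m, rfl⟩ : ∃ m, l = m + 1 := ⟨l - 1, by omega⟩
  have h := rc m
  rw [show m + 1 + 1 + m = (m + 1) * 2 by ring, sq, z m (by omega), mul_zero, mul_zero, add_zero,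
    pow_two] at h
  refine mul_right_cancel₀ (fun c => ?_) h
  obtain ⟨u, hu⟩ : X ∣ d2 + expand (m + 1) hl d2 := by
    rw [X_dvd_iff, map_add, constantCoeff_expand, CharTwo.add_self_eq_zero]
  have h1 : constantCoeff u = 1 := by
    have := congrArg (coeff 1) hu
    rw [map_add, coeff_expand_of_not_dvd _ _ _ hp.not_dvd_one, coeff_d2] at this
    simpa using this.symm
  have := congrArg (coeff 1) c
  simp only [hA, fl, hu, tau, Prod.pow_mk, LinearMap.coprod_apply, LinearMap.id_apply, map_add,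
    coeff_U, mul_pow, coeff_X_pow_mul'] at this
  rw [if_pos (by omega), if_neg (by omega)] at this
  simp [h1] at this

end Pool.Agent.P.MP_e7a540_nt.L1.NS
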