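import Pool.Agent.P.MP_e7a540_nt.L1.IfaceA
import Pool.Agent.P.MP_e7a540_nt.L1.NSd

/-! Step TOP. -/

set_option autoImplicit false
set_option linter.unusedSectionVars false

namespace Pool.Agent.P.MP_e7a540_nt.L1

open PowerSeries Finset

namespace NS

/-- the power with a given code -/
noncomputable def g (p : ℕ × ℕ) : F⟦X⟧ := d2 ^ (e p.1 + 2 * e p.2)

/-- the weight of a code -/
def wt (p : ℕ × ℕ) : ℕ := 4 * p.1 + 7 * p.2

/-- the span of the odd powers whose code satisfies `P` -/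
def W (P : ℕ × ℕ → Prop) : Submodule F F⟦X⟧ :=
  Submodule.span F {f | ∃ p, p.1 % 2 = 1 ∧ P p ∧ f = g p}

theorem W_gen {P : ℕ × ℕ → Prop} (p : ℕ × ℕ) (h : p.1 % 2 = 1) (h' : P p) : g p ∈ W P :=
  Submodule.subset_span ⟨p, h, h', rfl⟩

theorem W_mono {P Q : ℕ × ℕ → Prop} {f : F⟦X⟧} (h : f ∈ W P) (h' : ∀ p, P p → Q p) : f ∈ W Q :=
  Submodule.span_mono (by rintro _ ⟨p, a, b, c⟩; exact ⟨p, a, h' p b, c⟩) h

/-- the leading term of `h` has code `q` -/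
def Ld (h : F⟦X⟧) (q : ℕ × ℕ) : Prop := h - g q ∈ W fun p => wt p ≤ wt q ∧ p ≠ q

/-- the projection on odd exponents -/
noncomputable def th1 : F⟦X⟧ →ₗ[F] F⟦X⟧ := LinearMap.mulLeft F X ∘ₗ (d⁄dX F).toLinearMap

theorem coeff_th1 (n : ℕ) (f : F⟦X⟧) : coeff n (th1 f) = n * coeff n f := by
  rcases n with _ | n <;> simp [th1, coeff_succ_X_mul, coeff_derivative, mul_comm]

theorem th1_pow (k : ℕ) : th1 (d2 ^ k) = (k : F) • d2 ^ k := by
  have : X * d⁄dX F d2 = d2 := by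
    ext n
    refine (coeff_th1 n d2).trans ?_
    rw [coeff_d2]
    split_ifs with h
    · rw [mul_one, ZMod.natCast_eq_one_iff_odd.2 h.1]
    · simp
  rcases k with _ | k
  · simp [th1]
  · simp only [th1, LinearMap.comp_apply, Derivation.coeFn_coe, Derivation.leibniz_pow,
      LinearMap.mulLeft_apply, Nat.add_sub_cancel, smul_eq_mul, Nat.cast_smul_eq_nsmul,
      mul_smul_comm]
    rw [mul_left_comm, this, pow_succ]

theorem th1_T {l : ℕ} (ho : Odd l) (f : F⟦X⟧) : th1 (T2 l f) = T2 l (th1 f) := by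
  ext n
  have := ZMod.natCast_eq_one_iff_odd.2 ho
  simp only [coeff_th1, coeff_T2, mul_add, Nat.cast_mul, this, one_mul]
  split_ifs with h
  · obtain ⟨m, rfl⟩ := h
    rw [Nat.mul_div_cancel_left _ ho.pos, Nat.cast_mul, this, one_mul]
  · simp

theorem th1_g {p : ℕ × ℕ} (h : p.1 % 2 = 1) : th1 (g p) = g p := by
  rw [g, th1_pow, ZMod.natCast_eq_one_iff_odd.2 (Nat.odd_iff.2 (by have := e_eq p.1; omega)),
    one_smul]

theorem sp_W {u : ℕ} {f : F⟦X⟧} (h : f ∈ Sp d2 u) (h' : th1 f = f) : f ∈ W fun p => wt p < u := by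
  have : Sp d2 u ≤ (W fun p => wt p < u).comap th1 := by
    rw [Sp, Submodule.span_le]
    rintro _ ⟨i, hi, rfl⟩
    refine SetLike.mem_coe.2 (Submodule.mem_comap.2 ?_)
    rw [th1_pow]
    rcases i.even_or_odd with c | c
    · simp [ZMod.natCast_eq_zero_iff_even.2 c]
    · obtain ⟨a, b, rfl, h2⟩ := code_surj i
      rw [w_code _ a b le_rfl] at hi
      exact Submodule.smul_mem _ _ (W_gen (a, b) (h2.trans (Nat.odd_iff.1 c)) hi)
  exact h' ▸ this h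

theorem T2_sub (l : ℕ) (hl : l ≠ 0) : ∃ T : F⟦X⟧ →ₗ[F] F⟦X⟧, ∀ f, T2 l f = T f :=
  ⟨U l + (expand l hl).toLinearMap, fun f => by ext n; simp [coeff_T2, coeff_U, coeff_expand]⟩

theorem step {l : ℕ} (ho : Odd l) (δ : ℕ × ℕ)
    (h1 : ∀ q : ℕ × ℕ, q.1 % 2 = 1 → T2 l (g (q + δ)) - g q ∈ Sp d2 (wt q))
    (h2 : ∀ p : ℕ × ℕ, p.1 % 2 = 1 →
      (∃ q : ℕ × ℕ, q.1 % 2 = 1 ∧ p = q + δ) ∨ T2 l (g p) ∈ Sp d2 (wt p - wt δ))
    (hδ : δ.1 % 2 = 0) (n : ℕ) : ∀ (q : ℕ × ℕ) (h : F⟦X⟧), q.1 % 2 = 1 → Ld h (q + n • δ) →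
      Ld ((T2 l)^[n] h) q := by
  obtain ⟨T, hT⟩ := T2_sub l ho.pos.ne'
  have wa : ∀ p q, wt (p + q) = wt p + wt q := fun p q => by
    simp only [wt, Prod.fst_add, Prod.snd_add]; ring
  have k1 : ∀ q : ℕ × ℕ, q.1 % 2 = 1 → T (g (q + δ)) - g q ∈ W fun p => wt p < wt q :=
    fun q hq => hT _ ▸ sp_W (h1 q hq) (by
      rw [map_sub, th1_T ho, th1_g hq, th1_g (by rw [Prod.fst_add]; omega)])
  have one : ∀ (q : ℕ × ℕ) (h : F⟦X⟧), q.1 % 2 = 1 → Ld h (q + δ) → Ld (T2 l h) q := by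
    intro q h hq H
    have : (W fun p => wt p ≤ wt (q + δ) ∧ p ≠ q + δ) ≤
        (W fun p => wt p ≤ wt q ∧ p ≠ q).comap T := by
      rw [W, Submodule.span_le]
      rintro _ ⟨p, a, ⟨b, c⟩, rfl⟩
      refine SetLike.mem_coe.2 (Submodule.mem_comap.2 ?_)
      rw [wa] at b
      rcases h2 p a with ⟨r, hr, rfl⟩ | d
      · rw [wa] at b
        simpa using add_mem (W_mono (k1 r hr) fun p hp => (⟨by omega, by rintro rfl; omega⟩ :
          wt p ≤ wt q ∧ p ≠ q)) (W_gen r hr ⟨by omega, by rintro rfl; exact c rfl⟩)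
      · exact W_mono (hT _ ▸ sp_W d (by rw [th1_T ho, th1_g a])) fun r hr =>
          ⟨by omega, by rintro rfl; omega⟩
    have := add_mem (Submodule.mem_comap.1 (this H)) (W_mono (k1 q hq) fun p hp =>
      (⟨by omega, by rintro rfl; omega⟩ : wt p ≤ wt q ∧ p ≠ q))
    simpa [Ld, hT] using this
  induction n with
  | zero => simp
  | succ n ih =>
    intro q h hq H
    rw [Function.iterate_succ_apply']
    refine one q _ hq (ih _ _ (by rw [Prod.fst_add]; omega) ?_)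
    rwa [add_assoc, ← succ_nsmul']

theorem odd_eq {a : ℕ} (h : a % 2 = 1) : ∃ n, a = 2 * n + 1 := ⟨a / 2, by omega⟩

theorem step3 (n : ℕ) : ∀ (q : ℕ × ℕ) (h : F⟦X⟧), q.1 % 2 = 1 → Ld h (q + n • (0, 1)) →
    Ld ((T2 3)^[n] h) q := by
  have H := three (tr (by norm_num) Nat.prime_three (by decide) _ (D_eq ▸ F3) (Or.inl rfl)) rfl
  simp only [tau_y] at H
  refine step (by decide) _ ?_ ?_ rfl n
  · rintro ⟨a, b⟩ h
    obtain ⟨n, rfl⟩ := odd_eq h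
    exact (H n).2 b
  · rintro ⟨a, _ | b⟩ h
    · obtain ⟨n, rfl⟩ := odd_eq h
      exact Or.inr (H n).1
    · exact Or.inl ⟨(a, b), h, rfl⟩

theorem step5 (n : ℕ) : ∀ (q : ℕ × ℕ) (h : F⟦X⟧), q.1 % 2 = 1 → Ld h (q + n • (2, 0)) →
    Ld ((T2 5)^[n] h) q := by
  have H := five (tr (by norm_num) Nat.prime_five (by decide) _ (D_eq ▸ F5) (Or.inr rfl)) rfl
  simp only [tau_y] at H
  refine step (by decide) _ ?_ ?_ rfl n
  · rintro ⟨a, b⟩ h
    obtain ⟨n, rfl⟩ := odd_eq h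
    exact (H b).2 n
  · rintro ⟨a, b⟩ h
    obtain ⟨_ | n, rfl⟩ := odd_eq h
    · exact Or.inr (H b).1
    · exact Or.inl ⟨(2 * n + 1, b), by omega, rfl⟩

end NS

open NS in
theorem p_TOP :
    S_TOP := by
  intro s hs
  choose a b h1 h2 using code_surj
  obtain ⟨k, hk, hm⟩ := s.exists_max_image (fun k => wt (a (8 * k + 1), b (8 * k + 1))) hs
  have hg : ∀ k, d2 ^ k = g (a k, b k) := fun k => congrArg (d2 ^ ·) (h1 k)
  have T : Ld (∑ k ∈ s, d2 ^ (8 * k + 1)) (a (8 * k + 1), b (8 * k + 1)) := by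
    rw [Ld, ← hg, ← add_sum_erase _ _ hk, add_sub_cancel_left]
    refine sum_mem fun j hj => hg _ ▸ W_gen _ (by have := h2 (8 * j + 1); omega)
      ⟨hm j (mem_of_mem_erase hj), fun c => ne_of_mem_erase hj ?_⟩
    have := h1 (8 * j + 1)
    rw [(Prod.mk.inj c).1, (Prod.mk.inj c).2, ← h1] at this
    omega
  have h3 := h1 (8 * k + 1)
  generalize a (8 * k + 1) = A, b (8 * k + 1) = B at T h3
  rw [e_eq A, e_eq (A / 2), e_eq B] at h3
  refine ⟨B / 2, A / 4, ?_⟩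
  have := step3 (2 * (B / 2)) (1, 0) _ rfl (step5 (2 * (A / 4)) _ _ (by simp) (by
    convert T using 1
    ext <;> simp <;> omega))
  rw [Ld, W, show {f | ∃ p : ℕ × ℕ, p.1 % 2 = 1 ∧ (wt p ≤ wt (1, 0) ∧ p ≠ (1, 0)) ∧ f = g p} = ∅
    from Set.eq_empty_of_forall_notMem (by
      rintro _ ⟨⟨x, y⟩, c1, ⟨c2, c3⟩, -⟩
      simp only [wt, ne_eq, Prod.mk.injEq] at *
      omega), Submodule.span_empty, Submodule.mem_bot, sub_eq_zero] at this
  rw [this, g, show e 1 = 1 by simpa [e_zero] using e_odd 0]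
  simp [e_zero, coeff_d2]

end Pool.Agent.P.MP_e7a540_nt.L1
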