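import Pool.Agent.P.MP_e7a540_nt.L1.IfaceB

/-! Step VM. -/

set_option autoImplicit false
set_option linter.unusedSectionVars false

namespace Pool.Agent.P.MP_e7a540_nt.L1

open UpperHalfPlane hiding I
open CongruenceSubgroup ModularGroup Complex MeasureTheory PowerSeries Finset Filter
open scoped MatrixGroups ModularForm Manifold ComplexConjugate Real Topology

theorem p_VM (hPA : S_PA) (hPB : S_PB) (hPN : S_PN) :
    S_VM := by
  rintro r G P hG hi hq ⟨C, hC⟩
  have him : Tendsto UpperHalfPlane.im atImInfty atTop := tendsto_comap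
  have hroot : ∀ f : ℍ → ℂ, Tendsto (fun z => ‖f z‖ ^ 8) atImInfty (𝓝 0) → IsZeroAtImInfty f := by
    intro f hf
    rw [IsZeroAtImInfty, ZeroAtFilter, tendsto_zero_iff_norm_tendsto_zero]
    have := hf.rpow_const (p := ((8 : ℕ) : ℝ)⁻¹) (Or.inr (by positivity))
    rw [Real.zero_rpow (by positivity)] at this
    exact this.congr fun z => Real.pow_rpow_inv_natCast (norm_nonneg _) (by norm_num)
  have hs : ∀ z : ℍ, √z.im ^ 4 = z.im ^ 2 := fun z => by
    rw [show 4 = 2 * 2 by rfl, pow_mul, Real.sq_sqrt z.im_pos.le]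
  have hC4 : ∀ z : ℍ, z.im ^ (4 * r + 2) * ‖psi z‖ ^ 8 * ‖G z‖ ^ 8 ≤ C ^ 4 := fun z => by
    have h0 := z.im_pos
    refine (le_of_eq ?_).trans (pow_le_pow_left₀ (by unfold uH; positivity) (hC z) 4)
    rw [uH, mul_pow, mul_pow, mul_pow, hs]
    ring
  have hinv : Tendsto (fun z : ℍ => C ^ 4 / z.im ^ (4 * r + 2)) atImInfty (𝓝 0) :=
    ((tendsto_pow_atTop (by omega)).comp him).const_div_atTop _
  have h0 : IsZeroAtImInfty (psi * G) := by
    refine hroot _ (squeeze_zero (fun _ => by positivity) (fun z => ?_) hinv)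
    rw [le_div_iff₀ (pow_pos z.im_pos _), Pi.mul_apply, norm_mul]
    refine (le_of_eq ?_).trans (hC4 z)
    ring
  obtain ⟨Q, rfl⟩ : X ^ 1 ∣ P := by
    rw [pow_one, X_dvd_iff]; exact (hq.zero_iff (by norm_num)).1 h0
  have hbi : IsBoundedAtImInfty G := by
    have h1 := hq.div_pow.tendsto (by norm_num)
    have h2 := hPA.2.1.tendsto one_ne_zero
    have h3 : constantCoeff (toC triZ) = 1 := by
      rw [← coeff_zero_eq_constantCoeff_apply, coeff_toC, coeff_zero_eq_constantCoeff_apply,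
        constantCoeff_triZ, Int.cast_one]
    rw [h3] at h2
    refine ((h1.div h2 one_ne_zero).congr fun z => ?_).isBigO_one ℝ
    have := hPN z
    have := ee_ne ((z : ℂ) / 8)
    simp only [Pi.div_apply, Pi.mul_apply, Nat.cast_one, one_mul, Nat.cast_ofNat]
    field_simp
  have hz : IsZeroAtImInfty (sl r G S) := by
    have h1 := hinv.div hPB.2.1.norm (by norm_num)
    rw [zero_div] at h1
    refine hroot _ (squeeze_zero' (Eventually.of_forall fun _ => by positivity) ?_ h1)
    filter_upwards [hPB.2.1.eventually_ne (by norm_num : (1 / 256 : ℂ) ≠ 0)] with z hz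
    have h2 := hC4 (S • z)
    have h3 : ‖dn S z‖ ≠ 0 := norm_ne_zero_iff.2 (dn_ne S z)
    rw [Pi.div_apply, le_div_iff₀ (norm_pos_iff.2 hz), le_div_iff₀ (pow_pos z.im_pos _)]
    refine (le_of_eq ?_).trans h2
    simp only [sl, im_smul', norm_div, norm_pow, Pi.pow_apply, div_pow]
    field_simp
    ring
  have hm : MF r G := ⟨hG, hi, hbi, hz.isBoundedAtImInfty⟩
  exact ⟨⟨hm, hz⟩, congrArg cf ((hPA.1.mul (qe_e8.2 hm.qe)).unique hq (by norm_num))⟩

end Pool.Agent.P.MP_e7a540_nt.L1
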