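import Pool.Agent.P.MP_e7a540_nt.L1.IfaceU

/-! Step VS. -/

set_option autoImplicit false
set_option linter.unusedSectionVars false

namespace Pool.Agent.P.MP_e7a540_nt.L1

open UpperHalfPlane hiding I
open CongruenceSubgroup ModularGroup Complex MeasureTheory PowerSeries Finset Filter
open scoped MatrixGroups ModularForm Manifold ComplexConjugate Real Topology

theorem p_VS (hVB : S_VB) (hPA : S_PA) :
    S_VS := by
  intro r F hr hF
  obtain ⟨⟨-, C', bF⟩, -⟩ := hVB r F hF
  exact U.dt_summ hr (cs_ser hPA hF.1) cs_mod fun z => uH_eq' r z ▸ bF z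

end Pool.Agent.P.MP_e7a540_nt.L1
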