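import Pool.Agent.P.MP_e7a540_nt.L1.IfaceU

/-! Step WT. -/

set_option autoImplicit false
set_option linter.unusedSectionVars false

namespace Pool.Agent.P.MP_e7a540_nt.L1

open UpperHalfPlane hiding I
open CongruenceSubgroup ModularGroup Complex MeasureTheory PowerSeries Finset Filter
open scoped MatrixGroups ModularForm Manifold ComplexConjugate Real Topology

theorem p_WT :
    S_WT := ⟨U.phi, U.phi_meas, U.phi_nonneg, U.phi_int, U.phi_sum⟩

end Pool.Agent.P.MP_e7a540_nt.L1
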