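import Pool.Agent.P.MP_e7a540_nt.L1.TA2
import Pool.Agent.P.MP_e7a540_nt.L1.TB2
import Pool.Agent.P.MP_e7a540_nt.L1.TCB
import Pool.Agent.P.MP_e7a540_nt.L1.TCORE
import Pool.Agent.P.MP_e7a540_nt.L1.TD2
import Pool.Agent.P.MP_e7a540_nt.L1.TDIMV
import Pool.Agent.P.MP_e7a540_nt.L1.TDIMY
import Pool.Agent.P.MP_e7a540_nt.L1.TDIR
import Pool.Agent.P.MP_e7a540_nt.L1.TEI
import Pool.Agent.P.MP_e7a540_nt.L1.TFIN
import Pool.Agent.P.MP_e7a540_nt.L1.TFORM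
import Pool.Agent.P.MP_e7a540_nt.L1.THD
import Pool.Agent.P.MP_e7a540_nt.L1.THR
import Pool.Agent.P.MP_e7a540_nt.L1.THX
import Pool.Agent.P.MP_e7a540_nt.L1.TIP
import Pool.Agent.P.MP_e7a540_nt.L1.TIX
import Pool.Agent.P.MP_e7a540_nt.L1.TKG
import Pool.Agent.P.MP_e7a540_nt.L1.TKS
import Pool.Agent.P.MP_e7a540_nt.L1.TKT
import Pool.Agent.P.MP_e7a540_nt.L1.TPA
import Pool.Agent.P.MP_e7a540_nt.L1.TPB
import Pool.Agent.P.MP_e7a540_nt.L1.TPN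
import Pool.Agent.P.MP_e7a540_nt.L1.TPOS
import Pool.Agent.P.MP_e7a540_nt.L1.TRK
import Pool.Agent.P.MP_e7a540_nt.L1.TSEL
import Pool.Agent.P.MP_e7a540_nt.L1.TSH
import Pool.Agent.P.MP_e7a540_nt.L1.TSOC
import Pool.Agent.P.MP_e7a540_nt.L1.TSOV
import Pool.Agent.P.MP_e7a540_nt.L1.TSTM
import Pool.Agent.P.MP_e7a540_nt.L1.TSTR
import Pool.Agent.P.MP_e7a540_nt.L1.TSV
import Pool.Agent.P.MP_e7a540_nt.L1.TTOP
import Pool.Agent.P.MP_e7a540_nt.L1.TVB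
import Pool.Agent.P.MP_e7a540_nt.L1.TVM
import Pool.Agent.P.MP_e7a540_nt.L1.TVS
import Pool.Agent.P.MP_e7a540_nt.L1.TWT

/-! Assembly. -/

namespace Pool.Agent.P.MP_e7a540_nt.L1

theorem main : S_FIN :=
  have hPB := p_PB (p_KT p_KS) p_KG p_PA
  have hCB := p_CB p_FORM
  have hEI := p_EI p_FORM p_D2
  have hVB := p_VB p_PA hPB hCB
  p_FIN (p_CORE p_WT p_IP (p_POS hCB) (p_DIMV p_STM p_A2 hEI p_PA hPB) (p_DIMY p_STM) hEI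
    (p_HX p_PA hVB (p_VM p_PA hPB p_PN)) (p_IX hCB) (p_HD hVB p_PA hPB hEI)
    (p_RK hCB hEI (p_DIR p_HR)) hVB (p_VS hVB p_PA) hCB p_PA
    (p_SOV p_A2 (p_STR p_STM p_PA hPB) (p_SOC p_B2 p_TOP)) p_SV p_SH (p_SEL p_HR)) p_FORM p_D2

end Pool.Agent.P.MP_e7a540_nt.L1
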