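import Mathlib

/-! A weight on binary digits and the filtration it defines. -/

set_option autoImplicit false

namespace Pool.Agent.P.MP_e7a540_nt.L1.NS

/-- the weight of an exponent -/
def w (k : ℕ) : ℕ := if k = 0 then 0 else 2 * w (k / 4) + 4 * (k % 2) + 7 * (k / 2 % 2)
decreasing_by omega

/-- binary digits read in base four -/
def e (n : ℕ) : ℕ := if n = 0 then 0 else 4 * e (n / 2) + n % 2
decreasing_by omega

theorem w_zero : w 0 = 0 := by rw [w]; rfl
theorem e_zero : e 0 = 0 := by rw [e]; rfl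

theorem w_eq (k : ℕ) : w k = 2 * w (k / 4) + 4 * (k % 2) + 7 * (k / 2 % 2) := by
  rcases eq_or_ne k 0 with rfl | h
  · simp [w_zero]
  · rw [w, if_neg h]

theorem e_eq (n : ℕ) : e n = 4 * e (n / 2) + n % 2 := by
  rcases eq_or_ne n 0 with rfl | h
  · simp [e_zero]
  · rw [e, if_neg h]

theorem e_even (n : ℕ) : e (2 * n) = 4 * e n := by rw [e_eq]; simp
theorem e_odd (n : ℕ) : e (2 * n + 1) = 4 * e n + 1 := by
  rw [e_eq, show (2 * n + 1) / 2 = n by omega]; omega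

theorem w_carry (s : ℕ) : ∀ m n c, m + n ≤ s → c ≤ 1 → w (m + n + c) ≤ w m + w n + 4 * c := by
  induction s using Nat.strong_induction_on with
  | _ s ih =>
    intro m n c h hc
    rcases Nat.eq_zero_or_pos (m + n) with h0 | h0
    · obtain ⟨rfl, rfl⟩ : m = 0 ∧ n = 0 := by omega
      rw [w_eq, show (0 + 0 + c) / 4 = 0 by omega, w_zero]
      omega
    have := ih (m / 4 + n / 4) (by omega) (m / 4) (n / 4) ((m % 4 + n % 4 + c) / 4) le_rfl
      (by omega)
    rw [w_eq (m + n + c), w_eq m, w_eq n,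
      show (m + n + c) / 4 = m / 4 + n / 4 + (m % 4 + n % 4 + c) / 4 by omega]
    omega

theorem w_add (m n : ℕ) : w (m + n) ≤ w m + w n := w_carry _ m n 0 le_rfl zero_le_one

theorem w_code (s : ℕ) : ∀ a b, a + b ≤ s → w (e a + 2 * e b) = 4 * a + 7 * b := by
  induction s using Nat.strong_induction_on with
  | _ s ih =>
    intro a b h
    rcases Nat.eq_zero_or_pos (a + b) with h0 | h0
    · obtain ⟨rfl, rfl⟩ : a = 0 ∧ b = 0 := by omega
      simp [e_zero, w_zero]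
    have := ih (a / 2 + b / 2) (by omega) (a / 2) (b / 2) le_rfl
    rw [w_eq, e_eq a, e_eq b, show (4 * e (a / 2) + a % 2 + 2 * (4 * e (b / 2) + b % 2)) / 4 =
      e (a / 2) + 2 * e (b / 2) by omega]
    omega

theorem code_surj (k : ℕ) : ∃ a b, k = e a + 2 * e b ∧ a % 2 = k % 2 := by
  induction k using Nat.strong_induction_on with
  | _ k ih =>
    rcases k.eq_zero_or_pos with rfl | h
    · exact ⟨0, 0, by simp [e_zero], rfl⟩
    obtain ⟨a, b, h1, -⟩ := ih (k / 4) (by omega)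
    refine ⟨2 * a + k % 2, 2 * b + k / 2 % 2, ?_, by omega⟩
    rw [e_eq (2 * a + _), e_eq (2 * b + _), show (2 * a + k % 2) / 2 = a by omega,
      show (2 * b + k / 2 % 2) / 2 = b by omega]
    omega

theorem w_four (k : ℕ) : w (k * 4) = 2 * w k := by
  rw [w_eq, show k * 4 / 4 = k by omega]; omega

theorem w_pow (k j : ℕ) : w (k * 4 ^ j) = w k * 2 ^ j := by
  induction j with
  | zero => simp
  | succ j ih => rw [pow_succ, ← mul_assoc, w_four, ih]; ring

theorem w_vals : w 1 = 4 ∧ w 2 = 7 ∧ w 3 = 11 ∧ w 4 = 8 ∧ w 6 = 15 ∧ w 8 = 14 := by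
  simp [w]

variable {R : Type} [CommRing R] [Algebra (ZMod 2) R]

/-- the data of a filtration -/
structure Fl (R : Type) [CommRing R] where
  x : R
  s : R
  d : ℕ
  v : ℕ → ℕ

/-- the elements of weight less than `u` -/
def Fl.fil (A : Fl R) (u : ℕ) : Submodule (ZMod 2) R :=
  Submodule.span _ {r | ∃ k j, j < A.d ∧ w k + A.v j < u ∧ r = A.x ^ k * A.s ^ j}

/-- the weights are compatible with the product -/
def Fl.Ok (A : Fl R) : Prop :=
  (0 < A.d ∧ A.v 0 = 0) ∧ ∀ i < A.d, ∀ j < A.d, A.s ^ (i + j) ∈ A.fil (A.v i + A.v j + 1)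

variable {A : Fl R} {u u' : ℕ} {a b : R}

theorem Fl.mono (h : a ∈ A.fil u) (hu : u ≤ u') : a ∈ A.fil u' :=
  Submodule.span_mono (by rintro _ ⟨k, j, a, b, c⟩; exact ⟨k, j, a, by omega, c⟩) h

theorem Fl.gen (k j : ℕ) (h : j < A.d) (h' : w k + A.v j < u) : A.x ^ k * A.s ^ j ∈ A.fil u :=
  Submodule.subset_span ⟨k, j, h, h', rfl⟩

theorem Fl.xmul (k : ℕ) (h : a ∈ A.fil u) (hu : w k + u ≤ u') : A.x ^ k * a ∈ A.fil u' := by
  induction h using Submodule.span_induction with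
  | mem r h =>
    obtain ⟨l, j, h1, h2, rfl⟩ := h
    rw [← mul_assoc, ← pow_add]
    exact Fl.gen _ _ h1 (by have := w_add k l; omega)
  | zero => simp
  | add _ _ _ _ h1 h2 => rw [mul_add]; exact add_mem h1 h2
  | smul c _ _ h => rw [mul_smul_comm]; exact Submodule.smul_mem _ _ h

theorem Fl.Ok.xpow (hA : A.Ok) (k : ℕ) (h : w k < u) : A.x ^ k ∈ A.fil u := by
  simpa using Fl.gen (A := A) (u := u) k 0 hA.1.1 (by rw [hA.1.2]; omega)

theorem Fl.Ok.mul (hA : A.Ok) {t : ℕ} (h : a ∈ A.fil u) (h' : b ∈ A.fil u') (ht : u + u' ≤ t + 1) :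
    a * b ∈ A.fil t := by
  have : A.fil u * A.fil u' ≤ A.fil t := by
    rw [Fl.fil, Fl.fil, Submodule.span_mul_span, Submodule.span_le]
    rintro _ ⟨_, ⟨k, i, a1, a2, rfl⟩, _, ⟨l, j, b1, b2, rfl⟩, rfl⟩
    have := Fl.xmul (u' := t) k (Fl.xmul l (hA.2 i a1 j b1) le_rfl) (by omega)
    refine SetLike.mem_coe.2 ?_
    convert this using 1
    ring
  exact this (Submodule.mul_mem_mul h h')

/-- the correction terms -/
def Fl.r (A : Fl R) (c : ℕ) (ρ : R) : ℕ → R
  | 0 => ρ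
  | j + 1 => A.x ^ (c * 4 ^ j) * A.r c ρ j

theorem Fl.r_mem {c κ : ℕ} {ρ : R} (hw : w c = κ) (h1 : ρ ∈ A.fil (κ + 1)) (j : ℕ) :
    A.r c ρ j ∈ A.fil (κ * 2 ^ j + 1) := by
  induction j with
  | zero => simpa [Fl.r] using h1
  | succ j ih => exact Fl.xmul _ ih (by rw [w_pow, hw, pow_succ, ← mul_assoc]; omega)

theorem Fl.r_sq {c κ : ℕ} {ρ : R} (hc : w (2 * c) ≤ 2 * κ) (h2 : ρ * ρ ∈ A.fil (2 * κ)) (j : ℕ) :
    A.r c ρ j * A.r c ρ j ∈ A.fil (2 * (κ * 2 ^ j)) := by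
  induction j with
  | zero => simpa [Fl.r] using h2
  | succ j ih =>
    have := Fl.xmul (u' := 2 * (κ * 2 ^ (j + 1))) (2 * c * 4 ^ j) ih (by
      rw [w_pow, pow_succ]; nlinarith [Nat.mul_le_mul_right (2 ^ j) hc])
    convert this using 1
    rw [Fl.r]; ring

/-- the leading terms of the powers of `y` -/
theorem Fl.Ok.dec (hA : A.Ok) (y ρ : R) (c κ : ℕ) (hw : ∀ n, w (c * e n) = κ * n)
    (hc : w (2 * c) < 2 * κ) (h1 : ρ ∈ A.fil (κ + 1)) (h2 : ρ * ρ ∈ A.fil (2 * κ))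
    (hb : ∀ j, y ^ (c * 4 ^ j) - A.x ^ (c * 4 ^ j) - A.r c ρ j ∈ A.fil (κ * 2 ^ j)) (n : ℕ) :
    ∀ j, y ^ (c * e (n + 1) * 4 ^ j) - A.x ^ (c * e (n + 1) * 4 ^ j) -
      A.x ^ (c * e n * 4 ^ j) * A.r c ρ j ∈ A.fil (κ * 2 ^ j * (n + 1)) := by
  have e1 : e 1 = 1 := by simpa [e_zero] using e_odd 0
  have w1 : w c = κ := by simpa [e1] using hw 1
  induction n using Nat.strong_induction_on with
  | _ n ih =>
    intro j
    rcases n with _ | n
    · simpa [e1, e_zero] using hb j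
    obtain ⟨m, rfl | rfl⟩ := n.even_or_odd'
    · have := ih m (by omega) (j + 1)
      rw [show 2 * m + 1 + 1 = 2 * (m + 1) by ring, e_even, e_odd]
      convert this using 1
      · congr 1; ring
      · rw [Fl.r]; ring
    · have E1 := ih m (by omega) (j + 1)
      have E2 := hb j
      have r1 := Fl.r_mem w1 h1 j
      have r2 := Fl.r_sq hc.le h2 j
      have wa : w (c * 4 ^ j) = κ * 2 ^ j := by rw [w_pow, w1]
      have wb : ∀ n, w (c * e n * 4 ^ (j + 1)) = 2 * (κ * 2 ^ j * n) := fun n => by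
        rw [w_pow, hw]; ring
      have wc : w (2 * c * 4 ^ j) < 2 * (κ * 2 ^ j) := by
        rw [w_pow, ← mul_assoc]; exact Nat.mul_lt_mul_of_pos_right hc (by positivity)
      rw [show κ * 2 ^ (j + 1) * (m + 1) = 2 * (κ * 2 ^ j * m) + 2 * (κ * 2 ^ j) by ring,
        Fl.r] at E1
      have wb1 := wb (m + 1)
      rw [show κ * 2 ^ j * (m + 1) = κ * 2 ^ j * m + κ * 2 ^ j by ring] at wb1
      rw [show 2 * m + 1 + 1 + 1 = 2 * (m + 1) + 1 by ring, show 2 * m + 1 + 1 = 2 * (m + 1) by ring,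
        e_even, e_odd, show κ * 2 ^ j * (2 * (m + 1) + 1) =
          2 * (κ * 2 ^ j * m) + 3 * (κ * 2 ^ j) by ring]
      have wb0 := wb m
      clear wb ih
      generalize κ * 2 ^ j * m = P at *
      generalize κ * 2 ^ j = K at *
      have hy : y ^ (c * 4 ^ j) ∈ A.fil (K + 1) := by
        simpa using add_mem (add_mem (Fl.mono E2 K.le_succ) r1)
          (hA.xpow (c * 4 ^ j) (by omega : _ < K + 1))
      have := add_mem (add_mem (add_mem (add_mem
        (hA.mul (t := 2 * P + 3 * K) E1 hy (by omega))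
        (Fl.xmul (c * e (m + 1) * 4 ^ (j + 1)) E2 (by omega)))
        (Fl.xmul (c * e m * 4 ^ (j + 1)) (Fl.xmul (c * 4 ^ j)
          (hA.mul (t := 2 * K) r1 E2 (by omega)) le_rfl) (by omega)))
        (Fl.xmul (c * e m * 4 ^ (j + 1)) (Fl.xmul (2 * c * 4 ^ j) r1 le_rfl) (by omega)))
        (Fl.xmul (c * e m * 4 ^ (j + 1)) (Fl.xmul (c * 4 ^ j) r2 le_rfl) (by omega))
      convert this using 1
      ring

end Pool.Agent.P.MP_e7a540_nt.L1.NS
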