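import Pool.Agent.P.MP_e7a540_nt.L1.IfaceB

/-! Step A2. -/

set_option autoImplicit false
set_option linter.unusedSectionVars false

namespace Pool.Agent.P.MP_e7a540_nt.L1

open UpperHalfPlane hiding I
open CongruenceSubgroup ModularGroup Complex MeasureTheory PowerSeries Finset Filter
open scoped MatrixGroups ModularForm Manifold ComplexConjugate Real Topology

namespace A2x

open EisensteinSeries

noncomputable def ka : ℂ := 1 / (2 * riemannZeta 2) * (2 * π * I)

lemma tr (γ : SL) (τ : ℍ) : E2 (γ • τ) = dn γ τ ^ 2 * E2 τ - ka * (γ 1 0 : ℤ) * dn γ τ := by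
  have h := congrFun ((sl_eq 2 E2 γ).trans (E2_slash_action γ)) τ
  have h0 := dn_ne γ τ
  rw [sl, div_eq_iff (pow_ne_zero 2 h0)] at h
  rw [h, Pi.sub_apply, Pi.smul_apply, D2, ← dn_eq, smul_eq_mul, ka]
  field_simp

noncomputable def e : ℤ⟦X⟧ := mk fun n => if n = 0 then 1 else -24 * ArithmeticFunction.sigma 1 n

lemma q1 : QE 1 E2 (toC e) := fun τ => by
  convert hasSum_qExpansion_E2 (z := τ) using 2 with n
  rw [coeff_toC, e, coeff_mk, smul_eq_mul, Nat.cast_one, div_one, ee_nat_mul, ee]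
  split_ifs <;> simp

lemma q2 : QE 1 (fun τ => E2 (af 2 0 τ)) (toC (expand 2 two_ne_zero e)) := fun τ => by
  rw [← (mul_right_injective₀ (two_ne_zero (α := ℕ))).hasSum_iff fun n hn => by
    rw [coeff_toC, coeff_expand, if_neg fun ⟨k, hk⟩ => hn ⟨k, hk.symm⟩, Int.cast_zero, zero_mul]]
  convert q1 (af 2 0 τ) using 2 with n
  simp only [Function.comp, coeff_toC, coeff_expand_mul, coe_af two_pos]
  congr 2; push_cast; ring

noncomputable def A : ℍ → ℂ := (2 : ℂ) • (fun τ => E2 (af 2 0 τ)) + (-1 : ℂ) • E2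

lemma A_eq (τ : ℍ) : A τ = 2 * E2 (af 2 0 τ) - E2 τ := by simp [A, sub_eq_add_neg]

noncomputable def a : ℤ⟦X⟧ := 2 * expand 2 two_ne_zero e - e

lemma qA : QE 1 A (toC a) := by
  have h := (q2.smul 2).add (q1.smul (-1))
  rwa [neg_one_smul ℂ (toC e), two_smul ℂ (toC _), ← sub_eq_add_neg (toC _ + _), ← map_add,
    ← map_sub, ← two_mul] at h

lemma inv : Inv 2 2 A := fun γ hγ τ => by
  obtain ⟨c, hc⟩ := mem_G0.1 hγ
  have hd := det_SL γ
  set g := mk2 (γ 0 0) (2 * γ 0 1) c (γ 1 1) (by rw [hc] at hd; push_cast at hd; linear_combination hd) with hg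
  have h1 : dn g (af 2 0 τ) = dn γ τ := by
    simp only [dn, hg, mk2_10, mk2_11, coe_af two_pos, hc]; push_cast; ring
  have h2 : af 2 0 (γ • τ) = g • af 2 0 τ := UpperHalfPlane.ext (by
    rw [coe_af two_pos, coe_smul', coe_smul', h1, coe_af two_pos]
    simp only [hg, mk2_00, mk2_01]; push_cast; ring)
  rw [A_eq, A_eq, h2, tr, tr, h1, hc]
  simp only [hg, mk2_10]; push_cast; ring

lemma atS : sl 2 A S = (2⁻¹ : ℂ) • (fun τ => E2 (af 2⁻¹ 0 τ)) + (-1 : ℂ) • E2 := by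
  funext τ
  have h0 : (τ : ℂ) ≠ 0 := ne_zero τ
  have hp : (0 : ℝ) < 2⁻¹ := by norm_num
  have h2 : af 2 0 (S • τ) = S • af 2⁻¹ 0 τ := UpperHalfPlane.ext (by
    rw [coe_af two_pos, coe_S_smul, coe_S_smul, coe_af hp]
    push_cast; rw [add_zero, add_zero]; field_simp)
  rw [sl, A_eq, h2, tr, tr, dn_S, dn_S, coe_af hp]
  simp only [Pi.add_apply, Pi.smul_apply, smul_eq_mul]
  push_cast; field_simp; ring

end A2x

open A2x EisensteinSeries in
theorem p_A2 :
    S_A2 := by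
  refine ⟨A, a, ⟨qA.hol one_ne_zero, A2x.inv, qA.bdd one_ne_zero, ?_⟩, qA.qe, ?_, ?_⟩
  · rw [atS]
    refine BoundedAtFilter.add (BoundedAtFilter.smul _ ?_) (isBoundedAtImInfty_E2.smul _)
    exact isBoundedAtImInfty_E2.comp_tendsto (tendsto_af (by norm_num) 0)
  · rw [← coeff_zero_eq_constantCoeff_apply, a, map_sub, two_mul, map_add, coeff_expand]
    simp [e]
  · ext n
    have h2 : (2 : ZMod 2) = 0 := rfl
    have h24 : (24 : ZMod 2) = 0 := rfl
    rw [coeff_to2, a, map_sub, two_mul, map_add, ← two_mul, e, coeff_mk, coeff_one]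
    split_ifs <;> simp [h2, h24]

end Pool.Agent.P.MP_e7a540_nt.L1
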