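import Pool.Agent.P.MP_e7a540_nt.L1.IfaceB

/-! Step FORM. -/

set_option autoImplicit false
set_option linter.unusedSectionVars false

namespace Pool.Agent.P.MP_e7a540_nt.L1

open UpperHalfPlane hiding I
open CongruenceSubgroup ModularGroup Complex MeasureTheory PowerSeries Finset Filter
open scoped MatrixGroups ModularForm Manifold ComplexConjugate Real Topology

namespace FORMx

lemma dec (g : SL) : ∃ d ∈ Gamma0 2, g = d ∨ g = d * S ∨ g = d * S * T := by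
  by_cases hc : (2 : ℤ) ∣ g 1 0
  · exact ⟨g, mem_G0.2 (by simpa using hc), Or.inl rfl⟩
  by_cases hd : (2 : ℤ) ∣ g 1 1
  · refine ⟨g * S⁻¹, mem_G0.2 ?_, Or.inr (Or.inl (by simp))⟩
    have : (g * S⁻¹) 1 0 = - g 1 1 := by
      simp [S, Matrix.SpecialLinearGroup.coe_inv, Matrix.adjugate_fin_two, Matrix.mul_apply,
        Fin.sum_univ_two]
    rw [this]
    simpa using hd
  · refine ⟨g * T⁻¹ * S⁻¹, mem_G0.2 ?_, Or.inr (Or.inr (by simp))⟩
    have : (g * T⁻¹ * S⁻¹) 1 0 = g 1 0 - g 1 1 := by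
      simp [S, T, Matrix.SpecialLinearGroup.coe_inv, Matrix.adjugate_fin_two, Matrix.mul_apply,
        Fin.sum_univ_two]
      ring
    rw [this]
    push_cast
    omega

lemma sl_T (w : ℕ) (F : ℍ → ℂ) : sl w F T = F ∘ af 1 1 := by
  funext τ
  simp [sl, T_smul_eq, -sl_moeb]

lemma cases {w : ℕ} {F : ℍ → ℂ} (h : Inv 2 w F) (g : SL) :
    sl w F g = F ∨ sl w F g = sl w F S ∨ sl w F g = sl w F S ∘ af 1 1 := by
  obtain ⟨d, hd, e | e | e⟩ := dec g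
  · exact Or.inl (e ▸ inv_iff.1 h d hd)
  · exact Or.inr (Or.inl (by rw [e, sl_mul, inv_iff.1 h d hd]))
  · exact Or.inr (Or.inr (by rw [e, sl_mul, sl_mul, inv_iff.1 h d hd, sl_T]))

lemma bdd {w : ℕ} {F : ℍ → ℂ} (h : MF w F) (g : SL) : IsBoundedAtImInfty (sl w F g) := by
  rcases cases h.inv g with e | e | e <;> rw [e]
  · exact h.bi
  · exact h.bz
  · exact h.bz.comp_tendsto (tendsto_af one_pos 1)

lemma zer {w : ℕ} {F : ℍ → ℂ} (h : CF w F) (g : SL) : IsZeroAtImInfty (sl w F g) := by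
  rcases cases h.inv g with e | e | e <;> rw [e]
  · exact h.zi
  · exact h.zz
  · exact Tendsto.comp h.zz (tendsto_af one_pos 1)

lemma slash_of {N w : ℕ} {F : ℍ → ℂ} (h : Inv N w F) (A : GL (Fin 2) ℝ)
    (hA : A ∈ ((Gamma0 N : Subgroup SL(2, ℤ)) : Subgroup (GL (Fin 2) ℝ))) :
    F ∣[(w : ℤ)] A = F := by
  obtain ⟨γ, hγ, rfl⟩ := hA
  have := inv_iff.1 h γ hγ
  rwa [sl_eq] at this

lemma inv_of {N w : ℕ} {F : ℍ → ℂ}
    (h : ∀ A ∈ ((Gamma0 N : Subgroup SL(2, ℤ)) : Subgroup (GL (Fin 2) ℝ)), F ∣[(w : ℤ)] A = F) :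
    Inv N w F := inv_iff.2 fun γ hγ => by
  rw [sl_eq]
  exact h _ ⟨γ, hγ, rfl⟩

end FORMx

open FORMx in
theorem p_FORM :
    S_FORM := by
  intro w F
  refine ⟨⟨fun h => ⟨⟨⟨F, slash_of h.inv⟩, h.hol, fun hc => ?_⟩, rfl⟩, ?_⟩,
    ⟨fun h => ⟨⟨⟨F, slash_of h.inv⟩, h.hol, fun hc => ?_⟩, rfl⟩, ?_⟩,
    ⟨fun h => ⟨⟨⟨F, ?_⟩, h.hol, fun hc => ?_⟩, rfl⟩, ?_⟩, fun f => ⟨⟨?_, ?_, ?_⟩, ?_⟩⟩
  · rw [Subgroup.IsArithmetic.isCusp_iff_isCusp_SL2Z] at hc
    rw [OnePoint.isBoundedAt_iff_forall_SL2Z hc]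
    intro γ _
    rw [← sl_eq]
    exact bdd h γ
  · rintro ⟨f, rfl⟩
    exact ⟨ModularFormClass.holo f, inv_of (SlashInvariantFormClass.slash_action_eq f),
      ModularFormClass.bdd_at_infty f, by
        rw [sl_eq]; exact ModularFormClass.bdd_at_infty_slash f S⟩
  · rw [Subgroup.IsArithmetic.isCusp_iff_isCusp_SL2Z] at hc
    rw [OnePoint.isZeroAt_iff_forall_SL2Z hc]
    intro γ _
    rw [← sl_eq]
    exact zer h γ
  · rintro ⟨f, rfl⟩
    exact ⟨CuspFormClass.holo f, inv_of (SlashInvariantFormClass.slash_action_eq f),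
      CuspFormClass.zero_at_infty f, by
        rw [sl_eq]; exact CuspFormClass.zero_at_infty_slash f S⟩
  · rintro _ ⟨γ, rfl⟩
    have := inv_iff.1 h.inv γ (mem_G0.2 (one_dvd _))
    rwa [sl_eq] at this
  · rw [Subgroup.IsArithmetic.isCusp_iff_isCusp_SL2Z] at hc
    rw [OnePoint.isBoundedAt_iff_forall_SL2Z hc]
    intro γ _
    rw [← sl_eq]
    exact bdd h.mf γ
  · rintro ⟨f, rfl⟩
    refine ⟨ModularFormClass.holo f, inv_iff.2 fun γ _ => ?_, ModularFormClass.bdd_at_infty f⟩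
    rw [sl_eq]
    exact SlashInvariantFormClass.slash_action_eq f _ ⟨γ, rfl⟩
  · exact CuspFormClass.holo f
  · exact inv_of (SlashInvariantFormClass.slash_action_eq f)
  · exact ModularFormClass.bdd_at_infty f
  · exact CuspFormClass.zero_at_infty f

end Pool.Agent.P.MP_e7a540_nt.L1
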