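import Mathlib

/-! Theta functions with characteristics: transformation under SL2(Z) and Gamma0(2). -/

namespace Pool.Agent.P.MP_e7a540_nt.L1.TH

open Complex Matrix
open UpperHalfPlane hiding I
open scoped Real MatrixGroups

/-- odd theta function with characteristic -/
noncomputable def KK (a b t : ℂ) : ℂ :=
  cexp (π * I * (a + 1 / 2) ^ 2 * t + 2 * π * I * (1 / 2 + a / 2) * b) *
    jacobiTheta₂ ((a + 1 / 2) * t + b + 1 / 2) t

/-- theta two with characteristic -/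
noncomputable def PP (a b t : ℂ) : ℂ :=
  cexp (π * I * (a + 1 / 2) ^ 2 * t + 2 * π * I * (1 / 2 + a / 2) * b) *
    jacobiTheta₂ ((a + 1 / 2) * t + b) t

lemma th_add_int (z t : ℂ) (n : ℤ) : jacobiTheta₂ (z + n) t = jacobiTheta₂ z t := by
  refine tsum_congr (fun m ↦ ?_)
  simp only [jacobiTheta₂_term]
  rw [show 2 * π * I * m * (z + n) + π * I * m ^ 2 * t
      = (2 * π * I * m * z + π * I * m ^ 2 * t) + ((m * n : ℤ) : ℂ) * (2 * π * I) by push_cast; ring,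
    Complex.exp_add, exp_int_mul_two_pi_mul_I, mul_one]

lemma th_add_int_mul (z t : ℂ) (n : ℤ) :
    jacobiTheta₂ (z + n * t) t = cexp (-π * I * (n ^ 2 * t + 2 * n * z)) * jacobiTheta₂ z t := by
  conv_rhs => rw [jacobiTheta₂, ← tsum_mul_left, ← (Equiv.addRight n).tsum_eq]
  refine tsum_congr (fun m ↦ ?_)
  simp_rw [jacobiTheta₂_term, ← Complex.exp_add, Equiv.coe_addRight, Int.cast_add]
  ring_nf

lemma th_add_one_right (z t : ℂ) : jacobiTheta₂ z (t + 1) = jacobiTheta₂ (z + 1 / 2) t := by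
  refine tsum_congr (fun m ↦ ?_)
  simp only [jacobiTheta₂_term]
  obtain ⟨k, hk⟩ : ∃ k : ℤ, m * (m - 1) = 2 * k := (Int.even_mul_pred_self m).two_dvd
  have hk' : (m : ℂ) * (m - 1) = 2 * k := by exact_mod_cast hk
  rw [show 2 * π * I * m * z + π * I * m ^ 2 * (t + 1)
      = (2 * π * I * m * (z + 1 / 2) + π * I * m ^ 2 * t) + (k : ℂ) * (2 * π * I) by
        linear_combination (π * I) * hk',
    Complex.exp_add, exp_int_mul_two_pi_mul_I, mul_one]

lemma KK_T (a b t : ℂ) : KK a b (t + 1) = cexp (π * I / 4) * KK a (a + b) t := by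
  unfold KK
  rw [th_add_one_right, ← mul_assoc, ← Complex.exp_add,
    show (a + 1 / 2) * (t + 1) + b + 1 / 2 + 1 / 2
      = ((a + 1 / 2) * t + (a + b) + 1 / 2) + ((1 : ℤ) : ℂ) by push_cast; ring, th_add_int]
  congr 2
  ring

lemma KK_S (a b t : ℂ) (ht : t ≠ 0) :
    KK a b (-1 / t) = (-I * (-I * t) ^ (1 / 2 : ℂ)) * KK b (-a) t := by
  unfold KK
  have h0 : (-I * t) ^ (1 / 2 : ℂ) ≠ 0 := by
    rw [Ne, cpow_eq_zero_iff]
    rintro ⟨h, -⟩
    exact (mul_ne_zero (neg_ne_zero.mpr I_ne_zero) ht) h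
  have h1 := jacobiTheta₂_functional_equation ((b + 1 / 2) * t + -a + 1 / 2 + ((-1 : ℤ) : ℂ)) t
  rw [th_add_int] at h1
  rw [h1, show ((b + 1 / 2) * t + -a + 1 / 2 + ((-1 : ℤ) : ℂ)) / t
      = (a + 1 / 2) * (-1 / t) + b + 1 / 2 by push_cast; field_simp; ring]
  have h2 : (-I : ℂ) = cexp (-(π * I / 2)) := by
    rw [Complex.exp_neg, show (π : ℂ) * I / 2 = π / 2 * I by ring, exp_pi_div_two_mul_I, inv_I]
  generalize jacobiTheta₂ ((a + 1 / 2) * (-1 / t) + b + 1 / 2) (-1 / t) = X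
  generalize (-I * t) ^ (1 / 2 : ℂ) = s at h0
  have h3 : cexp (π * I * (a + 1 / 2) ^ 2 * (-1 / t) + 2 * π * I * (1 / 2 + a / 2) * b) =
      -I * (cexp (π * I * (b + 1 / 2) ^ 2 * t + 2 * π * I * (1 / 2 + b / 2) * -a) *
        cexp (-π * I * ((b + 1 / 2) * t + -a + 1 / 2 + ((-1 : ℤ) : ℂ)) ^ 2 / t)) := by
    conv_rhs => rw [h2]
    rw [← Complex.exp_add, ← Complex.exp_add]
    congr 1
    push_cast
    field_simp
    ring
  rw [h3]
  field_simp

lemma coe_smul_eq (g : SL(2, ℤ)) (t : ℍ) :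
    ((g • t : ℍ) : ℂ) = (g 0 0 * t + g 0 1) / (g 1 0 * t + g 1 1) := by
  simp [UpperHalfPlane.specialLinearGroup_apply]

lemma den_ne (g : SL(2, ℤ)) (t : ℍ) : (g 1 0 : ℂ) * t + g 1 1 ≠ 0 := by
  simpa [denom] using denom_ne_zero (g : GL (Fin 2) ℝ) t

lemma det_eq (g : SL(2, ℤ)) : g 0 0 * g 1 1 - g 0 1 * g 1 0 = 1 := by
  have := g.det_coe
  rwa [Matrix.det_fin_two] at this

lemma mul_ent (g h : SL(2, ℤ)) (i j : Fin 2) : (g * h) i j = g i 0 * h 0 j + g i 1 * h 1 j := by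
  have : (g * h) i j = (g.1 * h.1) i j := rfl
  rw [this, Matrix.mul_apply, Fin.sum_univ_two]

lemma inv_ent (g : SL(2, ℤ)) :
    g⁻¹ 0 0 = g 1 1 ∧ g⁻¹ 0 1 = -g 0 1 ∧ g⁻¹ 1 0 = -g 1 0 ∧ g⁻¹ 1 1 = g 0 0 := by
  rw [SpecialLinearGroup.SL2_inv_expl]
  exact ⟨rfl, rfl, rfl, rfl⟩

lemma one_ent : (1 : SL(2, ℤ)) 0 0 = 1 ∧ (1 : SL(2, ℤ)) 0 1 = 0 ∧ (1 : SL(2, ℤ)) 1 0 = 0 ∧
    (1 : SL(2, ℤ)) 1 1 = 1 := ⟨rfl, rfl, rfl, rfl⟩

lemma den_mul (g h : SL(2, ℤ)) (t : ℍ) : ((g * h) 1 0 : ℂ) * t + (g * h) 1 1 =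
    ((g 1 0 : ℂ) * (h • t : ℍ) + g 1 1) * (h 1 0 * t + h 1 1) := by
  have := den_ne h t
  rw [coe_smul_eq, mul_ent, mul_ent]
  push_cast
  rw [add_mul _ (g 1 1 : ℂ), mul_assoc (g 1 0 : ℂ), div_mul_cancel₀ _ this]
  ring

theorem KK_trans (g : SL(2, ℤ)) : ∀ t : ℍ, ∃ J : ℂ, J ^ 8 = ((g 1 0 : ℂ) * t + g 1 1) ^ 4 ∧
    ∀ a b : ℂ, KK a b (g • t : ℍ) = J * KK (a * g 0 0 + b * g 1 0) (a * g 0 1 + b * g 1 1) t := by
  have hg : g ∈ Subgroup.closure ({ModularGroup.S, ModularGroup.T} : Set SL(2, ℤ)) := by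
    rw [SpecialLinearGroup.SL2Z_generators]; trivial
  induction hg using Subgroup.closure_induction with
  | mem x hx =>
    rcases hx with rfl | rfl
    · intro t
      refine ⟨-I * (-I * t) ^ (1 / 2 : ℂ), ?_, fun a b => ?_⟩
      · have : ((-I * t) ^ (1 / 2 : ℂ)) ^ 2 = -I * t := by
          rw [← cpow_nat_mul]; simp
        simp only [ModularGroup.S, Matrix.of_apply, Matrix.cons_val', Matrix.cons_val_zero,
          Matrix.cons_val_one, Matrix.cons_val_fin_one]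
        push_cast
        rw [mul_pow, show (8 : ℕ) = 2 * 4 by rfl, pow_mul ((-I * t) ^ (1 / 2 : ℂ)), this]
        have h4 : I ^ 4 = 1 := I_pow_four
        linear_combination ((t : ℂ) ^ 4 * (I ^ 8 + I ^ 4 + 1)) * h4
      · rw [coe_smul_eq]
        simp only [ModularGroup.S, Matrix.of_apply, Matrix.cons_val', Matrix.cons_val_zero,
          Matrix.cons_val_one, Matrix.cons_val_fin_one]
        push_cast
        have := KK_S a b t t.ne_zero
        simpa using this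
    · intro t
      refine ⟨cexp (π * I / 4), ?_, fun a b => ?_⟩
      · simp only [ModularGroup.T, Matrix.of_apply, Matrix.cons_val', Matrix.cons_val_zero,
          Matrix.cons_val_one, Matrix.cons_val_fin_one]
        rw [← Complex.exp_nat_mul]
        push_cast
        rw [show (8 : ℂ) * (π * I / 4) = 2 * π * I by ring, exp_two_pi_mul_I]
        simp
      · rw [coe_smul_eq]
        simp only [ModularGroup.T, Matrix.of_apply, Matrix.cons_val', Matrix.cons_val_zero,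
          Matrix.cons_val_one, Matrix.cons_val_fin_one]
        push_cast
        have := KK_T a b t
        simpa using this
  | one => intro t; exact ⟨1, by simp, fun a b => by simp⟩
  | mul x y _ _ hx hy =>
    intro t
    obtain ⟨J1, h1, h1'⟩ := hx (y • t)
    obtain ⟨J2, h2, h2'⟩ := hy t
    refine ⟨J1 * J2, ?_, fun a b => ?_⟩
    · rw [den_mul, mul_pow, mul_pow, h1, h2]
    · rw [mul_smul, h1', h2', mul_assoc]
      congr 3 <;>
      · simp only [mul_ent]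
        push_cast
        ring
  | inv x _ hx =>
    intro t
    obtain ⟨J, h1, h1'⟩ := hx (x⁻¹ • t)
    have hd := den_mul x x⁻¹ t
    rw [mul_inv_cancel] at hd
    rw [one_ent.2.2.1, one_ent.2.2.2, Int.cast_zero, zero_mul, Int.cast_one, zero_add] at hd
    have hJ : J ≠ 0 := by
      intro h
      rw [h] at h1
      exact pow_ne_zero 4 (den_ne x (x⁻¹ • t)) (by rw [← h1]; simp)
    refine ⟨J⁻¹, ?_, fun a b => ?_⟩
    · rw [inv_pow, h1, ← inv_pow, (eq_inv_of_mul_eq_one_right hd.symm)]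
    · have h := h1' (a * x⁻¹ 0 0 + b * x⁻¹ 1 0) (a * x⁻¹ 0 1 + b * x⁻¹ 1 1)
      rw [smul_inv_smul] at h
      rw [h, ← mul_assoc, inv_mul_cancel₀ hJ, one_mul]
      have hdet : (x 0 0 : ℂ) * x 1 1 - x 0 1 * x 1 0 = 1 := by exact_mod_cast det_eq x
      congr 1
      · rw [(inv_ent x).1, (inv_ent x).2.1, (inv_ent x).2.2.1, (inv_ent x).2.2.2]
        push_cast
        linear_combination (-a) * hdet
      · rw [(inv_ent x).1, (inv_ent x).2.1, (inv_ent x).2.2.1, (inv_ent x).2.2.2]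
        push_cast
        linear_combination (-b) * hdet

lemma PP_shift (a b t : ℂ) (m n : ℤ) :
    PP (a + m) (b + n) t = cexp (π * I * (n + a * n - m * b - m * n)) * PP a b t := by
  unfold PP
  rw [show (a + m + 1 / 2) * t + (b + n) = (((a + 1 / 2) * t + b) + m * t) + n by ring,
    th_add_int, th_add_int_mul, ← mul_assoc, ← mul_assoc, ← Complex.exp_add, ← Complex.exp_add]
  congr 1
  rw [show π * I * (a + m + 1 / 2) ^ 2 * t + 2 * π * I * (1 / 2 + (a + m) / 2) * (b + n) +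
      -π * I * (m ^ 2 * t + 2 * m * ((a + 1 / 2) * t + b)) =
      (π * I * (n + a * n - m * b - m * n) +
        (π * I * (a + 1 / 2) ^ 2 * t + 2 * π * I * (1 / 2 + a / 2) * b))
        + ((m * n : ℤ) : ℂ) * (2 * π * I) by push_cast; ring,
    Complex.exp_add, exp_int_mul_two_pi_mul_I, mul_one]

lemma KK_eq (a b t : ℂ) :
    KK a b t = cexp (-(π * I * (1 + a) / 2)) * PP a (b + 1 / 2) t := by
  unfold KK PP
  rw [← mul_assoc, ← Complex.exp_add, add_assoc]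
  congr 2
  ring

lemma PP_eq (a b t : ℂ) :
    PP a b t = cexp (π * I * (1 + a) / 2) * KK a (b - 1 / 2) t := by
  rw [KK_eq, ← mul_assoc, ← Complex.exp_add]
  simp

theorem PP_trans (g : SL(2, ℤ)) (hg : (2 : ℤ) ∣ g 1 0) (t : ℍ) :
    ∃ J : ℂ, J ^ 8 = ((g 1 0 : ℂ) * t + g 1 1) ^ 4 ∧
    ∀ a b : ℂ, PP a b (g • t : ℍ) = J * PP (a * g 0 0 + b * g 1 0) (a * g 0 1 + b * g 1 1) t := by
  obtain ⟨J, hJ, hK⟩ := KK_trans g t
  obtain ⟨c, hc⟩ := hg
  have hdet := det_eq g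
  obtain ⟨e, he⟩ : ∃ e : ℤ, g 1 1 = 2 * e + 1 := by
    rcases Int.even_or_odd' (g 1 1) with ⟨e, he | he⟩
    · exfalso
      rw [he, hc] at hdet
      have : (2 : ℤ) ∣ 1 := ⟨g 0 0 * e - g 0 1 * c, by linear_combination -hdet⟩
      norm_num at this
    · exact ⟨e, he⟩
  have hc' : (g 1 0 : ℂ) = 2 * c := by exact_mod_cast hc
  have he' : (g 1 1 : ℂ) = 2 * e + 1 := by exact_mod_cast he
  have hdet' : (g 0 0 : ℂ) * g 1 1 - g 0 1 * g 1 0 = 1 := by exact_mod_cast hdet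
  refine ⟨J * cexp (π * I * (c / 2 - e - c * e)), ?_, fun a b => ?_⟩
  · rw [mul_pow, hJ, ← Complex.exp_nat_mul,
      show ((8 : ℕ) : ℂ) * (π * I * (c / 2 - e - c * e))
        = ((2 * c - 4 * e - 4 * c * e : ℤ) : ℂ) * (2 * π * I) by push_cast; ring,
      exp_int_mul_two_pi_mul_I, mul_one]
  · rw [PP_eq, hK, KK_eq,
      show a * g 0 0 + (b - 1 / 2) * g 1 0 = (a * g 0 0 + b * g 1 0) + ((-c : ℤ) : ℂ) by
        rw [hc']; push_cast; ring,
      show a * g 0 1 + (b - 1 / 2) * g 1 1 + 1 / 2 = (a * g 0 1 + b * g 1 1) + ((-e : ℤ) : ℂ) by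
        rw [he']; push_cast; ring, PP_shift]
    generalize PP (a * g 0 0 + b * g 1 0) (a * g 0 1 + b * g 1 1) t = X
    have : cexp (π * I * (1 + a) / 2) *
        (cexp (-(π * I * (1 + (a * g 0 0 + b * g 1 0 + ((-c : ℤ) : ℂ))) / 2)) *
          cexp (π * I * (((-e : ℤ) : ℂ) + (a * g 0 0 + b * g 1 0) * ((-e : ℤ) : ℂ) -
            ((-c : ℤ) : ℂ) * (a * g 0 1 + b * g 1 1) - ((-c : ℤ) : ℂ) * ((-e : ℤ) : ℂ)))) =
        cexp (π * I * (c / 2 - e - c * e)) := by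
      rw [← Complex.exp_add, ← Complex.exp_add]
      congr 1
      rw [hc', he'] at hdet' ⊢
      push_cast
      linear_combination (-(π * I * a / 2)) * hdet'
    rw [← this]
    ring

lemma hasSum_congr_aux {ι : Type*} {f g : ι → ℂ} {s : ℂ} (h : HasSum f s) (hfg : ∀ n, g n = f n) :
    HasSum g s := by
  rwa [show g = f from funext hfg]

lemma PP_hasSum (a b : ℂ) {t : ℂ} (ht : 0 < t.im) :
    HasSum (fun n : ℤ => cexp (π * I * (n + 1 / 2 + a) ^ 2 * t + 2 * π * I * (n + 1 / 2 + a / 2) * b))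
      (PP a b t) := by
  have := (hasSum_jacobiTheta₂_term ((a + 1 / 2) * t + b) ht).mul_left
    (cexp (π * I * (a + 1 / 2) ^ 2 * t + 2 * π * I * (1 / 2 + a / 2) * b))
  refine (hasSum_congr_aux this) fun n => ?_
  rw [jacobiTheta₂_term, ← Complex.exp_add]
  congr 1
  ring

end Pool.Agent.P.MP_e7a540_nt.L1.TH
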