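import Pool.Agent.P.MP_e7a540_nt.L1.TH1

/-! Integer matrices of odd determinant with even lower left entry: action, Hermite form. -/

namespace Pool.Agent.P.MP_e7a540_nt.L1.TH

open Complex Matrix MeasureTheory
open UpperHalfPlane hiding I
open scoped Real MatrixGroups

abbrev Mat := Matrix (Fin 2) (Fin 2) ℤ

noncomputable def toGL (d : Mat) : GL (Fin 2) ℝ :=
  if h : (d.map (Int.cast : ℤ → ℝ)).det ≠ 0 then
    Matrix.GeneralLinearGroup.mkOfDetNeZero (d.map (Int.cast : ℤ → ℝ)) h else 1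

noncomputable def act (d : Mat) (z : ℍ) : ℍ := toGL d • z

def den (d : Mat) (z : ℍ) : ℂ := d 1 0 * z + d 1 1

lemma det_map (d : Mat) : (d.map (Int.cast : ℤ → ℝ)).det = (d.det : ℝ) := by
  simp [Matrix.det_fin_two]

lemma toGL_val {d : Mat} (hd : 0 < d.det) : (toGL d).val = d.map (Int.cast : ℤ → ℝ) := by
  have h : (d.map (Int.cast : ℤ → ℝ)).det ≠ 0 := by
    rw [det_map]; exact_mod_cast hd.ne'
  simp [toGL, dif_pos h]

lemma toGL_det {d : Mat} (hd : 0 < d.det) : (toGL d).det.val = (d.det : ℝ) := by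
  rw [Matrix.GeneralLinearGroup.val_det_apply, toGL_val hd, det_map]

lemma denom_toGL {d : Mat} (hd : 0 < d.det) (z : ℍ) : denom (toGL d) z = den d z := by
  simp [denom, den, toGL_val hd]

lemma den_ne_zero {d : Mat} (hd : 0 < d.det) (z : ℍ) : den d z ≠ 0 := by
  rw [← denom_toGL hd]; exact denom_ne_zero _ _

lemma coe_act {d : Mat} (hd : 0 < d.det) (z : ℍ) :
    (act d z : ℂ) = (d 0 0 * z + d 0 1) / den d z := by
  rw [act, coe_smul_of_det_pos (by rw [toGL_det hd]; exact_mod_cast hd), denom_toGL hd]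
  simp [num, toGL_val hd]

lemma im_act {d : Mat} (hd : 0 < d.det) (z : ℍ) :
    (act d z).im = d.det * z.im / ‖den d z‖ ^ 2 := by
  rw [act, UpperHalfPlane.im_smul_eq_div_normSq, toGL_det hd, denom_toGL hd, normSq_eq_norm_sq,
    abs_of_pos (by exact_mod_cast hd)]

lemma act_SL (g : SL(2, ℤ)) (z : ℍ) : act g.1 z = g • z := by
  ext1
  rw [coe_act (by rw [g.det_coe]; exact one_pos), coe_smul_eq]
  rfl

lemma mmul (d e : Mat) (i j : Fin 2) : (d * e) i j = d i 0 * e 0 j + d i 1 * e 1 j := by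
  rw [Matrix.mul_apply, Fin.sum_univ_two]

lemma den_mul' {d e : Mat} (he : 0 < e.det) (z : ℍ) :
    den (d * e) z = den d (act e z) * den e z := by
  have := den_ne_zero he z
  rw [den, den, coe_act he, mmul, mmul, add_mul _ (d 1 1 : ℂ), mul_assoc (d 1 0 : ℂ),
    div_mul_cancel₀ _ this, den]
  push_cast
  ring

lemma act_mul {d e : Mat} (hd : 0 < d.det) (he : 0 < e.det) (z : ℍ) :
    act (d * e) z = act d (act e z) := by
  have hde : 0 < (d * e).det := by rw [det_mul]; exact mul_pos hd he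
  ext1
  have h1 := den_ne_zero he z
  have h2 := den_ne_zero hd (act e z)
  rw [coe_act hde, coe_act hd, den_mul' he, coe_act he, mmul, mmul]
  field_simp
  rw [den]
  push_cast
  ring

lemma act_measurePreserving (d : Mat) : MeasurePreserving (act d) volume volume :=
  measurePreserving_smul (toGL d) volume

lemma act_continuous (d : Mat) : Continuous (act d) := continuous_const_smul (toGL d)

lemma act_embedding (d : Mat) : MeasurableEmbedding (act d) :=
  measurableEmbedding_const_smul (toGL d)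

lemma adj_ent (d : Mat) : d.adjugate 0 0 = d 1 1 ∧ d.adjugate 0 1 = -d 0 1 ∧
    d.adjugate 1 0 = -d 1 0 ∧ d.adjugate 1 1 = d 0 0 := by
  rw [Matrix.adjugate_fin_two]
  exact ⟨rfl, rfl, rfl, rfl⟩

lemma det_adj (d : Mat) : d.adjugate.det = d.det := by
  rw [Matrix.det_adjugate]; simp

lemma adj_adj (d : Mat) : d.adjugate.adjugate = d := by
  simpa using Matrix.adjugate_adjugate' d

lemma act_adj {d : Mat} (hd : 0 < d.det) (z : ℍ) : act d (act d.adjugate z) = z := by
  rw [← act_mul hd (by rwa [det_adj]), Matrix.mul_adjugate]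
  ext1
  have h : (d.det : ℂ) ≠ 0 := by exact_mod_cast hd.ne'
  rw [coe_act (by rw [Matrix.det_smul]; simpa using pow_pos hd 2)]
  simp [den]
  field_simp

lemma den_adj {d : Mat} (hd : 0 < d.det) (z : ℍ) :
    den d (act d.adjugate z) * den d.adjugate z = d.det := by
  rw [← den_mul' (by rwa [det_adj]), Matrix.mul_adjugate]
  simp [den]

/-- the monoid piece of determinant `N` -/
def Del (N : ℕ) (d : Mat) : Prop := d.det = N ∧ (2 : ℤ) ∣ d 1 0

abbrev G := CongruenceSubgroup.Gamma0 2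

lemma mem_G {g : SL(2, ℤ)} : g ∈ G ↔ (2 : ℤ) ∣ g 1 0 := by
  rw [CongruenceSubgroup.Gamma0_mem]
  exact (ZMod.intCast_zmod_eq_zero_iff_dvd (g 1 0) 2)

/-- the matrix of a group element -/
def mat (g : G) : Mat := g.1.1

lemma mat_det (g : G) : (mat g).det = 1 := g.1.2
lemma mat_even (g : G) : (2 : ℤ) ∣ mat g 1 0 := mem_G.1 g.2
lemma mat_mul (g h : G) : mat (g * h) = mat g * mat h := rfl
lemma mat_one : mat 1 = 1 := rfl
lemma mat_pos (g : G) : 0 < (mat g).det := by rw [mat_det]; exact one_pos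
lemma act_mat (g : G) (z : ℍ) : act (mat g) z = g.1 • z := act_SL g.1 z

lemma Del.pos {N : ℕ} {d : Mat} (h : Del N d) (hN : Odd N) : 0 < d.det := by
  rw [h.1]; exact_mod_cast hN.pos

lemma Del.mul_left {N : ℕ} {d : Mat} (h : Del N d) (g : G) : Del N (mat g * d) :=
  ⟨by rw [det_mul, mat_det, one_mul, h.1], by
    rw [mmul]; exact dvd_add ((mat_even g).mul_right _) (h.2.mul_left _)⟩

lemma Del.mul_right {N : ℕ} {d : Mat} (h : Del N d) (g : G) : Del N (d * mat g) :=
  ⟨by rw [det_mul, mat_det, mul_one, h.1], by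
    rw [mmul]; exact dvd_add (h.2.mul_right _) ((mat_even g).mul_left _)⟩

lemma Del.adj {N : ℕ} {d : Mat} (h : Del N d) : Del N d.adjugate :=
  ⟨by rw [det_adj, h.1], by rw [(adj_ent d).2.2.1]; exact h.2.neg_right⟩

abbrev Ix := (_ : ℕ × ℕ) × ℕ

def reps (N : ℕ) : Finset Ix := (Nat.divisorsAntidiagonal N).sigma fun p => Finset.range p.2

def rep (i : Ix) : Mat := !![(i.1.1 : ℤ), 8 * (i.2 : ℤ); 0, (i.1.2 : ℤ)]

lemma mem_reps {N : ℕ} {i : Ix} : i ∈ reps N ↔ (i.1.1 * i.1.2 = N ∧ N ≠ 0) ∧ i.2 < i.1.2 := by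
  simp [reps]

lemma rep_del {N : ℕ} {i : Ix} (h : i ∈ reps N) : Del N (rep i) := by
  refine ⟨?_, by simp [rep]⟩
  rw [← (mem_reps.1 h).1.1]
  simp [rep, Matrix.det_fin_two]

lemma hnf {N : ℕ} (hN : Odd N) {d : Mat} (h : Del N d) :
    ∃ g : G, ∃ i ∈ reps N, d = mat g * rep i := by
  have hdet : d 0 0 * d 1 1 - d 0 1 * d 1 0 = N := by rw [← h.1, Matrix.det_fin_two]
  have hN0 : (0 : ℤ) < N := by exact_mod_cast hN.pos
  have hg0 : 0 < Int.gcd (d 0 0) (d 1 0) := by
    rw [Int.gcd_pos_iff]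
    by_contra hc
    push Not at hc
    rw [hc.1, hc.2] at hdet
    omega
  obtain ⟨a', c', hco, ha, hc⟩ := Int.exists_gcd_one hg0
  generalize Int.gcd (d 0 0) (d 1 0) = m at hg0 ha hc
  obtain ⟨x, y, hxy⟩ := Int.isCoprime_iff_gcd_eq_one.2 hco
  have hD : (m : ℤ) * (a' * d 1 1 - c' * d 0 1) = N := by
    rw [ha, hc] at hdet; linear_combination hdet
  have hm0 : (0 : ℤ) < m := by exact_mod_cast hg0
  have hD0 : 0 < a' * d 1 1 - c' * d 0 1 := by
    by_contra hc
    push Not at hc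
    nlinarith
  obtain ⟨D, hDD⟩ := Int.eq_ofNat_of_zero_le hD0.le
  have hmD : m * D = N := by rw [hDD] at hD; exact_mod_cast hD
  have hodd : Odd m ∧ Odd D := by rw [← Nat.odd_mul, hmD]; exact hN
  have hD1 : (0 : ℤ) < D := hDD ▸ hD0
  obtain ⟨u, v, huv⟩ : IsCoprime (8 : ℤ) D := by
    have : IsCoprime (2 : ℤ) D := by
      obtain ⟨k, hk⟩ := hodd.2
      exact ⟨-k, 1, by rw [hk]; push_cast; ring⟩
    simpa using this.pow_left (m := 3)
  obtain ⟨b, hb⟩ := Int.eq_ofNat_of_zero_le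
    (Int.emod_nonneg (u * (x * d 0 1 + y * d 1 1)) hD1.ne')
  have hbD : b < D := by
    have := Int.emod_lt_of_pos (u * (x * d 0 1 + y * d 1 1)) hD1
    rw [hb] at this; exact_mod_cast this
  have hdiv := Int.emod_add_mul_ediv (u * (x * d 0 1 + y * d 1 1)) D
  rw [hb] at hdiv
  generalize u * (x * d 0 1 + y * d 1 1) / D = q at hdiv
  have hc2 : (2 : ℤ) ∣ c' := by
    have h2 := h.2
    rw [hc] at h2
    rcases Int.prime_two.dvd_or_dvd h2 with h3 | h3
    · exact h3
    · exfalso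
      obtain ⟨k, hk⟩ := hodd.1
      omega
  have hn : x * d 0 1 + y * d 1 1 = 8 * b + (8 * q + v * (x * d 0 1 + y * d 1 1)) * D := by
    linear_combination (-8) * hdiv - (x * d 0 1 + y * d 1 1) * huv
  generalize 8 * q + v * (x * d 0 1 + y * d 1 1) = n at hn
  refine ⟨⟨⟨!![a', a' * n - y; c', c' * n + x], ?_⟩, mem_G.2 hc2⟩, ⟨(m, D), b⟩, ?_, ?_⟩
  · rw [Matrix.det_fin_two_of]; linear_combination hxy
  · exact mem_reps.2 ⟨⟨hmD, hN.pos.ne'⟩, hbD⟩
  · ext i j
    fin_cases i <;> fin_cases j <;> simp [mat, rep, mmul]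
    · exact ha
    · linear_combination a' * hn - y * hDD - d 0 1 * hxy
    · exact hc
    · linear_combination c' * hn + x * hDD - d 1 1 * hxy

lemma hnf_uniq {N : ℕ} (hN : Odd N) {g : G} {i j : Ix} (hi : i ∈ reps N) (hj : j ∈ reps N)
    (h : rep i = mat g * rep j) : g = 1 ∧ i = j := by
  obtain ⟨⟨a, d⟩, b⟩ := i
  obtain ⟨⟨a', d'⟩, b'⟩ := j
  obtain ⟨⟨h1, -⟩, h2⟩ := mem_reps.1 hi
  obtain ⟨⟨h1', -⟩, h2'⟩ := mem_reps.1 hj
  simp only at h1 h2 h1' h2'
  have hodd : Odd a' ∧ Odd d' := by rw [← Nat.odd_mul, h1']; exact hN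
  have hodd2 : Odd a ∧ Odd d := by rw [← Nat.odd_mul, h1]; exact hN
  have e00 := congrFun (congrFun h 0) 0
  have e01 := congrFun (congrFun h 0) 1
  have e10 := congrFun (congrFun h 1) 0
  have e11 := congrFun (congrFun h 1) 1
  simp [rep, mmul] at e00 e01 e10 e11
  have hdet := mat_det g
  rw [Matrix.det_fin_two] at hdet
  have ha' : (0 : ℤ) < a' := by exact_mod_cast hodd.1.pos
  have ha : (0 : ℤ) < a := by exact_mod_cast hodd2.1.pos
  have hc : mat g 1 0 = 0 := by
    rcases e10 with h | h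
    · exact h
    · omega
  rw [hc] at hdet e11
  have h00 : 0 < mat g 0 0 := by
    by_contra hc
    push Not at hc
    nlinarith
  have h001 : mat g 0 0 = 1 := Int.eq_one_of_mul_eq_one_right (b := mat g 1 1) h00.le (by linarith)
  have h111 : mat g 1 1 = 1 := by rw [h001] at hdet; linarith
  rw [h001] at e00 e01
  rw [h111] at e11
  have haa : a = a' := by exact_mod_cast (by linarith : (a : ℤ) = a')
  have hdd : d = d' := by exact_mod_cast (by linarith : (d : ℤ) = d')
  subst haa hdd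
  have h8 : IsCoprime (8 : ℤ) d := by
    have : IsCoprime (2 : ℤ) d := by
      obtain ⟨k, hk⟩ := hodd.2
      exact ⟨-k, 1, by rw [hk]; push_cast; ring⟩
    simpa using this.pow_left (m := 3)
  obtain ⟨k, hk⟩ : (8 : ℤ) ∣ mat g 0 1 :=
    h8.dvd_of_dvd_mul_right ⟨(b : ℤ) - b', by linarith⟩
  have hbb : (b : ℤ) - b' = k * d := by rw [hk] at e01; linarith
  have hk0 : k = 0 := by
    have h3 : (b : ℤ) < d := by exact_mod_cast h2
    have h4 : (b' : ℤ) < d := by exact_mod_cast h2'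
    rcases lt_trichotomy k 0 with h | h | h
    · nlinarith [Int.natCast_nonneg b, Int.natCast_nonneg b']
    · exact h
    · nlinarith [Int.natCast_nonneg b, Int.natCast_nonneg b']
  have hb : b = b' := by
    rw [hk0] at hbb
    exact_mod_cast (by linarith : (b : ℤ) = b')
  refine ⟨?_, by rw [hb]⟩
  apply Subtype.ext
  apply Subtype.ext
  change mat g = 1
  ext i j
  fin_cases i <;> fin_cases j <;> simp [h001, h111, hc, hk, hk0]

lemma hnf_uniq' {N : ℕ} (hN : Odd N) {g g' : G} {i j : Ix} (hi : i ∈ reps N) (hj : j ∈ reps N)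
    (h : mat g * rep i = mat g' * rep j) : g = g' ∧ i = j := by
  have : rep i = mat (g⁻¹ * g') * rep j := by
    rw [mat_mul, mul_assoc, ← h, ← mul_assoc, ← mat_mul, inv_mul_cancel, mat_one, one_mul]
  obtain ⟨h1, h2⟩ := hnf_uniq hN hi hj this
  exact ⟨inv_mul_eq_one.1 h1, h2⟩

/-- a map that respects left cosets permutes the representatives -/
lemma sum_reindex {N : ℕ} (hN : Odd N) (m : Mat → Mat) (hm : ∀ d, Del N d → Del N (m d))
    (hinj : ∀ d e, Del N d → Del N e → ∀ g : G, m d = mat g * m e → ∃ g' : G, d = mat g' * e)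
    (a : Mat → ℂ) (ha : ∀ d, Del N d → ∀ g : G, a (mat g * d) = a d) :
    ∑ i ∈ reps N, a (m (rep i)) = ∑ i ∈ reps N, a (rep i) := by
  have h : ∀ i ∈ reps N, ∃ g : G, ∃ j ∈ reps N, m (rep i) = mat g * rep j :=
    fun i hi => hnf hN (hm _ (rep_del hi))
  choose! g s hs hgs using h
  have hi : Set.InjOn s (reps N) := by
    intro i hi j hj hij
    have : m (rep i) = mat (g i * (g j)⁻¹) * m (rep j) := by
      rw [hgs i hi, hgs j hj, hij, ← mul_assoc, ← mat_mul, inv_mul_cancel_right]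
    obtain ⟨g', hg'⟩ := hinj _ _ (rep_del hi) (rep_del hj) _ this
    exact (hnf_uniq hN hi hj hg').2
  refine Finset.sum_nbij s hs hi ?_ ?_
  · exact Finset.surjOn_of_injOn_of_card_le s hs hi le_rfl
  · intro i hi
    rw [hgs i hi, ha _ (rep_del (hs i hi))]

lemma sum_right {N : ℕ} (hN : Odd N) (g : G) (a : Mat → ℂ)
    (ha : ∀ d, Del N d → ∀ g : G, a (mat g * d) = a d) :
    ∑ i ∈ reps N, a (rep i * mat g) = ∑ i ∈ reps N, a (rep i) := by
  refine sum_reindex hN (fun d => d * mat g) (fun d hd => hd.mul_right g) ?_ a ha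
  intro d e _ _ g' h
  refine ⟨g', ?_⟩
  have := congrArg (fun x => x * mat g⁻¹) h
  simpa only [mul_assoc, ← mat_mul, mul_inv_cancel, mat_one, mul_one] using this

end Pool.Agent.P.MP_e7a540_nt.L1.TH
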