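import Pool.Agent.P.MP_e7a540_nt.L1.TH2

/-! Adjointness of sums over the Hermite representatives. -/

namespace Pool.Agent.P.MP_e7a540_nt.L1.TH

open Complex Matrix MeasureTheory
open UpperHalfPlane hiding I
open scoped Real MatrixGroups

instance : Countable SL(2, ℤ) := by
  unfold Matrix.SpecialLinearGroup Matrix
  infer_instance

/-- a weight for the group -/
structure Wt (φ : ℍ → ℝ) : Prop where
  int : Integrable φ
  nonneg : ∀ z, 0 ≤ φ z
  sum : ∀ᵐ z, HasSum (fun g : G => φ (g.1 • z)) 1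

lemma unfold_one {φ : ℍ → ℝ} (hφ : Wt φ) {d : Mat} (hd : 0 < d.det) (A : ℍ → ℂ)
    (hA : AEStronglyMeasurable A) {C : ℝ} (hC : ∀ z, ‖A z‖ ≤ C) :
    (Summable fun g : G => ‖∫ z, (φ z : ℂ) * φ (act (mat g * d) z) * A z‖) ∧
    HasSum (fun g : G => ∫ z, (φ z : ℂ) * φ (act (mat g * d) z) * A z) (∫ z, (φ z : ℂ) * A z) := by
  have hae : ∀ᵐ z, HasSum (fun g : G => φ (act (mat g * d) z)) 1 := by
    filter_upwards [(act_measurePreserving d).quasiMeasurePreserving.ae hφ.sum] with z hz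
    simpa only [act_mul (mat_pos _) hd, act_mat] using hz
  have hC0 : 0 ≤ C := (norm_nonneg _).trans (hC UpperHalfPlane.I)
  have hm : ∀ g : G, AEStronglyMeasurable (fun z => φ (act (mat g * d) z)) := fun g =>
    hφ.int.1.comp_quasiMeasurePreserving (act_measurePreserving _).quasiMeasurePreserving
  have hn : ∀ (g : G) z, ‖(φ z : ℂ) * φ (act (mat g * d) z) * A z‖ ≤
      C * φ z * φ (act (mat g * d) z) := by
    intro g z
    rw [norm_mul, norm_mul, Complex.norm_real, Complex.norm_real, Real.norm_of_nonneg (hφ.nonneg _),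
      Real.norm_of_nonneg (hφ.nonneg _)]
    have := mul_le_mul_of_nonneg_left (hC z) (mul_nonneg (hφ.nonneg z) (hφ.nonneg (act (mat g * d) z)))
    linarith
  have hsum : ∀ s : Finset G, ∀ᵐ z, ∑ g ∈ s, ‖(φ z : ℂ) * φ (act (mat g * d) z) * A z‖ ≤ C * φ z := by
    intro s
    filter_upwards [hae] with z hz
    refine (Finset.sum_le_sum fun g _ => hn g z).trans ?_
    rw [← Finset.mul_sum]
    exact mul_le_of_le_one_right (mul_nonneg hC0 (hφ.nonneg z))
      (sum_le_hasSum s (fun g _ => hφ.nonneg _) hz)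
  have hint : ∀ g : G, Integrable fun z => (φ z : ℂ) * φ (act (mat g * d) z) * A z := by
    intro g
    refine (hφ.int.const_mul C).mono' ?_ ?_
    · exact ((Complex.continuous_ofReal.comp_aestronglyMeasurable hφ.int.1).mul
        (Complex.continuous_ofReal.comp_aestronglyMeasurable (hm g))).mul hA
    · simpa using hsum {g}
  have hs : Summable fun g : G => ∫ z, ‖(φ z : ℂ) * φ (act (mat g * d) z) * A z‖ := by
    refine summable_of_sum_le (c := ∫ z, C * φ z)
      (fun g => integral_nonneg fun z => norm_nonneg _) fun s => ?_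
    rw [← integral_finsetSum _ fun g _ => (hint g).norm]
    exact integral_mono_ae (integrable_finsetSum _ fun g _ => (hint g).norm)
      (hφ.int.const_mul C) (hsum s)
  refine ⟨hs.of_nonneg_of_le (fun _ => norm_nonneg _) fun g => norm_integral_le_integral_norm _, ?_⟩
  have h := hasSum_integral_of_summable_integral_norm hint hs
  rw [show (∫ z, (φ z : ℂ) * A z) = ∫ z, ∑' g : G, (φ z : ℂ) * φ (act (mat g * d) z) * A z from ?_]
  · exact h
  refine integral_congr_ae ?_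
  filter_upwards [hae] with z hz
  have h1 : HasSum (fun g : G => ((φ (act (mat g * d) z) : ℝ) : ℂ)) 1 := by
    simpa using Complex.ofRealCLM.hasSum hz
  have h2 := ((h1.mul_left (φ z : ℂ)).mul_right (A z)).tsum_eq
  rw [h2, mul_one]

/-- group times representatives is the whole piece -/
noncomputable def repEquiv {N : ℕ} (hN : Odd N) : (reps N) × G ≃ {d : Mat // Del N d} :=
  Equiv.ofBijective (fun p => ⟨mat p.2 * rep p.1, (rep_del p.1.2).mul_left p.2⟩) <| by
    constructor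
    · rintro ⟨i, g⟩ ⟨j, g'⟩ h
      obtain ⟨h1, h2⟩ := hnf_uniq' hN i.2 j.2 (congrArg Subtype.val h)
      exact Prod.ext (Subtype.ext h2) h1
    · rintro ⟨d, hd⟩
      obtain ⟨g, i, hi, h⟩ := hnf hN hd
      exact ⟨⟨⟨i, hi⟩, g⟩, Subtype.ext h.symm⟩

lemma unfold_all {φ : ℍ → ℝ} (hφ : Wt φ) {N : ℕ} (hN : Odd N) (a : Mat → ℍ → ℂ)
    (hm : ∀ d, Del N d → AEStronglyMeasurable (a d))
    (hC : ∀ d, Del N d → ∃ C, ∀ z, ‖a d z‖ ≤ C)
    (ha : ∀ d, Del N d → ∀ g : G, a (mat g * d) = a d) :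
    ∑' d : {d : Mat // Del N d}, ∫ z, (φ z : ℂ) * φ (act d.1 z) * a d.1 z =
      ∫ z, (φ z : ℂ) * ∑ i ∈ reps N, a (rep i) z := by
  have h : ∀ i : reps N, _ := fun i => by
    have hd := rep_del i.2
    exact unfold_one hφ (hd.pos hN) (a (rep i)) (hm _ hd) (hC _ hd).choose_spec
  rw [← (repEquiv hN).tsum_eq]
  have he : ∀ p : reps N × G, (∫ z, (φ z : ℂ) * φ (act (repEquiv hN p).1 z) * a (repEquiv hN p).1 z)
      = ∫ z, (φ z : ℂ) * φ (act (mat p.2 * rep p.1) z) * a (rep p.1) z := by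
    intro p
    rw [← ha _ (rep_del p.1.2) p.2]
    rfl
  simp only [he]
  have hs : Summable fun p : reps N × G =>
      ∫ z, (φ z : ℂ) * φ (act (mat p.2 * rep p.1) z) * a (rep p.1) z := by
    refine Summable.of_norm ?_
    rw [summable_prod_of_nonneg fun _ => norm_nonneg _]
    exact ⟨fun i => (h i).1, Summable.of_finite⟩
  rw [hs.tsum_prod, tsum_fintype]
  simp only [fun i => (h i).2.tsum_eq]
  rw [Finset.sum_coe_sort (reps N) fun i => ∫ z, (φ z : ℂ) * a (rep i) z, ← integral_finsetSum]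
  · simp only [Finset.mul_sum]
  · intro i hi
    obtain ⟨C, hC⟩ := hC _ (rep_del hi)
    exact (hφ.int.ofReal (𝕜 := ℂ)).mul_bdd (hm _ (rep_del hi)) (ae_of_all _ hC)

/-- the adjugate involution -/
def adjEquiv (N : ℕ) : {d : Mat // Del N d} ≃ {d : Mat // Del N d} where
  toFun d := ⟨d.1.adjugate, d.2.adj⟩
  invFun d := ⟨d.1.adjugate, d.2.adj⟩
  left_inv d := Subtype.ext (adj_adj d.1)
  right_inv d := Subtype.ext (adj_adj d.1)

theorem adj_sum {φ : ℍ → ℝ} (hφ : Wt φ) {N : ℕ} (hN : Odd N) (a b : Mat → ℍ → ℂ)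
    (hma : ∀ d, Del N d → AEStronglyMeasurable (a d))
    (hCa : ∀ d, Del N d → ∃ C, ∀ z, ‖a d z‖ ≤ C)
    (ha : ∀ d, Del N d → ∀ g : G, a (mat g * d) = a d)
    (hmb : ∀ d, Del N d → AEStronglyMeasurable (b d))
    (hCb : ∀ d, Del N d → ∃ C, ∀ z, ‖b d z‖ ≤ C)
    (hb : ∀ d, Del N d → ∀ g : G, b (mat g * d) = b d)
    (hab : ∀ d, Del N d → ∀ z, a d.adjugate (act d z) = b d z) :
    ∫ z, (φ z : ℂ) * ∑ i ∈ reps N, a (rep i) z = ∫ z, (φ z : ℂ) * ∑ i ∈ reps N, b (rep i) z := by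
  rw [← unfold_all hφ hN a hma hCa ha, ← unfold_all hφ hN b hmb hCb hb, ← (adjEquiv N).tsum_eq]
  refine tsum_congr fun d => ?_
  rw [← (act_measurePreserving d.1).integral_comp (act_embedding d.1)]
  refine integral_congr_ae (ae_of_all _ fun z => ?_)
  have h1 : act d.1.adjugate (act d.1 z) = z := by
    have := act_adj (d := d.1.adjugate) (d.2.adj.pos hN) z
    rwa [adj_adj] at this
  change (φ (act d.1 z) : ℂ) * φ (act d.1.adjugate (act d.1 z)) * a d.1.adjugate (act d.1 z) = _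
  rw [h1, hab _ d.2]
  ring

end Pool.Agent.P.MP_e7a540_nt.L1.TH
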