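import Pool.Agent.P.MP_e7a540_nt.L1.TH2

/-! The theta factor attached to a matrix of determinant `l ^ 2`. -/

namespace Pool.Agent.P.MP_e7a540_nt.L1.TH

open Complex Matrix
open UpperHalfPlane hiding I
open scoped Real MatrixGroups

variable {l : ℕ} [NeZero l]

noncomputable def Ph (l : ℕ) (p q : ZMod (l ^ 2)) (t : ℂ) : ℂ :=
  PP (2 * (p.val : ℂ) / l) (2 * (q.val : ℂ) / l) t

lemma val_eq (p : ℤ) : ∃ k : ℤ, (((p : ZMod (l ^ 2)).val : ℕ) : ℂ) = p + l ^ 2 * k := by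
  refine ⟨-(p / ((l ^ 2 : ℕ) : ℤ)), ?_⟩
  have h := ZMod.val_intCast (n := l ^ 2) p
  have h2 := Int.emod_add_mul_ediv p ((l ^ 2 : ℕ) : ℤ)
  have h3 : (((p : ZMod (l ^ 2)).val : ℕ) : ℤ) = p + l ^ 2 * -(p / ((l ^ 2 : ℕ) : ℤ)) := by
    rw [h]; push_cast at h2 ⊢; linarith
  exact_mod_cast h3

lemma Ph_cast (p q : ℤ) (t : ℂ) : Ph l p q t = PP (2 * (p : ℂ) / l) (2 * (q : ℂ) / l) t := by
  obtain ⟨k, hk⟩ := val_eq (l := l) p
  obtain ⟨m, hm⟩ := val_eq (l := l) q
  have hl : (l : ℂ) ≠ 0 := by exact_mod_cast NeZero.ne l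
  rw [Ph, hk, hm,
    show 2 * ((p : ℂ) + l ^ 2 * k) / l = 2 * p / l + ((2 * l * k : ℤ) : ℂ) by push_cast; field_simp,
    show 2 * ((q : ℂ) + l ^ 2 * m) / l = 2 * q / l + ((2 * l * m : ℤ) : ℂ) by push_cast; field_simp,
    PP_shift,
    show π * I * (((2 * l * m : ℤ) : ℂ) + 2 * p / l * ((2 * l * m : ℤ) : ℂ) -
      ((2 * l * k : ℤ) : ℂ) * (2 * q / l) - ((2 * l * k : ℤ) : ℂ) * ((2 * l * m : ℤ) : ℂ)) =
      ((l * m + 2 * p * m - 2 * k * q - 2 * l ^ 2 * k * m : ℤ) : ℂ) * (2 * π * I) by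
        push_cast; field_simp,
    exp_int_mul_two_pi_mul_I, one_mul]

lemma Ph_trans (g : G) (t : ℍ) : ∃ J : ℂ, PP 0 0 (g.1 • t : ℍ) = J * PP 0 0 t ∧
    ∀ p q : ZMod (l ^ 2), Ph l p q (g.1 • t : ℍ) =
      J * Ph l (p * mat g 0 0 + q * mat g 1 0) (p * mat g 0 1 + q * mat g 1 1) t := by
  obtain ⟨J, -, hJ⟩ := PP_trans g.1 (mat_even g) t
  refine ⟨J, by simpa using hJ 0 0, fun p q => ?_⟩
  obtain ⟨p, rfl⟩ := ZMod.intCast_surjective p
  obtain ⟨q, rfl⟩ := ZMod.intCast_surjective q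
  rw [Ph_cast, hJ]
  have h := Ph_cast (l := l) (p * mat g 0 0 + q * mat g 1 0) (p * mat g 0 1 + q * mat g 1 1) t
  push_cast at h
  rw [h]
  congr 2 <;> simp only [mat] <;> ring

noncomputable def RR (l : ℕ) [NeZero l] (d : Mat) (t : ℂ) : ℂ :=
  ∑ x : ZMod (l ^ 2) × ZMod (l ^ 2),
    Ph l (x.1 * d 0 0 + x.2 * d 1 0) (x.1 * d 0 1 + x.2 * d 1 1) t

lemma RR_left (g : G) (d : Mat) (t : ℂ) : RR l (mat g * d) t = RR l d t := by
  have hdet : (mat g 0 0 : ZMod (l ^ 2)) * mat g 1 1 - mat g 0 1 * mat g 1 0 = 1 := by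
    have := mat_det g
    rw [Matrix.det_fin_two] at this
    exact_mod_cast congrArg (Int.cast : ℤ → ZMod (l ^ 2)) this
  let e : ZMod (l ^ 2) × ZMod (l ^ 2) ≃ ZMod (l ^ 2) × ZMod (l ^ 2) :=
    { toFun := fun x => (x.1 * mat g 0 0 + x.2 * mat g 1 0, x.1 * mat g 0 1 + x.2 * mat g 1 1)
      invFun := fun x => (x.1 * mat g 1 1 - x.2 * mat g 1 0, -x.1 * mat g 0 1 + x.2 * mat g 0 0)
      left_inv := fun x => Prod.ext (by linear_combination x.1 * hdet)
        (by linear_combination x.2 * hdet)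
      right_inv := fun x => Prod.ext (by linear_combination x.1 * hdet)
        (by linear_combination x.2 * hdet) }
  unfold RR
  refine Fintype.sum_equiv e _ _ fun x => ?_
  simp only [mmul, e, Equiv.coe_fn_mk]
  push_cast
  congr 1 <;> ring

lemma RR_right (g : G) (d : Mat) (t : ℍ) :
    RR l d (g.1 • t : ℍ) * PP 0 0 t = PP 0 0 (g.1 • t : ℍ) * RR l (d * mat g) t := by
  obtain ⟨J, h0, hJ⟩ := Ph_trans (l := l) g t
  have : RR l d (g.1 • t : ℍ) = J * RR l (d * mat g) t := by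
    unfold RR
    rw [Finset.mul_sum]
    refine Finset.sum_congr rfl fun x _ => ?_
    rw [hJ]
    simp only [mmul]
    push_cast
    congr 2 <;> ring
  rw [this, h0]
  ring

lemma sum_range_per (H : ZMod l → ℂ) (k : ℕ) :
    ∑ x ∈ Finset.range (k * l), H x = k * ∑ y, H y := by
  have h1 : ∑ x ∈ Finset.range l, H x = ∑ y, H y := by
    refine Finset.sum_nbij (fun x => (x : ZMod l)) (by simp) ?_ ?_ (by simp)
    · intro x hx y hy h
      have := (ZMod.natCast_eq_natCast_iff' x y l).1 h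
      rwa [Nat.mod_eq_of_lt (by simpa using hx), Nat.mod_eq_of_lt (by simpa using hy)] at this
    · intro y _
      exact ⟨y.val, by simpa using ZMod.val_lt y, by simp⟩
  induction k with
  | zero => simp
  | succ k ih =>
    rw [add_mul, one_mul, Finset.sum_range_add, ih]
    simp only [Nat.cast_add, Nat.cast_mul, ZMod.natCast_self, mul_zero, zero_add, h1]
    push_cast
    ring

lemma sum_zmod_val {N : ℕ} [NeZero N] (h : ℕ → ℂ) :
    ∑ x : ZMod N, h x.val = ∑ x ∈ Finset.range N, h x := by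
  refine Finset.sum_nbij (fun x => x.val) (fun x _ => by simpa using ZMod.val_lt x)
    (ZMod.val_injective N).injOn ?_ (by simp)
  intro y hy
  exact ⟨y, by simp, ZMod.val_cast_of_lt (by simpa using hy)⟩

lemma sum_sq_per (H : ZMod l → ℂ) : ∑ x : ZMod (l ^ 2), H (x.val : ℕ) = l * ∑ y, H y := by
  rw [sum_zmod_val fun x => H x, sq, sum_range_per]

/-- the standard additive character -/
noncomputable def ee (l : ℕ) [NeZero l] (y : ZMod l) : ℂ := ZMod.stdAddChar y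

lemma ee_cast (j : ℤ) : ee l j = cexp (2 * π * I * j / l) := ZMod.stdAddChar_coe j

lemma ee_add (x y : ZMod l) : ee l (x + y) = ee l x * ee l y := AddChar.map_add_eq_mul _ _ _

lemma ee_sum (a : ZMod l) : ∑ y, ee l (y * a) = if a = 0 then (l : ℂ) else 0 := by
  have := AddChar.sum_mulShift a (ZMod.isPrimitive_stdAddChar l)
  simpa [ee, ZMod.card] using this

lemma P00_hasSum {t : ℂ} (ht : 0 < t.im) :
    HasSum (fun n : ℤ => cexp (π * I * (2 * n + 1) ^ 2 * t / 4)) (PP 0 0 t) := by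
  refine hasSum_congr_aux (PP_hasSum 0 0 ht) fun n => ?_
  congr 1
  ring

lemma P0_hasSum (y : ℤ) {t : ℂ} (ht : 0 < t.im) :
    HasSum (fun n : ℤ => cexp (π * I * (2 * n + 1) ^ 2 * t / 4) * ee l ((2 * n + 1) * y : ℤ))
      (PP 0 (2 * (y : ℂ) / l) t) := by
  refine hasSum_congr_aux (PP_hasSum 0 _ ht) fun n => ?_
  rw [ee_cast, ← Complex.exp_add]
  congr 1
  push_cast
  ring

lemma lin_inj (k : ℤ) : Function.Injective fun m : ℤ => (l : ℤ) * m + k := by
  intro a b h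
  have hl : (l : ℤ) ≠ 0 := by exact_mod_cast NeZero.ne l
  exact mul_left_cancel₀ hl (add_right_cancel h)

lemma RR_top (hl : Odd l) {t : ℂ} (ht : 0 < t.im) :
    RR l (rep ⟨(l ^ 2, 1), 0⟩) t = l ^ 3 * l * PP 0 0 (l ^ 2 * t) := by
  obtain ⟨k, hk⟩ := hl
  have hl0 : (0 : ℝ) < l := by exact_mod_cast Nat.pos_of_ne_zero (NeZero.ne l)
  have ht2 : 0 < ((l : ℂ) ^ 2 * t).im := by
    rw [show (l : ℂ) ^ 2 = ((l ^ 2 : ℝ) : ℂ) by push_cast; rfl, im_ofReal_mul]
    positivity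
  have h1 : ∀ x : ZMod (l ^ 2), HasSum (fun n : ℤ => cexp (π * I * (2 * n + 1) ^ 2 * t / 4) *
      ee l (((x.val : ℕ) : ZMod l) * (2 * n + 1))) (Ph l 0 x t) := by
    intro x
    have := P0_hasSum (l := l) x.val ht
    simp only [Ph, ZMod.val_zero, Nat.cast_zero, mul_zero, zero_div]
    rw [Int.cast_natCast] at this
    refine hasSum_congr_aux this fun n => ?_
    push_cast
    rw [mul_comm ((x.val : ℕ) : ZMod l)]
  have h2 := hasSum_sum fun x (_ : x ∈ Finset.univ) => h1 x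
  have h2' : ∀ a : ZMod l, ∑ x : ZMod (l ^ 2), ee l (((x.val : ℕ) : ZMod l) * a) =
      l * if a = 0 then (l : ℂ) else 0 := fun a => by
    rw [sum_sq_per fun y => ee l (y * a), ee_sum]
  simp only [← Finset.mul_sum, h2'] at h2
  have h3 : HasSum (fun n : ℤ => cexp (π * I * (2 * n + 1) ^ 2 * t / 4) *
      ((l : ℂ) * if (2 * (n : ZMod l) + 1) = 0 then (l : ℂ) else 0))
      (l * l * PP 0 0 (l ^ 2 * t)) := by
    rw [← (lin_inj (l := l) k).hasSum_iff]
    · refine hasSum_congr_aux ((P00_hasSum ht2).mul_left ((l : ℂ) * l)) fun m => ?_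
      have hz : (2 * ((l * m + k : ℤ) : ZMod l) + 1) = 0 := by
        have : ((2 * k + 1 : ℕ) : ZMod l) = 0 := by rw [← hk]; simp
        push_cast at this ⊢
        simp [this]
      have hk' : (l : ℂ) = 2 * k + 1 := by exact_mod_cast hk
      simp only [Function.comp, if_pos hz]
      rw [show π * I * (2 * ((l * m + k : ℤ) : ℂ) + 1) ^ 2 * t / 4 =
        π * I * (2 * m + 1) ^ 2 * (l ^ 2 * t) / 4 by push_cast; rw [hk']; ring]
      ring
    · intro n hn
      rw [if_neg, mul_zero, mul_zero]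
      intro h
      have : (l : ℤ) ∣ 2 * n + 1 := by
        rw [← ZMod.intCast_zmod_eq_zero_iff_dvd]; push_cast; exact h
      obtain ⟨s, hs⟩ := this
      have hk' : (l : ℤ) = 2 * k + 1 := by exact_mod_cast hk
      rcases Int.even_or_odd' s with ⟨m, hm | hm⟩
      · rw [hm] at hs
        have : (2 : ℤ) ∣ 1 := ⟨l * m - n, by linear_combination hs⟩
        norm_num at this
      · exact hn ⟨m, by simp only; rw [hm] at hs; nlinarith⟩
  have h4 := h2.unique h3
  unfold RR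
  rw [Fintype.sum_prod_type]
  have h5 : ((l : ZMod (l ^ 2))) ^ 2 = 0 := by exact_mod_cast ZMod.natCast_self (l ^ 2)
  simp [rep, h5, h4, ZMod.card]
  ring

/-- the quadratic sums -/
noncomputable def GG (l : ℕ) [NeZero l] (j : ZMod l) : ℂ := ∑ s : ZMod l, ee l (-j * s ^ 2)

lemma four_unit (hl : Odd l) : IsUnit (4 : ZMod l) := by
  have : IsUnit ((2 : ℕ) : ZMod l) := (ZMod.isUnit_iff_coprime 2 l).2 (Nat.coprime_two_left.2 hl)
  have h := this.mul this
  norm_num at h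
  exact h

lemma RR_mid (hl : Odd l) (j : ℤ) {t : ℂ} (ht : 0 < t.im) :
    RR l !![(l : ℤ), 8 * j; 0, (l : ℤ)] t = l ^ 3 * GG l j * PP 0 0 (t + 8 * j / l) := by
  have hl0 : (l : ℂ) ≠ 0 := by exact_mod_cast NeZero.ne l
  have ht2 : 0 < (t + 8 * j / l).im := by
    rw [show (8 : ℂ) * j / l = ((8 * j / l : ℝ) : ℂ) by push_cast; rfl, add_im, ofReal_im, add_zero]
    exact ht
  have h1 : ∀ x y : ZMod (l ^ 2), HasSum (fun n : ℤ => cexp (π * I * (2 * n + 1) ^ 2 * t / 4) *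
      ee l ((2 * n + 1) * (8 * j * ((x.val : ℕ) : ZMod l)) - 16 * j * ((x.val : ℕ) : ZMod l) ^ 2))
      (Ph l (x * (l : ZMod (l ^ 2))) (x * (8 * (j : ZMod (l ^ 2))) + y * (l : ZMod (l ^ 2))) t) := by
    intro x y
    have h := Ph_cast (l := l) (x.val * l) (x.val * (8 * j) + y.val * l) t
    push_cast at h
    simp only [ZMod.natCast_val, ZMod.cast_id', id_eq] at h
    rw [h]
    simp only [← ZMod.natCast_val]
    generalize x.val = X
    generalize y.val = Y
    rw [show 2 * ((X : ℂ) * l) / l = 0 + ((2 * X : ℤ) : ℂ) by push_cast; field_simp; ring,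
      show 2 * ((X : ℂ) * (8 * j) + Y * l) / l = 2 * ((8 * j * X : ℤ) : ℂ) / l + ((2 * Y : ℤ) : ℂ) by
        push_cast; field_simp, PP_shift,
      show π * I * (((2 * Y : ℤ) : ℂ) + 0 * ((2 * Y : ℤ) : ℂ) -
        ((2 * X : ℤ) : ℂ) * (2 * ((8 * j * X : ℤ) : ℂ) / l) - ((2 * X : ℤ) : ℂ) * ((2 * Y : ℤ) : ℂ)) =
        2 * π * I * ((-(16 * j * X ^ 2) : ℤ) : ℂ) / l + ((Y - 2 * X * Y : ℤ) : ℂ) * (2 * π * I) by
          push_cast; field_simp; ring,
      Complex.exp_add, exp_int_mul_two_pi_mul_I, mul_one, ← ee_cast]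
    refine hasSum_congr_aux ((P0_hasSum (l := l) (8 * j * X) ht).mul_left _) fun n => ?_
    rw [sub_eq_neg_add, ee_add]
    push_cast
    ring
  have h2 : ∀ n : ℤ, ∑ x : ZMod l, ee l ((2 * n + 1) * (8 * j * x) - 16 * j * x ^ 2) =
      GG l j * ee l (j * (2 * n + 1) ^ 2 : ℤ) := by
    intro n
    rw [GG, Finset.sum_mul]
    refine Fintype.sum_equiv (((four_unit hl).unit.mulLeft).trans
      (Equiv.subRight (2 * (n : ZMod l) + 1))) _ _ fun x => ?_
    rw [← ee_add]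
    congr 1
    simp only [Equiv.trans_apply, Units.mulLeft_apply, IsUnit.unit_spec, Equiv.subRight_apply]
    push_cast
    ring
  have h3 := hasSum_sum fun (x : ZMod (l ^ 2) × ZMod (l ^ 2)) (_ : x ∈ Finset.univ) => h1 x.1 x.2
  have h4 : HasSum (fun n : ℤ => (l : ℂ) ^ 3 * GG l j *
      cexp (π * I * (2 * n + 1) ^ 2 * (t + 8 * j / l) / 4)) (RR l !![(l : ℤ), 8 * j; 0, (l : ℤ)] t) := by
    unfold RR
    simp only [Matrix.of_apply, Matrix.cons_val', Matrix.cons_val_zero, Matrix.cons_val_one,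
      Matrix.cons_val_fin_one]
    push_cast
    simp only [mul_zero, add_zero]
    refine hasSum_congr_aux h3 fun n => ?_
    rw [Fintype.sum_prod_type]
    simp only [Finset.sum_const, Finset.card_univ, ZMod.card, nsmul_eq_mul, ← Finset.mul_sum]
    rw [sum_sq_per fun x : ZMod l =>
        ee l ((2 * (n : ZMod l) + 1) * (8 * (j : ZMod l) * x) - 16 * (j : ZMod l) * x ^ 2), h2, ee_cast,
      show π * I * (2 * n + 1) ^ 2 * (t + 8 * j / l) / 4 = π * I * (2 * n + 1) ^ 2 * t / 4 +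
        2 * π * I * ((j * (2 * n + 1) ^ 2 : ℤ) : ℂ) / l by push_cast; ring, Complex.exp_add]
    push_cast
    ring
  exact h4.unique ((P00_hasSum ht2).mul_left _)

lemma RR_low (hl : Odd l) (b : ℤ) {t : ℂ} (ht : 0 < t.im) :
    RR l !![1, 8 * b; 0, (l : ℤ) ^ 2] t = l ^ 3 * PP 0 0 ((t + 8 * b) / l ^ 2) := by
  have hodd := hl
  obtain ⟨k, hk⟩ := hl
  have hl0 : (l : ℂ) ≠ 0 := by exact_mod_cast NeZero.ne l
  have hl1 : (0 : ℝ) < l := by exact_mod_cast Nat.pos_of_ne_zero (NeZero.ne l)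
  have hk' : (l : ℂ) = 2 * k + 1 := by exact_mod_cast hk
  have ht2 : 0 < ((t + 8 * b) / l ^ 2).im := by
    rw [show (l : ℂ) ^ 2 = ((l ^ 2 : ℝ) : ℂ) by push_cast; rfl, div_ofReal_im,
      show (8 : ℂ) * b = ((8 * b : ℝ) : ℂ) by push_cast; rfl, add_im, ofReal_im, add_zero]
    positivity
  have h1 : ∀ x : ZMod (l ^ 2), HasSum (fun m : ℤ =>
      cexp (π * I * (2 * m + 1) ^ 2 * ((t + 8 * b) / l ^ 2) / 4) *
        if (m : ZMod l) = k + 2 * ((x.val : ℕ) : ZMod l) then 1 else 0) (Ph l x (x * (8 * (b : ZMod (l ^ 2)))) t) := by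
    intro x
    have h := Ph_cast (l := l) x.val (x.val * (8 * b)) t
    push_cast at h
    simp only [ZMod.natCast_val, ZMod.cast_id', id_eq] at h
    rw [h]
    simp only [← ZMod.natCast_val]
    generalize x.val = X
    rw [← (lin_inj (l := l) (k + 2 * X)).hasSum_iff]
    · refine hasSum_congr_aux (PP_hasSum _ _ ht) fun n => ?_
      simp only [Function.comp]
      rw [if_pos (by push_cast; simp), mul_one,
        show π * I * (2 * ((l * n + (k + 2 * X) : ℤ) : ℂ) + 1) ^ 2 * ((t + 8 * b) / l ^ 2) / 4 =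
          (π * I * (n + 1 / 2 + 2 * X / l) ^ 2 * t +
            2 * π * I * (n + 1 / 2 + 2 * X / l / 2) * (2 * (X * (8 * b)) / l)) +
            ((b * (2 * n + 1) ^ 2 : ℤ) : ℂ) * (2 * π * I) by
          have : (k : ℂ) = (l - 1) / 2 := by rw [hk']; ring
          push_cast; rw [this]; field_simp; ring,
        Complex.exp_add, exp_int_mul_two_pi_mul_I, mul_one]
    · intro m hm
      rw [if_neg, mul_zero]
      intro h
      have : (l : ℤ) ∣ m - (k + 2 * X) := by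
        rw [← ZMod.intCast_zmod_eq_zero_iff_dvd]; push_cast; rw [h]; ring
      obtain ⟨s, hs⟩ := this
      exact hm ⟨s, by simp only; linarith⟩
  have h2 : ∀ m : ZMod l, ∑ x : ZMod l, (if m = k + 2 * x then (1 : ℂ) else 0) = 1 := by
    intro m
    have hu : IsUnit ((2 : ℕ) : ZMod l) :=
      (ZMod.isUnit_iff_coprime 2 l).2 (Nat.coprime_two_left.2 hodd)
    rw [Fintype.sum_equiv ((hu.unit.mulLeft).trans (Equiv.addLeft (k : ZMod l))) _
      (fun y => if m = y then (1 : ℂ) else 0) fun x => by simp]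
    simp
  have h3 := hasSum_sum fun x (_ : x ∈ Finset.univ) => h1 x
  have h2' : ∀ m : ZMod l, ∑ x : ZMod (l ^ 2),
      (if m = k + 2 * ((x.val : ℕ) : ZMod l) then (1 : ℂ) else 0) = l * 1 := fun m => by
    rw [sum_sq_per fun x => if m = (k : ZMod l) + 2 * x then (1 : ℂ) else 0, h2]
  simp only [← Finset.mul_sum, h2'] at h3
  have h4 := h3.unique ((P00_hasSum ht2).mul_right ((l : ℂ) * 1))
  unfold RR
  rw [Fintype.sum_prod_type]
  have h5 : ((l : ZMod (l ^ 2))) ^ 2 = 0 := by exact_mod_cast ZMod.natCast_self (l ^ 2)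
  simp only [Matrix.of_apply, Matrix.cons_val', Matrix.cons_val_zero, Matrix.cons_val_one,
    Matrix.cons_val_fin_one]
  push_cast
  simp only [h5, mul_zero, add_zero, mul_one, Finset.sum_const, Finset.card_univ, ZMod.card,
    nsmul_eq_mul, ← Finset.mul_sum, h4]
  push_cast
  ring

end Pool.Agent.P.MP_e7a540_nt.L1.TH
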