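import Pool.Agent.P.MP_e7a540_nt.L1.TH4

/-! The function `ps`: expansion, transformation, behaviour at the cusps, no zero. -/

namespace Pool.Agent.P.MP_e7a540_nt.L1.TH

open Complex Matrix Filter Topology ModularForm
open UpperHalfPlane hiding I
open scoped Real MatrixGroups Manifold

/-- half of theta two -/
noncomputable def ps (t : ℍ) : ℂ := PP 0 0 t / 2

lemma ps_hasSum' (t : ℍ) :
    HasSum (fun m : ℕ => cexp (2 * π * I * ((2 * m + 1) ^ 2 : ℕ) * t / 8)) (ps t) := by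
  have h := (P00_hasSum t.im_pos).nat_add_neg_add_one.div_const 2
  refine hasSum_congr_aux h fun m => ?_
  push_cast
  rw [show π * I * (2 * -((m : ℂ) + 1) + 1) ^ 2 * t / 4 = π * I * (2 * m + 1) ^ 2 * t / 4 by ring,
    show 2 * π * I * (2 * (m : ℂ) + 1) ^ 2 * t / 8 = π * I * (2 * m + 1) ^ 2 * t / 4 by ring]
  ring

lemma ps_hasSum (t : ℍ) : HasSum (fun n : ℕ => (if Odd n ∧ IsSquare n then (1 : ℂ) else 0) *
    cexp (2 * π * I * n * t / 8)) (ps t) := by
  have hi : Function.Injective fun m : ℕ => (2 * m + 1) ^ 2 := by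
    intro a b h
    have := Nat.pow_left_injective (two_ne_zero) h
    omega
  rw [← hi.hasSum_iff]
  · refine hasSum_congr_aux (ps_hasSum' t) fun m => ?_
    simp only [Function.comp]
    rw [if_pos ⟨(odd_two_mul_add_one m).pow, IsSquare.sq _⟩, one_mul]
  · intro n hn
    rw [if_neg, zero_mul]
    rintro ⟨h1, m, rfl⟩
    obtain ⟨k, rfl⟩ := (Nat.odd_mul.1 h1).1
    exact hn ⟨k, by simp only; ring⟩

lemma ps_mdiff : MDiff ps := by
  rw [UpperHalfPlane.mdifferentiable_iff]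
  have h : DifferentiableOn ℂ (fun t : ℂ => PP 0 0 t / 2) {z | 0 < z.im} := by
    intro z hz
    refine DifferentiableAt.differentiableWithinAt (DifferentiableAt.div_const ?_ _)
    unfold PP
    refine DifferentiableAt.mul (by fun_prop) ?_
    exact (hasFDerivAt_jacobiTheta₂ ((0 + 1 / 2) * z + 0) hz).differentiableAt.comp z
      (f := fun t : ℂ => ((0 + 1 / 2) * t + 0, t)) (by fun_prop)
  refine h.congr fun z hz => ?_
  simp only [Function.comp, ps]
  rw [ofComplex_apply_of_im_pos hz]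

lemma ps_cont : Continuous ps := ps_mdiff.continuous

lemma ps_pow8 (g : G) (t : ℍ) : ps (g.1 • t) ^ 8 = den (mat g) t ^ 4 * ps t ^ 8 := by
  obtain ⟨J, hJ, h⟩ := PP_trans g.1 (mat_even g) t
  have h0 := h 0 0
  simp only [zero_mul, add_zero] at h0
  rw [ps, ps, h0, mul_div_assoc, mul_pow, hJ]
  rfl

lemma ps_norm (g : G) (t : ℍ) : ‖ps (g.1 • t)‖ ^ 2 = ‖den (mat g) t‖ * ‖ps t‖ ^ 2 := by
  have h := congrArg norm (ps_pow8 g t)
  rw [norm_mul, norm_pow, norm_pow, norm_pow] at h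
  refine (pow_left_inj₀ (by positivity) (by positivity) (by norm_num : 4 ≠ 0)).1 ?_
  rw [← pow_mul, h]
  ring

lemma th_tendsto (b : ℝ) : Tendsto (fun t : ℍ => jacobiTheta₂ b t) atImInfty (𝓝 1) := by
  have hs : Summable fun n : ℤ => ‖jacobiTheta₂_term n b I‖ :=
    summable_norm_iff.2 (hasSum_jacobiTheta₂_term b (by simp)).summable
  have h := tendsto_tsum_of_dominated_convergence (𝓕 := atImInfty)
    (f := fun (t : ℍ) (n : ℤ) => jacobiTheta₂_term n b t)
    (g := fun n : ℤ => if n = 0 then (1 : ℂ) else 0) hs ?_ ?_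
  · simpa [jacobiTheta₂] using h
  · intro n
    by_cases hn : n = 0
    · simp [hn, jacobiTheta₂_term]
    · rw [if_neg hn, tendsto_zero_iff_norm_tendsto_zero]
      simp only [norm_jacobiTheta₂_term, ofReal_im, mul_zero, sub_zero]
      refine Real.tendsto_exp_atBot.comp ?_
      have : (0 : ℝ) < π * n ^ 2 := by
        have : (n : ℝ) ≠ 0 := by exact_mod_cast hn
        positivity
      refine Tendsto.const_mul_atTop_of_neg (by linarith) tendsto_comap
  · rw [Filter.Eventually, atImInfty_mem]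
    refine ⟨1, fun t ht n => ?_⟩
    simp only [norm_jacobiTheta₂_term, ofReal_im, mul_zero, sub_zero, Complex.I_im, coe_im]
    refine Real.exp_le_exp.2 ?_
    have : (0 : ℝ) ≤ π * n ^ 2 := by positivity
    nlinarith

lemma ps_cusp (g : SL(2, ℤ)) (hg : ¬ (2 : ℤ) ∣ g 1 0) :
    Tendsto (fun t : ℍ => ps (g • t) ^ 8 / den g.1 t ^ 4) atImInfty (𝓝 (1 / 256)) := by
  obtain ⟨m, hm⟩ : Odd (g 1 0) := by
    rw [← Int.not_even_iff_odd, even_iff_two_dvd]; exact hg
  have hm' : (g 1 0 : ℂ) = 2 * m + 1 := by exact_mod_cast hm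
  have h := ((th_tendsto ((1 - g 1 1) / 2)).pow 8).div_const 256
  rw [one_pow] at h
  refine h.congr fun t => ?_
  obtain ⟨J, hJ, hK⟩ := KK_trans g t
  have hd : den g.1 t ≠ 0 := den_ne g t
  rw [eq_div_iff (pow_ne_zero 4 hd), ps, PP_eq, hK, KK_eq,
    show (0 : ℂ) * g 0 0 + (0 - 1 / 2) * g 1 0 = -1 / 2 + ((-m : ℤ) : ℂ) by rw [hm']; push_cast; ring,
    show (0 : ℂ) * g 0 1 + (0 - 1 / 2) * g 1 1 + 1 / 2 = (1 - g 1 1) / 2 + ((0 : ℤ) : ℂ) by
      push_cast; ring, PP_shift, PP]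
  rw [show (-1 / 2 + 1 / 2) * (t : ℂ) + (1 - g 1 1) / 2 = (((1 - g 1 1) / 2 : ℝ) : ℂ) by
    push_cast; ring]
  generalize jacobiTheta₂ (((1 - g 1 1) / 2 : ℝ) : ℂ) t = X
  have he : ∀ a b c d : ℂ, a + b + c + d = π * I * ((2 * m + 1) * (2 - g 1 1) / 4) →
      (cexp a * (J * (cexp b * (cexp c * (cexp d * X)))) / 2) ^ 8 = X ^ 8 / 256 * den g.1 t ^ 4 := by
    intro a b c d h
    have : (cexp a * cexp b * cexp c * cexp d) ^ 8 = 1 := by
      rw [← Complex.exp_add, ← Complex.exp_add, ← Complex.exp_add, h, ← Complex.exp_nat_mul,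
        show ((8 : ℕ) : ℂ) * (π * I * ((2 * m + 1) * (2 - g 1 1) / 4)) =
          (((2 * m + 1) * (2 - g 1 1) : ℤ) : ℂ) * (2 * π * I) by push_cast; ring,
        exp_int_mul_two_pi_mul_I]
    have hJ' : J ^ 8 = den g.1 t ^ 4 := hJ
    rw [← hJ']
    linear_combination (X ^ 8 / 256 * J ^ 8) * this
  refine (he _ _ _ _ ?_).symm
  push_cast
  ring

/-- the limit of an expansion -/
lemma tendsto_of_hasSum {c : ℕ → ℂ} {f : ℍ → ℂ} {h : ℝ} (hh : 0 < h)
    (hf : ∀ t : ℍ, HasSum (fun n : ℕ => c n * cexp (2 * π * I * n * t / h)) (f t)) :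
    Tendsto f atImInfty (𝓝 (c 0)) := by
  have hn : ∀ (n : ℕ) (t : ℍ), ‖cexp (2 * π * I * n * t / h)‖ = Real.exp (-(2 * π * n / h) * t.im) := by
    intro n t
    rw [Complex.norm_exp, show 2 * π * I * n * t / h = ((2 * π * n / h : ℝ) : ℂ) * (I * t) by
      push_cast; ring, re_ofReal_mul]
    simp
  have hs : Summable fun n : ℕ => ‖c n * cexp (2 * π * I * n * (UpperHalfPlane.I : ℍ) / h)‖ :=
    summable_norm_iff.2 (hf _).summable
  have h1 := tendsto_tsum_of_dominated_convergence (𝓕 := atImInfty)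
    (f := fun (t : ℍ) (n : ℕ) => c n * cexp (2 * π * I * n * t / h))
    (g := fun n : ℕ => if n = 0 then c 0 else 0) hs ?_ ?_
  · simpa [fun t => (hf t).tsum_eq] using h1
  · intro n
    by_cases h0 : n = 0
    · simp [h0]
    · rw [if_neg h0, ← mul_zero (c n)]
      refine Tendsto.const_mul _ ?_
      rw [tendsto_zero_iff_norm_tendsto_zero]
      simp only [hn]
      refine Real.tendsto_exp_atBot.comp ?_
      have : (0 : ℝ) < 2 * π * n / h := by
        have : (0 : ℝ) < n := by exact_mod_cast Nat.pos_of_ne_zero h0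
        positivity
      exact Tendsto.const_mul_atTop_of_neg (by linarith) tendsto_comap
  · rw [Filter.Eventually, atImInfty_mem]
    refine ⟨1, fun t ht n => ?_⟩
    rw [norm_mul, norm_mul, hn, hn]
    refine mul_le_mul_of_nonneg_left (Real.exp_le_exp.2 ?_) (norm_nonneg _)
    have : (0 : ℝ) ≤ 2 * π * n / h := by positivity
    rw [UpperHalfPlane.I_im]
    nlinarith

lemma tendsto_div_of_hasSum {c : ℕ → ℂ} {f : ℍ → ℂ} {h : ℝ} (hh : 0 < h) (h0 : c 0 = 0)
    (hf : ∀ t : ℍ, HasSum (fun n : ℕ => c n * cexp (2 * π * I * n * t / h)) (f t)) :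
    Tendsto (fun t : ℍ => f t / cexp (2 * π * I * t / h)) atImInfty (𝓝 (c 1)) := by
  refine tendsto_of_hasSum (c := fun n => c (n + 1)) hh fun t => ?_
  have h1 := ((hasSum_nat_add_iff' 1).2 (hf t)).div_const (cexp (2 * π * I * t / h))
  simp only [Finset.range_one, Finset.sum_singleton, h0, zero_mul, sub_zero] at h1
  refine hasSum_congr_aux h1 fun n => ?_
  rw [mul_div_assoc (c _), ← Complex.exp_sub]
  push_cast
  congr 2
  ring

lemma ps_tendsto : Tendsto (fun t : ℍ => ps t / cexp (2 * π * I * t / 8)) atImInfty (𝓝 1) := by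
  have := tendsto_div_of_hasSum (h := 8) (f := ps)
    (c := fun n => if Odd n ∧ IsSquare n then (1 : ℂ) else 0) (by norm_num) (by simp) ps_hasSum
  simpa using this

lemma ps_zero : Tendsto ps atImInfty (𝓝 0) := by
  have := tendsto_of_hasSum (h := 8) (f := ps)
    (c := fun n => if Odd n ∧ IsSquare n then (1 : ℂ) else 0) (by norm_num) ps_hasSum
  simpa using this

lemma slash_nat (k : ℕ) (f : ℍ → ℂ) (g : SL(2, ℤ)) (t : ℍ) :
    (f ∣[(k : ℤ)] g) t = f (g • t) / den g.1 t ^ k := by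
  rw [SL_slash_apply, _root_.zpow_neg, _root_.zpow_natCast, div_eq_mul_inv]
  rfl

lemma B_slash (g : SL(2, ℤ)) (hg : (2 : ℤ) ∣ g 1 0) :
    (fun t => ps t ^ 8) ∣[(4 : ℤ)] g = fun t => ps t ^ 8 := by
  funext t
  have := slash_nat 4 (fun t => ps t ^ 8) g t
  rw [show ((4 : ℕ) : ℤ) = 4 by rfl] at this
  have hd : den g.1 t ≠ 0 := den_ne g t
  rw [this, div_eq_iff (pow_ne_zero 4 hd), mul_comm]
  exact ps_pow8 ⟨g, mem_G.2 hg⟩ t

lemma B_cusp (g : SL(2, ℤ)) (hg : ¬ (2 : ℤ) ∣ g 1 0) :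
    Tendsto ((fun t => ps t ^ 8) ∣[(4 : ℤ)] g) atImInfty (𝓝 (1 / 256)) :=
  (ps_cusp g hg).congr fun t => (slash_nat 4 (fun t => ps t ^ 8) g t).symm

theorem ps_ne_zero (t : ℍ) : ps t ≠ 0 := by
  let B : ℍ → ℂ := fun t => ps t ^ 8
  let S := ModularGroup.S
  let T := ModularGroup.T
  let N : ℍ → ℂ := B * B ∣[(4 : ℤ)] S * B ∣[(4 : ℤ)] (S * T)
  have hsl : ∀ g : SL(2, ℤ), N ∣[(12 : ℤ)] g =
      B ∣[(4 : ℤ)] g * B ∣[(4 : ℤ)] (S * g) * B ∣[(4 : ℤ)] (S * T * g) := by
    intro g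
    rw [show (12 : ℤ) = 4 + 4 + 4 by rfl, mul_slash_SL2, mul_slash_SL2, ← SlashAction.slash_mul,
      ← SlashAction.slash_mul]
  have hl : ∀ a b : SL(2, ℤ), (2 : ℤ) ∣ (a * b⁻¹) 1 0 → B ∣[(4 : ℤ)] a = B ∣[(4 : ℤ)] b := by
    intro a b h
    rw [← inv_mul_cancel_right a b, SlashAction.slash_mul, B_slash _ h]
  have hS : N ∣[(12 : ℤ)] S = N := by
    rw [hsl, hl (S * S) 1 (by decide), hl (S * T * S) (S * T) (by decide), SlashAction.slash_one,
      mul_comm (B ∣[(4 : ℤ)] S)]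
  have hT : N ∣[(12 : ℤ)] T = N := by
    rw [hsl, hl T 1 (by decide), hl (S * T * T) S (by decide), SlashAction.slash_one, mul_right_comm]
  have hall := SlashInvariantForm.slash_action_generators_SL2Z hS hT
  have hB : MDiff B := ps_mdiff.pow 8
  have h1 := B_cusp S (by decide)
  have h2 := B_cusp (S * T) (by decide)
  have hz : IsZeroAtImInfty N := by
    have := ((ps_zero.pow 8).mul h1).mul h2
    simpa using! this
  let f : CuspForm 𝒮ℒ 12 :=
    { toFun := N
      slash_action_eq' := by rintro _ ⟨g, rfl⟩; exact hall g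
      holo' := (hB.mul (hB.slash _ _)).mul (hB.slash _ _)
      zero_at_cusps' := fun hc => by
        rw [OnePoint.isZeroAt_iff_forall_SL2Z hc]
        intro g _
        rw [hall g]
        exact hz }
  obtain ⟨c, hc⟩ := CuspForm.exists_smul_discriminant_of_weight_eq_twelve f
  have hN : ∀ z, c * discriminant z = N z := fun z => DFunLike.congr_fun hc z
  obtain ⟨z, ⟨hz0, hz1⟩, hz2⟩ := (((ps_tendsto.eventually_ne one_ne_zero).and
    (h1.eventually_ne (by norm_num : (1 / 256 : ℂ) ≠ 0))).and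
    (h2.eventually_ne (by norm_num : (1 / 256 : ℂ) ≠ 0))).exists
  have hc0 : c ≠ 0 := by
    rintro rfl
    have := hN z
    rw [zero_mul] at this
    exact mul_ne_zero (mul_ne_zero (pow_ne_zero 8 (div_ne_zero_iff.1 hz0).1) hz1) hz2 this.symm
  intro h
  have := hN t
  simp only [N, B, Pi.mul_apply, h] at this
  exact mul_ne_zero hc0 (discriminant_ne_zero t) (by simpa using this)

end Pool.Agent.P.MP_e7a540_nt.L1.TH
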