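import Pool.Agent.P.MP_e7a540_nt.L1.TH3
import Pool.Agent.P.MP_e7a540_nt.L1.TH5

/-! Slash by integer matrices, expansions, and the Hecke operator in integral weight. -/

namespace Pool.Agent.P.MP_e7a540_nt.L1.TH

open Complex Matrix Filter Topology ModularForm MeasureTheory
open UpperHalfPlane hiding I
open scoped Real MatrixGroups Manifold ComplexConjugate

/-- invariance of weight `k` -/
def Inv (k : ℕ) (F : ℍ → ℂ) : Prop := ∀ (g : G) (t : ℍ), F (g.1 • t) = den (mat g) t ^ k * F t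

noncomputable def sl (k : ℕ) (d : Mat) (F : ℍ → ℂ) (t : ℍ) : ℂ := F (act d t) / den d t ^ k

lemma sl_left {k : ℕ} {F : ℍ → ℂ} (hF : Inv k F) (g : G) {d : Mat} (hd : 0 < d.det) :
    sl k (mat g * d) F = sl k d F := by
  funext t
  have h1 := den_ne_zero hd t
  have h2 := den_ne_zero (mat_pos g) (act d t)
  rw [sl, sl, act_mul (mat_pos g) hd, act_mat, hF, den_mul' hd, mul_pow]
  field_simp

lemma sl_mul (k : ℕ) (F : ℍ → ℂ) {d e : Mat} (hd : 0 < d.det) (he : 0 < e.det) (t : ℍ) :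
    sl k d F (act e t) = den e t ^ k * sl k (d * e) F t := by
  have h1 := den_ne_zero he t
  have h2 := den_ne_zero hd (act e t)
  rw [sl, sl, act_mul hd he, den_mul' he, mul_pow]
  field_simp

lemma den_mdiff (d : Mat) : MDiff (den d) := by
  unfold den
  exact (mdifferentiable_const.mul mdifferentiable_coe).add mdifferentiable_const

lemma act_mdiff {d : Mat} (hd : 0 < d.det) : MDiff (act d) :=
  mdifferentiable_smul (by rw [toGL_det hd]; exact_mod_cast hd)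

lemma sl_mdiff (k : ℕ) {F : ℍ → ℂ} (hF : MDiff F) {d : Mat} (hd : 0 < d.det) : MDiff (sl k d F) :=
  (hF.comp (act_mdiff hd)).div ((den_mdiff d).pow k) fun t => pow_ne_zero _ (den_ne_zero hd t)

lemma sl_cont (k : ℕ) {F : ℍ → ℂ} (hF : Continuous F) {d : Mat} (hd : 0 < d.det) :
    Continuous (sl k d F) :=
  (hF.comp (act_continuous d)).div ((den_mdiff d).continuous.pow k)
    fun t => pow_ne_zero _ (den_ne_zero hd t)

lemma sl_norm (k : ℕ) (F : ℍ → ℂ) {d : Mat} (hd : 0 < d.det) (t : ℍ) :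
    t.im ^ k * ‖sl k d F t‖ ^ 2 = (act d t).im ^ k * ‖F (act d t)‖ ^ 2 / (d.det : ℝ) ^ k := by
  have h1 : ‖den d t‖ ≠ 0 := norm_ne_zero_iff.2 (den_ne_zero hd t)
  have h2 : (d.det : ℝ) ≠ 0 := by exact_mod_cast hd.ne'
  rw [sl, im_act hd, norm_div, norm_pow, div_pow, div_pow, mul_pow, ← pow_mul, ← pow_mul, mul_comm k 2]
  field_simp

lemma sl_adj (k : ℕ) (F F' : ℍ → ℂ) {d : Mat} (hd : 0 < d.det) (z : ℍ) :
    ((act d z).im : ℂ) ^ k * sl k d.adjugate F (act d z) * conj (F' (act d z)) =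
      (z.im : ℂ) ^ k * F z * conj (sl k d F' z) := by
  have hd' : 0 < d.adjugate.det := by rwa [det_adj]
  have h1 := act_adj hd' z
  have h2 := den_adj hd' z
  rw [adj_adj] at h1 h2
  rw [det_adj] at h2
  have h3 := den_ne_zero hd z
  have h4 : conj (den d z) ≠ 0 := by simpa using h3
  have h5 : (d.det : ℂ) ≠ 0 := by exact_mod_cast hd.ne'
  have h6 : ((act d z).im : ℂ) = d.det * z.im / (den d z * conj (den d z)) := by
    rw [im_act hd, mul_conj, normSq_eq_norm_sq, ofReal_div, ofReal_mul, ofReal_intCast]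
  rw [sl, sl, h1, h6, eq_div_of_mul_eq h3 h2, map_div₀, map_pow, div_pow, div_pow, mul_pow, mul_pow]
  field_simp

lemma amgm {x y : ℂ} {w A B : ℝ} (hw : 0 ≤ w) (hx : w * ‖x‖ ^ 2 ≤ A) (hy : w * ‖y‖ ^ 2 ≤ B) :
    ‖(w : ℂ) * x * conj y‖ ≤ A + B := by
  rw [norm_mul, norm_mul, Complex.norm_real, Real.norm_of_nonneg hw, Complex.norm_conj]
  nlinarith [mul_nonneg hw (sq_nonneg (‖x‖ - ‖y‖)), mul_nonneg hw (sq_nonneg ‖x‖),
    mul_nonneg hw (sq_nonneg ‖y‖)]

lemma sum_bound {ι : Type*} (s : Finset ι) (w : ℍ → ℝ) (hw : ∀ t, 0 ≤ w t) (f : ι → ℍ → ℂ)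
    (h : ∀ i ∈ s, ∃ C, ∀ t, w t * ‖f i t‖ ^ 2 ≤ C) : ∃ C, ∀ t, w t * ‖∑ i ∈ s, f i t‖ ^ 2 ≤ C := by
  classical
  induction s using Finset.induction_on with
  | empty => exact ⟨0, by simp⟩
  | insert a s ha ih =>
    obtain ⟨C, hC⟩ := ih fun i hi => h i (Finset.mem_insert_of_mem hi)
    obtain ⟨D, hD⟩ := h a (Finset.mem_insert_self a s)
    refine ⟨2 * D + 2 * C, fun t => ?_⟩
    rw [Finset.sum_insert ha]
    have h1 := norm_add_le (f a t) (∑ i ∈ s, f i t)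
    have h2 : ‖f a t + ∑ i ∈ s, f i t‖ ^ 2 ≤ 2 * ‖f a t‖ ^ 2 + 2 * ‖∑ i ∈ s, f i t‖ ^ 2 := by
      nlinarith [norm_nonneg (f a t + ∑ i ∈ s, f i t), sq_nonneg (‖f a t‖ - ‖∑ i ∈ s, f i t‖)]
    nlinarith [mul_le_mul_of_nonneg_left h2 (hw t), hC t, hD t]

lemma coe_act_tri {a D : ℕ} (ha : 0 < a) (hD : 0 < D) (b : ℤ) (t : ℍ) :
    (act !![(a : ℤ), b; 0, (D : ℤ)] t : ℂ) = (a * t + b) / D := by
  rw [coe_act (by rw [Matrix.det_fin_two_of]; simp; positivity)]
  simp [den]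

lemma den_rep (i : Ix) (t : ℍ) : den (rep i) t = i.1.2 := by simp [den, rep]

lemma hasSum_V {c : ℕ → ℂ} {f : ℍ → ℂ} {h : ℂ} {N : ℕ} (hN : 0 < N)
    (hf : ∀ t : ℍ, HasSum (fun n : ℕ => c n * cexp (2 * π * I * n * t / h)) (f t)) (t : ℍ) :
    HasSum (fun n : ℕ => (if N ∣ n then c (n / N) else 0) * cexp (2 * π * I * n * t / h))
      (f (act (rep ⟨(N, 1), 0⟩) t)) := by
  rw [← (mul_right_injective₀ hN.ne').hasSum_iff]
  · refine hasSum_congr_aux (hf _) fun n => ?_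
    simp only [Function.comp]
    rw [if_pos (dvd_mul_right N n), Nat.mul_div_cancel_left n hN, rep, coe_act_tri hN one_pos]
    congr 2
    push_cast
    ring
  · intro n hn
    rw [if_neg, zero_mul]
    rintro ⟨m, rfl⟩
    exact hn ⟨m, rfl⟩

lemma hasSum_U {c : ℕ → ℂ} {f : ℍ → ℂ} {h : ℂ} {N s : ℕ} (hN : 0 < N) (hs : h * s = 8)
    (hco : s.Coprime N)
    (hf : ∀ t : ℍ, HasSum (fun n : ℕ => c n * cexp (2 * π * I * n * t / h)) (f t)) (t : ℍ) :
    HasSum (fun n : ℕ => N * c (N * n) * cexp (2 * π * I * n * t / h))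
      (∑ b ∈ Finset.range N, f (act (rep ⟨(1, N), b⟩) t)) := by
  haveI : NeZero N := ⟨hN.ne'⟩
  have hN0 : (N : ℂ) ≠ 0 := by exact_mod_cast hN.ne'
  have hh : h ≠ 0 := by rintro rfl; norm_num at hs
  have h1 : ∀ b ∈ Finset.range N, HasSum (fun n : ℕ => c n * cexp (2 * π * I * n * t / (h * N)) *
      ee N ((b : ZMod N) * (n * s))) (f (act (rep ⟨(1, N), b⟩) t)) := by
    intro b _
    refine hasSum_congr_aux (hf _) fun n => ?_
    have := ee_cast (l := N) (b * (n * s))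
    push_cast at this
    rw [this, rep, coe_act_tri one_pos hN, mul_assoc, ← Complex.exp_add]
    congr 2
    push_cast
    rw [← hs]
    field_simp
  have h2 := hasSum_sum h1
  have h3 : ∀ a : ZMod N, ∑ b ∈ Finset.range N, ee N ((b : ZMod N) * a) =
      if a = 0 then (N : ℂ) else 0 := fun a => by
    have := sum_range_per (l := N) (fun y => ee N (y * a)) 1
    rw [one_mul, Nat.cast_one, one_mul, ee_sum] at this
    exact this
  simp only [← Finset.mul_sum, h3] at h2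
  rw [← (mul_right_injective₀ hN.ne').hasSum_iff] at h2
  · refine hasSum_congr_aux h2 fun n => ?_
    simp only [Function.comp]
    rw [if_pos (by simp), show 2 * π * I * ((N * n : ℕ) : ℂ) * t / (h * N) = 2 * π * I * n * t / h by
      push_cast; field_simp]
    ring
  · intro n hn
    rw [if_neg, mul_zero]
    intro h0
    have : N ∣ n * s := by
      rw [← ZMod.natCast_eq_zero_iff]; push_cast; exact h0
    obtain ⟨m, rfl⟩ := hco.symm.dvd_of_dvd_mul_right this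
    exact hn ⟨m, rfl⟩

lemma sum_reps (N : ℕ) (f : Ix → ℂ) :
    ∑ i ∈ reps N, f i = ∑ a ∈ N.divisors, ∑ b ∈ Finset.range (N / a), f ⟨(a, N / a), b⟩ := by
  rw [reps, Finset.sum_sigma]
  exact Nat.sum_divisorsAntidiagonal (fun a D => ∑ b ∈ Finset.range D, f ⟨(a, D), b⟩)

lemma sum_reps_prime {l : ℕ} (hl : l.Prime) (f : Ix → ℂ) :
    ∑ i ∈ reps l, f i = ∑ b ∈ Finset.range l, f ⟨(1, l), b⟩ + f ⟨(l, 1), 0⟩ := by
  rw [sum_reps, hl.sum_divisors, Nat.div_self hl.pos, Nat.div_one, add_comm]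
  simp

lemma sum_reps_sq {l : ℕ} (hl : l.Prime) (f : Ix → ℂ) :
    ∑ i ∈ reps (l ^ 2), f i = ∑ b ∈ Finset.range (l ^ 2), f ⟨(1, l ^ 2), b⟩ +
      ∑ b ∈ Finset.range l, f ⟨(l, l), b⟩ + f ⟨(l ^ 2, 1), 0⟩ := by
  rw [sum_reps, Nat.sum_divisors_prime_pow hl, Finset.sum_range_succ, Finset.sum_range_succ,
    Finset.sum_range_one, pow_zero, pow_one, Nat.div_one, Nat.div_self (pow_pos hl.pos 2),
    show l ^ 2 / l = l by rw [sq, Nat.mul_div_cancel _ hl.pos]]
  simp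

/-- the Hecke operator in weight `w` -/
noncomputable def iOp (w l : ℕ) (y : ℍ → ℂ) (t : ℍ) : ℂ :=
  (l : ℂ) ^ (w - 1) * ∑ i ∈ reps l, sl w (rep i) y t

variable {w l : ℕ} {y y' : ℍ → ℂ}

lemma iOp_inv (hl : Odd l) (hy : Inv w y) : Inv w (iOp w l y) := by
  intro g t
  rw [iOp, iOp, ← sum_right hl g (fun d => sl w d y t)
    fun d hd g => by rw [sl_left hy g (hd.pos hl)], mul_left_comm, Finset.mul_sum _ _ (den _ t ^ w)]
  congr 1
  refine Finset.sum_congr rfl fun i hi => ?_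
  rw [← act_mat, sl_mul w y ((rep_del hi).pos hl) (mat_pos g)]

lemma iOp_mdiff (hl : Odd l) (hy : MDiff y) : MDiff (iOp w l y) := by
  have : iOp w l y = fun t => (l : ℂ) ^ (w - 1) * (∑ i ∈ reps l, sl w (rep i) y) t := by
    funext t; simp [iOp]
  rw [this]
  exact mdifferentiable_const.mul (.sum fun i hi => sl_mdiff w hy ((rep_del hi).pos hl))

lemma sl_bound {d : Mat} (hd : 0 < d.det) (hy : ∃ C, ∀ t : ℍ, t.im ^ w * ‖y t‖ ^ 2 ≤ C) :
    ∃ C, ∀ t : ℍ, t.im ^ w * ‖sl w d y t‖ ^ 2 ≤ C := by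
  obtain ⟨C, hC⟩ := hy
  refine ⟨C / (d.det : ℝ) ^ w, fun t => ?_⟩
  rw [sl_norm w y hd]
  have : (0 : ℝ) < d.det := by exact_mod_cast hd
  exact div_le_div_of_nonneg_right (hC _) (by positivity)

lemma iOp_bound (hl : Odd l) (hy : ∃ C, ∀ t : ℍ, t.im ^ w * ‖y t‖ ^ 2 ≤ C) :
    ∃ C, ∀ t : ℍ, t.im ^ w * ‖iOp w l y t‖ ^ 2 ≤ C := by
  obtain ⟨C, hC⟩ := sum_bound (reps l) (fun t => t.im ^ w) (fun t => (pow_pos t.im_pos w).le)
    (fun i => sl w (rep i) y) fun i hi => sl_bound ((rep_del hi).pos hl) hy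
  refine ⟨‖(l : ℂ) ^ (w - 1)‖ ^ 2 * C, fun t => ?_⟩
  rw [iOp, norm_mul, mul_pow, mul_left_comm]
  exact mul_le_mul_of_nonneg_left (hC t) (by positivity)

lemma iOp_hasSum (hl : l.Prime) (hl2 : l ≠ 2) (hw : 1 ≤ w) {a : ℕ → ℂ}
    (hf : ∀ t : ℍ, HasSum (fun n : ℕ => a n * cexp (2 * π * I * n * t)) (y t)) (t : ℍ) :
    HasSum (fun n : ℕ => (a (l * n) + if l ∣ n then (l : ℂ) ^ (w - 1) * a (n / l) else 0) *
      cexp (2 * π * I * n * t)) (iOp w l y t) := by
  have hf' : ∀ t : ℍ, HasSum (fun n : ℕ => a n * cexp (2 * π * I * n * t / 1)) (y t) := by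
    simpa using hf
  have hco : Nat.Coprime 8 l := by
    simpa using (Nat.coprime_two_left.2 (hl.odd_of_ne_two hl2)).pow_left 3
  have h1 := hasSum_U (s := 8) hl.pos (by norm_num) hco hf' t
  have h2 := hasSum_V hl.pos hf' t
  have hl0 : (l : ℂ) ≠ 0 := by exact_mod_cast hl.ne_zero
  have h3 := (h1.div_const l).add (h2.mul_left ((l : ℂ) ^ (w - 1)))
  obtain ⟨v, rfl⟩ : ∃ v, w = v + 1 := ⟨w - 1, by omega⟩
  rw [iOp, sum_reps_prime hl]
  simp only [sl, den_rep, Nat.add_sub_cancel, ← Finset.sum_div, Nat.cast_one, one_pow, div_one] at h3 ⊢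
  rw [show (l : ℂ) ^ v * ((∑ b ∈ Finset.range l, y (act (rep ⟨(1, l), b⟩) t)) / l ^ (v + 1) +
      y (act (rep ⟨(l, 1), 0⟩) t)) = (∑ b ∈ Finset.range l, y (act (rep ⟨(1, l), b⟩) t)) / l +
      l ^ v * y (act (rep ⟨(l, 1), 0⟩) t) by field_simp; ring]
  refine hasSum_congr_aux h3 fun n => ?_
  split_ifs <;> field_simp <;> ring

/-- the Fricke matrix -/
def WW : Mat := !![0, -1; 2, 0]

lemma WW_pos : 0 < WW.det := by simp [WW, Matrix.det_fin_two]

lemma iOp_W (hl : Odd l) (hy : Inv w y) (e : ℂ) (hW : ∀ t, sl w WW y t = e * y t) (t : ℍ) :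
    sl w WW (iOp w l y) t = e * iOp w l y t := by
  let m : Mat → Mat := fun d => !![d 1 1, -(d 1 0 / 2); -2 * d 0 1, d 0 0]
  have hm : ∀ d : Mat, (2 : ℤ) ∣ d 1 0 → d * WW = WW * m d := by
    rintro d ⟨c, hc⟩
    ext i j
    fin_cases i <;> fin_cases j <;> simp [m, WW, mmul, hc] <;> ring
  have hdel : ∀ d, Del l d → Del l (m d) := by
    intro d hd
    refine ⟨?_, by simp [m]⟩
    have := congrArg Matrix.det (hm d hd.2)
    rw [det_mul, det_mul, mul_comm, hd.1] at this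
    exact (mul_left_cancel₀ WW_pos.ne' this).symm
  have h1 : ∑ i ∈ reps l, sl w (m (rep i)) y t = ∑ i ∈ reps l, sl w (rep i) y t := by
    refine sum_reindex hl m hdel ?_ (fun d => sl w d y t)
      fun d hd g => by rw [sl_left hy g (hd.pos hl)]
    intro d d' hd hd' g h
    obtain ⟨c, hc⟩ := hd.2
    obtain ⟨c', hc'⟩ := hd'.2
    obtain ⟨k, hk⟩ := mat_even g
    have hdet := mat_det g
    rw [Matrix.det_fin_two, hk] at hdet
    refine ⟨⟨⟨!![mat g 1 1, -k; -2 * mat g 0 1, mat g 0 0], ?_⟩, mem_G.2 (by simp)⟩, ?_⟩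
    · rw [Matrix.det_fin_two_of]; linear_combination hdet
    · have e00 := congrFun (congrFun h 0) 0
      have e01 := congrFun (congrFun h 0) 1
      have e10 := congrFun (congrFun h 1) 0
      have e11 := congrFun (congrFun h 1) 1
      simp [m, mmul, hc, hc', hk] at e00 e01 e10 e11
      ext i j
      fin_cases i <;> fin_cases j <;> simp [mat, mmul, hc, hc'] <;> simp only [mat] at * <;> nlinarith
  have hd := den_ne_zero WW_pos t
  rw [sl, iOp, iOp, ← h1, mul_div_assoc, mul_left_comm, Finset.mul_sum _ _ e, Finset.sum_div]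
  congr 1
  refine Finset.sum_congr rfl fun i hi => ?_
  have hp := (hdel _ (rep_del hi)).pos hl
  have h2 := den_ne_zero hp t
  rw [sl_mul w y ((rep_del hi).pos hl) WW_pos, hm _ (rep_del hi).2,
    mul_div_cancel_left₀ _ (pow_ne_zero _ hd)]
  have h3 := sl_mul w y WW_pos hp t
  rw [hW] at h3
  rw [sl, sl, mul_div_assoc', h3, sl]
  field_simp

theorem iOp_adj {φ : ℍ → ℝ} (hφ : Wt φ) (hl : Odd l) (hy : Inv w y) (hy' : Inv w y')
    (hc : Continuous y) (hc' : Continuous y')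
    (hb : ∃ C, ∀ t : ℍ, t.im ^ w * ‖y t‖ ^ 2 ≤ C) (hb' : ∃ C, ∀ t : ℍ, t.im ^ w * ‖y' t‖ ^ 2 ≤ C) :
    ∫ z, (φ z : ℂ) * ((z.im : ℂ) ^ w * iOp w l y z * conj (y' z)) =
      ∫ z, (φ z : ℂ) * ((z.im : ℂ) ^ w * y z * conj (iOp w l y' z)) := by
  have him : Continuous fun z : ℍ => (z.im : ℂ) ^ w :=
    (Complex.continuous_ofReal.comp UpperHalfPlane.continuous_im).pow w
  have h := adj_sum hφ hl (fun d z => (z.im : ℂ) ^ w * sl w d y z * conj (y' z))
    (fun d z => (z.im : ℂ) ^ w * y z * conj (sl w d y' z))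
    (fun d hd => ((him.mul (sl_cont w hc (hd.pos hl))).mul
      (continuous_conj.comp hc')).aestronglyMeasurable) ?_
    (fun d hd g => by rw [sl_left hy g (hd.pos hl)])
    (fun d hd => ((him.mul hc).mul
      (continuous_conj.comp (sl_cont w hc' (hd.pos hl)))).aestronglyMeasurable) ?_
    (fun d hd g => by rw [sl_left hy' g (hd.pos hl)]) fun d hd z => sl_adj w y y' (hd.pos hl) z
  · have h2 := congrArg (fun x => (l : ℂ) ^ (w - 1) * x) h
    simp only [← integral_const_mul] at h2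
    refine (integral_congr_ae (ae_of_all _ fun z => ?_)).trans
      (h2.trans (integral_congr_ae (ae_of_all _ fun z => ?_)))
    · simp only [iOp]
      rw [← Finset.sum_mul, ← Finset.mul_sum]; ring
    · simp only [iOp]
      rw [← Finset.mul_sum, map_mul, map_sum, map_pow, conj_natCast]; ring
  · intro d hd
    obtain ⟨A, hA⟩ := sl_bound (hd.pos hl) hb
    obtain ⟨B, hB⟩ := hb'
    exact ⟨A + B, fun z => by simpa using amgm (pow_pos z.im_pos w).le (hA z) (hB z)⟩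
  · intro d hd
    obtain ⟨A, hA⟩ := hb
    obtain ⟨B, hB⟩ := sl_bound (hd.pos hl) hb'
    exact ⟨A + B, fun z => by simpa using amgm (pow_pos z.im_pos w).le (hA z) (hB z)⟩

end Pool.Agent.P.MP_e7a540_nt.L1.TH
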