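import Pool.Agent.P.MP_e7a540_nt.L1.TH6

/-! The Hecke operator in half-integral weight. -/

namespace Pool.Agent.P.MP_e7a540_nt.L1.TH

open Complex Matrix Filter Topology ModularForm MeasureTheory
open UpperHalfPlane hiding I
open scoped Real MatrixGroups Manifold ComplexConjugate

variable {l : ℕ} [NeZero l]

/-- the invariant density -/
noncomputable def uu (t : ℍ) : ℝ := √t.im * ‖ps t‖ ^ 2

lemma uu_nonneg (t : ℍ) : 0 ≤ uu t := by unfold uu; positivity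

lemma uu_cont : Continuous uu :=
  (UpperHalfPlane.continuous_im.sqrt).mul (ps_cont.norm.pow 2)

lemma uu_inv (g : G) (t : ℍ) : uu (g.1 • t) = uu t := by
  have h : ‖den (mat g) t‖ ≠ 0 := norm_ne_zero_iff.2 (den_ne_zero (mat_pos g) t)
  rw [uu, uu, ps_norm, ← act_mat, im_act (mat_pos g), mat_det, Int.cast_one, one_mul,
    Real.sqrt_div' _ (by positivity), Real.sqrt_sq (norm_nonneg _)]
  field_simp

/-- the multiplier -/
noncomputable def Rm (l : ℕ) [NeZero l] (d : Mat) (t : ℍ) : ℂ := RR l d t / (2 * l ^ 3 * ps t)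

lemma PP_ps (t : ℍ) : PP 0 0 t = 2 * ps t := by rw [ps]; ring

lemma Rm_left (g : G) (d : Mat) : Rm l (mat g * d) = Rm l d := by
  funext t; rw [Rm, Rm, RR_left]

lemma Rm_right (g : G) (d : Mat) (t : ℍ) : Rm l d (g.1 • t) = Rm l (d * mat g) t := by
  have h := RR_right (l := l) g d t
  have h1 := ps_ne_zero t
  have h2 := ps_ne_zero (g.1 • t)
  have hl : (l : ℂ) ≠ 0 := by exact_mod_cast NeZero.ne l
  rw [PP_ps, PP_ps] at h
  rw [Rm, Rm]
  field_simp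
  linear_combination h / 2

lemma Rm_of {d : Mat} {c : ℂ} {t s : ℍ} (h : RR l d t = l ^ 3 * c * PP 0 0 s) :
    Rm l d t * ps t = c * ps s := by
  have h1 := ps_ne_zero t
  have hl : (l : ℂ) ≠ 0 := by exact_mod_cast NeZero.ne l
  rw [Rm, h, PP_ps]
  field_simp

lemma lpos : 0 < l := Nat.pos_of_ne_zero (NeZero.ne l)

lemma Rm_low (hl : Odd l) (b : ℤ) (t : ℍ) :
    Rm l !![((1 : ℕ) : ℤ), 8 * b; 0, ((l ^ 2 : ℕ) : ℤ)] t * ps t =
      1 * ps (act !![((1 : ℕ) : ℤ), 8 * b; 0, ((l ^ 2 : ℕ) : ℤ)] t) := by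
  refine Rm_of ?_
  rw [coe_act_tri one_pos (pow_pos lpos 2)]
  push_cast
  rw [RR_low hl b t.im_pos, one_mul, mul_one]

lemma Rm_mid (hl : Odd l) (j : ℤ) (t : ℍ) :
    Rm l !![(l : ℤ), 8 * j; 0, (l : ℤ)] t * ps t = GG l j * ps (act !![(l : ℤ), 8 * j; 0, (l : ℤ)] t) := by
  have hl0 : (l : ℂ) ≠ 0 := by exact_mod_cast NeZero.ne l
  refine Rm_of ?_
  rw [coe_act_tri lpos lpos, RR_mid hl j t.im_pos]
  congr 2
  push_cast
  field_simp

lemma P00_per (b : ℤ) {t : ℂ} (ht : 0 < t.im) : PP 0 0 (t + 8 * b) = PP 0 0 t := by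
  have ht2 : 0 < (t + 8 * b).im := by
    rw [show (8 : ℂ) * b = ((8 * b : ℝ) : ℂ) by push_cast; rfl, add_im, ofReal_im, add_zero]
    exact ht
  refine (P00_hasSum ht2).unique (hasSum_congr_aux (P00_hasSum ht) fun n => ?_)
  rw [show π * I * (2 * n + 1) ^ 2 * (t + 8 * b) / 4 = π * I * (2 * n + 1) ^ 2 * t / 4 +
    (((2 * n + 1) ^ 2 * b : ℤ) : ℂ) * (2 * π * I) by push_cast; ring, Complex.exp_add,
    exp_int_mul_two_pi_mul_I, mul_one]

lemma Rm_top (hl : Odd l) (b : ℤ) (t : ℍ) :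
    Rm l !![((l ^ 2 : ℕ) : ℤ), 8 * b; 0, ((1 : ℕ) : ℤ)] t * ps t =
      l * ps (act !![((l ^ 2 : ℕ) : ℤ), 8 * b; 0, ((1 : ℕ) : ℤ)] t) := by
  refine Rm_of ?_
  let g : G := ⟨⟨!![1, 8 * b; 0, 1], by simp [Matrix.det_fin_two_of]⟩, mem_G.2 (by simp)⟩
  have h : !![((l ^ 2 : ℕ) : ℤ), 8 * b; 0, ((1 : ℕ) : ℤ)] = mat g * rep ⟨(l ^ 2, 1), 0⟩ := by
    ext i j
    fin_cases i <;> fin_cases j <;> simp [g, mat, rep, mmul]
  have hl0 : (0 : ℝ) < l := by exact_mod_cast lpos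
  have ht2 : 0 < ((l : ℂ) ^ 2 * t).im := by
    rw [show (l : ℂ) ^ 2 = ((l ^ 2 : ℝ) : ℂ) by push_cast; rfl, im_ofReal_mul]
    exact mul_pos (by positivity) t.im_pos
  rw [coe_act_tri (pow_pos lpos 2) one_pos, h, RR_left, RR_top hl t.im_pos, ← P00_per b ht2]
  simp

lemma GG_conj (j : ZMod l) : conj (GG l j) = GG l (-j) := by
  rw [GG, GG, map_sum]
  refine Finset.sum_congr rfl fun s _ => ?_
  obtain ⟨k, hk⟩ := ZMod.intCast_surjective (j * s ^ 2)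
  rw [show -j * s ^ 2 = ((-k : ℤ) : ZMod l) by push_cast; rw [hk]; ring,
    show - -j * s ^ 2 = (k : ZMod l) by rw [hk]; ring, ee_cast, ee_cast, ← Complex.exp_conj]
  congr 1
  simp [map_ofNat]

lemma adj_tri (a b D : ℤ) : (!![a, 8 * b; 0, D] : Mat).adjugate = !![D, 8 * (-b); 0, a] := by
  rw [Matrix.adjugate_fin_two_of]; simp

lemma im_act_tri {a D : ℕ} (ha : 0 < a) (hD : 0 < D) (b : ℤ) (t : ℍ) :
    (act !![(a : ℤ), b; 0, (D : ℤ)] t).im = a * t.im / D := by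
  rw [← coe_im, coe_act_tri ha hD, div_natCast_im]
  simp

lemma rep_data (hp : l.Prime) (hl : Odd l) {i : Ix} (hi : i ∈ reps (l ^ 2)) :
    ∃ (c c' : ℂ) (s : ℝ), 0 < s ∧ (∀ t, Rm l (rep i) t * ps t = c * ps (act (rep i) t)) ∧
      (∀ t, Rm l (rep i).adjugate t * ps t = c' * ps (act (rep i).adjugate t)) ∧
      c' * s = conj c ∧ ∀ t, √(act (rep i) t).im = s * √t.im := by
  obtain ⟨⟨a, D⟩, b⟩ := i
  obtain ⟨⟨h1, -⟩, -⟩ := mem_reps.1 hi
  simp only at h1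
  have hl0 : (0 : ℝ) < l := by exact_mod_cast lpos
  have hl1 : (l : ℂ) ≠ 0 := by exact_mod_cast NeZero.ne l
  obtain ⟨k, hk, rfl⟩ := (Nat.dvd_prime_pow hp).1 (Dvd.intro _ h1)
  simp only [rep, adj_tri]
  interval_cases k
  · obtain rfl : D = l ^ 2 := by simpa using h1
    refine ⟨1, l, 1 / l, by positivity, Rm_low hl b, Rm_top hl (-b), by simp [hl1], fun t => ?_⟩
    rw [im_act_tri (by simp) (pow_pos lpos 2), Real.sqrt_div' _ (by positivity)]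
    simp [Real.sqrt_sq hl0.le, div_eq_inv_mul]
  · obtain rfl : D = l := by
      rw [pow_one, sq] at h1; exact Nat.eq_of_mul_eq_mul_left lpos h1
    rw [pow_one]
    refine ⟨GG D (b : ℤ), GG D (-b : ℤ), 1, one_pos, Rm_mid hl b, Rm_mid hl (-b), ?_, fun t => ?_⟩
    · rw [GG_conj]; simp
    · rw [im_act_tri lpos lpos, mul_div_cancel_left₀ _ hl0.ne', one_mul]
  · obtain rfl : D = 1 := by simpa [NeZero.ne l] using h1
    refine ⟨l, 1, l, hl0, Rm_top hl b, Rm_low hl (-b), by simp, fun t => ?_⟩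
    rw [im_act_tri (pow_pos lpos 2) one_pos]
    simp [Real.sqrt_sq hl0.le]

lemma adj_mat (g : G) : (mat g).adjugate = mat g⁻¹ := rfl

lemma Rm_data (hp : l.Prime) (hl : Odd l) {d : Mat} (hd : Del (l ^ 2) d) :
    MDiff (Rm l d) ∧ (∃ K : ℝ, 0 ≤ K ∧ ∀ z, uu z * ‖Rm l d z‖ ^ 2 = K * uu (act d z)) ∧
      ∀ z, uu (act d z) * Rm l d.adjugate (act d z) = uu z * conj (Rm l d z) := by
  have hl2 : Odd (l ^ 2) := hl.pow
  obtain ⟨g, i, hi, rfl⟩ := hnf hl2 hd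
  obtain ⟨c, c', s, hs, h1, h2, h3, h4⟩ := rep_data hp hl hi
  have hpos := (rep_del hi).pos hl2
  have hu : ∀ z, uu (act (mat g * rep i) z) = uu (act (rep i) z) := fun z => by
    rw [act_mul (mat_pos g) hpos, act_mat, uu_inv]
  simp only [Rm_left, hu]
  refine ⟨?_, ⟨‖c‖ ^ 2 / s, by positivity, fun z => ?_⟩, fun z => ?_⟩
  · have : Rm l (rep i) = fun t => c * ps (act (rep i) t) / ps t := by
      funext t; rw [← h1, mul_div_cancel_right₀ _ (ps_ne_zero t)]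
    rw [this]
    exact (mdifferentiable_const.mul (ps_mdiff.comp (act_mdiff hpos))).div ps_mdiff ps_ne_zero
  · have := congrArg norm (h1 z)
    rw [norm_mul, norm_mul] at this
    rw [uu, uu, h4, mul_assoc, ← mul_pow, mul_comm ‖ps z‖, this]
    field_simp
  · rw [adjugate_mul_distrib, adj_mat, ← Rm_right, act_mul (mat_pos g) hpos, act_mat,
      Subgroup.coe_inv, inv_smul_smul]
    have h5 := h2 (act (rep i) z)
    have h6 := act_adj (d := (rep i).adjugate) (by rwa [det_adj]) z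
    rw [adj_adj] at h6
    rw [h6] at h5
    have h7 := congrArg conj (h1 z)
    rw [map_mul, map_mul] at h7
    rw [uu, uu, h4]
    push_cast
    rw [← conj_mul', ← conj_mul']
    linear_combination (s * √z.im * conj (ps (act (rep i) z))) * h5 - (√z.im * ps z) * h7 +
      (√z.im * ps z * conj (ps (act (rep i) z))) * h3

/-- the Hecke operator, transported to weight `r` -/
noncomputable def hOp (r l : ℕ) [NeZero l] (F : ℍ → ℂ) (t : ℍ) : ℂ :=
  (l : ℂ) ^ (2 * r - 2) * ∑ i ∈ reps (l ^ 2), Rm l (rep i) t * sl r (rep i) F t -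
    (l : ℂ) ^ (r - 1) * F t

variable {r : ℕ} {F F' : ℍ → ℂ}

lemma hOp_inv (hl : Odd l) (hF : Inv r F) : Inv r (hOp r l F) := by
  intro g t
  have hl2 : Odd (l ^ 2) := hl.pow
  rw [hOp, hOp, ← sum_right hl2 g (fun d => Rm l d t * sl r d F t)
    fun d hd g => by rw [sl_left hF g (hd.pos hl2), Rm_left], hF, mul_sub,
    mul_left_comm (den _ t ^ r), mul_left_comm (den _ t ^ r), Finset.mul_sum _ _ (den _ t ^ r)]
  congr 2
  refine Finset.sum_congr rfl fun i hi => ?_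
  rw [Rm_right, ← act_mat, sl_mul r F ((rep_del hi).pos hl2) (mat_pos g), mul_left_comm]

lemma hOp_mdiff (hp : l.Prime) (hl : Odd l) (hF : MDiff F) : MDiff (hOp r l F) := by
  have : hOp r l F = fun t => (l : ℂ) ^ (2 * r - 2) *
      (∑ i ∈ reps (l ^ 2), Rm l (rep i) * sl r (rep i) F) t - (l : ℂ) ^ (r - 1) * F t := by
    funext t; simp [hOp]
  rw [this]
  exact (mdifferentiable_const.mul (.sum fun i hi => (Rm_data hp hl (rep_del hi)).1.mul
    (sl_mdiff r hF ((rep_del hi).pos hl.pow)))).sub (mdifferentiable_const.mul hF)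

lemma Rsl_bound (hp : l.Prime) (hl : Odd l) {d : Mat} (hd : Del (l ^ 2) d)
    (hF : ∃ C, ∀ t : ℍ, uu t * t.im ^ r * ‖F t‖ ^ 2 ≤ C) :
    ∃ C, ∀ t : ℍ, uu t * t.im ^ r * ‖Rm l d t * sl r d F t‖ ^ 2 ≤ C := by
  obtain ⟨C, hC⟩ := hF
  obtain ⟨K, hK, h⟩ := (Rm_data hp hl hd).2.1
  have hpos := hd.pos hl.pow
  have : (0 : ℝ) < d.det := by exact_mod_cast hpos
  refine ⟨K * C / (d.det : ℝ) ^ r, fun t => ?_⟩
  rw [norm_mul, mul_pow, mul_mul_mul_comm, h, sl_norm r F hpos, ← mul_div_assoc]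
  refine div_le_div_of_nonneg_right ?_ (by positivity)
  rw [mul_assoc, ← mul_assoc (uu _)]
  exact mul_le_mul_of_nonneg_left (hC _) hK

lemma hOp_bound (hp : l.Prime) (hl : Odd l) (hF : ∃ C, ∀ t : ℍ, uu t * t.im ^ r * ‖F t‖ ^ 2 ≤ C) :
    ∃ C, ∀ t : ℍ, uu t * t.im ^ r * ‖hOp r l F t‖ ^ 2 ≤ C := by
  have hw : ∀ t : ℍ, 0 ≤ uu t * t.im ^ r := fun t => mul_nonneg (uu_nonneg t) (pow_pos t.im_pos r).le
  obtain ⟨C, hC⟩ := sum_bound (reps (l ^ 2)) _ hw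
    (fun i t => Rm l (rep i) t * sl r (rep i) F t) fun i hi => Rsl_bound hp hl (rep_del hi) hF
  obtain ⟨D, hD⟩ := hF
  refine ⟨2 * (‖(l : ℂ) ^ (2 * r - 2)‖ ^ 2 * C) + 2 * (‖(l : ℂ) ^ (r - 1)‖ ^ 2 * D), fun t => ?_⟩
  have h1 := mul_le_mul_of_nonneg_left (hC t) (sq_nonneg ‖(l : ℂ) ^ (2 * r - 2)‖)
  have h2 := mul_le_mul_of_nonneg_left (hD t) (sq_nonneg ‖(l : ℂ) ^ (r - 1)‖)
  rw [mul_left_comm, ← mul_pow, ← norm_mul] at h1 h2
  rw [hOp]
  generalize (l : ℂ) ^ (2 * r - 2) * _ = x at h1 ⊢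
  generalize (l : ℂ) ^ (r - 1) * _ = y at h2 ⊢
  have h3 : ‖x - y‖ ^ 2 ≤ 2 * ‖x‖ ^ 2 + 2 * ‖y‖ ^ 2 := by
    nlinarith [norm_nonneg (x - y), sq_nonneg (‖x‖ - ‖y‖), norm_sub_le x y]
  nlinarith [mul_le_mul_of_nonneg_left h3 (hw t)]

theorem hOp_adj {φ : ℍ → ℝ} (hφ : Wt φ) (hp : l.Prime) (hl : Odd l) (hF : Inv r F) (hF' : Inv r F')
    (hc : Continuous F) (hc' : Continuous F')
    (hb : ∃ C, ∀ t : ℍ, uu t * t.im ^ r * ‖F t‖ ^ 2 ≤ C)
    (hb' : ∃ C, ∀ t : ℍ, uu t * t.im ^ r * ‖F' t‖ ^ 2 ≤ C) :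
    ∫ z, (φ z : ℂ) * (((uu z * z.im ^ r : ℝ) : ℂ) * hOp r l F z * conj (F' z)) =
      ∫ z, (φ z : ℂ) * (((uu z * z.im ^ r : ℝ) : ℂ) * F z * conj (hOp r l F' z)) := by
  have hl2 : Odd (l ^ 2) := hl.pow
  have hw : ∀ t : ℍ, 0 ≤ uu t * t.im ^ r := fun t => mul_nonneg (uu_nonneg t) (pow_pos t.im_pos r).le
  have him : Continuous fun z : ℍ => ((uu z * z.im ^ r : ℝ) : ℂ) :=
    Complex.continuous_ofReal.comp (uu_cont.mul (UpperHalfPlane.continuous_im.pow r))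
  have hint : ∀ {A B : ℍ → ℂ}, Continuous A → Continuous B →
      (∃ C, ∀ t : ℍ, uu t * t.im ^ r * ‖A t‖ ^ 2 ≤ C) → (∃ C, ∀ t : ℍ, uu t * t.im ^ r * ‖B t‖ ^ 2 ≤ C) →
      AEStronglyMeasurable (fun z => ((uu z * z.im ^ r : ℝ) : ℂ) * A z * conj (B z)) ∧
      ∃ C, ∀ z, ‖((uu z * z.im ^ r : ℝ) : ℂ) * A z * conj (B z)‖ ≤ C := by
    rintro A B hA hB ⟨a, ha⟩ ⟨b, hb⟩
    exact ⟨((him.mul hA).mul (continuous_conj.comp hB)).aestronglyMeasurable,
      a + b, fun z => amgm (hw z) (ha z) (hb z)⟩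
  have hR : ∀ {A : ℍ → ℂ}, Continuous A → ∀ d, Del (l ^ 2) d →
      Continuous fun z => Rm l d z * sl r d A z := fun hA d hd =>
    (Rm_data hp hl hd).1.continuous.mul (sl_cont r hA (hd.pos hl2))
  have h := adj_sum hφ hl2
    (fun d z => ((uu z * z.im ^ r : ℝ) : ℂ) * (Rm l d z * sl r d F z) * conj (F' z))
    (fun d z => ((uu z * z.im ^ r : ℝ) : ℂ) * F z * conj (Rm l d z * sl r d F' z))
    (fun d hd => (hint (hR hc d hd) hc' (Rsl_bound hp hl hd hb) hb').1)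
    (fun d hd => (hint (hR hc d hd) hc' (Rsl_bound hp hl hd hb) hb').2)
    (fun d hd g => by rw [sl_left hF g (hd.pos hl2), Rm_left])
    (fun d hd => (hint hc (hR hc' d hd) hb (Rsl_bound hp hl hd hb')).1)
    (fun d hd => (hint hc (hR hc' d hd) hb (Rsl_bound hp hl hd hb')).2)
    (fun d hd g => by rw [sl_left hF' g (hd.pos hl2), Rm_left])
    (fun d hd z => by
      have h1 := sl_adj r F F' (hd.pos hl2) z
      have h2 := (Rm_data hp hl hd).2.2 z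
      simp only [map_mul]
      push_cast
      linear_combination (uu (act d z) * Rm l d.adjugate (act d z)) * h1 +
        ((z.im : ℂ) ^ r * F z * conj (sl r d F' z)) * h2)
  have hI : ∀ {A B : ℍ → ℂ}, Continuous A → Continuous B →
      (∃ C, ∀ t : ℍ, uu t * t.im ^ r * ‖A t‖ ^ 2 ≤ C) → (∃ C, ∀ t : ℍ, uu t * t.im ^ r * ‖B t‖ ^ 2 ≤ C) →
      Integrable fun z => (φ z : ℂ) * (((uu z * z.im ^ r : ℝ) : ℂ) * A z * conj (B z)) := by
    intro A B hA hB ha hb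
    obtain ⟨h1, C, h2⟩ := hint hA hB ha hb
    exact (hφ.int.ofReal (𝕜 := ℂ)).mul_bdd h1 (ae_of_all _ h2)
  have hS : ∀ {A : ℍ → ℂ}, Continuous A → (∃ C, ∀ t : ℍ, uu t * t.im ^ r * ‖A t‖ ^ 2 ≤ C) →
      (Continuous fun z => ∑ i ∈ reps (l ^ 2), Rm l (rep i) z * sl r (rep i) A z) ∧
      ∃ C, ∀ t : ℍ, uu t * t.im ^ r * ‖∑ i ∈ reps (l ^ 2), Rm l (rep i) t * sl r (rep i) A t‖ ^ 2 ≤ C :=
    fun {A} hA ha => ⟨continuous_finsetSum _ fun i hi => hR hA _ (rep_del hi),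
      sum_bound (reps (l ^ 2)) _ hw (fun i t => Rm l (rep i) t * sl r (rep i) A t)
        fun i hi => Rsl_bound hp hl (rep_del hi) ha⟩
  have h1 := hI (hS hc hb).1 hc' (hS hc hb).2 hb'
  have h2 := hI hc (hS hc' hb').1 hb (hS hc' hb').2
  have h3 := hI hc hc' hb hb'
  have h4 : ∫ z, (φ z : ℂ) * (((uu z * z.im ^ r : ℝ) : ℂ) *
      (∑ i ∈ reps (l ^ 2), Rm l (rep i) z * sl r (rep i) F z) * conj (F' z)) =
      ∫ z, (φ z : ℂ) * (((uu z * z.im ^ r : ℝ) : ℂ) * F z *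
        conj (∑ i ∈ reps (l ^ 2), Rm l (rep i) z * sl r (rep i) F' z)) := by
    simpa only [Finset.mul_sum, Finset.sum_mul, map_sum] using h
  have h5 := congrArg (fun x => (l : ℂ) ^ (2 * r - 2) * x - (l : ℂ) ^ (r - 1) *
    ∫ z, (φ z : ℂ) * (((uu z * z.im ^ r : ℝ) : ℂ) * F z * conj (F' z))) h4
  simp only [← integral_const_mul] at h5
  rw [← integral_sub (h1.const_mul _) (h3.const_mul _),
    ← integral_sub (h2.const_mul _) (h3.const_mul _)] at h5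
  refine (integral_congr_ae (ae_of_all _ fun z => ?_)).trans
    (h5.trans (integral_congr_ae (ae_of_all _ fun z => ?_)))
  · simp only [hOp]; ring
  · simp only [hOp, map_sub, map_mul, map_pow, conj_natCast]; ring

lemma mid_sum (n : ℕ) : ∑ b ∈ Finset.range l, GG l b * ee l ((b : ZMod l) * n) =
    l * (((Finset.range l).filter fun x => x ^ 2 % l = n % l).card : ℂ) := by
  have h1 := sum_range_per (l := l) (fun y => GG l y * ee l (y * n)) 1
  have h2 := sum_range_per (l := l) (fun s => if (n : ZMod l) - s ^ 2 = 0 then (l : ℂ) else 0) 1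
  rw [one_mul, Nat.cast_one, one_mul] at h1 h2
  rw [h1]
  simp only [GG, Finset.sum_mul, ← ee_add]
  rw [Finset.sum_comm]
  have h3 : ∀ s : ZMod l, ∑ y : ZMod l, ee l (-y * s ^ 2 + y * n) =
      if (n : ZMod l) - s ^ 2 = 0 then (l : ℂ) else 0 := fun s => by
    rw [← ee_sum]
    exact Finset.sum_congr rfl fun y _ => by congr 1; ring
  simp only [h3]
  rw [← h2, Finset.card_filter]
  push_cast
  rw [Finset.mul_sum]
  refine Finset.sum_congr rfl fun x _ => ?_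
  have : (n : ZMod l) - (x : ZMod l) ^ 2 = 0 ↔ x ^ 2 % l = n % l := by
    rw [sub_eq_zero, ← ZMod.natCast_eq_natCast_iff', eq_comm]; push_cast; rfl
  simp only [this]
  split_ifs <;> simp

theorem hOp_hasSum (hp : l.Prime) (hl : Odd l) (hr : 1 ≤ r) {c : ℕ → ℂ}
    (hf : ∀ t : ℍ, HasSum (fun n : ℕ => c n * cexp (2 * π * I * n * t / 8)) (ps t * F t)) (t : ℍ) :
    HasSum (fun n : ℕ => (c (l ^ 2 * n) + (l : ℂ) ^ (r - 1) *
      ((((Finset.range l).filter fun x => x ^ 2 % l = n % l).card : ℂ) - 1) * c n +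
        if l ^ 2 ∣ n then (l : ℂ) ^ (2 * r - 1) * c (n / l ^ 2) else 0) *
      cexp (2 * π * I * n * t / 8)) (ps t * hOp r l F t) := by
  have hl0 : (l : ℂ) ≠ 0 := by exact_mod_cast hp.ne_zero
  have h1 := hasSum_U (f := fun t => ps t * F t) (s := 1) (N := l ^ 2) (pow_pos lpos 2)
    (by norm_num) (by simp) hf t
  have h2 := hasSum_V (f := fun t => ps t * F t) (pow_pos (lpos (l := l)) 2) hf t
  have h3 : ∀ b ∈ Finset.range l, HasSum (fun n : ℕ => c n * cexp (2 * π * I * n * t / 8) *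
      (GG l b * ee l ((b : ZMod l) * n)))
      (GG l b * (ps (act (rep ⟨(l, l), b⟩) t) * F (act (rep ⟨(l, l), b⟩) t))) := by
    intro b _
    refine hasSum_congr_aux ((hf _).mul_left _) fun n => ?_
    have := ee_cast (l := l) (b * n)
    push_cast at this
    rw [this, rep, coe_act_tri lpos lpos,
      show 2 * π * I * n * ((l * t + ((8 * (b : ℤ) : ℤ) : ℂ)) / l) / 8 =
        2 * π * I * n * t / 8 + 2 * π * I * (b * n) / l by push_cast; field_simp, Complex.exp_add]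
    ring
  have h4 := hasSum_sum h3
  simp only [← Finset.mul_sum, mid_sum] at h4
  have h5 := (((h1.div_const (l ^ 2)).add (h4.mul_left ((l : ℂ) ^ (r - 1) / l))).add
    (h2.mul_left ((l : ℂ) ^ (2 * r - 1)))).sub ((hf t).mul_left ((l : ℂ) ^ (r - 1)))
  have e1 : ∀ b : ℕ, ps t * (Rm l (rep ⟨(1, l ^ 2), b⟩) t * sl r (rep ⟨(1, l ^ 2), b⟩) F t) =
      ps (act (rep ⟨(1, l ^ 2), b⟩) t) * F (act (rep ⟨(1, l ^ 2), b⟩) t) / ((l : ℂ) ^ 2) ^ r := by
    intro b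
    have : Rm l (rep ⟨(1, l ^ 2), b⟩) t * ps t = 1 * ps (act (rep ⟨(1, l ^ 2), b⟩) t) := Rm_low hl b t
    rw [← mul_assoc, mul_comm (ps t), this, sl, den_rep]
    push_cast
    ring
  have e2 : ∀ b : ℕ, ps t * (Rm l (rep ⟨(l, l), b⟩) t * sl r (rep ⟨(l, l), b⟩) F t) =
      GG l b * (ps (act (rep ⟨(l, l), b⟩) t) * F (act (rep ⟨(l, l), b⟩) t)) / (l : ℂ) ^ r := by
    intro b
    have : Rm l (rep ⟨(l, l), b⟩) t * ps t = GG l (b : ℤ) * ps (act (rep ⟨(l, l), b⟩) t) :=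
      Rm_mid hl b t
    rw [← mul_assoc, mul_comm (ps t), this, sl, den_rep]
    push_cast
    ring
  have e3 : ps t * (Rm l (rep ⟨(l ^ 2, 1), 0⟩) t * sl r (rep ⟨(l ^ 2, 1), 0⟩) F t) =
      l * (ps (act (rep ⟨(l ^ 2, 1), 0⟩) t) * F (act (rep ⟨(l ^ 2, 1), 0⟩) t)) := by
    have : Rm l (rep ⟨(l ^ 2, 1), 0⟩) t * ps t = l * ps (act (rep ⟨(l ^ 2, 1), 0⟩) t) :=
      Rm_top hl (0 : ℕ) t
    rw [← mul_assoc, mul_comm (ps t), this, sl, den_rep]
    push_cast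
    ring
  obtain ⟨v, rfl⟩ : ∃ v, r = v + 1 := ⟨r - 1, by omega⟩
  rw [hOp, mul_sub, mul_left_comm, Finset.mul_sum _ _ (ps t), sum_reps_sq hp]
  simp only [e1, e2, e3, ← Finset.sum_div]
  rw [show 2 * (v + 1) - 2 = 2 * v by omega]
  rw [show 2 * (v + 1) - 1 = 2 * v + 1 by omega, Nat.add_sub_cancel] at h5 ⊢
  refine Eq.mpr (congrArg₂ (fun a b => HasSum a b) (funext fun n => ?_) ?_) h5
  · generalize cexp (2 * π * I * n * t / 8) = E
    push_cast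
    split_ifs <;> field_simp <;> ring
  · field_simp
    ring

end Pool.Agent.P.MP_e7a540_nt.L1.TH
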