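import Pool.Agent.P.MP_e7a540_nt.L1.IfaceB

/-! Step VB. -/

set_option autoImplicit false
set_option linter.unusedSectionVars false

namespace Pool.Agent.P.MP_e7a540_nt.L1

open UpperHalfPlane hiding I
open CongruenceSubgroup ModularGroup Complex MeasureTheory PowerSeries Finset Filter
open scoped MatrixGroups ModularForm Manifold ComplexConjugate Real Topology

theorem p_VB (hPA : S_PA) (hPB : S_PB) (hCB : S_CB) :
    S_VB := by
  intro r F hF
  have hz : IsZeroAtImInfty (psi ^ 8) := (hPA.2.2.zero_iff one_ne_zero).2 (by simp [toC, bZ])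
  have hk : ∀ k : ℕ, ∃ C, ∀ z : ℍ, z.im ^ (4 + (k + 1) * r) * ‖psi z ^ 8 * F z ^ (k + 1)‖ ^ 2 ≤ C := by
    intro k
    refine (hCB.1 _ _ (hPB.1.mul_cf (hF.1.pow (k + 1)) hz ?_)).2
    have : sl ((k + 1) * r) (F ^ (k + 1)) S = fun τ => sl r F S τ ^ (k + 1) := by
      funext τ; simp [sl, div_pow, ← pow_mul, mul_comm]
    rw [this]
    simpa using! Tendsto.pow hF.2 (k + 1)
  have hle : ∀ (x C : ℝ) (n : ℕ), x ^ (n + 1) ≤ C → x ≤ max 1 C := by
    intro x C n h
    rcases le_total x 1 with h1 | h1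
    · exact h1.trans (le_max_left _ _)
    · exact ((le_self_pow₀ h1 n.succ_ne_zero).trans h).trans (le_max_right _ _)
  have hs : ∀ z : ℍ, √z.im ^ 2 = z.im := fun z => Real.sq_sqrt z.im_pos.le
  refine ⟨⟨hF.1.hol.continuous, ?_⟩, ?_, ?_⟩
  · obtain ⟨C, hC⟩ := hk 7
    refine ⟨max 1 C, fun z => hle _ _ 7 ((le_of_eq ?_).trans (hC z))⟩
    rw [uH, norm_mul, norm_pow, norm_pow, pow_add z.im, show z.im ^ 4 = (√z.im ^ 2) ^ 4 by rw [hs]]
    ring
  · obtain ⟨C, hC⟩ := hk 3
    refine ⟨max 1 C, fun z => ?_⟩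
    have h := hle (z.im * z.im ^ r * ‖psi z‖ ^ 4 * ‖F z‖ ^ 2) C 3 ((le_of_eq ?_).trans (hC z))
    · refine (le_of_eq ?_).trans (mul_le_mul_of_nonneg_right h (pow_pos z.im_pos r).le)
      rw [norm_mul, Complex.norm_real, mul_pow, Real.norm_eq_abs, sq_abs, uH, mul_pow, mul_pow, hs]
      ring
    · rw [norm_mul, norm_pow, norm_pow]
      ring
  · have h1 := hPA.1.decay (m := 1) (by norm_num) fun n hn => by
      obtain rfl : n = 0 := by omega
      simp [toC, dZ]
    have h2 : (fun z : ℍ => z.im ^ (r + 1)) =O[atImInfty] fun z => Real.exp (π / 2 * z.im) :=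
      (isLittleO_pow_exp_pos_mul_atTop (r + 1) (by positivity : 0 < π / 2)).isBigO.comp_tendsto
        (tendsto_comap : Tendsto UpperHalfPlane.im atImInfty atTop)
    have h3 : (fun z : ℍ => √z.im * z.im ^ r) =O[atImInfty] fun z => z.im ^ (r + 1) := by
      refine Asymptotics.IsBigO.of_bound' ?_
      rw [Filter.Eventually, atImInfty_mem]
      refine ⟨1, fun z hz => ?_⟩
      have h0 := z.im_pos
      change ‖√z.im * z.im ^ r‖ ≤ ‖z.im ^ (r + 1)‖
      rw [Real.norm_of_nonneg (by positivity), Real.norm_of_nonneg (by positivity), pow_succ']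
      refine mul_le_mul_of_nonneg_right ?_ (by positivity)
      rw [Real.sqrt_le_left h0.le]
      nlinarith
    have h4 := ((h3.trans h2).mul (h1.norm_left.pow 2)).mul hF.1.bi.norm_left
    refine Asymptotics.IsBigO.of_norm_left (h4.congr (fun z => ?_) fun z => ?_)
    · have h0 := z.im_pos
      rw [norm_mul, Complex.norm_real, uH, Real.norm_of_nonneg (by positivity)]
    · rw [← Real.exp_nat_mul, ← Real.exp_add]
      simp only [Pi.one_apply, mul_one, Real.exp_eq_one_iff]
      push_cast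
      ring

end Pool.Agent.P.MP_e7a540_nt.L1
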