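import Mathlib

/-! The invariant measure in coordinates and a weight for the group of level two. -/

set_option autoImplicit false

namespace Pool.Agent.P.MP_e7a540_nt.L1.U

open Complex MeasureTheory Set
open UpperHalfPlane hiding I
open scoped Real MatrixGroups ENNReal NNReal

/-- the group -/
abbrev G : Subgroup SL(2, ℤ) := CongruenceSubgroup.Gamma0 2

instance : Countable SL(2, ℤ) := by
  unfold Matrix.SpecialLinearGroup Matrix
  infer_instance

/-- the point with given imaginary and real part -/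
noncomputable def pt (y x : ℝ) : ℍ := ofComplex (x + y * I)

theorem coe_pt {y : ℝ} (hy : 0 < y) (x : ℝ) : (pt y x : ℂ) = x + y * I := by
  rw [pt, ofComplex_apply_of_im_pos (by simpa using hy)]

theorem pt_im {y : ℝ} (hy : 0 < y) (x : ℝ) : (pt y x).im = y := by
  rw [← coe_im, coe_pt hy]; simp

theorem pt_re {y : ℝ} (hy : 0 < y) (x : ℝ) : (pt y x).re = x := by
  rw [← coe_re, coe_pt hy]; simp

theorem pt_self (z : ℍ) : pt z.im z.re = z := by
  ext1; rw [coe_pt z.im_pos]; exact UpperHalfPlane.re_add_im z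

theorem co_emb : MeasurableEmbedding fun z : ℍ => (z.im, z.re) :=
  (MeasurableEquiv.prodComm.measurableEmbedding.comp
    Complex.measurableEquivRealProd.measurableEmbedding).comp measurableEmbedding_coe

theorem co_mp : MeasurePreserving (fun z : ℍ => (z.im, z.re)) (volume.comap UpperHalfPlane.coe)
    ((volume.restrict (Ioi 0)).prod volume) := by
  have h1 : MeasurePreserving UpperHalfPlane.coe (volume.comap UpperHalfPlane.coe)
      (volume.restrict (.range UpperHalfPlane.coe)) :=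
    ⟨measurable_coe, by rw [measurableEmbedding_coe.map_comap]⟩
  have h2 : MeasurePreserving (fun w : ℂ => (w.im, w.re)) volume (volume.prod volume) :=
    (Measure.measurePreserving_swap (μ := (volume : Measure ℝ)) (ν := volume)).comp
      Complex.volume_preserving_equiv_real_prod
  have h3 := h2.restrict_preimage (s := Ioi (0 : ℝ) ×ˢ univ)
    (measurableSet_Ioi.prod MeasurableSet.univ)
  have e : (fun w : ℂ => (w.im, w.re)) ⁻¹' (Ioi (0 : ℝ) ×ˢ univ) = .range UpperHalfPlane.coe := by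
    ext w
    simp only [mem_preimage, mem_prod, mem_Ioi, mem_univ, and_true, mem_range]
    exact ⟨fun h => ⟨⟨w, h⟩, rfl⟩, fun ⟨z, h⟩ => h ▸ z.im_pos⟩
  rw [e, ← Measure.restrict_prod_eq_prod_univ] at h3
  exact h3.comp h1

theorem dens_meas : Measurable fun z : ℍ => ((1 / NNReal.mk z.im z.im_pos.le : ℝ≥0) ^ 2) := by
  refine (Continuous.pow (.div₀ continuous_const ?_ ?_) _).measurable
  · exact continuous_im.subtype_mk _
  · exact fun x => NNReal.ne_iff.mp x.im_ne_zero

section coords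
variable {E : Type} [NormedAddCommGroup E] [NormedSpace ℝ E]

theorem dens_eq (f : ℍ → E) :
    (fun z : ℍ => ((1 / NNReal.mk z.im z.im_pos.le : ℝ≥0) ^ 2) • f z) =
      (fun p : ℝ × ℝ => (p.1 ^ 2)⁻¹ • f (pt p.1 p.2)) ∘ fun z : ℍ => (z.im, z.re) := by
  ext z
  simp only [Function.comp, pt_self, NNReal.smul_def]
  congr 1
  simp

theorem integrable_iff (f : ℍ → E) : Integrable f ↔
    Integrable (fun p : ℝ × ℝ => (p.1 ^ 2)⁻¹ • f (pt p.1 p.2))
      ((volume.restrict (Ioi 0)).prod volume) := by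
  rw [volume_def, integrable_withDensity_iff_integrable_smul dens_meas, dens_eq,
    co_mp.integrable_comp_emb co_emb]

theorem integral_eq {f : ℍ → E} (hf : Integrable f) :
    ∫ z, f z = ∫ y in Ioi (0 : ℝ), (y ^ 2)⁻¹ • ∫ x, f (pt y x) := by
  have h := integral_prod _ ((integrable_iff f).1 hf)
  simp only [integral_smul] at h
  rw [← h, volume_def, integral_withDensity_eq_integral_smul dens_meas, dens_eq]
  exact co_mp.integral_comp co_emb fun p : ℝ × ℝ => (p.1 ^ 2)⁻¹ • f (pt p.1 p.2)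

end coords

/-- a dominating function -/
noncomputable def dom (z : ℍ) : ℝ := if |z.re| ≤ 1 then z.im ^ 2 / (1 + z.im ^ 2) else 0

theorem dom_int : Integrable dom := by
  rw [integrable_iff]
  have h1 : Integrable (fun y : ℝ => (1 + y ^ 2)⁻¹) (volume.restrict (Ioi 0)) :=
    integrable_inv_one_add_sq.integrableOn
  have h2 : Integrable ((Icc (-1 : ℝ) 1).indicator fun _ => (1 : ℝ)) :=
    (integrable_indicator_iff measurableSet_Icc).2 (integrableOn_const (by simp))
  refine (h1.mul_prod h2).congr ?_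
  have : ∀ᵐ p ∂((volume.restrict (Ioi (0 : ℝ))).prod (volume : Measure ℝ)), p.1 ∈ Ioi (0 : ℝ) :=
    Measure.quasiMeasurePreserving_fst.ae (ae_restrict_mem measurableSet_Ioi)
  filter_upwards [this] with p hp
  have hp' : 0 < p.1 := hp
  rw [dom, pt_re hp', pt_im hp', indicator_apply]
  simp only [mem_Icc, ← abs_le, smul_eq_mul]
  split_ifs
  · field_simp
  · simp

theorem smul_mp (g : SL(2, ℤ)) : MeasurePreserving (fun z : ℍ => g • z) volume volume :=
  measurePreserving_smul (g : GL (Fin 2) ℝ) volume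

theorem smul_emb (g : SL(2, ℤ)) : MeasurableEmbedding fun z : ℍ => g • z :=
  measurableEmbedding_const_smul (g : GL (Fin 2) ℝ)

theorem fd_int : IntegrableOn (fun _ => (1 : ℝ)) ModularGroup.fd := by
  refine (dom_int.const_mul 3).integrableOn.mono' aestronglyMeasurable_const ?_
  filter_upwards [ae_restrict_mem ModularGroup.isClosed_fd.measurableSet] with z hz
  have h := ModularGroup.three_le_four_mul_im_sq_of_mem_fd hz
  rw [dom, if_pos (hz.2.trans (by norm_num)), norm_one, ← mul_div_assoc,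
    le_div_iff₀ (by positivity)]
  linarith

theorem fd_fin (z : ℍ) : {g : SL(2, ℤ) | g • z ∈ ModularGroup.fd}.Finite := by
  obtain ⟨g₀, h₀⟩ := ModularGroup.exists_smul_mem_fd z
  have hf : {g : SL(2, ℤ) | g • g₀ • z ∈ ModularGroup.fd}.Finite := by
    open ModularGroup in
    refine (Set.toFinite ({1, -1, T, -T, T⁻¹, -T⁻¹, S, -S, T * S, -(T * S), T⁻¹ * S * T⁻¹,
      -(T⁻¹ * S * T⁻¹), S * T⁻¹, -(S * T⁻¹), S * T, -(S * T), T * S * T, -(T * S * T), T⁻¹ * S,
      -(T⁻¹ * S)} : Set SL(2, ℤ))).subset fun g hg => ?_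
    simp only [mem_insert_iff, mem_singleton_iff]
    rcases ModularGroup.cases_of_mem_fd_smul_mem_fd h₀ hg with h | ⟨h, -⟩ | ⟨h, -⟩ | ⟨h, -⟩ |
      ⟨h, -⟩ | ⟨h, -⟩ | ⟨h, -⟩ | ⟨h, -⟩ | ⟨h, -⟩ | ⟨h, -⟩ <;> rcases h with h | h <;>
      simp only [h, true_or, or_true]
  refine (hf.image (· * g₀)).subset fun g hg => ⟨g * g₀⁻¹, ?_, by simp⟩
  simpa [smul_smul] using hg

/-- finitely many translates of the standard domain -/
def dm : Set ℍ := ⋃ q : SL(2, ℤ) ⧸ G, (fun z => q.out • z) ⁻¹' ModularGroup.fd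

theorem dm_meas : MeasurableSet dm :=
  MeasurableSet.iUnion fun _ => (smul_emb _).measurable ModularGroup.isClosed_fd.measurableSet

theorem dm_int : IntegrableOn (fun _ => (1 : ℝ)) dm :=
  integrableOn_finite_iUnion.2 fun q =>
    ((smul_mp q.out).integrableOn_comp_preimage (smul_emb _) (f := fun _ => (1 : ℝ))).2 fd_int

theorem dm_ex (z : ℍ) : ∃ g : G, g.1 • z ∈ dm := by
  obtain ⟨g, h⟩ := ModularGroup.exists_smul_mem_fd z
  obtain ⟨k, hk⟩ := QuotientGroup.mk_out_eq_mul G g
  refine ⟨k⁻¹, mem_iUnion.2 ⟨(g : SL(2, ℤ) ⧸ G), ?_⟩⟩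
  rw [mem_preimage, hk, smul_smul]
  simpa using h

theorem dm_fin (z : ℍ) : {g : G | g.1 • z ∈ dm}.Finite := by
  refine (finite_iUnion fun q : SL(2, ℤ) ⧸ G =>
    (fd_fin z).preimage (f := fun g : G => q.out * g.1) ?_).subset fun g hg => ?_
  · exact fun a _ b _ h => Subtype.ext (mul_left_cancel h)
  · obtain ⟨q, hq⟩ := mem_iUnion.1 hg
    exact mem_iUnion.2 ⟨q, by simpa [mul_smul] using hq⟩

/-- the number of hits -/
noncomputable def cnt (z : ℍ) : ℝ≥0∞ := ∑' g : G, dm.indicator 1 (g.1 • z)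

theorem cnt_meas : Measurable cnt :=
  Measurable.tsum fun _ => (measurable_one.indicator dm_meas).comp (smul_emb _).measurable

theorem cnt_smul (g : G) (z : ℍ) : cnt (g.1 • z) = cnt z := by
  rw [cnt, cnt, ← (Equiv.mulRight g).tsum_eq fun k : G => dm.indicator (1 : ℍ → ℝ≥0∞) (k.1 • z)]
  simp [mul_smul]

theorem one_le_cnt (z : ℍ) : 1 ≤ cnt z := by
  obtain ⟨g, h⟩ := dm_ex z
  refine le_trans ?_ (ENNReal.le_tsum g)
  rw [indicator_of_mem h]; rfl

theorem cnt_ne (z : ℍ) : cnt z ≠ ∞ := by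
  rw [cnt, tsum_eq_sum (s := (dm_fin z).toFinset) fun g hg => indicator_of_notMem (by simpa using hg) _]
  refine ENNReal.sum_ne_top.2 fun g hg => ?_
  rw [indicator_of_mem (by simpa using hg)]
  exact ENNReal.one_ne_top

/-- the weight -/
noncomputable def phi (z : ℍ) : ℝ := (dm.indicator 1 z / cnt z).toReal

theorem phi_meas : Measurable phi :=
  ((measurable_one.indicator dm_meas).div cnt_meas).ennreal_toReal

theorem phi_nonneg (z : ℍ) : 0 ≤ phi z := ENNReal.toReal_nonneg

theorem phi_le (z : ℍ) : phi z ≤ dm.indicator (fun _ => 1) z := by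
  by_cases h : z ∈ dm
  · rw [phi, indicator_of_mem h, indicator_of_mem h]
    refine ENNReal.toReal_le_of_le_ofReal zero_le_one ?_
    simpa using one_le_cnt z
  · simp [phi, indicator_of_notMem h]

theorem phi_int : Integrable phi :=
  ((integrable_indicator_iff dm_meas).2 dm_int).mono' phi_meas.aestronglyMeasurable
    (ae_of_all _ fun z => by rw [Real.norm_of_nonneg (phi_nonneg z)]; exact phi_le z)

theorem phi_sum (z : ℍ) : HasSum (fun g : G => phi (g.1 • z)) 1 := by
  have h0 : cnt z ≠ 0 := (zero_lt_one.trans_le (one_le_cnt z)).ne'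
  have h : ∑' g : G, dm.indicator 1 (g.1 • z) / cnt (g.1 • z) = 1 := by
    simp only [cnt_smul, div_eq_mul_inv]
    rw [ENNReal.tsum_mul_right]
    exact ENNReal.mul_inv_cancel h0 (cnt_ne z)
  have h1 := ENNReal.hasSum_toReal (h ▸ ENNReal.one_ne_top :
    ∑' g : G, dm.indicator 1 (g.1 • z) / cnt (g.1 • z) ≠ ∞)
  rw [← ENNReal.tsum_toReal_eq, h, ENNReal.toReal_one] at h1
  · exact h1
  · exact fun g => ne_top_of_le_ne_top ENNReal.one_ne_top (h ▸ ENNReal.le_tsum g)

end Pool.Agent.P.MP_e7a540_nt.L1.U
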