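import Pool.Agent.P.MP_e7a540_nt.L1.U1

/-! Unfolding, positivity, the sum over cosets of the translations. -/

set_option autoImplicit false

namespace Pool.Agent.P.MP_e7a540_nt.L1.U

open Complex MeasureTheory Set EisensteinSeries ModularForm
open UpperHalfPlane hiding I
open scoped Real MatrixGroups ENNReal NNReal ComplexConjugate

/-- a weight -/
structure Wg (φ : ℍ → ℝ) : Prop where
  meas : Measurable φ
  pos : ∀ z, 0 ≤ φ z
  int : Integrable φ
  sum : ∀ z, HasSum (fun g : G => φ (g.1 • z)) 1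

theorem wg_phi : Wg phi := ⟨phi_meas, phi_nonneg, phi_int, phi_sum⟩

variable {φ : ℍ → ℝ}

theorem Wg.le_one (H : Wg φ) (z : ℍ) : φ z ≤ 1 := by
  simpa using le_hasSum (H.sum z) 1 fun g _ => H.pos _

theorem Wg.sum' (H : Wg φ) (z : ℍ) : HasSum (fun g : G => φ (g.1⁻¹ • z)) 1 :=
  ((Equiv.inv G).hasSum_iff (f := fun g : G => φ (g.1 • z))).2 (H.sum z)

theorem unf (H : Wg φ) {w : ℍ → ℂ} (hw : Integrable w) :
    ∫ z, (φ z : ℂ) * ∑' g : G, w (g.1 • z) = ∫ z, w z := by
  have hm : ∀ g : G, AEStronglyMeasurable fun z => (φ (g.1⁻¹ • z) : ℂ) := fun g =>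
    (Complex.measurable_ofReal.comp (H.meas.comp (smul_emb _).measurable)).aestronglyMeasurable
  have hi : ∀ g : G, Integrable fun z => (φ (g.1⁻¹ • z) : ℂ) * w z := fun g =>
    hw.bdd_mul (c := 1) (hm g) (ae_of_all _ fun z => by
      rw [Complex.norm_real, Real.norm_of_nonneg (H.pos _)]; exact H.le_one _)
  have hs : Summable fun g : G => ∫ z, ‖(φ (g.1⁻¹ • z) : ℂ) * w z‖ := by
    refine summable_of_sum_le (c := ∫ z, ‖w z‖)
      (fun g => integral_nonneg fun z => norm_nonneg _) fun s => ?_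
    rw [← integral_finsetSum _ fun g _ => (hi g).norm]
    refine integral_mono (integrable_finsetSum _ fun g _ => (hi g).norm) hw.norm fun z => ?_
    simp only [norm_mul, Complex.norm_real, Real.norm_of_nonneg (H.pos _), ← Finset.sum_mul]
    exact mul_le_of_le_one_left (norm_nonneg _)
      (sum_le_hasSum s (fun g _ => H.pos _) (H.sum' z))
  have e : ∀ g : G, (fun z => (φ z : ℂ) * w (g.1 • z)) =
      (fun z => (φ (g.1⁻¹ • z) : ℂ) * w z) ∘ fun z => g.1 • z := fun g => by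
    ext z; simp
  have hi' : ∀ g : G, Integrable fun z => (φ z : ℂ) * w (g.1 • z) := fun g => by
    rw [e, (smul_mp _).integrable_comp_emb (smul_emb _)]; exact hi g
  have e1 : ∀ g : G, ∫ z, (φ z : ℂ) * w (g.1 • z) = ∫ z, (φ (g.1⁻¹ • z) : ℂ) * w z :=
    fun g => by
      rw [← (smul_mp g.1).integral_comp (smul_emb _) fun z => (φ (g.1⁻¹ • z) : ℂ) * w z]; simp
  have e2 : ∀ g : G, ∫ z, ‖(φ z : ℂ) * w (g.1 • z)‖ = ∫ z, ‖(φ (g.1⁻¹ • z) : ℂ) * w z‖ :=
    fun g => by
      rw [← (smul_mp g.1).integral_comp (smul_emb _) fun z => ‖(φ (g.1⁻¹ • z) : ℂ) * w z‖]; simp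
  have h1 := (hasSum_integral_of_summable_integral_norm hi' (by simpa only [e2] using hs)).tsum_eq
  have h2 := (hasSum_integral_of_summable_integral_norm hi hs).tsum_eq
  simp only [tsum_mul_left, e1] at h1
  rw [← h1, h2]
  refine integral_congr_ae (ae_of_all _ fun z => ?_)
  have h3 : HasSum (fun g : G => ((φ (g.1⁻¹ • z) : ℝ) : ℂ)) 1 := by
    simpa using Complex.ofRealCLM.hasSum (H.sum' z)
  simpa using (h3.mul_right (w z)).tsum_eq

instance : Measure.IsOpenPosMeasure (volume : Measure ℍ) := by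
  have : Measure.IsOpenPosMeasure ((volume : Measure ℂ).comap UpperHalfPlane.coe) :=
    .comap _ isOpenEmbedding_coe
  refine Measure.AbsolutelyContinuous.isOpenPosMeasure
    (μ := (volume : Measure ℂ).comap UpperHalfPlane.coe) ?_
  rw [volume_def]
  refine withDensity_absolutelyContinuous' dens_meas.coe_nnreal_ennreal.aemeasurable
    (ae_of_all _ fun z => ?_)
  have : NNReal.mk z.im z.im_pos.le ≠ 0 := NNReal.ne_iff.mp z.im_ne_zero
  exact ENNReal.coe_ne_zero.2 (pow_ne_zero _ (one_div_ne_zero this))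

theorem pos_def (H : Wg φ) {h : ℍ → ℝ} (hc : Continuous h) (h0 : ∀ z, 0 ≤ h z) {C : ℝ} (hC : ∀ z, h z ≤ C)
    (hG : ∀ g ∈ G, ∀ z, h (g • z) = h z) (hi : ∫ z, φ z * h z = 0) (z : ℍ) : h z = 0 := by
  have h1 : Integrable fun z => φ z * h z :=
    H.int.mul_bdd (c := C) hc.aestronglyMeasurable
      (ae_of_all _ fun z => by rw [Real.norm_of_nonneg (h0 z)]; exact hC z)
  have h2 := (integral_eq_zero_iff_of_nonneg (fun z => mul_nonneg (H.pos z) (h0 z)) h1).1 hi
  have h3 : ∀ᵐ z, ∀ g : G, φ (g.1 • z) * h (g.1 • z) = 0 :=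
    ae_all_iff.2 fun g => (smul_mp g.1).quasiMeasurePreserving.ae h2
  have h4 : h =ᵐ[volume] fun _ => 0 := by
    filter_upwards [h3] with z hz
    have h5 := (H.sum z).mul_right (h z)
    simp only [fun g : G => (hG g.1 g.2 z ▸ hz g : φ (g.1 • z) * h z = 0)] at h5
    simpa using (h5.unique hasSum_zero)
  exact congrFun ((hc.ae_eq_iff_eq volume continuous_const).1 h4) z

/-- coprime pairs with even first entry -/
def Pe : Set (Fin 2 → ℤ) := {v | IsCoprime (v 0) (v 1) ∧ Even (v 0)}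

/-- the point `2 z` -/
noncomputable def two (z : ℍ) : ℍ := ⟨2 * z, by simpa using z.im_pos⟩

theorem E_eq {r : ℕ} (hr : 3 ≤ r) (z : ℍ) :
    2 * E hr z = ∑' v : {v : Fin 2 → ℤ | IsCoprime (v 0) (v 1)}, eisSummand r v z := by
  have e : gammaSet 1 1 0 = {v : Fin 2 → ℤ | IsCoprime (v 0) (v 1)} :=
    Set.ext fun v => mem_gammaSet_one v
  rw [show E hr z = (1 / 2 : ℂ) • eisensteinSeriesSIF (N := 1) 0 r z from rfl,
    eisensteinSeriesSIF_apply 0 r z, eisensteinSeries, e, smul_eq_mul]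
  ring

theorem tsum_split {f : (Fin 2 → ℤ) → ℂ} (hf : Summable f) (p : (Fin 2 → ℤ) → Prop) :
    ∑' v : {v : Fin 2 → ℤ | IsCoprime (v 0) (v 1)}, f v =
      ∑' v : {v : Fin 2 → ℤ | IsCoprime (v 0) (v 1) ∧ p v}, f v +
        ∑' v : {v : Fin 2 → ℤ | IsCoprime (v 0) (v 1) ∧ ¬ p v}, f v := by
  rw [← Summable.tsum_union_disjoint (f := f) (disjoint_left.2 fun v h h' => h'.2 h.2)
    (hf.subtype _) (hf.subtype _)]
  refine tsum_congr_set_coe f (Set.ext fun v => ?_)
  simp only [mem_ofPred_eq, mem_union]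
  tauto

theorem Pe_sum {r : ℕ} (hr : 3 ≤ r) (z : ℍ) :
    (2 ^ r - 1) * ∑' v : Pe, eisSummand r v z = 2 * (2 ^ r * E hr (two z) - E hr z) := by
  have h1 := (E_eq hr z).trans (tsum_split (summable_eisSummand hr z) fun v => Even (v 0))
  have h2 := (E_eq hr (two z)).trans
    (tsum_split (summable_eisSummand hr (two z)) fun v => Even (v 1))
  have c2 : ∀ {a : ℤ}, ¬ Even a → IsCoprime 2 a := fun h =>
    Int.isCoprime_two_left.2 (Int.not_even_iff_odd.1 h)
  have h3 : ∑' v : {v : Fin 2 → ℤ | IsCoprime (v 0) (v 1) ∧ ¬ Even (v 1)},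
      eisSummand r v (two z) = ∑' v : Pe, eisSummand r v z := by
    have hb : BijOn (fun v : Fin 2 → ℤ => ![2 * v 0, v 1])
        {v : Fin 2 → ℤ | IsCoprime (v 0) (v 1) ∧ ¬ Even (v 1)} Pe := by
      refine ⟨fun v h => ⟨(c2 h.2).mul_left h.1, even_two_mul _⟩, fun v _ w _ h => ?_,
        fun v h => ?_⟩
      · have a := congrFun h 0
        have b := congrFun h 1
        ext i; fin_cases i
        · simpa using a
        · simpa using b
      · obtain ⟨k, hk⟩ := h.2
        have h' := h.1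
        rw [hk, ← two_mul] at h'
        refine ⟨![k, v 1], ⟨h'.of_mul_left_right, fun he => ?_⟩, ?_⟩
        · exact Int.not_odd_iff_even.2 he (Int.isCoprime_two_left.1 h'.of_mul_left_left)
        · ext i; fin_cases i <;> simp [hk, two_mul]
    rw [← (hb.equiv _).tsum_eq]
    refine tsum_congr fun v => ?_
    change _ = eisSummand r ![2 * v.1 0, v.1 1] z
    simp only [eisSummand, two, Matrix.cons_val_zero, Matrix.cons_val_one, coe_mk]
    congr 1; push_cast; ring
  have h4 : 2 ^ r * ∑' v : {v : Fin 2 → ℤ | IsCoprime (v 0) (v 1) ∧ Even (v 1)},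
      eisSummand r v (two z) =
      ∑' v : {v : Fin 2 → ℤ | IsCoprime (v 0) (v 1) ∧ ¬ Even (v 0)}, eisSummand r v z := by
    have hb : BijOn (fun v : Fin 2 → ℤ => ![v 0, 2 * v 1])
        {v : Fin 2 → ℤ | IsCoprime (v 0) (v 1) ∧ ¬ Even (v 0)}
        {v : Fin 2 → ℤ | IsCoprime (v 0) (v 1) ∧ Even (v 1)} := by
      refine ⟨fun v h => ⟨(c2 h.2).symm.mul_right h.1, even_two_mul _⟩, fun v _ w _ h => ?_,
        fun v h => ?_⟩
      · have a := congrFun h 0
        have b := congrFun h 1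
        ext i; fin_cases i
        · simpa using a
        · simpa using b
      · obtain ⟨k, hk⟩ := h.2
        have h' := h.1
        rw [hk, ← two_mul] at h'
        refine ⟨![v 0, k], ⟨h'.of_mul_right_right, fun he => ?_⟩, ?_⟩
        · exact Int.not_odd_iff_even.2 he (Int.isCoprime_two_left.1 h'.of_mul_right_left.symm)
        · ext i; fin_cases i <;> simp [hk, two_mul]
    rw [← (hb.equiv _).tsum_eq, ← tsum_mul_left]
    refine tsum_congr fun v => ?_
    change 2 ^ r * eisSummand r ![v.1 0, 2 * v.1 1] (two z) = _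
    simp only [eisSummand, two, Matrix.cons_val_zero, Matrix.cons_val_one, coe_mk]
    rw [show ((v.1 0 : ℤ) : ℂ) * (2 * z) + ((2 * v.1 1 : ℤ) : ℂ) = 2 * (v.1 0 * z + v.1 1) by
      push_cast; ring, mul_zpow, zpow_neg (2 : ℂ), zpow_natCast, ← mul_assoc,
      mul_inv_cancel₀ (pow_ne_zero _ two_ne_zero), one_mul]
  rw [h3] at h2
  change 2 * E hr z = ∑' v : Pe, eisSummand r v z + _ at h1
  linear_combination h1 - 2 ^ r * h2 - h4

/-- the strip -/
def st : Set ℍ := {z | z.re ∈ Ico (0 : ℝ) 1}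

theorem st_meas : MeasurableSet st := continuous_re.measurable measurableSet_Ico

theorem row_eq {g k : SL(2, ℤ)} (h : g 1 = k 1) : ∃ n : ℤ, g = ModularGroup.T ^ n * k := by
  have a := congrFun h 0
  have b := congrFun h 1
  have hg := g.det_coe
  have hk := k.det_coe
  rw [Matrix.det_fin_two] at hg hk
  refine ⟨k 0 0 * g 0 1 - g 0 0 * k 0 1, ?_⟩
  ext i j
  rw [Matrix.SpecialLinearGroup.coe_mul, ModularGroup.coe_T_zpow]
  fin_cases i <;> fin_cases j <;> simp [Matrix.mul_apply, Fin.sum_univ_two, a, b]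
  · rw [a, b] at hg; linear_combination k 0 0 * hg - g 0 0 * hk
  · rw [a, b] at hg; linear_combination k 0 1 * hg - g 0 1 * hk

theorem row_bij (z : ℍ) : BijOn (fun g : G => g.1 1) {g : G | g.1 • z ∈ st} Pe := by
  refine ⟨fun g _ => ⟨ModularGroup.bottom_row_coprime g.1, ?_⟩, fun g hg k hk h => ?_,
    fun v hv => ?_⟩
  · have := (ZMod.intCast_zmod_eq_zero_iff_dvd _ 2).1 (CongruenceSubgroup.Gamma0_mem.1 g.2)
    exact even_iff_two_dvd.2 this
  · obtain ⟨n, hn⟩ := row_eq h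
    have h1 : (g.1 • z).re ∈ Ico (0 : ℝ) 1 := hg
    have h2 : (k.1 • z).re ∈ Ico (0 : ℝ) 1 := hk
    rw [hn, mul_smul, ModularGroup.re_T_zpow_smul] at h1
    have h3 : (n : ℝ) < 1 := by linarith [h1.2, h2.1]
    have h4 : (-1 : ℝ) < n := by linarith [h1.1, h2.2]
    have h5 : n = 0 := by
      have : n < 1 := by exact_mod_cast h3
      have : -1 < n := by exact_mod_cast h4
      omega
    exact Subtype.ext (by simpa [h5] using hn)
  · obtain ⟨g, -, hg⟩ := ModularGroup.bottom_row_surj (R := ℤ) (show v ∈ {cd : Fin 2 → ℤ |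
      IsCoprime (cd 0) (cd 1)} from hv.1)
    have hg' : g 1 = v := hg
    have e := (ModularGroup.T_pow_mul_apply_one (-⌊(g • z).re⌋) g).trans hg'
    refine ⟨⟨ModularGroup.T ^ (-⌊(g • z).re⌋) * g, ?_⟩, ?_, e⟩
    · rw [CongruenceSubgroup.Gamma0_mem, e]
      exact (ZMod.intCast_zmod_eq_zero_iff_dvd _ 2).2 (even_iff_two_dvd.1 hv.2)
    · change (_ • z).re ∈ Ico (0 : ℝ) 1
      rw [mul_smul, ModularGroup.re_T_zpow_smul, Int.cast_neg, ← sub_eq_add_neg]
      exact ⟨Int.fract_nonneg _, Int.fract_lt_one _⟩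

theorem st_int {W : ℍ → ℂ} (hc : Continuous W) {C : ℝ} (h1 : ∀ z, ‖W z‖ ≤ C * z.im ^ 2)
    (h2 : ∀ z, ‖W z‖ ≤ C) : Integrable (st.indicator W) := by
  have hC : 0 ≤ C := (norm_nonneg _).trans (h2 UpperHalfPlane.I)
  refine (dom_int.const_mul (2 * C)).mono' (hc.aestronglyMeasurable.indicator st_meas)
    (ae_of_all _ fun z => ?_)
  by_cases h : z ∈ st
  · have h' : z.re ∈ Ico (0 : ℝ) 1 := h
    rw [indicator_of_mem h, dom, if_pos (abs_le.2 ⟨by linarith [h'.1], h'.2.le⟩), ← mul_div_assoc,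
      le_div_iff₀ (by positivity)]
    nlinarith [h1 z, mul_le_mul_of_nonneg_right (h2 z) (sq_nonneg z.im)]
  · rw [indicator_of_notMem h, norm_zero, dom]
    positivity

theorem st_integral {W : ℍ → ℂ} (h : Integrable (st.indicator W)) :
    ∫ z, st.indicator W z = ∫ y in Ioi (0 : ℝ), (∫ x in (0 : ℝ)..1, W (pt y x)) / y ^ 2 := by
  rw [integral_eq h]
  refine setIntegral_congr_fun measurableSet_Ioi fun y hy => ?_
  have e : (fun x => st.indicator W (pt y x)) = (Ico (0 : ℝ) 1).indicator fun x => W (pt y x) := by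
    ext x
    simp only [indicator_apply, st, mem_ofPred_eq, pt_re hy]
  simp only [e]
  rw [integral_indicator measurableSet_Ico, intervalIntegral.integral_of_le zero_le_one,
    integral_Ico_eq_integral_Ioc, Complex.real_smul, div_eq_inv_mul]
  push_cast; rfl

theorem ue (H : Wg φ) {r : ℕ} (hr : 3 ≤ r) {W : ℍ → ℂ} (hc : Continuous W)
    (hG : ∀ g ∈ G, ∀ z, W (g • z) * conj (denom g z) ^ r = W z) {C : ℝ}
    (h1 : ∀ z, ‖W z‖ ≤ C * z.im ^ 2) (h2 : ∀ z, ‖W z‖ ≤ C) :
    ∫ z, (φ z : ℂ) * (W z * conj (2 ^ r * E hr (two z) - E hr z)) =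
      (2 ^ r - 1) / 2 * ∫ y in Ioi (0 : ℝ), (∫ x in (0 : ℝ)..1, W (pt y x)) / y ^ 2 := by
  have hi := st_int hc h1 h2
  rw [← st_integral hi, ← unf H hi, ← integral_const_mul]
  refine integral_congr_ae (ae_of_all _ fun z => ?_)
  have e : ∑' g : G, st.indicator W (g.1 • z) = W z * conj (∑' v : Pe, eisSummand r v z) := by
    have e1 : (fun g : G => st.indicator W (g.1 • z)) =
        {g : G | g.1 • z ∈ st}.indicator fun g => W (g.1 • z) := by
      ext g; rfl
    rw [e1, ← tsum_subtype, ← ((row_bij z).equiv _).tsum_eq, conj_tsum, ← tsum_mul_left]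
    refine tsum_congr fun g => ?_
    have hd : conj (denom g.1.1 z) ^ r ≠ 0 :=
      pow_ne_zero _ ((map_ne_zero _).2 (denom_ne_zero _ z))
    rw [← hG g.1.1 g.1.2 z]
    change _ = _ * conj (eisSummand r (g.1.1 1) z)
    rw [eisSummand, ← ModularGroup.denom_apply, zpow_neg, zpow_natCast, map_inv₀, map_pow,
      mul_assoc, mul_inv_cancel₀ hd, mul_one]
  have e2 := congrArg conj (Pe_sum hr z)
  simp only [map_mul, map_sub, map_pow, map_one, map_ofNat] at e2 ⊢
  rw [e]
  linear_combination (-(φ z : ℂ) * W z / 2) * e2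

end Pool.Agent.P.MP_e7a540_nt.L1.U
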