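import Pool.Agent.P.MP_e7a540_nt.L1.U2

/-! Exponential series on the upper half plane. -/

set_option autoImplicit false

namespace Pool.Agent.P.MP_e7a540_nt.L1.U

open Complex MeasureTheory Set
open UpperHalfPlane hiding I
open scoped Real ComplexConjugate

/-- `f` is the sum of the series with coefficients `a` and period `h` -/
def Ser (h : ℝ) (a : ℕ → ℂ) (f : ℍ → ℂ) : Prop :=
  ∀ t : ℍ, HasSum (fun n : ℕ => a n * cexp (2 * π * I * n * t / h)) (f t)

theorem norm_term (h : ℝ) (c : ℂ) (n : ℕ) (t : ℍ) :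
    ‖c * cexp (2 * π * I * n * t / h)‖ = ‖c‖ * rexp (-(2 * π * n / h) * t.im) := by
  rw [norm_mul, Complex.norm_exp]
  congr 2
  rw [div_ofReal_re]
  simp
  ring

variable {h : ℝ} {a b : ℕ → ℂ} {f g : ℍ → ℂ}

theorem Ser.summ (H : Ser h a f) {y : ℝ} (hy : 0 < y) :
    Summable fun n => ‖a n‖ * rexp (-(2 * π * n / h) * y) := by
  simpa only [norm_term, pt_im hy] using (H (pt y 0)).summable.norm

theorem Ser.norm_le (H : Ser h a f) (z : ℍ) :
    ‖f z‖ ≤ ∑' n, ‖a n‖ * rexp (-(2 * π * n / h) * z.im) :=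
  (H z).norm_le_of_bounded (H.summ z.im_pos).hasSum fun n => (norm_term h _ n z).le

theorem Ser.cont (H : Ser h a f) (hh : 0 < h) : Continuous f := by
  refine continuous_iff_continuousAt.2 fun z => ?_
  have hz : 0 < z.im / 2 := half_pos z.im_pos
  have ho : IsOpen {w : ℍ | z.im / 2 < w.im} := isOpen_lt continuous_const continuous_im
  have := continuousOn_tsum (s := {w : ℍ | z.im / 2 < w.im})
    (f := fun (n : ℕ) (t : ℍ) => a n * cexp (2 * π * I * n * t / h))
    (fun n => by fun_prop) (H.summ hz) fun n w hw => by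
      rw [norm_term]
      have h1 : 0 ≤ 2 * π * n / h := by positivity
      have h2 : z.im / 2 < w.im := hw
      gcongr ‖a n‖ * rexp ?_
      nlinarith
  simp only [(H _).tsum_eq] at this
  exact this.continuousAt (ho.mem_nhds (half_lt_self z.im_pos))

theorem Ser.dec (H : Ser h a f) (hh : 0 < h) (h0 : a 0 = 0) :
    ∃ C, 0 ≤ C ∧ ∀ z : ℍ, 1 ≤ z.im → ‖f z‖ ≤ C * rexp (-(2 * π / h) * z.im) := by
  refine ⟨(∑' n, ‖a n‖ * rexp (-(2 * π * n / h) * 1)) * rexp (2 * π / h),
    mul_nonneg (tsum_nonneg fun n => by positivity) (Real.exp_pos _).le, fun z hz => ?_⟩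
  refine (H.norm_le z).trans ?_
  rw [mul_assoc, ← tsum_mul_right]
  refine (H.summ z.im_pos).tsum_le_tsum (fun n => ?_) ((H.summ one_pos).mul_right _)
  rcases Nat.eq_zero_or_pos n with rfl | hn
  · simp [h0]
  · rw [mul_assoc ‖a n‖, ← Real.exp_add, ← Real.exp_add]
    have h1 : (1 : ℝ) ≤ n := by exact_mod_cast hn
    have h2 : 0 < 2 * π / h := by positivity
    gcongr ‖a n‖ * rexp ?_
    rw [show 2 * π * n / h = 2 * π / h * n by ring]
    nlinarith [mul_nonneg h2.le (mul_nonneg (sub_nonneg.2 h1) (sub_nonneg.2 hz))]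

theorem Ser.bdd (H : Ser h a f) (hh : 0 < h) :
    ∃ C, 0 ≤ C ∧ ∀ z : ℍ, 1 ≤ z.im → ‖f z‖ ≤ C := by
  refine ⟨∑' n, ‖a n‖ * rexp (-(2 * π * n / h) * 1), tsum_nonneg fun n => by positivity,
    fun z hz => (H.norm_le z).trans ?_⟩
  refine (H.summ z.im_pos).tsum_le_tsum (fun n => ?_) (H.summ one_pos)
  have h2 : 0 ≤ 2 * π * n / h := by positivity
  gcongr ‖a n‖ * rexp ?_
  nlinarith

theorem rk (H : Ser h a f) (H' : Ser h b g) (hh : 0 < h)
    (hab : ∀ n m, a n ≠ 0 → b m ≠ 0 → ∃ k : ℤ, (n : ℝ) - m = k * h) {y : ℝ} (hy : 0 < y) :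
    HasSum (fun n => a n * conj (b n) * rexp (-(4 * π * n / h) * y))
      (∫ x in (0 : ℝ)..1, f (pt y x) * conj (g (pt y x))) := by
  have hh' : (h : ℂ) ≠ 0 := ofReal_ne_zero.2 hh.ne'
  set F : ℕ × ℕ → ℝ → ℂ := fun p x => (a p.1 * cexp (2 * π * I * p.1 * pt y x / h)) *
    conj (b p.2 * cexp (2 * π * I * p.2 * pt y x / h)) with hF
  have e : ∀ p x, F p x = a p.1 * conj (b p.2) * rexp (-(2 * π * (p.1 + p.2) / h) * y) *
      cexp (2 * π * I * (p.1 - p.2) / h * x) := by
    intro p x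
    simp only [hF, coe_pt hy, map_mul, ← Complex.exp_conj, map_div₀, map_add, conj_ofReal, conj_I,
      map_natCast, map_ofNat, ofReal_exp]
    rw [mul_mul_mul_comm, mul_assoc (a p.1 * _), ← Complex.exp_add, ← Complex.exp_add]
    congr 2
    push_cast
    linear_combination (2 * π * (p.1 + p.2) * y / h) * I_sq
  have hn : ∀ p x, ‖F p x‖ = (‖a p.1‖ * rexp (-(2 * π * p.1 / h) * y)) *
      (‖b p.2‖ * rexp (-(2 * π * p.2 / h) * y)) := by
    intro p x
    simp only [hF]
    rw [norm_mul, norm_conj, norm_term, norm_term, pt_im hy]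
  have hi : ∀ p, Integrable (F p) (volume.restrict (Ioc (0 : ℝ) 1)) := fun p => by
    rw [funext (e p)]
    exact Continuous.integrableOn_Ioc (by fun_prop)
  have hs : Summable fun p => ∫ x in Ioc (0 : ℝ) 1, ‖F p x‖ := by
    simpa [hn] using summable_mul_of_summable_norm (H.summ hy).norm (H'.summ hy).norm
  have h1 := hasSum_integral_of_summable_integral_norm hi hs
  have h2 : ∀ x, ∑' p, F p x = f (pt y x) * conj (g (pt y x)) := fun x => by
    have h3 := conjCLE.hasSum'.2 (H' (pt y x))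
    rw [← (H _).tsum_eq, ← conjCLE_apply, ← h3.tsum_eq,
      tsum_mul_tsum_of_summable_norm (H _).summable.norm h3.summable.norm]
    rfl
  simp only [h2, ← intervalIntegral.integral_of_le zero_le_one] at h1
  have hd : Function.Injective fun n : ℕ => (n, n) := fun n m h => congrArg Prod.fst h
  rw [← hd.hasSum_iff] at h1
  · have e' : ((fun p => ∫ x in (0 : ℝ)..1, F p x) ∘ fun n : ℕ => (n, n)) =
        fun n => a n * conj (b n) * rexp (-(4 * π * n / h) * y) := by
      ext n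
      simp only [Function.comp, e, sub_self, mul_zero, zero_div, zero_mul, Complex.exp_zero, mul_one,
        intervalIntegral.integral_const, sub_zero, one_smul]
      congr 3
      ring
    rwa [e'] at h1
  · rintro ⟨n, m⟩ hp
    have hnm : n ≠ m := fun h => hp ⟨n, by simp [h]⟩
    simp only [e, intervalIntegral.integral_const_mul]
    by_cases ha : a n = 0
    · simp [ha]
    by_cases hb : b m = 0
    · simp [hb]
    obtain ⟨k, hk⟩ := hab n m ha hb
    have hk' : (n : ℂ) - m = k * h := by exact_mod_cast hk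
    have k0 : (k : ℂ) ≠ 0 := fun h0 => hnm (by
      rw [h0, zero_mul, sub_eq_zero] at hk'; exact_mod_cast hk')
    rw [hk', show 2 * π * I * (k * h) / h = k * (2 * π * I) by field_simp,
      integral_exp_mul_complex (mul_ne_zero k0 two_pi_I_ne_zero)]
    simp [exp_int_mul_two_pi_mul_I]

theorem Ser.coef (H : Ser h a f) (hh : 0 < h)
    (ha : ∀ n m, a n ≠ 0 → a m ≠ 0 → ∃ k : ℤ, (n : ℝ) - m = k * h) {C κ : ℝ}
    (hC : ∀ z : ℍ, ‖f z‖ ≤ C * z.im ^ (-κ)) {n : ℕ} (hn : 0 < n) :
    ‖a n‖ ≤ C * rexp (2 * π / h) * (n : ℝ) ^ κ := by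
  have n0 : (0 : ℝ) < n := by exact_mod_cast hn
  have hC0 : 0 ≤ C := by
    simpa using (norm_nonneg _).trans (hC UpperHalfPlane.I)
  by_cases h0 : a n = 0
  · rw [h0, norm_zero]; positivity
  have H' : Ser h (Pi.single n 1) fun t => 1 * cexp (2 * π * I * n * t / h) := fun t => by
    convert hasSum_single (f := fun m : ℕ => (Pi.single n 1 : ℕ → ℂ) m *
      cexp (2 * π * I * m * t / h)) n fun m hm => by simp [hm]
    simp
  have hy : 0 < (n : ℝ)⁻¹ := inv_pos.2 n0
  have h1 := rk H H' hh (fun m k hm hk => by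
    obtain rfl : k = n := by
      by_contra hkn
      exact hk (by simp [hkn])
    exact ha m k hm h0) hy
  have h2 := h1.unique (hasSum_single n fun m hm => by simp [hm])
  have h3 := intervalIntegral.norm_integral_le_of_norm_le_const (a := 0) (b := 1)
    (f := fun x => f (pt (n : ℝ)⁻¹ x) * conj (1 * cexp (2 * π * I * n * pt (n : ℝ)⁻¹ x / h)))
    (C := C * (n : ℝ) ^ κ * rexp (-(2 * π / h))) fun x _ => by
      rw [norm_mul, norm_conj, norm_term, pt_im hy, norm_one, one_mul,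
        show -(2 * π * n / h) * (n : ℝ)⁻¹ = -(2 * π / h) by field_simp]
      have := hC (pt (n : ℝ)⁻¹ x)
      rw [pt_im hy, Real.inv_rpow n0.le, Real.rpow_neg n0.le, inv_inv] at this
      gcongr
  rw [h2, norm_mul, norm_mul, Pi.single_eq_same, map_one, norm_one, mul_one, norm_real,
    Real.norm_of_nonneg (Real.exp_pos _).le,
    show -(4 * π * n / h) * (n : ℝ)⁻¹ = -(2 * π / h) + -(2 * π / h) by field_simp; ring,
    Real.exp_add, sub_zero, abs_one, mul_one, ← mul_assoc,
    mul_le_mul_iff_left₀ (Real.exp_pos _), Real.exp_neg, ← div_eq_mul_inv,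
    div_le_iff₀ (Real.exp_pos _)] at h3
  linarith

end Pool.Agent.P.MP_e7a540_nt.L1.U
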