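import Pool.Agent.P.MP_e7a540_nt.L1.U3
import Pool.Agent.P.MP_e7a540_nt.L1.BaseA

/-! The pairing with the Eisenstein series as a Mellin transform; half-integral weight. -/

set_option autoImplicit false

namespace Pool.Agent.P.MP_e7a540_nt.L1.U

open Complex MeasureTheory Set ModularForm
open UpperHalfPlane hiding I
open scoped Real ComplexConjugate MatrixGroups

theorem rpow_exp_le (κ : ℝ) {ε : ℝ} (hε : 0 < ε) :
    ∃ C, 0 ≤ C ∧ ∀ y : ℝ, 1 ≤ y → y ^ κ * rexp (-ε * y) ≤ C := by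
  refine ⟨(⌈κ⌉₊).factorial / ε ^ ⌈κ⌉₊, by positivity, fun y hy => ?_⟩
  have h1 : y ^ κ ≤ y ^ ⌈κ⌉₊ := by
    rw [← Real.rpow_natCast]; exact Real.rpow_le_rpow_of_exponent_le hy (Nat.le_ceil κ)
  have h2 := Real.pow_div_factorial_le_exp (ε * y) (by positivity) ⌈κ⌉₊
  rw [div_le_iff₀ (by positivity), mul_pow] at h2
  rw [neg_mul, Real.exp_neg, ← div_eq_mul_inv, div_le_div_iff₀ (by positivity) (by positivity)]
  nlinarith [mul_le_mul_of_nonneg_right h1 (pow_pos hε ⌈κ⌉₊).le]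

/-- the constant term of `f * conj g` -/
noncomputable def ct (f g : ℍ → ℂ) (y : ℝ) : ℂ := ∫ x in (0 : ℝ)..1, f (pt y x) * conj (g (pt y x))

theorem rankin {φ : ℍ → ℝ} (Hφ : Wg φ) {r : ℕ} (hr : 3 ≤ r) (hr' : 4 ≤ r) {h : ℝ} (hh : 0 < h) {a b : ℕ → ℂ}
    {f g : ℍ → ℂ} (H : Ser h a f) (H' : Ser h b g) (h0 : a 0 = 0) (κ : ℝ) (W : ℍ → ℂ)
    (hW : ∀ z, W z = (z.im ^ κ : ℝ) * (f z * conj (g z)))
    (hG : ∀ γ ∈ G, ∀ z, W (γ • z) * conj (denom γ z) ^ r = W z) {C : ℝ}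
    (hC : ∀ z, ‖W z‖ ≤ C * z.im ^ ((r : ℝ) / 2)) :
    ∫ z, (φ z : ℂ) * (W z * conj (2 ^ r * E hr (two z) - E hr z)) =
      (2 ^ r - 1) / 2 * mellin (ct f g) ((κ - 1 : ℝ) : ℂ) := by
  obtain ⟨C1, p1, h1⟩ := H.dec hh h0
  obtain ⟨C2, p2, h2⟩ := H'.bdd hh
  obtain ⟨C3, p3, h3⟩ := rpow_exp_le κ (show 0 < 2 * π / h by positivity)
  have p0 : 0 ≤ C := by simpa using (norm_nonneg _).trans (hC UpperHalfPlane.I)
  have hc : Continuous W := by
    rw [funext hW]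
    exact (continuous_ofReal.comp (continuous_im.rpow_const fun z => .inl z.im_ne_zero)).mul
      ((H.cont hh).mul (continuous_conj.comp (H'.cont hh)))
  have b1 : ∀ z : ℍ, 1 ≤ z.im → ‖W z‖ ≤ C1 * C2 * C3 := fun z hz => by
    rw [hW, norm_mul, norm_mul, norm_conj, norm_real,
      Real.norm_of_nonneg (Real.rpow_nonneg z.im_pos.le _)]
    calc _ ≤ z.im ^ κ * (C1 * rexp (-(2 * π / h) * z.im) * C2) := by
          have := Real.rpow_nonneg z.im_pos.le κ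
          gcongr
          exacts [h1 z hz, h2 z hz]
      _ = C1 * C2 * (z.im ^ κ * rexp (-(2 * π / h) * z.im)) := by ring
      _ ≤ _ := by gcongr; exact h3 _ hz
  have b2 : ∀ z : ℍ, z.im ≤ 1 → ‖W z‖ ≤ C * z.im ^ 2 := fun z hz => by
    refine (hC z).trans (mul_le_mul_of_nonneg_left ?_ p0)
    rw [← Real.rpow_two]
    have : (4 : ℝ) ≤ r := by exact_mod_cast hr'
    exact Real.rpow_le_rpow_of_exponent_ge z.im_pos hz (by linarith)
  have p4 : 0 ≤ C1 * C2 * C3 := by positivity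
  rw [ue Hφ hr hc hG (C := C + C1 * C2 * C3) (fun z => ?_) fun z => ?_, mellin]
  · congr 1
    refine setIntegral_congr_fun measurableSet_Ioi fun y hy => ?_
    have hy' : 0 < y := hy
    simp only [hW, pt_im hy', intervalIntegral.integral_const_mul, ct, smul_eq_mul]
    rw [show ((κ - 1 : ℝ) : ℂ) - 1 = ((κ - 2 : ℝ) : ℂ) by push_cast; ring, ← ofReal_cpow hy'.le,
      Real.rpow_sub hy', Real.rpow_two]
    push_cast; ring
  · rcases le_total 1 z.im with hz | hz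
    · nlinarith [b1 z hz, mul_nonneg p4 (sub_nonneg.2 (one_le_pow₀ hz (n := 2))),
        mul_nonneg p0 (sq_nonneg z.im)]
    · nlinarith [b2 z hz, mul_nonneg p4 (sq_nonneg z.im)]
  · rcases le_total 1 z.im with hz | hz
    · linarith [b1 z hz]
    · nlinarith [b2 z hz, mul_nonneg p0 (sub_nonneg.2 (pow_le_one₀ z.im_pos.le hz (n := 2)))]

theorem im_smul (γ : SL(2, ℤ)) (z : ℍ) :
    (((γ • z).im : ℝ) : ℂ) * (denom γ z * conj (denom γ z)) = z.im := by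
  have := normSq_denom_pos γ z.im_ne_zero
  rw [mul_conj, ← ofReal_mul, ModularGroup.im_smul_eq_div_normSq, div_mul_cancel₀ _ this.ne']

/-- the constant in half-integral weight -/
noncomputable def c1 (r : ℕ) : ℂ :=
  (2 ^ r - 1) / 2 * (Gamma ((r - 1 / 2 : ℝ) : ℂ) / (((π / 2) ^ (r - 1 / 2 : ℝ) : ℝ) : ℂ))

theorem two_pow_ne {r : ℕ} (hr : 1 ≤ r) : (2 ^ r - 1 : ℂ) / 2 ≠ 0 := by
  have : (2 ^ r : ℕ) ≠ 1 := (Nat.one_lt_two_pow (by omega)).ne'
  exact div_ne_zero (sub_ne_zero.2 (by exact_mod_cast this)) two_ne_zero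

theorem c1_ne {r : ℕ} (hr : 1 ≤ r) : c1 r ≠ 0 := by
  have : (1 : ℝ) ≤ r := by exact_mod_cast hr
  exact mul_ne_zero (two_pow_ne hr) (div_ne_zero (Gamma_ne_zero_of_re_pos (by
    rw [ofReal_re]; linarith)) (ofReal_ne_zero.2 (by positivity)))

theorem mod8 (n m : ℕ) (hn : n % 8 = 1) (hm : m % 8 = 1) : ∃ k : ℤ, (n : ℝ) - m = k * 8 :=
  ⟨(n / 8 : ℕ) - (m / 8 : ℕ), by
    have : (n : ℤ) - m = (((n / 8 : ℕ) : ℤ) - (m / 8 : ℕ)) * 8 := by omega
    exact_mod_cast this⟩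

theorem im_half (r : ℕ) (z : ℍ) : z.im ^ ((r : ℝ) + 1 / 2) = z.im ^ r * √z.im := by
  rw [Real.rpow_add z.im_pos, Real.rpow_natCast, Real.sqrt_eq_rpow]

theorem dt_summ {r : ℕ} (hr : 3 ≤ r) {ψ F : ℍ → ℂ} {c : ℕ → ℂ}
    (hc : Ser 8 c fun t => ψ t * F t) (hs : ∀ n, c n ≠ 0 → n % 8 = 1) {C' : ℝ}
    (bF : ∀ z, √z.im * ‖ψ z‖ ^ 2 * z.im ^ r * ‖F z‖ ^ 2 ≤ C') :
    Summable fun m => ‖Dt r c m‖ := by
  have r3 : (3 : ℝ) ≤ r := by exact_mod_cast hr
  have p' : 0 ≤ C' := le_trans (by simp only [UpperHalfPlane.I_im]; positivity) (bF .I)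
  have bg : ∀ z : ℍ, ‖ψ z * F z‖ ≤ √C' * z.im ^ (-(((r : ℝ) + 1 / 2) / 2)) := fun z => by
    have hz := z.im_pos
    refine le_of_sq_le_sq ?_ (by positivity)
    rw [mul_pow, Real.sq_sqrt p', ← Real.rpow_two (z.im ^ _), ← Real.rpow_mul hz.le,
      show -(((r : ℝ) + 1 / 2) / 2) * 2 = -(r + 1 / 2) by ring, Real.rpow_neg hz.le,
      ← div_eq_mul_inv, le_div_iff₀ (by positivity), im_half, norm_mul]
    nlinarith [bF z]
  refine ((Real.summable_nat_rpow.2 (show (3 / 2 - r : ℝ) < -1 by linarith)).mul_left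
    (√C' * rexp (2 * π / 8))).of_nonneg_of_le (fun _ => norm_nonneg _) fun m => ?_
  rw [Dt]
  split_ifs with h
  · have m0 : (0 : ℝ) < m := by exact_mod_cast h.pos
    have := hc.coef (by norm_num) (fun n k hn hk' => mod8 n k (hs n hn) (hs k hk')) bg
      (pow_pos h.pos 2)
    rw [norm_div, norm_pow, Complex.norm_natCast, div_le_iff₀ (by positivity), mul_assoc,
      ← Real.rpow_natCast, ← Real.rpow_add m0, Nat.cast_sub (by omega)]
    rw [Nat.cast_pow, ← Real.rpow_natCast, ← Real.rpow_mul m0.le] at this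
    refine this.trans_eq ?_
    congr 2
    push_cast; ring
  · rw [norm_zero]; positivity

theorem half {φ : ℍ → ℝ} (Hφ : Wg φ) {r : ℕ} (hr : 3 ≤ r) (hr' : 4 ≤ r) {ψ F : ℍ → ℂ} {c : ℕ → ℂ} {u : ℍ → ℝ}
    (hu : ∀ z, u z = √z.im * ‖ψ z‖ ^ 2) (hψ : Ser 8 (cf (toC dZ)) ψ)
    (hc : Ser 8 c fun t => ψ t * F t) (hs : ∀ n, c n ≠ 0 → n % 8 = 1)
    (uG : ∀ γ ∈ G, ∀ z, u (γ • z) = u z) (FG : ∀ γ ∈ G, ∀ z, F (γ • z) = denom γ z ^ r * F z)
    {C C' : ℝ} (bu : ∀ z, ‖(u z : ℂ) * (z.im : ℂ) ^ r * F z‖ ^ 2 ≤ C * z.im ^ r)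
    (bF : ∀ z, u z * z.im ^ r * ‖F z‖ ^ 2 ≤ C') :
    Summable (fun m => ‖Dt r c m‖) ∧
      ∫ z, (φ z : ℂ) * (u z * (z.im : ℂ) ^ r * F z * conj (2 ^ r * E hr (two z) - E hr z)) =
        c1 r * ∑' m, Dt r c m := by
  have r4 : (4 : ℝ) ≤ r := by exact_mod_cast hr'
  have hd : ∀ n, cf (toC dZ) n = if Odd n ∧ IsSquare n then 1 else 0 := fun n => by
    rw [cf, coeff_toC, coeff_dZ]; split_ifs <;> simp
  have hab : ∀ n m, c n ≠ 0 → cf (toC dZ) m ≠ 0 → ∃ k : ℤ, (n : ℝ) - m = k * 8 :=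
    fun n m hn hm => mod8 n m (hs n hn) (by
      rw [hd] at hm
      split_ifs at hm with h
      exacts [odd_sq_mod h.1 h.2, absurd rfl hm])
  have h0 : c 0 = 0 := by_contra fun h => by simpa using hs 0 h
  have p : 0 ≤ C := by simpa using (sq_nonneg _).trans (bu UpperHalfPlane.I)
  have bW : ∀ z : ℍ, ‖(u z : ℂ) * (z.im : ℂ) ^ r * F z‖ ≤ √C * z.im ^ ((r : ℝ) / 2) :=
    fun z => by
      have hz := z.im_pos
      refine le_of_sq_le_sq ?_ (by positivity)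
      rw [mul_pow, Real.sq_sqrt p, ← Real.rpow_two (z.im ^ _), ← Real.rpow_mul hz.le,
        div_mul_cancel₀ _ two_ne_zero, Real.rpow_natCast]
      exact bu z
  rw [rankin Hφ hr hr' (by norm_num) hc hψ h0 (r + 1 / 2) (fun z => u z * (z.im : ℂ) ^ r * F z)
    (fun z => ?_) (fun γ hγ z => ?_) bW]
  rotate_left
  · rw [im_half, hu, mul_right_comm (ψ z), mul_conj, normSq_eq_norm_sq]
    push_cast; ring
  · rw [uG γ hγ, FG γ hγ, ← im_smul γ z, mul_pow, mul_pow]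
    ring
  have hi : Function.Injective fun m : ℕ => m ^ 2 := Nat.pow_left_injective two_ne_zero
  have hz : ∀ n, n ∉ range (fun m : ℕ => m ^ 2) → cf (toC dZ) n = 0 := fun n hn => by
    rw [hd, if_neg fun h => hn ?_]
    obtain ⟨m, hm⟩ := h.2
    exact ⟨m, by rw [hm]; exact sq m⟩
  have hp : ∀ m : ℕ, (4 * π * (m ^ 2 : ℕ) / 8 : ℝ) ^ (r - 1 / 2 : ℝ) =
      (π / 2) ^ (r - 1 / 2 : ℝ) * (m : ℝ) ^ (2 * r - 1) := fun m => by
    rw [show (4 * π * (m ^ 2 : ℕ) / 8 : ℝ) = π / 2 * (m : ℝ) ^ 2 by push_cast; ring,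
      Real.mul_rpow (by positivity) (by positivity), ← Real.rpow_natCast (m : ℝ) 2,
      ← Real.rpow_mul (by positivity), ← Real.rpow_natCast, Nat.cast_sub (by omega)]
    congr 2
    push_cast; ring
  have hq : ∀ m : ℕ, c (m ^ 2) * conj (cf (toC dZ) (m ^ 2)) = Dt r c m * (m : ℂ) ^ (2 * r - 1) :=
    fun m => by
      rw [hd, Dt]
      by_cases h : Odd m
      · have : (m : ℂ) ≠ 0 := by exact_mod_cast h.pos.ne'
        rw [if_pos h, if_pos ⟨h.pow, IsSquare.sq m⟩, map_one, mul_one,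
          div_mul_cancel₀ _ (pow_ne_zero _ this)]
      · rw [if_neg h, if_neg fun h' => h (Nat.odd_pow_iff two_ne_zero |>.1 h'.1)]; simp
  have hD : ∀ m : ℕ, Dt r c m * (m : ℂ) ^ (2 * r - 1) / (m : ℂ) ^ (2 * r - 1) = Dt r c m :=
    fun m => by
      rcases Nat.eq_zero_or_pos m with rfl | h
      · simp [Dt]
      · exact mul_div_cancel_right₀ _ (pow_ne_zero _ (by exact_mod_cast h.ne'))
  have hS := dt_summ hr hc hs fun z => hu z ▸ bF z
  refine ⟨hS, ?_⟩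
  have hm := hasSum_mellin (a := fun n => c n * conj (cf (toC dZ) n))
    (p := fun n : ℕ => 4 * π * n / 8) (F := ct (fun t => ψ t * F t) ψ)
    (s := ((r - 1 / 2 : ℝ) : ℂ))
    (fun n => (Nat.eq_zero_or_pos n).imp (fun h => by simp [h, h0]) fun h => by positivity)
    (by rw [ofReal_re]; linarith) (fun t ht => rk hc hψ (by norm_num) hab ht) (by
      rw [← hi.summable_iff fun n hn => by simp [hz n hn]]
      refine (hS.div_const ((π / 2) ^ (r - 1 / 2 : ℝ))).congr fun m => ?_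
      simp only [Function.comp, ofReal_re, hp, hq]
      rw [← hD m, hD m, mul_comm ((π / 2) ^ (r - 1 / 2 : ℝ)), ← div_div, ← hD m, norm_div, hD m,
        norm_pow, Complex.norm_natCast])
  rw [← hi.hasSum_iff fun n hn => by simp [hz n hn]] at hm
  rw [show (r + 1 / 2 - 1 : ℝ) = r - 1 / 2 by ring, ← hm.tsum_eq, c1, mul_assoc]
  congr 1
  rw [← tsum_mul_left]
  refine tsum_congr fun m => ?_
  simp only [Function.comp]
  rw [← ofReal_cpow (by positivity), hp, hq, ofReal_mul, mul_div_mul_comm]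
  congr 1
  push_cast
  exact hD m

end Pool.Agent.P.MP_e7a540_nt.L1.U
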